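import Pool.Agent.SubTwo.Main

/-!
# The dimension count
-/

open Module Submodule Set

namespace Pool.Agent.SubTwo

open Pool.Agent.SubTyp

section Poly

/-- more polynomials than variables: a common relation -/
theorem exists_relation {ι κ : Type} [Fintype ι] [Fintype κ] (h : Fintype.card ι < Fintype.card κ)
    (f : κ → MvPolynomial ι ℝ) :
    ∃ F : MvPolynomial κ ℝ, F ≠ 0 ∧ ∀ x : ι → ℝ,
      MvPolynomial.eval (fun k => MvPolynomial.eval x (f k)) F = 0 := by
  have h1 : ¬ AlgebraicIndependent ℝ f := by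
    intro hf
    have h2 := hf.cardinalMk_le_trdeg
    rw [MvPolynomial.trdeg_of_isDomain, Cardinal.mk_fintype, Cardinal.mk_fintype,
      Cardinal.lift_natCast, Nat.cast_le] at h2
    omega
  rw [algebraicIndependent_iff] at h1
  push Not at h1
  obtain ⟨F, hF, hF0⟩ := h1
  refine ⟨F, hF0, fun x => ?_⟩
  have h2 : MvPolynomial.eval x (MvPolynomial.aeval f F) =
      MvPolynomial.eval (fun k => MvPolynomial.eval x (f k)) F := by
    conv_rhs => rw [MvPolynomial.eval_eq]
    rw [MvPolynomial.aeval_def, MvPolynomial.eval₂_eq, map_sum]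
    refine Finset.sum_congr rfl fun d _ => ?_
    rw [map_mul, map_prod]
    congr 1
    · exact MvPolynomial.eval_C _
    · refine Finset.prod_congr rfl fun i _ => ?_
      rw [map_pow]
  rw [← h2, hF, map_zero]

/-- The complement of the zero set of a polynomial is dense. -/
theorem dense_ne_zero {κ : Type} [Fintype κ] {F : MvPolynomial κ ℝ} (hF : F ≠ 0) :
    Dense {T : κ → ℝ | MvPolynomial.eval T F ≠ 0} := by
  obtain ⟨T₁, hT₁⟩ : ∃ T, MvPolynomial.eval T F ≠ 0 := by
    by_contra hcon
    push Not at hcon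
    exact hF (MvPolynomial.funext fun T => by rw [hcon T, map_zero])
  rw [dense_iff_inter_open]
  rintro O hO ⟨T₀, hT₀⟩
  let g : Polynomial ℝ := MvPolynomial.aeval
    (fun k => Polynomial.C (T₀ k) + Polynomial.X * Polynomial.C (T₁ k - T₀ k)) F
  have hg : ∀ z : ℝ, g.eval z = MvPolynomial.eval (fun k => T₀ k + z * (T₁ k - T₀ k)) F := by
    intro z
    have h2 : Polynomial.eval z g = MvPolynomial.eval
        (fun k => Polynomial.eval z (Polynomial.C (T₀ k) +
          Polynomial.X * Polynomial.C (T₁ k - T₀ k))) F := by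
      change Polynomial.eval z (MvPolynomial.aeval _ F) = _
      rw [MvPolynomial.aeval_def, MvPolynomial.eval₂_eq, MvPolynomial.eval_eq,
        Polynomial.eval_finsetSum]
      refine Finset.sum_congr rfl fun d _ => ?_
      rw [Polynomial.eval_mul, Polynomial.eval_prod]
      congr 1
      · exact Polynomial.eval_C
      · refine Finset.prod_congr rfl fun i _ => ?_
        rw [Polynomial.eval_pow]
    rw [h2]
    refine congrArg (fun w => MvPolynomial.eval w F) (funext fun k => ?_)
    simp only [Polynomial.eval_add, Polynomial.eval_C, Polynomial.eval_mul, Polynomial.eval_X]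
  have hg0 : g ≠ 0 := by
    intro h
    have h1 := hg 1
    rw [h, Polynomial.eval_zero] at h1
    apply hT₁
    rw [h1]
    refine congrArg (fun w => MvPolynomial.eval w F) (funext fun k => ?_)
    ring
  have hfin : {z : ℝ | g.eval z = 0}.Finite := by
    refine g.roots.toFinset.finite_toSet.subset fun z hz => ?_
    rw [Finset.mem_coe, Multiset.mem_toFinset, Polynomial.mem_roots hg0]
    exact hz
  have hcont : Continuous fun z : ℝ => (fun k => T₀ k + z * (T₁ k - T₀ k)) := by
    refine continuous_pi fun k => ?_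
    fun_prop
  have hU : IsOpen {z : ℝ | (fun k => T₀ k + z * (T₁ k - T₀ k)) ∈ O} := hO.preimage hcont
  have hd := hfin.countable.dense_compl ℝ
  obtain ⟨z, hz1, hz2⟩ := hd.exists_mem_open hU ⟨0, by
    change (fun k => T₀ k + 0 * (T₁ k - T₀ k)) ∈ O
    have : (fun k => T₀ k + 0 * (T₁ k - T₀ k)) = T₀ := by
      funext k
      ring
    rw [this]
    exact hT₀⟩
  refine ⟨_, hz2, ?_⟩
  rw [mem_ofPred_eq, ← hg z]
  exact hz1

theorem isOpen_ne_zero {κ : Type} [Fintype κ] (F : MvPolynomial κ ℝ) :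
    IsOpen {T : κ → ℝ | MvPolynomial.eval T F ≠ 0} :=
  isOpen_ne_fun (MvPolynomial.continuous_eval F) continuous_const

end Poly

/-- A subspace has a basis in echelon form with respect to some coordinates. -/
theorem exists_echelon {m r : ℕ} (A : Submodule ℝ (Fin m → ℝ)) (hA : finrank ℝ A = r) :
    ∃ (I : Fin r → Fin m) (G : Fin r → Fin m → ℝ), Function.Injective I ∧
      (∀ k l, G k (I l) = if l = k then 1 else 0) ∧ span ℝ (Set.range G) = A := by
  classical
  obtain ⟨b, hb, hs⟩ := exists_span_eq hA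
  let B : Matrix (Fin r) (Fin m) ℝ := Matrix.of b
  have hrank : B.rank = r := by
    have := LinearIndependent.rank_matrix (M := B) hb
    rw [this, Fintype.card_fin]
  rw [Matrix.rank_eq_finrank_span_cols] at hrank
  obtain ⟨f, hf1, -, hf3⟩ := Submodule.exists_fun_fin_finrank_span_eq ℝ (Set.range B.col)
  revert f
  rw [hrank]
  intro f hf1 hf3
  choose I hI using hf1
  let M : Matrix (Fin r) (Fin r) ℝ := Matrix.of fun k l => b k (I l)
  have hM : IsUnit M := by
    rw [← Matrix.linearIndependent_cols_iff_isUnit]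
    have : M.col = f := by
      funext l
      exact hI l
    rw [this]
    exact hf3
  have hdet : IsUnit M.det := (Matrix.isUnit_iff_isUnit_det M).1 hM
  have hinv : M⁻¹ * M = 1 := Matrix.nonsing_inv_mul M hdet
  let G : Fin r → Fin m → ℝ := fun k => ∑ j, M⁻¹ k j • b j
  have hG : ∀ k l, G k (I l) = if l = k then 1 else 0 := by
    intro k l
    have h1 : G k (I l) = (M⁻¹ * M) k l := by
      rw [Matrix.mul_apply]
      change (∑ j, M⁻¹ k j • b j) (I l) = _
      rw [Finset.sum_apply]
      rfl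
    rw [h1, hinv, Matrix.one_apply]
    by_cases h : k = l
    · rw [if_pos h, if_pos h.symm]
    · rw [if_neg h, if_neg (Ne.symm h)]
  refine ⟨I, G, ?_, hG, ?_⟩
  · intro l l' h
    by_contra hne
    have h1 := hG l l
    have h2 := hG l l'
    rw [h, if_pos rfl] at h1
    rw [if_neg (Ne.symm hne)] at h2
    rw [h1] at h2
    exact one_ne_zero h2
  · refine Submodule.eq_of_le_of_finrank_eq ?_ ?_
    · rw [span_le]
      rintro _ ⟨k, rfl⟩
      refine Submodule.sum_mem _ fun j _ => Submodule.smul_mem _ _ ?_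
      rw [← hs]
      exact subset_span ⟨j, rfl⟩
    · have hli : LinearIndependent ℝ G := by
        rw [Fintype.linearIndependent_iff]
        intro c hc l
        have h1 := congrFun hc (I l)
        rw [Finset.sum_apply] at h1
        simp only [Pi.smul_apply, hG, smul_eq_mul, mul_ite, mul_one, mul_zero] at h1
        rw [Finset.sum_ite_eq] at h1
        simpa using h1
      rw [finrank_span_eq_card hli, Fintype.card_fin, hA]

section Count

variable {n : ℕ} {m r : Fin n → ℕ}

/-- the variables: coefficients and free entries of the bases -/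
abbrev Par (m r : Fin n → ℕ) (I : (i : Fin n) → Fin (r i) → Fin (m i)) : Type :=
  ((i : Fin n) → Fin (r i)) ⊕
    (Σ i : Fin n, Fin (r i) × {x : Fin (m i) // x ∉ Set.range (I i)})

open Classical in
theorem card_par (I : (i : Fin n) → Fin (r i) → Fin (m i))
    (hI : ∀ i, Function.Injective (I i)) :
    Fintype.card (Par m r I) = ∏ i, r i + ∑ i, r i * (m i - r i) := by
  have h1 : ∀ i, Fintype.card {x : Fin (m i) // x ∉ Set.range (I i)} = m i - r i := by
    intro i
    rw [Fintype.card_subtype_compl, Fintype.card_fin]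
    congr 1
    exact (Fintype.card_congr (Equiv.ofInjective _ (hI i))).symm.trans (Fintype.card_fin (r i))
  rw [Fintype.card_sum, Fintype.card_pi, Fintype.card_sigma]
  simp only [Fintype.card_fin, Fintype.card_prod, h1]

/-- The dimension count. -/
theorem exists_vanishing (s : ℕ)
    (h : s * (∏ i, r i + ∑ i, r i * (m i - r i)) < ∏ i, m i) :
    ∃ F : MvPolynomial ((i : Fin n) → Fin (m i)) ℝ, F ≠ 0 ∧
      ∀ T ∈ RankLE (famK m r) s, MvPolynomial.eval T F = 0 := by
  classical
  -- the polynomial for a choice of coordinates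
  have key : ∀ I : Fin s → (i : Fin n) → Fin (r i) → Fin (m i),
      ∃ F : MvPolynomial ((i : Fin n) → Fin (m i)) ℝ, F ≠ 0 ∧
        ((∀ j i, Function.Injective (I j i)) → ∀ x : (Σ j : Fin s, Par m r (I j)) → ℝ,
          MvPolynomial.eval (fun t => ∑ j, ∑ κ : (i : Fin n) → Fin (r i),
            x ⟨j, Sum.inl κ⟩ * ∏ i, (if h : t i ∉ Set.range (I j i) then
              x ⟨j, Sum.inr ⟨i, κ i, t i, h⟩⟩ else if t i = I j i (κ i) then 1 else 0)) F = 0) := by
    intro I
    by_cases hI : ∀ j i, Function.Injective (I j i)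
    · have hcard : Fintype.card (Σ j : Fin s, Par m r (I j)) <
          Fintype.card ((i : Fin n) → Fin (m i)) := by
        rw [Fintype.card_sigma, Fintype.card_pi]
        simp only [Fintype.card_fin]
        have : ∑ j : Fin s, Fintype.card (Par m r (I j)) =
            s * (∏ i, r i + ∑ i, r i * (m i - r i)) := by
          rw [Finset.sum_congr rfl fun j _ => card_par (I j) (hI j), Finset.sum_const,
            Finset.card_univ, Fintype.card_fin, smul_eq_mul]
        rw [this]
        exact h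
      obtain ⟨F, hF, hF0⟩ := exists_relation hcard (fun t => ∑ j,
        ∑ κ : (i : Fin n) → Fin (r i), MvPolynomial.X ⟨j, Sum.inl κ⟩ *
          ∏ i, (if h : t i ∉ Set.range (I j i) then
            MvPolynomial.X ⟨j, Sum.inr ⟨i, κ i, t i, h⟩⟩ else
              if t i = I j i (κ i) then 1 else 0))
      refine ⟨F, hF, fun _ x => ?_⟩
      refine Eq.trans (congrArg (fun w => MvPolynomial.eval w F) (funext fun t => ?_)) (hF0 x)
      rw [map_sum]
      refine Finset.sum_congr rfl fun j _ => ?_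
      rw [map_sum]
      refine Finset.sum_congr rfl fun κ _ => ?_
      rw [map_mul, MvPolynomial.eval_X, map_prod]
      congr 1
      refine Finset.prod_congr rfl fun i _ => ?_
      by_cases h1 : t i ∉ Set.range (I j i)
      · rw [dif_pos h1, dif_pos h1, MvPolynomial.eval_X]
      · rw [dif_neg h1, dif_neg h1]
        by_cases h2 : t i = I j i (κ i)
        · rw [if_pos h2, if_pos h2, map_one]
        · rw [if_neg h2, if_neg h2, map_zero]
    · exact ⟨1, one_ne_zero, fun h1 => absurd h1 hI⟩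
  choose F hF hF0 using key
  refine ⟨∏ I, F I, Finset.prod_ne_zero_iff.2 fun I _ => hF I, fun T hT => ?_⟩
  obtain ⟨A, hA⟩ := hT
  -- the parts
  rw [Submodule.mem_iSup_iff_exists_finsupp] at hA
  obtain ⟨f, hf, hsum⟩ := hA
  rw [Finsupp.sum_fintype _ _ fun _ => rfl] at hsum
  have h1 : ∀ j i, ∃ (I : Fin (r i) → Fin (m i)) (G : Fin (r i) → Fin (m i) → ℝ),
      Function.Injective I ∧ (∀ k l, G k (I l) = if l = k then 1 else 0) ∧
        span ℝ (Set.range G) = (A j).1 i := fun j i => exists_echelon _ ((A j).2 i)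
  choose I G hI hG hspan using h1
  have h2 : ∀ j, ∃ c : ((i : Fin n) → Fin (r i)) → ℝ,
      ∑ κ, c κ • pureT (fun i => G j i (κ i)) = f j := by
    intro j
    have h3 : f j ∈ boxT (A j).1 := hf j
    have h4 : (A j).1 = fun i => span ℝ (Set.range (G j i)) := funext fun i => (hspan j i).symm
    rw [h4, boxT_span] at h3
    exact (Submodule.mem_span_range_iff_exists_fun ℝ).1 h3
  choose c hc using h2
  rw [map_prod]
  refine Finset.prod_eq_zero (Finset.mem_univ I) ?_
  have h5 := hF0 I hI (fun y => Sum.casesOn y.2 (fun κ => c y.1 κ)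
    (fun z => G y.1 z.1 z.2.1 z.2.2))
  refine Eq.trans (congrArg (fun w => MvPolynomial.eval w (F I)) (funext fun t => ?_)) h5
  rw [← hsum, Finset.sum_apply]
  refine Finset.sum_congr rfl fun j _ => ?_
  rw [← hc j, Finset.sum_apply]
  refine Finset.sum_congr rfl fun κ _ => ?_
  rw [Pi.smul_apply, smul_eq_mul]
  refine congrArg (fun w => c j κ * w) ?_
  unfold pureT
  refine Finset.prod_congr rfl fun i _ => ?_
  by_cases h6 : t i ∉ Set.range (I j i)
  · rw [dif_pos h6]
  · rw [dif_neg h6]
    push Not at h6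
    obtain ⟨l, hl⟩ := h6
    rw [← hl]
    refine (hG j i (κ i) l).trans ?_
    by_cases h7 : l = κ i
    · rw [if_pos h7, h7, if_pos rfl]
    · rw [if_neg h7, if_neg]
      intro h8
      exact h7 (hI j i h8)

theorem rankLE_top (hr : ∀ i, 1 ≤ r i ∧ r i ≤ m i) (T : Ten m) :
    T ∈ RankLE (famK m r) (boxNumber m r) := by
  obtain ⟨A, hA, htop⟩ := (boxNumber_isLeast hr).1
  refine ⟨fun j => ⟨A j, hA j⟩, ?_⟩
  have : (⨆ j, famK m r ⟨A j, hA j⟩) = ⊤ := htop
  rw [this]
  exact Submodule.mem_top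

theorem rankLE_le {ρ : Fin n → ℕ} (hρ : ∀ i, r i ≤ ρ i ∧ ρ i ≤ m i) {s : ℕ} {T : Ten m}
    (hT : T ∈ RankLE (famK m r) s) : T ∈ RankLE (famK m ρ) s := by
  obtain ⟨A, hA⟩ := hT
  have h1 : ∀ j i, ∃ B : Submodule ℝ (Fin (m i) → ℝ), (A j).1 i ≤ B ∧ finrank ℝ B = ρ i := by
    intro j i
    obtain ⟨B, h2, h3⟩ := enlarge (a := ρ i) (V := Fin (m i) → ℝ)
      (by rw [finrank_pi, Fintype.card_fin]; exact (hρ i).2) ((A j).1 i)
      (by rw [(A j).2 i]; exact (hρ i).1)
    exact ⟨B, h2, h3⟩
  choose B hB1 hB2 using h1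
  refine ⟨fun j => ⟨B j, hB2 j⟩, ?_⟩
  have h2 : (⨆ j, famK m r (A j)) ≤ ⨆ j, famK m ρ ⟨B j, hB2 j⟩ := by
    refine iSup_mono fun j => ?_
    unfold famK boxT
    refine span_mono ?_
    rintro _ ⟨v, hv, rfl⟩
    exact ⟨v, fun i => hB1 j i (hv i), rfl⟩
  exact h2 hA

theorem famK_ne_bot (hr : ∀ i, 1 ≤ r i ∧ r i ≤ m i) : ∃ A, famK m r A ≠ ⊥ := by
  obtain ⟨A⟩ := nonempty_fam fun i => (hr i).2
  refine ⟨A, ?_⟩
  have h1 : ∀ i, ∃ v ∈ A.1 i, v ≠ 0 := by
    intro i
    have h2 : A.1 i ≠ ⊥ := by
      intro h3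
      have h4 := A.2 i
      rw [h3, finrank_bot] at h4
      have := hr i
      omega
    exact Submodule.exists_mem_ne_zero_of_ne_bot h2
  choose v hv hv0 using h1
  have h3 : ∀ i, ∃ x, v i x ≠ 0 := fun i => Function.ne_iff.1 (hv0 i)
  choose x hx using h3
  intro h4
  have h5 : pureT v ∈ famK m r A := subset_span ⟨v, hv, rfl⟩
  rw [h4, Submodule.mem_bot] at h5
  have h6 := congrFun h5 x
  have h7 : ∏ i, v i (x i) ≠ 0 := Finset.prod_ne_zero_iff.2 fun i _ => hx i
  exact h7 h6

/-- Bounds for all typical ranks. -/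
theorem typical_bounds (hr : ∀ i, 1 ≤ r i ∧ r i ≤ m i) {d : ℕ}
    (hd : IsTypicalRank (SubVar m r) d) : d ≤ boxNumber m r ∧
      ∀ ρ : Fin n → ℕ, (∀ i, r i ≤ ρ i ∧ ρ i ≤ m i) →
        ∏ i, m i ≤ d * (∏ i, ρ i + ∑ i, ρ i * (m i - ρ i)) := by
  have : Nonempty (FamT m r) := nonempty_fam fun i => (hr i).2
  rw [subVar_eq] at hd
  constructor
  · refine typical_le _ (famK_ne_bot hr) ?_ hd
    have h1 : RankLE (famK m r) (boxNumber m r) = Set.univ :=
      Set.eq_univ_of_forall fun T => rankLE_top hr T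
    rw [h1]
    exact dense_univ
  · intro ρ hρ
    by_contra hcon
    push Not at hcon
    obtain ⟨F, hF, hF0⟩ := exists_vanishing d hcon
    have h1 : Dense (RankLE (famK m r) d)ᶜ := by
      refine (dense_ne_zero hF).mono ?_
      intro T hT hT'
      exact hT (hF0 T (rankLE_le hρ hT'))
    exact lt_irrefl _ (lt_typical _ (famK_ne_bot hr) h1 hd)

/-- If the box number agrees with the bound from the dimension count then it is the only typical
rank. -/
theorem typical_dim (hr : ∀ i, 1 ≤ r i ∧ r i ≤ m i) {ρ : Fin n → ℕ}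
    (hρ : ∀ i, r i ≤ ρ i ∧ ρ i ≤ m i)
    (h : (boxNumber m r - 1) * (∏ i, ρ i + ∑ i, ρ i * (m i - ρ i)) < ∏ i, m i) :
    {d : ℕ | IsTypicalRank (SubVar m r) d} = {boxNumber m r} := by
  have : Nonempty (FamT m r) := nonempty_fam fun i => (hr i).2
  have hS : 1 ≤ boxNumber m r := by
    have h1 := boxNumber_ge hr
    refine le_trans ?_ h1
    rw [Nat.one_le_ceil_iff, prod_cast, prod_cast]
    have h2 : 0 < ∏ i, m i := Finset.prod_pos fun i _ => by have := hr i; omega
    have h3 : 0 < ∏ i, r i := Finset.prod_pos fun i _ => (hr i).1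
    exact div_pos (by exact_mod_cast h2) (by exact_mod_cast h3)
  obtain ⟨σ, hσ⟩ : ∃ σ, boxNumber m r = σ + 1 := ⟨boxNumber m r - 1, by omega⟩
  rw [hσ, Nat.add_sub_cancel] at h
  obtain ⟨F, hF, hF0⟩ := exists_vanishing σ h
  have hout : ∀ T : Ten m, MvPolynomial.eval T F ≠ 0 → T ∉ RankLE (famK m r) σ :=
    fun T hT hT' => hT (hF0 T (rankLE_le hρ hT'))
  ext d
  rw [mem_ofPred_eq, mem_singleton_iff]
  constructor
  · intro hd
    refine le_antisymm (typical_bounds hr hd).1 ?_
    rw [subVar_eq] at hd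
    have h1 : Dense (RankLE (famK m r) σ)ᶜ :=
      (dense_ne_zero hF).mono fun T hT => hout T hT
    have h2 := lt_typical _ (famK_ne_bot hr) h1 hd
    omega
  · rintro rfl
    rw [subVar_eq, hσ]
    refine typical_of_open _ (famK_ne_bot hr) (isOpen_ne_zero F) (dense_ne_zero hF).nonempty
      (fun T _ => ?_) hout
    rw [← hσ]
    exact rankLE_top hr T

end Count

end Pool.Agent.SubTwo
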