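import Pool.Agent.SubTwo.Count3

/-!
# The numerical criterion in the main range
-/

namespace Pool.Agent.SubTwo

theorem main_ineq {s a b P Q A B x : ℝ} (hs : 0 < s) (hA : 0 ≤ A) (hB : 0 ≤ B) (hx : x = A + B)
    (hx0 : 0 < x) (hAa : A ≤ a) (hb0 : 0 < b) (ha0 : 0 < a) (hxP : x ≤ P) (hxQ : x ≤ Q)
    (hPa : a ≤ P) (hQb : b ≤ Q)
    (h1 : P * Q ≤ s * (a * b)) (h2 : a * b ≤ (P - a) * (Q - b))
    (n1 : s * ((a - A) * B) ≤ x * (P - x)) (n2 : s * (A * (b - B)) ≤ x * (Q - x))
    (n3 : s * ((a - A) * B + b * A) < x * (P + Q - x)) : False := by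
  -- the fourth product is large
  have e0 : s * (a * b) = s * ((a - A) * B + b * A) + s * ((a - A) * (b - B)) := by ring
  have e1 : P * Q = x * (P + Q - x) + (P - x) * (Q - x) := by ring
  have hw : (P - x) * (Q - x) < s * ((a - A) * (b - B)) := by linarith
  have hz : 0 ≤ (P - x) * (Q - x) := mul_nonneg (by linarith) (by linarith)
  have hpos : 0 < s * ((a - A) * (b - B)) := lt_of_le_of_lt hz hw
  have hpos' : 0 < (a - A) * (b - B) := (mul_pos_iff_of_pos_left hs).1 hpos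
  have haA : 0 < a - A := by
    rcases (sub_nonneg.2 hAa).eq_or_lt with h | h
    · rw [← h, zero_mul] at hpos'
      exact absurd hpos' (lt_irrefl 0)
    · exact h
  have hbB : 0 < b - B := (mul_pos_iff_of_pos_left haA).1 hpos'
  -- first comparison
  have c1 : B * (Q - x) < x * (b - B) := by
    have h3 : s * (a - A) * (B * (Q - x)) < s * (a - A) * (x * (b - B)) := by
      calc s * (a - A) * (B * (Q - x)) = s * ((a - A) * B) * (Q - x) := by ring
        _ ≤ x * (P - x) * (Q - x) := mul_le_mul_of_nonneg_right n1 (by linarith)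
        _ = x * ((P - x) * (Q - x)) := by ring
        _ < x * (s * ((a - A) * (b - B))) := mul_lt_mul_of_pos_left hw hx0
        _ = _ := by ring
    exact lt_of_mul_lt_mul_left h3 (mul_pos hs haA).le
  have c2 : A * (P - x) < x * (a - A) := by
    have h3 : s * (b - B) * (A * (P - x)) < s * (b - B) * (x * (a - A)) := by
      calc s * (b - B) * (A * (P - x)) = s * (A * (b - B)) * (P - x) := by ring
        _ ≤ x * (Q - x) * (P - x) := mul_le_mul_of_nonneg_right n2 (by linarith)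
        _ = x * ((P - x) * (Q - x)) := by ring
        _ < x * (s * ((a - A) * (b - B))) := mul_lt_mul_of_pos_left hw hx0
        _ = _ := by ring
    exact lt_of_mul_lt_mul_left h3 (mul_pos hs hbB).le
  have d1 : B * (Q - b) < A * b := by rw [hx] at c1; linarith
  have d2 : A * (P - a) < B * a := by rw [hx] at c2; linarith
  have hA0 : 0 < A := by
    rcases hA.eq_or_lt with h | h
    · rw [← h, zero_mul] at d1
      exact absurd d1 (not_lt.2 (mul_nonneg hB (by linarith)))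
    · exact h
  have hB0 : 0 < B := by
    rcases hB.eq_or_lt with h | h
    · rw [← h, zero_mul] at d2
      exact absurd d2 (not_lt.2 (mul_nonneg hA (by linarith)))
    · exact h
  have h3 : (A * (P - a)) * (B * (Q - b)) < (B * a) * (A * b) :=
    mul_lt_mul'' d2 d1 (mul_nonneg hA (by linarith)) (mul_nonneg hB (by linarith))
  have h4 : A * B * (a * b) ≤ A * B * ((P - a) * (Q - b)) :=
    mul_le_mul_of_nonneg_left h2 (mul_pos hA0 hB0).le
  nlinarith

theorem crit_of {s p a q b : ℕ} (P Q : ℝ) (ha : 1 ≤ a) (hb : 1 ≤ b) (hP : (p : ℝ) ≤ P)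
    (hQ : (q : ℝ) ≤ Q) (hPa : (a : ℝ) ≤ P) (hQb : (b : ℝ) ≤ Q)
    (h1 : P * Q ≤ s * (a * b)) (h2 : (a : ℝ) * b ≤ (P - a) * (Q - b)) : Crit s p a q b := by
  intro x y z hx hxp hxq hy hz hyz
  by_contra hcon
  push Not at hcon
  obtain ⟨n1, n2, n3⟩ := hcon
  have ha' : (1 : ℝ) ≤ a := by exact_mod_cast ha
  have hb' : (1 : ℝ) ≤ b := by exact_mod_cast hb
  have hx' : (1 : ℝ) ≤ x := by exact_mod_cast hx
  have hxp' : (x : ℝ) ≤ p := by exact_mod_cast hxp
  have hxq' : (x : ℝ) ≤ q := by exact_mod_cast hxq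
  have hs : (0 : ℝ) < s := by
    by_contra h0
    have h3 : (s : ℝ) = 0 := le_antisymm (not_lt.1 h0) (Nat.cast_nonneg _)
    rw [h3, zero_mul] at h1
    nlinarith
  have hyx : ∀ j, y j ≤ x := fun j => by have := hyz j; omega
  have hzx : ∀ j, z j ≤ x := fun j => by have := hyz j; omega
  -- casts
  have m1 : (x : ℝ) * x + ∑ j, ((a : ℝ) - y j) * ((x : ℝ) - y j) ≤ x * p := by
    have h3 : x * x + ∑ j, (a - y j) * (x - y j) ≤ x * p := by omega
    have h4 : ((x * x + ∑ j, (a - y j) * (x - y j) : ℕ) : ℝ) ≤ ((x * p : ℕ) : ℝ) := by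
      exact_mod_cast h3
    push_cast at h4
    refine le_trans (le_of_eq ?_) h4
    congr 1
    refine Finset.sum_congr rfl fun j _ => ?_
    rw [Nat.cast_sub (hy j), Nat.cast_sub (hyx j)]
  have m2 : (x : ℝ) * x + ∑ j, ((b : ℝ) - z j) * ((x : ℝ) - z j) ≤ x * q := by
    have h3 : x * x + ∑ j, (b - z j) * (x - z j) ≤ x * q := by omega
    have h4 : ((x * x + ∑ j, (b - z j) * (x - z j) : ℕ) : ℝ) ≤ ((x * q : ℕ) : ℝ) := by
      exact_mod_cast h3
    push_cast at h4
    refine le_trans (le_of_eq ?_) h4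
    congr 1
    refine Finset.sum_congr rfl fun j _ => ?_
    rw [Nat.cast_sub (hz j), Nat.cast_sub (hzx j)]
  have m3 : (x : ℝ) * x + ∑ j, (((a : ℝ) - y j) * ((x : ℝ) - y j) + b * y j) <
      x * p + x * q := by
    have h4 : ((x * x + ∑ j, ((a - y j) * (x - y j) + b * y j) : ℕ) : ℝ) <
        ((x * p + x * q : ℕ) : ℝ) := by
      exact_mod_cast n3
    push_cast at h4
    refine lt_of_le_of_lt (le_of_eq ?_) h4
    congr 1
    refine Finset.sum_congr rfl fun j _ => ?_
    rw [Nat.cast_sub (hy j), Nat.cast_sub (hyx j)]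
  -- sums
  set Y : ℝ := ∑ j, (y j : ℝ) with hYdef
  set Y2 : ℝ := ∑ j, (y j : ℝ) ^ 2 with hY2def
  have hcs : Y ^ 2 ≤ s * Y2 := by
    have := sq_sum_le_card_mul_sum_sq (s := (Finset.univ : Finset (Fin s)))
      (f := fun j => (y j : ℝ))
    rw [Finset.card_univ, Fintype.card_fin] at this
    exact this
  have hY0 : 0 ≤ Y := Finset.sum_nonneg fun j _ => Nat.cast_nonneg _
  have hYa : Y ≤ s * a := by
    calc Y ≤ ∑ _j : Fin s, (a : ℝ) := Finset.sum_le_sum fun j _ => by exact_mod_cast hy j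
      _ = s * a := by rw [Finset.sum_const, Finset.card_univ, Fintype.card_fin, nsmul_eq_mul]
  have hYx : Y ≤ s * x := by
    calc Y ≤ ∑ _j : Fin s, (x : ℝ) := Finset.sum_le_sum fun j _ => by exact_mod_cast hyx j
      _ = s * x := by rw [Finset.sum_const, Finset.card_univ, Fintype.card_fin, nsmul_eq_mul]
  have hsum : ∀ u v w : ℝ, ∑ j, (u + v * (y j : ℝ) + w * (y j : ℝ) ^ 2) =
      s * u + v * Y + w * Y2 := by
    intro u v w
    rw [Finset.sum_add_distrib, Finset.sum_add_distrib, ← Finset.mul_sum, ← Finset.mul_sum,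
      Finset.sum_const, Finset.card_univ, Fintype.card_fin, nsmul_eq_mul]
  have s1 : ∑ j, ((a : ℝ) - y j) * ((x : ℝ) - y j) = s * (a * x) - (a + x) * Y + Y2 := by
    have := hsum (a * x) (-(a + x)) 1
    rw [one_mul] at this
    rw [← sub_eq_zero, ← sub_eq_zero.2 this]
    have e : ∀ j, ((a : ℝ) - y j) * ((x : ℝ) - y j) =
        (a : ℝ) * x + -(a + x) * (y j : ℝ) + 1 * (y j : ℝ) ^ 2 := fun j => by ring
    rw [Finset.sum_congr rfl fun j _ => e j]
    ring
  have s3 : ∑ j, (((a : ℝ) - y j) * ((x : ℝ) - y j) + b * y j) =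
      s * (a * x) - (a + x - b) * Y + Y2 := by
    rw [Finset.sum_add_distrib, s1, ← Finset.mul_sum]
    ring
  have s2 : (b - x) * Y + Y2 ≤ ∑ j, ((b : ℝ) - z j) * ((x : ℝ) - z j) := by
    have e : ∀ j, (b - x : ℝ) * (y j : ℝ) + 1 * (y j : ℝ) ^ 2 ≤
        ((b : ℝ) - z j) * ((x : ℝ) - z j) := by
      intro j
      have hz' : (z j : ℝ) ≤ b := by exact_mod_cast hz j
      have hyz' : (y j : ℝ) + z j ≤ x := by exact_mod_cast hyz j
      have hy0 : (0 : ℝ) ≤ y j := Nat.cast_nonneg _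
      nlinarith [mul_nonneg (sub_nonneg.2 hz') (sub_nonneg.2 hyz'),
        mul_nonneg hy0 (sub_nonneg.2 hyz')]
    have h3 := hsum 0 (b - x) 1
    rw [mul_zero, zero_add, one_mul] at h3
    rw [← h3]
    refine Finset.sum_le_sum fun j _ => ?_
    rw [zero_add]
    exact e j
  rw [s1] at m1
  rw [s3] at m3
  -- the mean
  set A : ℝ := Y / s with hAdef
  have hsA : s * A = Y := by
    rw [hAdef]
    field_simp
  have hA2 : s * A ^ 2 ≤ Y2 := by
    have h3 : s * (s * A ^ 2) ≤ s * Y2 := by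
      calc s * (s * A ^ 2) = (s * A) ^ 2 := by ring
        _ = Y ^ 2 := by rw [hsA]
        _ ≤ _ := hcs
    exact le_of_mul_le_mul_left h3 hs
  have hA0 : 0 ≤ A := div_nonneg hY0 hs.le
  have hAa : A ≤ a := by
    rw [hAdef, div_le_iff₀ hs]
    linarith
  have hAx : A ≤ x := by
    rw [hAdef, div_le_iff₀ hs]
    linarith
  refine main_ineq (s := s) (a := a) (b := b) (P := P) (Q := Q) (A := A) (B := x - A)
    (x := x) hs hA0 (by linarith) (by ring) (by linarith) hAa (by linarith) (by linarith)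
    (by linarith) (by linarith) hPa hQb h1 h2 ?_ ?_ ?_
  · have e : s * ((a - A) * (x - A)) = s * (a * x) - (a + x) * (s * A) + s * A ^ 2 := by ring
    rw [e, hsA]
    have h3 : (x : ℝ) * p ≤ x * P := mul_le_mul_of_nonneg_left hP (by linarith)
    linarith
  · have e : s * (A * (b - (x - A))) = (b - x) * (s * A) + s * A ^ 2 := by ring
    rw [e, hsA]
    have h3 : (x : ℝ) * q ≤ x * Q := mul_le_mul_of_nonneg_left hQ (by linarith)
    linarith
  · have e : s * ((a - A) * (x - A) + b * A) =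
        s * (a * x) - (a + x - b) * (s * A) + s * A ^ 2 := by ring
    rw [e, hsA]
    have h3 : (x : ℝ) * p ≤ x * P := mul_le_mul_of_nonneg_left hP (by linarith)
    have h4 : (x : ℝ) * q ≤ x * Q := mul_le_mul_of_nonneg_left hQ (by linarith)
    linarith

/-- **The main range.** -/
theorem sp_main {s p a q b : ℕ} (P Q : ℝ) (ha : 1 ≤ a) (hb : 1 ≤ b) (hP : (p : ℝ) ≤ P)
    (hQ : (q : ℝ) ≤ Q) (hPa : (a : ℝ) ≤ P) (hQb : (b : ℝ) ≤ Q)
    (h1 : P * Q ≤ s * (a * b)) (h2 : (a : ℝ) * b ≤ (P - a) * (Q - b)) : Sp ℝ s p a q b :=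
  sp_count (crit_of P Q ha hb hP hQ hPa hQb h1 h2)

end Pool.Agent.SubTwo
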