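import Mathlib

/-!
# Two factors: the spanning predicate over a field

`Sp F s p a q b` says that there are linear maps `f_j : F^a → F^p` and `g_j : F^q → F^b`, `j < s`,
such that `φ = 0` is the only linear map `F^p → F^q` with `g_j φ f_j = 0` for all `j`.
-/

open Module Submodule

namespace Pool.Agent.SubTwo

section

variable (F : Type*) [Field F]

/-- The spanning predicate. -/
def Sp (s p a q b : ℕ) : Prop :=
  ∃ (f : Fin s → (Fin a → F) →ₗ[F] (Fin p → F)) (g : Fin s → (Fin q → F) →ₗ[F] (Fin b → F)),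
    ∀ φ : (Fin p → F) →ₗ[F] (Fin q → F), (∀ j, g j ∘ₗ φ ∘ₗ f j = 0) → φ = 0

end

variable {F : Type*} [Field F]

theorem sp_iff_matrix {s p a q b : ℕ} : Sp F s p a q b ↔
    ∃ (f : Fin s → Matrix (Fin p) (Fin a) F) (g : Fin s → Matrix (Fin b) (Fin q) F),
      ∀ φ : Matrix (Fin q) (Fin p) F, (∀ j, g j * φ * f j = 0) → φ = 0 := by
  constructor
  · rintro ⟨f, g, h⟩
    refine ⟨fun j => LinearMap.toMatrix' (f j), fun j => LinearMap.toMatrix' (g j),
      fun φ hφ => ?_⟩
    have h1 := h (Matrix.toLin' φ) fun j => by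
      have h2 := congrArg Matrix.toLin' (hφ j)
      rw [Matrix.toLin'_mul, Matrix.toLin'_mul, Matrix.toLin'_toMatrix',
        Matrix.toLin'_toMatrix', map_zero, LinearMap.comp_assoc] at h2
      exact h2
    exact (LinearEquiv.map_eq_zero_iff Matrix.toLin').1 h1
  · rintro ⟨f, g, h⟩
    refine ⟨fun j => Matrix.toLin' (f j), fun j => Matrix.toLin' (g j), fun φ hφ => ?_⟩
    have h1 := h (LinearMap.toMatrix' φ) fun j => by
      have h2 := congrArg LinearMap.toMatrix' (hφ j)
      rw [LinearMap.toMatrix'_comp, LinearMap.toMatrix'_comp, LinearMap.toMatrix'_toLin',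
        LinearMap.toMatrix'_toLin', map_zero, ← Matrix.mul_assoc] at h2
      exact h2
    exact (LinearEquiv.map_eq_zero_iff LinearMap.toMatrix').1 h1

theorem sp_swap {s p a q b : ℕ} (h : Sp F s p a q b) : Sp F s q b p a := by
  rw [sp_iff_matrix] at h ⊢
  obtain ⟨f, g, h⟩ := h
  refine ⟨fun j => (g j).transpose, fun j => (f j).transpose, fun φ hφ => ?_⟩
  have h1 := h φ.transpose fun j => by
    have h2 := congrArg Matrix.transpose (hφ j)
    rw [Matrix.transpose_mul, Matrix.transpose_mul, Matrix.transpose_transpose,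
      Matrix.transpose_transpose, Matrix.transpose_zero, ← Matrix.mul_assoc] at h2
    exact h2
  rw [← Matrix.transpose_transpose φ, h1, Matrix.transpose_zero]

section Spaces

variable {U V : Type*} [AddCommGroup U] [Module F U] [FiniteDimensional F U]
  [AddCommGroup V] [Module F V] [FiniteDimensional F V]

theorem exists_surj {k : ℕ} (h : finrank F U ≤ k) :
    ∃ α : (Fin k → F) →ₗ[F] U, Function.Surjective α := by
  let e := Module.finBasis F U
  refine ⟨e.equivFun.symm.toLinearMap ∘ₗ LinearMap.funLeft F F (Fin.castLE h), ?_⟩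
  intro u
  refine ⟨fun i => if hi : i.1 < finrank F U then e.equivFun u ⟨i.1, hi⟩ else 0, ?_⟩
  rw [LinearMap.comp_apply]
  have : LinearMap.funLeft F F (Fin.castLE h)
      (fun i => if hi : i.1 < finrank F U then e.equivFun u ⟨i.1, hi⟩ else 0) = e.equivFun u := by
    funext i
    simp [LinearMap.funLeft_apply]
  rw [this]
  exact e.equivFun.symm_apply_apply u

theorem exists_inj {k : ℕ} (h : finrank F V ≤ k) :
    ∃ β : V →ₗ[F] (Fin k → F), Function.Injective β := by
  obtain ⟨α, hα⟩ := exists_surj (U := V) h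
  obtain ⟨β, hβ⟩ := α.exists_rightInverse_of_surjective (LinearMap.range_eq_top.2 hα)
  refine ⟨β, fun x y hxy => ?_⟩
  have h1 := LinearMap.congr_fun hβ x
  have h2 := LinearMap.congr_fun hβ y
  rw [LinearMap.comp_apply, LinearMap.id_apply] at h1 h2
  rw [← h1, ← h2, hxy]

theorem exists_surj' {k : ℕ} (h : k ≤ finrank F U) :
    ∃ π : U →ₗ[F] (Fin k → F), Function.Surjective π := by
  let e := Module.finBasis F U
  refine ⟨LinearMap.funLeft F F (Fin.castLE h) ∘ₗ e.equivFun.toLinearMap, ?_⟩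
  rw [LinearMap.coe_comp]
  refine Function.Surjective.comp ?_ e.equivFun.surjective
  exact LinearMap.funLeft_surjective_of_injective F F _ (Fin.castLE_injective h)

theorem exists_inj' {k : ℕ} (h : k ≤ finrank F V) :
    ∃ ι : (Fin k → F) →ₗ[F] V, Function.Injective ι := by
  obtain ⟨α, hα⟩ := exists_surj' (U := V) h
  obtain ⟨β, hβ⟩ := α.exists_rightInverse_of_surjective (LinearMap.range_eq_top.2 hα)
  refine ⟨β, fun x y hxy => ?_⟩
  have h1 := LinearMap.congr_fun hβ x
  have h2 := LinearMap.congr_fun hβ y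
  rw [LinearMap.comp_apply, LinearMap.id_apply] at h1 h2
  rw [← h1, ← h2, hxy]

/-- The spanning predicate from a configuration in arbitrary spaces. -/
theorem sp_of_spaces {s p a q b : ℕ} {A B : Fin s → Type*} [∀ j, AddCommGroup (A j)]
    [∀ j, Module F (A j)] [∀ j, FiniteDimensional F (A j)] [∀ j, AddCommGroup (B j)]
    [∀ j, Module F (B j)] [∀ j, FiniteDimensional F (B j)]
    (f : (j : Fin s) → A j →ₗ[F] U) (g : (j : Fin s) → V →ₗ[F] B j)
    (h : ∀ φ : U →ₗ[F] V, (∀ j, g j ∘ₗ φ ∘ₗ f j = 0) → φ = 0)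
    (hp : p ≤ finrank F U) (hq : q ≤ finrank F V) (ha : ∀ j, finrank F (A j) ≤ a)
    (hb : ∀ j, finrank F (B j) ≤ b) : Sp F s p a q b := by
  obtain ⟨π, hπ⟩ := exists_surj' (U := U) hp
  obtain ⟨ι, hι⟩ := exists_inj' (V := V) hq
  choose α hα using fun j => exists_surj (U := A j) (ha j)
  choose β hβ using fun j => exists_inj (V := B j) (hb j)
  refine ⟨fun j => π ∘ₗ f j ∘ₗ α j, fun j => β j ∘ₗ g j ∘ₗ ι, fun φ hφ => ?_⟩
  have h1 : ι ∘ₗ φ ∘ₗ π = 0 := by
    refine h _ fun j => ?_
    refine LinearMap.ext fun x => ?_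
    obtain ⟨y, rfl⟩ := hα j x
    apply hβ j
    rw [LinearMap.zero_apply, map_zero]
    exact LinearMap.congr_fun (hφ j) y
  refine LinearMap.ext fun x => ?_
  obtain ⟨y, rfl⟩ := hπ x
  apply hι
  rw [LinearMap.zero_apply, map_zero]
  exact LinearMap.congr_fun h1 y

end Spaces

theorem sp_mono {s p a q b p' a' q' b' : ℕ} (h : Sp F s p a q b) (hp : p' ≤ p) (ha : a ≤ a')
    (hq : q' ≤ q) (hb : b ≤ b') : Sp F s p' a' q' b' := by
  obtain ⟨f, g, h⟩ := h
  exact sp_of_spaces f g h (by rw [finrank_fin_fun]; exact hp)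
    (by rw [finrank_fin_fun]; exact hq) (fun j => by rw [finrank_fin_fun]; exact ha)
    (fun j => by rw [finrank_fin_fun]; exact hb)

theorem sp_mono_s {s s' p a q b : ℕ} (h : Sp F s p a q b) (hs : s ≤ s') : Sp F s' p a q b := by
  obtain ⟨f, g, h⟩ := h
  refine ⟨fun j => if hj : j.1 < s then f ⟨j.1, hj⟩ else 0,
    fun j => if hj : j.1 < s then g ⟨j.1, hj⟩ else 0, fun φ hφ => h φ fun j => ?_⟩
  have := hφ (Fin.castLE hs j)
  simpa using this

theorem sp_bound {s p a q b : ℕ} (h : Sp F s p a q b) : p * q ≤ s * (a * b) := by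
  obtain ⟨f, g, h⟩ := h
  let Θ : ((Fin p → F) →ₗ[F] (Fin q → F)) →ₗ[F] (Fin s → ((Fin a → F) →ₗ[F] (Fin b → F))) :=
    { toFun := fun φ j => g j ∘ₗ φ ∘ₗ f j
      map_add' := fun φ ψ => by
        funext j
        rw [Pi.add_apply, LinearMap.add_comp, LinearMap.comp_add]
      map_smul' := fun c φ => by
        funext j
        rw [Pi.smul_apply, RingHom.id_apply, LinearMap.smul_comp, LinearMap.comp_smul] }
  have hΘ : Function.Injective Θ := by
    rw [← LinearMap.ker_eq_bot, eq_bot_iff]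
    intro φ hφ
    rw [Submodule.mem_bot]
    exact h φ fun j => congrFun hφ j
  have h1 := LinearMap.finrank_le_finrank_of_injective hΘ
  have e1 : finrank F ((Fin p → F) →ₗ[F] (Fin q → F)) = p * q := by
    rw [finrank_linearMap, finrank_fin_fun, finrank_fin_fun]
  have e2 : finrank F (Fin s → ((Fin a → F) →ₗ[F] (Fin b → F))) = s * (a * b) := by
    rw [finrank_pi_fintype]
    have e3 : finrank F ((Fin a → F) →ₗ[F] (Fin b → F)) = a * b := by
      rw [finrank_linearMap, finrank_fin_fun, finrank_fin_fun]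
    rw [e3, Finset.sum_const, Finset.card_univ, Fintype.card_fin, smul_eq_mul]
  rw [e1, e2] at h1
  exact h1

/-- rank one maps -/
theorem sp_rank_one {s p a q b : ℕ} {f : Fin s → (Fin a → F) →ₗ[F] (Fin p → F)}
    {g : Fin s → (Fin q → F) →ₗ[F] (Fin b → F)}
    (h : ∀ φ : (Fin p → F) →ₗ[F] (Fin q → F), (∀ j, g j ∘ₗ φ ∘ₗ f j = 0) → φ = 0)
    (h' : (Fin p → F) →ₗ[F] F) (hh : h' ≠ 0) (v : Fin q → F)
    (hj : ∀ j, h' ∘ₗ f j = 0 ∨ g j v = 0) : v = 0 := by
  have h1 := h (h'.smulRight v) fun j => by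
    refine LinearMap.ext fun x => ?_
    simp only [LinearMap.comp_apply, LinearMap.smulRight_apply, LinearMap.zero_apply, map_smul]
    rcases hj j with h2 | h2
    · have h3 := LinearMap.congr_fun h2 x
      rw [LinearMap.comp_apply, LinearMap.zero_apply] at h3
      rw [h3, zero_smul]
    · rw [h2, smul_zero]
  obtain ⟨x, hx⟩ : ∃ x, h' x ≠ 0 := by
    by_contra hcon
    push Not at hcon
    exact hh (LinearMap.ext hcon)
  have h2 := LinearMap.congr_fun h1 x
  rw [LinearMap.smulRight_apply, LinearMap.zero_apply, smul_eq_zero] at h2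
  exact h2.resolve_left hx

/-- If the first subspaces are proper then one box is lost. -/
theorem sp_bound_pred {s p a q b : ℕ} (h : Sp F s p a q b) (hap : a < p) (hq : 0 < q) :
    q ≤ (s - 1) * b := by
  obtain ⟨f, g, h⟩ := h
  by_contra hcon
  push Not at hcon
  rcases Nat.eq_zero_or_pos s with hs | hs
  · subst hs
    have h1 := sp_bound ⟨f, g, h⟩
    rw [zero_mul] at h1
    have : 0 < p * q := Nat.mul_pos (by omega) hq
    omega
  · obtain ⟨k, rfl⟩ : ∃ k, s = k + 1 := ⟨s - 1, by omega⟩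
    rw [Nat.add_sub_cancel] at hcon
    -- a vector killed by the other maps
    let G : (Fin q → F) →ₗ[F] (Fin k → Fin b → F) := LinearMap.pi fun j => g j.succ
    have hG : LinearMap.ker G ≠ ⊥ := by
      intro h0
      have h1 := LinearMap.finrank_le_finrank_of_injective (LinearMap.ker_eq_bot.1 h0)
      rw [finrank_fin_fun, finrank_pi_fintype] at h1
      simp only [finrank_fin_fun, Finset.sum_const, Finset.card_univ, Fintype.card_fin,
        smul_eq_mul] at h1
      omega
    obtain ⟨v, hv, hv0⟩ := Submodule.exists_mem_ne_zero_of_ne_bot hG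
    have hr : LinearMap.range (f 0) < ⊤ := by
      rw [lt_top_iff_ne_top]
      intro h0
      have h1 := LinearMap.finrank_range_le (f 0)
      rw [h0, finrank_top, finrank_fin_fun, finrank_fin_fun] at h1
      omega
    obtain ⟨h', hh, hle⟩ := Submodule.exists_le_ker_of_lt_top _ hr
    refine hv0 (sp_rank_one h h' hh v fun j => ?_)
    refine Fin.cases ?_ (fun j => ?_) j
    · left
      refine LinearMap.ext fun x => ?_
      exact hle ⟨x, rfl⟩
    · right
      exact congrFun hv j

end Pool.Agent.SubTwo
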