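import Pool.Agent.SubTwo.Div
import Pool.Agent.SubTwo.Sp

/-!
# Spanning by boxes with two proper factors
-/

open Module Submodule Set

namespace Pool.Agent.SubTwo

open Pool.Agent.SubTyp

/-- It is enough to have subspaces of at most the required dimension. -/
theorem spansT_of_le' {n : ℕ} {m r : Fin n → ℕ} (hr : ∀ i, r i ≤ m i) {s : ℕ}
    (B : Fin s → (i : Fin n) → Submodule ℝ (Fin (m i) → ℝ)) (hB : ∀ j i, finrank ℝ (B j i) ≤ r i)
    (htop : ⨆ j, boxT (B j) = ⊤) : SpansT m r s := by
  have h1 : ∀ j i, ∃ C : Submodule ℝ (Fin (m i) → ℝ), B j i ≤ C ∧ finrank ℝ C = r i := fun j i =>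
    enlarge (by rw [finrank_pi, Fintype.card_fin]; exact hr i) _ (hB j i)
  choose C hC hC' using h1
  refine ⟨C, hC', ?_⟩
  rw [eq_top_iff, ← htop]
  refine iSup_mono fun j => ?_
  unfold boxT
  refine span_mono ?_
  rintro _ ⟨v, hv, rfl⟩
  exact ⟨v, fun i => hC j i (hv i), rfl⟩

theorem finrank_boxT_le {n : ℕ} {m r : Fin n → ℕ} (A : (i : Fin n) → Submodule ℝ (Fin (m i) → ℝ))
    (hA : ∀ i, finrank ℝ (A i) = r i) : finrank ℝ (boxT A) ≤ ∏ i, r i := by
  have h1 : ∀ i, ∃ b : Fin (r i) → Fin (m i) → ℝ, LinearIndependent ℝ b ∧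
      span ℝ (Set.range b) = A i := fun i => exists_span_eq (hA i)
  choose b hb hs using h1
  have h2 : A = fun i => span ℝ (Set.range (b i)) := funext fun i => (hs i).symm
  rw [h2, boxT_span]
  refine (finrank_range_le_card _).trans ?_
  rw [Fintype.card_pi]
  simp only [Fintype.card_fin]
  exact le_rfl

/-- The dimension bound. -/
theorem spansT_bound {n : ℕ} {m r : Fin n → ℕ} {s : ℕ} (h : SpansT m r s) :
    ∏ i, m i ≤ s * ∏ i, r i := by
  obtain ⟨A, hA, htop⟩ := h
  have h1 : (⊤ : Submodule ℝ (Ten m)) ≤ Finset.univ.sup fun j => boxT (A j) := by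
    rw [← htop]
    exact iSup_le fun j => Finset.le_sup (f := fun j => boxT (A j)) (Finset.mem_univ j)
  have h2 := Submodule.finrank_mono h1
  have h3 := finrank_finsetSup_le (fun j => boxT (A j)) (Finset.univ : Finset (Fin s))
  have h4 : ∑ j : Fin s, finrank ℝ (boxT (A j)) ≤ ∑ _j : Fin s, ∏ i, r i :=
    Finset.sum_le_sum fun j _ => finrank_boxT_le (A j) (hA j)
  rw [Finset.sum_const, Finset.card_univ, Fintype.card_fin, smul_eq_mul] at h4
  rw [finrank_top, finrank_pi, Fintype.card_pi] at h2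
  simp only [Fintype.card_fin] at h2
  omega

section Two

variable {n : ℕ} {m : Fin n → ℕ} {i₁ i₂ : Fin n}

/-- the index with two entries replaced -/
def rep (τ : (i : Fin n) → Fin (m i)) (i₁ i₂ : Fin n) (x : Fin (m i₁)) (y : Fin (m i₂)) :
    (i : Fin n) → Fin (m i) :=
  Function.update (Function.update τ i₁ x) i₂ y

theorem rep_two (τ : (i : Fin n) → Fin (m i)) (x : Fin (m i₁)) (y : Fin (m i₂)) :
    rep τ i₁ i₂ x y i₂ = y := Function.update_self _ _ _

theorem rep_one (hne : i₁ ≠ i₂) (τ : (i : Fin n) → Fin (m i)) (x : Fin (m i₁))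
    (y : Fin (m i₂)) : rep τ i₁ i₂ x y i₁ = x := by
  unfold rep
  rw [Function.update_of_ne hne, Function.update_self]

theorem rep_other {i : Fin n} (h1 : i ≠ i₁) (h2 : i ≠ i₂) (τ : (i : Fin n) → Fin (m i))
    (x : Fin (m i₁)) (y : Fin (m i₂)) : rep τ i₁ i₂ x y i = τ i := by
  unfold rep
  rw [Function.update_of_ne h2, Function.update_of_ne h1]

theorem pure_rep (hne : i₁ ≠ i₂) (v : (i : Fin n) → Fin (m i) → ℝ)
    (τ : (i : Fin n) → Fin (m i)) (x : Fin (m i₁)) (y : Fin (m i₂)) :
    pureT v (rep τ i₁ i₂ x y) =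
      v i₁ x * (v i₂ y * ∏ i ∈ (Finset.univ.erase i₁).erase i₂, v i (τ i)) := by
  unfold pureT
  rw [← Finset.mul_prod_erase _ _ (Finset.mem_univ i₁),
    ← Finset.mul_prod_erase _ _ (Finset.mem_erase.2 ⟨hne.symm, Finset.mem_univ i₂⟩),
    rep_one hne, rep_two]
  congr 2
  refine Finset.prod_congr rfl fun i hi => ?_
  rw [Finset.mem_erase, Finset.mem_erase] at hi
  rw [rep_other hi.2.1 hi.1]

theorem rep_inj (hne : i₁ ≠ i₂) (τ : (i : Fin n) → Fin (m i)) :
    Function.Injective fun z : Fin (m i₁) × Fin (m i₂) => rep τ i₁ i₂ z.1 z.2 := by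
  rintro ⟨x, y⟩ ⟨x', y'⟩ h
  have h1 := congrFun h i₁
  have h2 := congrFun h i₂
  simp only [rep_one hne, rep_two] at h1 h2
  rw [h1, h2]

end Two

theorem sp_of_spansT {n : ℕ} {m r : Fin n → ℕ} (hr : ∀ i, 1 ≤ r i ∧ r i ≤ m i) {i₁ i₂ : Fin n}
    (hne : i₁ ≠ i₂) {s : ℕ} (h : SpansT m r s) : Sp ℝ s (m i₁) (r i₁) (m i₂) (r i₂) := by
  classical
  obtain ⟨A, hA, htop⟩ := h
  have h1 : ∀ j, ∃ b : Fin (r i₁) → Fin (m i₁) → ℝ, LinearIndependent ℝ b ∧
      span ℝ (Set.range b) = A j i₁ := fun j => exists_span_eq (hA j i₁)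
  have h2 : ∀ j, ∃ b : Fin (r i₂) → Fin (m i₂) → ℝ, LinearIndependent ℝ b ∧
      span ℝ (Set.range b) = A j i₂ := fun j => exists_span_eq (hA j i₂)
  choose b hb hbs using h1
  choose c hc hcs using h2
  let f : Fin s → (Fin (r i₁) → ℝ) →ₗ[ℝ] (Fin (m i₁) → ℝ) := fun j =>
    Fintype.linearCombination ℝ (b j)
  let g : Fin s → (Fin (m i₂) → ℝ) →ₗ[ℝ] (Fin (r i₂) → ℝ) := fun j =>
    Matrix.toLin' (Matrix.of (c j))
  refine ⟨f, g, fun φ hφ => ?_⟩
  -- the bilinear form vanishes on the boxes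
  have h3 : ∀ j, ∀ u ∈ A j i₁, ∀ w ∈ A j i₂, ∑ y, w y * φ u y = 0 := by
    intro j u hu w hw
    rw [← hbs j] at hu
    rw [← hcs j] at hw
    obtain ⟨α, rfl⟩ := (Submodule.mem_span_range_iff_exists_fun ℝ).1 hu
    obtain ⟨β, rfl⟩ := (Submodule.mem_span_range_iff_exists_fun ℝ).1 hw
    have h4 : g j (φ (f j α)) = 0 := LinearMap.congr_fun (hφ j) α
    have h5 : f j α = ∑ k, α k • b j k := rfl
    rw [← h5]
    have h6 : ∀ l, ∑ y, c j l y * φ (f j α) y = 0 := fun l => congrFun h4 l
    calc ∑ y, (∑ l, β l • c j l) y * φ (f j α) y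
        = ∑ l, β l * ∑ y, c j l y * φ (f j α) y := by
          simp only [Finset.sum_apply, Pi.smul_apply, smul_eq_mul, Finset.sum_mul,
            Finset.mul_sum]
          rw [Finset.sum_comm]
          exact Finset.sum_congr rfl fun l _ => Finset.sum_congr rfl fun y _ => by ring
      _ = 0 := Finset.sum_eq_zero fun l _ => by rw [h6, mul_zero]
  let τ : (i : Fin n) → Fin (m i) := fun i => ⟨0, by have := hr i; omega⟩
  let L : Ten m →ₗ[ℝ] ℝ :=
    { toFun := fun U => ∑ x, ∑ y, φ (Pi.single x 1) y * U (rep τ i₁ i₂ x y)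
      map_add' := fun U V => by
        simp only [Pi.add_apply, mul_add, Finset.sum_add_distrib]
      map_smul' := fun a U => by
        simp only [Pi.smul_apply, smul_eq_mul, RingHom.id_apply, Finset.mul_sum]
        exact Finset.sum_congr rfl fun x _ => Finset.sum_congr rfl fun y _ => by ring }
  have hL : ∀ U, L U = ∑ x, ∑ y, φ (Pi.single x 1) y * U (rep τ i₁ i₂ x y) := fun U => rfl
  have hexp : ∀ u : Fin (m i₁) → ℝ, ∀ y, φ u y = ∑ x, u x * φ (Pi.single x 1) y := by
    intro u y
    have h5 : u = ∑ x, u x • (Pi.single x 1 : Fin (m i₁) → ℝ) := by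
      have := (Pi.basisFun ℝ (Fin (m i₁))).sum_repr u
      simp only [Pi.basisFun_repr, Pi.basisFun_apply] at this
      exact this.symm
    conv_lhs => rw [h5, map_sum]
    rw [Finset.sum_apply]
    exact Finset.sum_congr rfl fun x _ => by rw [map_smul, Pi.smul_apply, smul_eq_mul]
  have hker : (⨆ j, boxT (A j)) ≤ LinearMap.ker L := by
    refine iSup_le fun j => ?_
    unfold boxT
    rw [span_le]
    rintro _ ⟨v, hv, rfl⟩
    rw [SetLike.mem_coe, LinearMap.mem_ker, hL]
    simp only [pure_rep hne]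
    have h4 := h3 j (v i₁) (hv i₁) (v i₂) (hv i₂)
    calc ∑ x, ∑ y, φ (Pi.single x 1) y *
          (v i₁ x * (v i₂ y * ∏ i ∈ (Finset.univ.erase i₁).erase i₂, v i (τ i)))
        = (∏ i ∈ (Finset.univ.erase i₁).erase i₂, v i (τ i)) * ∑ y, v i₂ y * φ (v i₁) y := by
          rw [Finset.sum_comm, Finset.mul_sum]
          refine Finset.sum_congr rfl fun y _ => ?_
          rw [hexp, Finset.mul_sum, Finset.mul_sum]
          exact Finset.sum_congr rfl fun x _ => by ring
      _ = 0 := by rw [h4, mul_zero]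
  rw [htop, top_le_iff, LinearMap.ker_eq_top] at hker
  refine LinearMap.ext fun u => funext fun y => ?_
  rw [hexp, LinearMap.zero_apply, Pi.zero_apply]
  refine Finset.sum_eq_zero fun x _ => ?_
  have h5 := LinearMap.congr_fun hker (Pi.single (rep τ i₁ i₂ x y) 1)
  rw [hL, LinearMap.zero_apply] at h5
  rw [Finset.sum_eq_single x, Finset.sum_eq_single y, Pi.single_eq_same, mul_one] at h5
  · rw [h5, mul_zero]
  · intro y' _ hy'
    rw [Pi.single_eq_of_ne, mul_zero]
    intro h6
    exact hy' (congrArg Prod.snd (rep_inj hne τ (a₁ := (x, y')) (a₂ := (x, y)) h6))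
  · intro h6
    exact absurd (Finset.mem_univ _) h6
  · intro x' _ hx'
    refine Finset.sum_eq_zero fun y' _ => ?_
    rw [Pi.single_eq_of_ne, mul_zero]
    intro h6
    exact hx' (congrArg Prod.fst (rep_inj hne τ (a₁ := (x', y')) (a₂ := (x, y)) h6))
  · intro h6
    exact absurd (Finset.mem_univ _) h6

theorem spansT_of_sp {n : ℕ} {m r : Fin n → ℕ} (hr : ∀ i, 1 ≤ r i ∧ r i ≤ m i) {i₁ i₂ : Fin n}
    (hne : i₁ ≠ i₂) (hfull : ∀ i, i ≠ i₁ → i ≠ i₂ → r i = m i) {s : ℕ}
    (h : Sp ℝ s (m i₁) (r i₁) (m i₂) (r i₂)) : SpansT m r s := by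
  classical
  obtain ⟨f, g, h⟩ := h
  let row : (j : Fin s) → Fin (r i₂) → Fin (m i₂) → ℝ := fun j l y => g j (Pi.single y 1) l
  let B : Fin s → (i : Fin n) → Submodule ℝ (Fin (m i) → ℝ) := fun j =>
    Function.update (Function.update (fun _ => ⊤) i₁ (LinearMap.range (f j))) i₂
      (span ℝ (Set.range (row j)))
  have hB1 : ∀ j, B j i₁ = LinearMap.range (f j) := by
    intro j
    simp only [B]
    rw [Function.update_of_ne hne, Function.update_self]
  have hB2 : ∀ j, B j i₂ = span ℝ (Set.range (row j)) := fun j => Function.update_self _ _ _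
  have hB3 : ∀ j i, i ≠ i₁ → i ≠ i₂ → B j i = ⊤ := by
    intro j i h1 h2
    simp only [B]
    rw [Function.update_of_ne h2, Function.update_of_ne h1]
  refine spansT_of_le' (fun i => (hr i).2) B (fun j i => ?_) ?_
  · by_cases h1 : i = i₁
    · subst h1
      rw [hB1]
      refine (LinearMap.finrank_range_le _).trans ?_
      rw [finrank_fin_fun]
    · by_cases h2 : i = i₂
      · subst h2
        rw [hB2]
        exact (finrank_range_le_card _).trans (by rw [Fintype.card_fin])
      · rw [hB3 j i h1 h2, finrank_top, finrank_fin_fun, hfull i h1 h2]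
  · refine top_of_dual _ fun ψ hψ => ?_
    funext τ
    let φ : (Fin (m i₁) → ℝ) →ₗ[ℝ] (Fin (m i₂) → ℝ) :=
      Matrix.toLin' (Matrix.of fun y x => ψ (rep τ i₁ i₂ x y))
    have hφ : ∀ u y, φ u y = ∑ x, ψ (rep τ i₁ i₂ x y) * u x := fun u y => rfl
    have h0 : φ = 0 := by
      refine h φ fun j => ?_
      refine LinearMap.ext fun α => funext fun l => ?_
      rw [LinearMap.comp_apply, LinearMap.comp_apply, LinearMap.zero_apply, Pi.zero_apply]
      have hg : ∀ w, g j w l = ∑ y, w y * row j l y := by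
        intro w
        have h5 : w = ∑ y, w y • (Pi.single y 1 : Fin (m i₂) → ℝ) := by
          have := (Pi.basisFun ℝ (Fin (m i₂))).sum_repr w
          simp only [Pi.basisFun_repr, Pi.basisFun_apply] at this
          exact this.symm
        conv_lhs => rw [h5, map_sum]
        rw [Finset.sum_apply]
        exact Finset.sum_congr rfl fun y _ => by rw [map_smul, Pi.smul_apply, smul_eq_mul]
      rw [hg]
      -- the pure tensor
      let v : (i : Fin n) → Fin (m i) → ℝ :=
        Function.update (Function.update (fun i => Pi.single (τ i) 1) i₁ (f j α)) i₂ (row j l)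
      have hv1 : v i₁ = f j α := by
        simp only [v]
        rw [Function.update_of_ne hne, Function.update_self]
      have hv2 : v i₂ = row j l := Function.update_self _ _ _
      have hv3 : ∀ i, i ≠ i₁ → i ≠ i₂ → v i = Pi.single (τ i) 1 := by
        intro i h1 h2
        simp only [v]
        rw [Function.update_of_ne h2, Function.update_of_ne h1]
      have h1 := hψ (pureT v) (Submodule.mem_iSup_of_mem j (subset_span ⟨v, fun i => by
        by_cases e1 : i = i₁
        · subst e1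
          rw [hv1, hB1]
          exact ⟨α, rfl⟩
        · by_cases e2 : i = i₂
          · subst e2
            rw [hv2, hB2]
            exact subset_span ⟨l, rfl⟩
          · rw [hB3 j i e1 e2]
            exact Submodule.mem_top, rfl⟩))
      have hprod : ∏ i ∈ (Finset.univ.erase i₁).erase i₂, v i (τ i) = 1 := by
        refine Finset.prod_eq_one fun i hi => ?_
        rw [Finset.mem_erase, Finset.mem_erase] at hi
        rw [hv3 i hi.2.1 hi.1, Pi.single_eq_same]
      have h2 : ∑ z : Fin (m i₁) × Fin (m i₂),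
          pureT v (rep τ i₁ i₂ z.1 z.2) * ψ (rep τ i₁ i₂ z.1 z.2) = 0 := by
        rw [← h1]
        refine Fintype.sum_of_injective (fun z : Fin (m i₁) × Fin (m i₂) =>
          rep τ i₁ i₂ z.1 z.2) (rep_inj hne τ) _ _ ?_ fun z => rfl
        intro t ht
        have h3 : ∃ i, i ≠ i₁ ∧ i ≠ i₂ ∧ t i ≠ τ i := by
          by_contra hcon
          push Not at hcon
          refine ht ⟨(t i₁, t i₂), ?_⟩
          funext i
          by_cases e1 : i = i₁
          · subst e1
            exact rep_one hne _ _ _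
          · by_cases e2 : i = i₂
            · subst e2
              exact rep_two _ _ _
            · exact (rep_other e1 e2 _ _ _).trans (hcon i e1 e2).symm
        obtain ⟨i, e1, e2, e3⟩ := h3
        have h4 : pureT v t = 0 := by
          refine Finset.prod_eq_zero (Finset.mem_univ i) ?_
          rw [hv3 i e1 e2, Pi.single_eq_of_ne e3]
        rw [h4, zero_mul]
      rw [Fintype.sum_prod_type] at h2
      rw [← h2, Finset.sum_comm]
      refine Finset.sum_congr rfl fun y _ => ?_
      rw [hφ, Finset.sum_mul]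
      refine Finset.sum_congr rfl fun x _ => ?_
      rw [pure_rep hne, hprod, hv1, hv2]
      ring
    have h1 := congrFun (LinearMap.congr_fun h0 (Pi.single (τ i₁) 1)) (τ i₂)
    rw [hφ, Finset.sum_eq_single (τ i₁)] at h1
    · rw [Pi.single_eq_same, mul_one] at h1
      have h2 : rep τ i₁ i₂ (τ i₁) (τ i₂) = τ := by
        unfold rep
        rw [Function.update_eq_self, Function.update_eq_self]
      rw [h2] at h1
      exact h1
    · intro x _ hx
      rw [Pi.single_eq_of_ne hx, mul_zero]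
    · intro h2
      exact absurd (Finset.mem_univ _) h2

end Pool.Agent.SubTwo
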