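import Pool.Agent.SubTwo.Sp

/-!
# Two factors: reflection and base cases
-/

open Module Submodule

namespace Pool.Agent.SubTwo

variable {F : Type*} [Field F]

/-- **Reflection.** -/
theorem sp_reflect {s p a q b p' a' q' c : ℕ} (h : Sp F s p a q b) (hc : b + c = q)
    (hc0 : 0 < c) (hp' : p + p' = s * a) (ha' : a' + a = p') (hq' : q' + q ≤ s * c) :
    Sp F s p' a' q' c := by
  classical
  obtain ⟨f, g, h⟩ := h
  -- subspaces of the kernels of the `g j`
  have hγ : ∀ j, ∃ γ : (Fin c → F) →ₗ[F] (Fin q → F), Function.Injective γ ∧ g j ∘ₗ γ = 0 := by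
    intro j
    have h1 := LinearMap.finrank_range_add_finrank_ker (g j)
    have h2 := Submodule.finrank_le (LinearMap.range (g j))
    rw [finrank_fin_fun] at h1 h2
    obtain ⟨ι, hι⟩ := exists_inj' (F := F) (V := LinearMap.ker (g j)) (k := c) (by omega)
    refine ⟨(LinearMap.ker (g j)).subtype ∘ₗ ι, ?_, ?_⟩
    · exact (LinearMap.ker (g j)).injective_subtype.comp hι
    · refine LinearMap.ext fun x => ?_
      exact (ι x).2
  choose γ hγi hγg using hγ
  have hc1 : (Pi.single (⟨0, hc0⟩ : Fin c) (1 : F) : Fin c → F) ≠ 0 := by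
    intro h0
    have := congrFun h0 ⟨0, hc0⟩
    simp at this
  -- the sum of the `f j`
  let S : (Fin s → Fin a → F) →ₗ[F] (Fin p → F) := ∑ j, f j ∘ₗ LinearMap.proj j
  have hS : ∀ x, S x = ∑ j, f j (x j) := by
    intro x
    simp only [S, LinearMap.sum_apply, LinearMap.comp_apply, LinearMap.proj_apply]
  have hSsingle : ∀ j y, S (Pi.single j y) = f j y := by
    intro j y
    rw [hS, Finset.sum_eq_single j]
    · rw [Pi.single_eq_same]
    · intro i _ hi
      rw [Pi.single_eq_of_ne hi, map_zero]
    · intro h0
      exact absurd (Finset.mem_univ j) h0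
  have hSsurj : LinearMap.range S = ⊤ := by
    by_contra hne
    obtain ⟨h', hh, hle⟩ := Submodule.exists_le_ker_of_lt_top _ (lt_top_iff_ne_top.2 hne)
    have hq0 : 0 < q := by omega
    have h1 := sp_rank_one h h' hh (Pi.single (⟨0, hq0⟩ : Fin q) (1 : F)) fun j => by
      left
      refine LinearMap.ext fun x => ?_
      exact hle ⟨Pi.single j x, hSsingle j x⟩
    have h2 := congrFun h1 ⟨0, hq0⟩
    simp at h2
  let K := LinearMap.ker S
  have hK : finrank F K = p' := by
    have h1 := LinearMap.finrank_range_add_finrank_ker S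
    rw [hSsurj, finrank_top, finrank_fin_fun, finrank_pi_fintype] at h1
    simp only [finrank_fin_fun, Finset.sum_const, Finset.card_univ, Fintype.card_fin,
      smul_eq_mul] at h1
    change p + finrank F K = s * a at h1
    omega
  let πK : (j : Fin s) → K →ₗ[F] (Fin a → F) := fun j => LinearMap.proj j ∘ₗ K.subtype
  have hπK : ∀ j, Function.Surjective (πK j) := by
    intro j x
    let S' : (Fin s → Fin a → F) →ₗ[F] (Fin p → F) :=
      ∑ i ∈ Finset.univ.erase j, f i ∘ₗ LinearMap.proj i
    have hS' : ∀ x, S' x = ∑ i ∈ Finset.univ.erase j, f i (x i) := by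
      intro x
      simp only [S', LinearMap.sum_apply, LinearMap.comp_apply, LinearMap.proj_apply]
    have hr : LinearMap.range S' = ⊤ := by
      by_contra hne
      obtain ⟨h', hh, hle⟩ := Submodule.exists_le_ker_of_lt_top _ (lt_top_iff_ne_top.2 hne)
      have h1 := sp_rank_one h h' hh (γ j (Pi.single (⟨0, hc0⟩ : Fin c) (1 : F))) fun i => by
        by_cases hi : i = j
        · right
          rw [hi]
          exact LinearMap.congr_fun (hγg j) _
        · left
          refine LinearMap.ext fun x => ?_
          refine hle ⟨Pi.single i x, ?_⟩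
          rw [hS', Finset.sum_eq_single i]
          · rw [Pi.single_eq_same]
          · intro i' _ hi'
            rw [Pi.single_eq_of_ne hi', map_zero]
          · intro h0
            exact absurd (Finset.mem_erase.2 ⟨hi, Finset.mem_univ i⟩) h0
      exact hc1 (hγi j (by rw [h1, map_zero]))
    obtain ⟨y, hy⟩ := LinearMap.range_eq_top.1 hr (-(f j x))
    refine ⟨⟨Function.update y j x, ?_⟩, ?_⟩
    · change S (Function.update y j x) = 0
      rw [hS, ← Finset.add_sum_erase _ _ (Finset.mem_univ j), Function.update_self]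
      have : ∑ i ∈ Finset.univ.erase j, f i (Function.update y j x i) =
          ∑ i ∈ Finset.univ.erase j, f i (y i) :=
        Finset.sum_congr rfl fun i hi => by
          rw [Function.update_of_ne (Finset.ne_of_mem_erase hi)]
      rw [this, ← hS', hy, add_neg_cancel]
    · change Function.update y j x j = x
      rw [Function.update_self]
  have hKj : ∀ j, finrank F (LinearMap.ker (πK j)) = a' := by
    intro j
    have h1 := LinearMap.finrank_range_add_finrank_ker (πK j)
    rw [LinearMap.range_eq_top.2 (hπK j), finrank_top, finrank_fin_fun, hK] at h1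
    omega
  -- the second space
  let T : (Fin s → Fin c → F) →ₗ[F] (Fin q → F) := ∑ j, γ j ∘ₗ LinearMap.proj j
  have hT : ∀ x, T x = ∑ j, γ j (x j) := by
    intro x
    simp only [T, LinearMap.sum_apply, LinearMap.comp_apply, LinearMap.proj_apply]
  let L := LinearMap.ker T
  have hL : q' ≤ finrank F L := by
    have h1 := LinearMap.finrank_range_add_finrank_ker T
    have h2 := Submodule.finrank_le (LinearMap.range T)
    rw [finrank_fin_fun] at h2
    rw [finrank_pi_fintype] at h1
    simp only [finrank_fin_fun, Finset.sum_const, Finset.card_univ, Fintype.card_fin,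
      smul_eq_mul] at h1
    change finrank F (LinearMap.range T) + finrank F L = s * c at h1
    omega
  refine sp_of_spaces (U := K) (V := L) (A := fun j => LinearMap.ker (πK j))
    (B := fun _ => Fin c → F) (fun j => (LinearMap.ker (πK j)).subtype)
    (fun j => LinearMap.proj j ∘ₗ L.subtype) ?_ hK.ge hL (fun j => (hKj j).le)
    (fun j => by rw [finrank_fin_fun])
  intro ψ hψ
  choose σ hσ using fun j => (πK j).exists_rightInverse_of_surjective
    (LinearMap.range_eq_top.2 (hπK j))
  let ψ' : (j : Fin s) → (Fin a → F) →ₗ[F] (Fin c → F) := fun j =>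
    LinearMap.proj j ∘ₗ L.subtype ∘ₗ ψ ∘ₗ σ j
  have hψ'1 : ∀ j x, ψ' j x = (ψ (σ j x) : Fin s → Fin c → F) j := fun j x => rfl
  have key : ∀ j (k : K), (ψ k : Fin s → Fin c → F) j = ψ' j ((k : Fin s → Fin a → F) j) := by
    intro j k
    have h1 : k - σ j (πK j k) ∈ LinearMap.ker (πK j) := by
      rw [LinearMap.mem_ker, map_sub]
      have := LinearMap.congr_fun (hσ j) (πK j k)
      rw [LinearMap.comp_apply, LinearMap.id_apply] at this
      rw [this, sub_self]
    have h2 := LinearMap.congr_fun (hψ j) ⟨_, h1⟩
    change (ψ (k - σ j (πK j k)) : Fin s → Fin c → F) j = 0 at h2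
    rw [map_sub, Submodule.coe_sub, Pi.sub_apply, sub_eq_zero] at h2
    exact h2
  let Ψ : (Fin s → Fin a → F) →ₗ[F] (Fin q → F) := ∑ j, γ j ∘ₗ ψ' j ∘ₗ LinearMap.proj j
  have hΨ : ∀ x, Ψ x = ∑ j, γ j (ψ' j (x j)) := by
    intro x
    simp only [Ψ, LinearMap.sum_apply, LinearMap.comp_apply, LinearMap.proj_apply]
  have hΨK : ∀ x, S x = 0 → Ψ x = 0 := by
    intro x hx
    have h1 : Ψ x = T (ψ ⟨x, hx⟩ : Fin s → Fin c → F) := by
      rw [hΨ, hT]
      exact Finset.sum_congr rfl fun j _ => by rw [key j ⟨x, hx⟩]
    rw [h1]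
    exact (ψ ⟨x, hx⟩).2
  obtain ⟨τ, hτ⟩ := S.exists_rightInverse_of_surjective hSsurj
  have hφS : ∀ x, (Ψ ∘ₗ τ) (S x) = Ψ x := by
    intro x
    have h1 : S (τ (S x) - x) = 0 := by
      rw [map_sub]
      have := LinearMap.congr_fun hτ (S x)
      rw [LinearMap.comp_apply, LinearMap.id_apply] at this
      rw [this, sub_self]
    have h2 := hΨK _ h1
    rw [map_sub, sub_eq_zero] at h2
    exact h2
  have hφf : ∀ j y, (Ψ ∘ₗ τ) (f j y) = γ j (ψ' j y) := by
    intro j y
    rw [← hSsingle, hφS, hΨ, Finset.sum_eq_single j]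
    · rw [Pi.single_eq_same]
    · intro i _ hi
      rw [Pi.single_eq_of_ne hi, map_zero, map_zero]
    · intro h0
      exact absurd (Finset.mem_univ j) h0
  have hφ0 := h (Ψ ∘ₗ τ) fun j => by
    refine LinearMap.ext fun y => ?_
    rw [LinearMap.comp_apply, LinearMap.comp_apply, hφf]
    exact LinearMap.congr_fun (hγg j) _
  have hψ'0 : ∀ j y, ψ' j y = 0 := by
    intro j y
    apply hγi j
    rw [map_zero, ← hφf, hφ0]
    rfl
  refine LinearMap.ext fun k => Subtype.ext (funext fun j => ?_)
  rw [key, hψ'0]
  rfl

/-- Base case: no condition on the first factor. -/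
theorem sp_base {s p a q b : ℕ} (ha : p ≤ a) (hq : q ≤ s * b) : Sp F s p a q b := by
  refine sp_of_spaces (U := Fin p → F) (V := Fin s → Fin b → F) (A := fun _ => Fin p → F)
    (B := fun _ => Fin b → F) (fun _ => LinearMap.id) (fun j => LinearMap.proj j) ?_ ?_ ?_ ?_ ?_
  · intro φ hφ
    refine LinearMap.ext fun x => funext fun j => ?_
    exact LinearMap.congr_fun (hφ j) x
  · rw [finrank_fin_fun]
  · rw [finrank_pi_fintype]
    simp only [finrank_fin_fun, Finset.sum_const, Finset.card_univ, Fintype.card_fin,
      smul_eq_mul]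
    exact hq
  · intro j
    rw [finrank_fin_fun]
    exact ha
  · intro j
    rw [finrank_fin_fun]

/-- Base case: every coordinate of the first factor is missed at most once. -/
theorem sp_baseB {k p a q b : ℕ} (hp : k * p ≤ (k + 1) * a) (hq : q ≤ k * b) :
    Sp F (k + 1) p a q b := by
  classical
  rcases le_or_gt p a with hpa | hpa
  · exact sp_base hpa (hq.trans (Nat.mul_le_mul_right _ (Nat.le_succ k)))
  set e := p - a with he
  have he0 : 0 < e := by omega
  have hep : (k + 1) * e ≤ p := by
    have h1 : (k + 1) * p = (k + 1) * a + (k + 1) * e := by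
      rw [← Nat.mul_add]
      congr 1
      omega
    have h2 : (k + 1) * p = k * p + p := by ring
    omega
  let ext : (j : Fin (k + 1)) → ({i : Fin p // (i : ℕ) / e ≠ j} → F) →ₗ[F] (Fin p → F) := fun j =>
    { toFun := fun y i => if h : (i : ℕ) / e ≠ j then y ⟨i, h⟩ else 0
      map_add' := fun y z => by
        funext i
        by_cases h : (i : ℕ) / e = j
        · simp [h]
        · simp [h]
      map_smul' := fun c y => by
        funext i
        by_cases h : (i : ℕ) / e = j
        · simp [h]
        · simp [h] }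
  let gg : (j : Fin (k + 1)) → (Fin k → Fin b → F) →ₗ[F] (Fin b → F) := fun j =>
    if h : (j : ℕ) < k then LinearMap.proj (⟨j, h⟩ : Fin k)
    else ∑ i : Fin k, LinearMap.proj i
  refine sp_of_spaces (U := Fin p → F) (V := Fin k → Fin b → F)
    (A := fun j => {i : Fin p // (i : ℕ) / e ≠ j} → F) (B := fun _ => Fin b → F)
    ext gg ?_ ?_ ?_ ?_ ?_
  · intro φ hφ
    -- basis vectors are killed
    have h1 : ∀ i : Fin p, φ (Pi.single i 1) = 0 := by
      intro i
      have h2 : ∀ j : Fin (k + 1), (i : ℕ) / e ≠ j → gg j (φ (Pi.single i 1)) = 0 := by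
        intro j hj
        have h3 := LinearMap.congr_fun (hφ j) (Pi.single ⟨i, hj⟩ 1)
        rw [LinearMap.comp_apply, LinearMap.comp_apply, LinearMap.zero_apply] at h3
        have h4 : ext j (Pi.single ⟨i, hj⟩ 1) = Pi.single i 1 := by
          funext i'
          change (if h : (i' : ℕ) / e ≠ (j : ℕ) then
            (Pi.single (⟨i, hj⟩ : {i : Fin p // (i : ℕ) / e ≠ (j : ℕ)}) (1 : F) :
              {i : Fin p // (i : ℕ) / e ≠ (j : ℕ)} → F) ⟨i', h⟩ else (0 : F)) = _
          by_cases hi' : i' = i
          · subst hi'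
            rw [dif_pos hj, Pi.single_eq_same, Pi.single_eq_same]
          · rw [Pi.single_eq_of_ne hi']
            by_cases h : (i' : ℕ) / e ≠ j
            · rw [dif_pos h, Pi.single_eq_of_ne]
              intro h5
              exact hi' (congrArg Subtype.val h5)
            · rw [dif_neg h]
        rw [h4] at h3
        exact h3
      set v := φ (Pi.single i 1) with hv
      -- coordinates
      have h5 : ∀ i' : Fin k, (i : ℕ) / e ≠ i' → v i' = 0 := by
        intro i' hi'
        have h6 := h2 ⟨i', by omega⟩ hi'
        simp only [gg] at h6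
        rw [dif_pos i'.2] at h6
        exact h6
      by_cases h7 : (i : ℕ) / e < k
      · have h8 : (i : ℕ) / e ≠ (⟨k, by omega⟩ : Fin (k + 1)) := h7.ne
        have h9 := h2 _ h8
        simp only [gg] at h9
        rw [dif_neg (lt_irrefl k), LinearMap.sum_apply] at h9
        simp only [LinearMap.proj_apply] at h9
        rw [Finset.sum_eq_single (⟨_, h7⟩ : Fin k)] at h9
        · funext i'
          by_cases h10 : (i : ℕ) / e = i'
          · have : i' = ⟨_, h7⟩ := Fin.ext h10.symm
            rw [this, h9]
            rfl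
          · rw [h5 i' h10]
            rfl
        · intro i' _ hi'
          refine h5 i' fun h10 => hi' (Fin.ext h10.symm)
        · intro h0
          exact absurd (Finset.mem_univ _) h0
      · funext i'
        rw [h5 i' (by have := i'.2; omega)]
        rfl
    refine LinearMap.ext fun x => ?_
    have h2 : x = ∑ i, x i • (Pi.single i 1 : Fin p → F) := by
      have := (Pi.basisFun F (Fin p)).sum_repr x
      simp only [Pi.basisFun_repr, Pi.basisFun_apply] at this
      exact this.symm
    rw [h2, map_sum]
    simp only [map_smul, h1, smul_zero, Finset.sum_const_zero, LinearMap.zero_apply]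
  · rw [finrank_fin_fun]
  · rw [finrank_pi_fintype]
    simp only [finrank_fin_fun, Finset.sum_const, Finset.card_univ, Fintype.card_fin,
      smul_eq_mul]
    exact hq
  · intro j
    rw [finrank_pi]
    -- the missed coordinates
    have h1 : Fintype.card {i : Fin p // (i : ℕ) / e ≠ j} + e ≤ p := by
      have h2 : Fintype.card {i : Fin p // (i : ℕ) / e ≠ j} =
          p - Fintype.card {i : Fin p // (i : ℕ) / e = j} := by
        have := Fintype.card_subtype_compl (fun i : Fin p => (i : ℕ) / e = j)
        rw [Fintype.card_fin] at this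
        exact this
      have h3 : e ≤ Fintype.card {i : Fin p // (i : ℕ) / e = j} := by
        have h4 : Function.Injective fun x : Fin e =>
            (⟨⟨(j : ℕ) * e + x, by
              have h5 := j.2
              have h6 := x.2
              have h7 : ((j : ℕ) + 1) * e ≤ (k + 1) * e := Nat.mul_le_mul_right _ h5
              have h8 : ((j : ℕ) + 1) * e = j * e + e := by ring
              omega⟩, by
              change ((j : ℕ) * e + x) / e = j
              rw [Nat.mul_comm, Nat.mul_add_div he0, Nat.div_eq_of_lt x.2, add_zero]⟩ :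
              {i : Fin p // (i : ℕ) / e = j}) := by
          intro x y hxy
          have h5 := congrArg (fun z : {i : Fin p // (i : ℕ) / e = j} => ((z : Fin p) : ℕ)) hxy
          simp only at h5
          exact Fin.ext (by omega)
        have := Fintype.card_le_of_injective _ h4
        rwa [Fintype.card_fin] at this
      have h5 : Fintype.card {i : Fin p // (i : ℕ) / e = j} ≤ p := by
        have := Fintype.card_subtype_le (fun i : Fin p => (i : ℕ) / e = j)
        rwa [Fintype.card_fin] at this
      omega
    omega
  · intro j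
    rw [finrank_fin_fun]

end Pool.Agent.SubTwo
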