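import Pool.Agent.SubTwo.Arith
import Pool.Agent.SubTwo.Refl

/-!
# Two factors: classification
-/

open Module Submodule

namespace Pool.Agent.SubTwo

/-- The corners of level `s`. -/
inductive Corner (s : ℕ) : ℝ → ℝ → Prop
  | one : Corner s 1 s
  | two : Corner s (s / (s - 1)) (s - 1)
  | step {x y : ℝ} : Corner s x y → x < s - 1 → 1 < y →
      Corner s (1 + 1 / (s - 1 - x)) (s - 1 - 1 / (y - 1))

/-- Sufficiency of the corners. -/
theorem sp_of_corner {s : ℕ} (hs : 2 ≤ s) {x y : ℝ} (h : Corner s x y) :
    ∀ p a q b : ℕ, 1 ≤ a → 1 ≤ b → (p : ℝ) ≤ a * x → (q : ℝ) ≤ b * y → Sp ℝ s p a q b := by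
  have hs' : (2 : ℝ) ≤ s := by exact_mod_cast hs
  induction h with
  | one =>
    intro p a q b _ _ hp hq
    rw [mul_one] at hp
    refine sp_base (by exact_mod_cast hp) ?_
    have : (q : ℝ) ≤ s * b := by linarith
    exact_mod_cast this
  | two =>
    intro p a q b _ _ hp hq
    obtain ⟨k, rfl⟩ : ∃ k, s = k + 1 := ⟨s - 1, by omega⟩
    push_cast at hp hq hs'
    rw [add_sub_cancel_right] at hp hq
    have hk : (0 : ℝ) < k := by linarith
    refine sp_baseB ?_ ?_
    · have h1 : (k : ℝ) * p ≤ (k + 1) * a := by
        calc (k : ℝ) * p ≤ k * (a * ((k + 1) / k)) := mul_le_mul_of_nonneg_left hp hk.le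
          _ = _ := by field_simp
      exact_mod_cast h1
    · have h1 : (q : ℝ) ≤ k * b := by linarith
      exact_mod_cast h1
  | @step x y _ hx hy ih =>
    intro p a q b ha hb hp hq
    have ha' : (1 : ℝ) ≤ a := by exact_mod_cast ha
    have hb' : (1 : ℝ) ≤ b := by exact_mod_cast hb
    have hy1 : 0 < y - 1 := by linarith
    have hx1 : 0 < (s : ℝ) - 1 - x := by linarith
    have hinv : 0 < 1 / (y - 1) := by positivity
    have hq1 : (q : ℝ) < (s - 1) * b := by
      calc (q : ℝ) ≤ b * (s - 1 - 1 / (y - 1)) := hq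
        _ < b * (s - 1) := mul_lt_mul_of_pos_left (by linarith) (by linarith)
        _ = _ := by ring
    rcases le_or_gt p a with hpa | hpa
    · refine sp_base hpa ?_
      have : (q : ℝ) ≤ s * b := by nlinarith
      exact_mod_cast this
    · rcases le_or_gt (s * (p - a)) p with hsp | hsp
      · obtain ⟨k, rfl⟩ : ∃ k, s = k + 1 := ⟨s - 1, by omega⟩
        refine sp_baseB ?_ ?_
        · obtain ⟨e, rfl⟩ : ∃ e, p = a + e := ⟨p - a, by omega⟩
          rw [Nat.add_sub_cancel_left] at hsp
          nlinarith
        · have : (q : ℝ) ≤ k * b := by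
            push_cast at hq1
            linarith
          exact_mod_cast this
      · -- reflection
        have hqn : q < (s - 1) * b := by
          have h1 : ((q : ℕ) : ℝ) < (((s - 1) * b : ℕ) : ℝ) := by
            rw [Nat.cast_mul, Nat.cast_sub (by omega : 1 ≤ s), Nat.cast_one]
            exact hq1
          exact_mod_cast h1
        obtain ⟨k, rfl⟩ : ∃ k, s = k + 1 := ⟨s - 1, by omega⟩
        rw [Nat.add_sub_cancel] at hqn
        obtain ⟨b0, hb0⟩ : ∃ b0, q + b0 = k * b := ⟨k * b - q, by omega⟩
        obtain ⟨a0, ha0⟩ : ∃ a0, a + a0 = p := ⟨p - a, by omega⟩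
        have e1 : p - a = a0 := by omega
        rw [e1] at hsp
        obtain ⟨p0, hp0⟩ : ∃ p0, p + p0 = (k + 1) * a0 := ⟨(k + 1) * a0 - p, by omega⟩
        have hb0pos : 0 < b0 := by omega
        have ha0pos : 0 < a0 := by omega
        have c1 : (q : ℝ) + b0 = k * b := by exact_mod_cast hb0
        have c2 : (a : ℝ) + a0 = p := by exact_mod_cast ha0
        have c3 : (p : ℝ) + p0 = (k + 1) * a0 := by exact_mod_cast hp0
        push_cast at hx hx1 hp hq
        rw [add_sub_cancel_right] at hx hx1 hp hq
        have g1 : (p0 : ℝ) ≤ a0 * x := by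
          have h1 : (a0 : ℝ) ≤ a * (1 / (k - x)) := by linarith
          have h2 : (a0 : ℝ) * (k - x) ≤ a := by
            calc (a0 : ℝ) * (k - x) ≤ a * (1 / (k - x)) * (k - x) :=
                  mul_le_mul_of_nonneg_right h1 hx1.le
              _ = a := by field_simp
          linarith
        have g2 : ((b0 + b : ℕ) : ℝ) ≤ b0 * y := by
          have h1 : (b : ℝ) * (1 / (y - 1)) ≤ b0 := by linarith
          have h2 : (b : ℝ) ≤ b0 * (y - 1) := by
            calc (b : ℝ) = b * (1 / (y - 1)) * (y - 1) := by field_simp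
              _ ≤ _ := mul_le_mul_of_nonneg_right h1 hy1.le
          push_cast
          linarith
        have h0 := ih p0 a0 (b0 + b) b0 ha0pos hb0pos g1 g2
        refine sp_reflect h0 (c := b) rfl (by omega) (by omega) (by omega) ?_
        have : (k + 1) * b = k * b + b := by ring
        omega

/-- If the first space is not zero then the kernels of the `g j` meet in zero. -/
theorem sp_bound_all {s p a q b : ℕ} (h : Sp ℝ s p a q b) (hp : 0 < p) : q ≤ s * b := by
  obtain ⟨f, g, h⟩ := h
  by_contra hcon
  push Not at hcon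
  let G : (Fin q → ℝ) →ₗ[ℝ] (Fin s → Fin b → ℝ) := LinearMap.pi fun j => g j
  have hG : LinearMap.ker G ≠ ⊥ := by
    intro h0
    have h1 := LinearMap.finrank_le_finrank_of_injective (LinearMap.ker_eq_bot.1 h0)
    rw [finrank_fin_fun, finrank_pi_fintype] at h1
    simp only [finrank_fin_fun, Finset.sum_const, Finset.card_univ, Fintype.card_fin,
      smul_eq_mul] at h1
    omega
  obtain ⟨v, hv, hv0⟩ := Submodule.exists_mem_ne_zero_of_ne_bot hG
  refine hv0 (sp_rank_one h (LinearMap.proj ⟨0, hp⟩) ?_ v fun j => Or.inr (congrFun hv j))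
  intro h0
  have h1 := LinearMap.congr_fun h0 (Pi.single ⟨0, hp⟩ 1)
  simp at h1

theorem corner_mul {s : ℕ} (hs : 2 ≤ s) {x y : ℝ} (h : Corner s x y) : x * y = s := by
  have hs' : (2 : ℝ) ≤ s := by exact_mod_cast hs
  induction h with
  | one => ring
  | two =>
    have : (s : ℝ) - 1 ≠ 0 := by linarith
    field_simp
  | @step x y _ hx hy ih =>
    have h1 : (s : ℝ) - 1 - x ≠ 0 := by linarith
    have h2 : y - 1 ≠ 0 := by linarith
    have h3 : (1 + 1 / ((s : ℝ) - 1 - x)) = (s - x) / (s - 1 - x) := by
      field_simp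
      ring
    have h4 : ((s : ℝ) - 1 - 1 / (y - 1)) = ((s - 1) * y - s) / (y - 1) := by
      field_simp
      ring
    rw [h3, h4, div_mul_div_comm, div_eq_iff (mul_ne_zero h1 h2)]
    have h5 : x * y = s := ih
    nlinarith [h5]

/-- Necessity of the corners. -/
theorem corner_of_sp {s : ℕ} (hs : 3 ≤ s) (a : ℕ) : ∀ p q b : ℕ, Sp ℝ s p a q b → 0 < p →
    0 < a → 0 < b → s * b < 2 * q → s * q * b < q * q + s * b * b →
    ∃ x y, Corner s x y ∧ (p : ℝ) ≤ a * x ∧ (q : ℝ) ≤ b * y := by
  have hs' : (3 : ℝ) ≤ s := by exact_mod_cast hs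
  induction a using Nat.strong_induction_on with
  | _ a ih =>
    intro p q b h hp ha hb hq hN
    have ha' : (0 : ℝ) < a := by exact_mod_cast ha
    have hb' : (0 : ℝ) < b := by exact_mod_cast hb
    have hq0 : 0 < q := by
      rcases Nat.eq_zero_or_pos q with h0 | h0
      · subst h0
        omega
      · exact h0
    rcases le_or_gt p a with hpa | hpa
    · refine ⟨1, s, Corner.one, ?_, ?_⟩
      · rw [mul_one]
        exact_mod_cast hpa
      · have := sp_bound_all h hp
        have h1 : (q : ℝ) ≤ s * b := by exact_mod_cast this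
        linarith
    have hq1 := sp_bound_pred h hpa hq0
    obtain ⟨k, rfl⟩ : ∃ k, s = k + 1 := ⟨s - 1, by omega⟩
    rw [Nat.add_sub_cancel] at hq1
    push_cast at hs'
    have hk : (2 : ℝ) ≤ k := by linarith
    rcases le_or_gt ((k + 1) * (p - a)) p with hsp | hsp
    · refine ⟨_, _, Corner.two, ?_, ?_⟩
      · push_cast
        rw [add_sub_cancel_right]
        obtain ⟨e, rfl⟩ : ∃ e, p = a + e := ⟨p - a, by omega⟩
        rw [Nat.add_sub_cancel_left] at hsp
        have h1 : ((k : ℝ) + 1) * e ≤ a + e := by exact_mod_cast hsp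
        rw [mul_div_assoc', le_div_iff₀ (by linarith)]
        push_cast
        linarith
      · push_cast
        rw [add_sub_cancel_right]
        have h1 : (q : ℝ) ≤ k * b := by exact_mod_cast hq1
        linarith
    · -- reflection
      obtain ⟨a0, ha0⟩ : ∃ a0, a + a0 = p := ⟨p - a, by omega⟩
      have e1 : p - a = a0 := by omega
      rw [e1] at hsp
      obtain ⟨p0, hp0⟩ : ∃ p0, p + p0 = (k + 1) * a0 := ⟨(k + 1) * a0 - p, by omega⟩
      obtain ⟨b0, hb0⟩ : ∃ b0, q + b0 = k * b := ⟨k * b - q, by omega⟩
      have hp0pos : 0 < p0 := by omega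
      have hrefl : Sp ℝ (k + 1) p0 a0 (b0 + b) b0 := by
        refine sp_swap (sp_reflect (sp_swap h) (c := a0) ha0 (by omega) ?_ ?_ ?_)
        · have : (k + 1) * b = k * b + b := by ring
          omega
        · rfl
        · omega
      have hb0pos : 0 < b0 := by
        rcases Nat.eq_zero_or_pos b0 with h0 | h0
        · subst h0
          have h1 := sp_bound hrefl
          rw [mul_zero, mul_zero] at h1
          have : 0 < p0 * (0 + b) := Nat.mul_pos hp0pos (by omega)
          omega
        · exact h0
      have c1 : (q : ℝ) + b0 = k * b := by exact_mod_cast hb0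
      have c2 : (a : ℝ) + a0 = p := by exact_mod_cast ha0
      have c3 : (p : ℝ) + p0 = (k + 1) * a0 := by exact_mod_cast hp0
      have hb0' : (0 : ℝ) < b0 := by exact_mod_cast hb0pos
      have cq : ((k : ℝ) + 1) * b < 2 * q := by exact_mod_cast hq
      have cN : ((k : ℝ) + 1) * q * b < q * q + (k + 1) * b * b := by exact_mod_cast hN
      have cq1 : (q : ℝ) ≤ k * b := by exact_mod_cast hq1
      -- the first ratio is less than two
      have hpa2 : a0 < a := by
        have h1 := sp_bound h
        have h2 : (p : ℝ) * q ≤ (k + 1) * (a * b) := by exact_mod_cast h1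
        have h3 : (p : ℝ) < 2 * a := by
          by_contra h4
          push Not at h4
          have h5 : (2 * a : ℝ) * q ≤ p * q := mul_le_mul_of_nonneg_right h4 (Nat.cast_nonneg _)
          nlinarith [mul_lt_mul_of_pos_left cq ha']
        have h4 : (a0 : ℝ) < a := by linarith
        exact_mod_cast h4
      -- the invariants
      have hN0 : ((k : ℝ) + 1) * (b0 + b) * b0 < (b0 + b) * (b0 + b) + (k + 1) * b0 * b0 := by
        have e2 : (b0 : ℝ) = k * b - q := by linarith
        rw [e2]
        nlinarith [cN]
      have hq0' : ((k : ℝ) + 1) * b0 < 2 * (b0 + b) := by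
        have e2 : (b0 : ℝ) = k * b - q := by linarith
        rw [e2]
        by_contra hcon
        push Not at hcon
        rcases eq_or_lt_of_le hk with hk2 | hk2
        · rw [← hk2] at hcon cq1
          have : (0 : ℝ) < q := by exact_mod_cast hq0
          nlinarith
        · have hk3 : (3 : ℝ) ≤ k := by
            have h1 : 2 < k := by exact_mod_cast hk2
            exact_mod_cast h1
          have h1 : 0 ≤ (2 * q - (k + 1) * b : ℝ) * ((k + 1) * (k - 2) * b - (k - 1) * q) :=
            mul_nonneg (by linarith) (by nlinarith)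
          have h2 : 0 ≤ ((k : ℝ) + 1) * (k - 3) * b * (k * b - q) :=
            mul_nonneg (mul_nonneg (mul_nonneg (by linarith) (by linarith)) hb'.le)
              (by linarith)
          have h3 : 0 < 2 * ((k : ℝ) - 1) * (q * q + (k + 1) * b * b - (k + 1) * q * b) :=
            mul_pos (by linarith) (by linarith)
          nlinarith
      obtain ⟨x, y, hxy, hx, hy⟩ := ih a0 hpa2 p0 (b0 + b) b0 hrefl hp0pos (by omega) hb0pos
        (by exact_mod_cast hq0') (by exact_mod_cast hN0)
      have hmul := corner_mul (by omega) hxy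
      push_cast at hy hmul
      have hy1 : 1 < y := by
        by_contra h1
        push Not at h1
        nlinarith
      have hx1 : x < k := by
        by_contra h1
        push Not at h1
        -- y is small
        have h2 : (k : ℝ) * y ≤ k + 1 := by
          rw [← hmul]
          exact mul_le_mul_of_nonneg_right h1 (by linarith)
        have h3 : (k : ℝ) * ((k + 1) * b0) < k * (2 * (b0 + b)) :=
          mul_lt_mul_of_pos_left hq0' (by linarith)
        have h4 : (k : ℝ) * (b0 + b) ≤ (k + 1) * b0 := by
          calc (k : ℝ) * (b0 + b) ≤ k * (b0 * y) := mul_le_mul_of_nonneg_left hy (by linarith)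
            _ = b0 * (k * y) := by ring
            _ ≤ b0 * (k + 1) := mul_le_mul_of_nonneg_left h2 hb0'.le
            _ = _ := by ring
        nlinarith
      refine ⟨_, _, Corner.step hxy (by push_cast; linarith) hy1, ?_, ?_⟩
      · push_cast
        rw [add_sub_cancel_right]
        have h1 : 0 < (k : ℝ) - x := by linarith
        have h2 : (a0 : ℝ) * (k - x) ≤ a := by nlinarith
        have h3 : (a0 : ℝ) ≤ a * (1 / (k - x)) := by
          rw [mul_one_div, le_div_iff₀ h1]
          exact h2
        linarith
      · push_cast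
        rw [add_sub_cancel_right]
        have h1 : 0 < y - 1 := by linarith
        have h2 : (b : ℝ) ≤ b0 * (y - 1) := by nlinarith
        have h3 : (b : ℝ) * (1 / (y - 1)) ≤ b0 := by
          rw [mul_one_div, div_le_iff₀ h1]
          exact h2
        linarith

end Pool.Agent.SubTwo
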