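import Pool.Agent.SubTwo.Class

/-!
# Two factors: the classification theorem
-/

namespace Pool.Agent.SubTwo

/-- the points of the curve `x y = s` that dominate `(P, Q)` and are allowed -/
def Under (s : ℕ) (P Q : ℝ) : Prop :=
  ∃ x y : ℝ, P ≤ x ∧ Q ≤ y ∧ x * y = s ∧ (x + y ≤ s ∨ Corner s x y)

theorem sp_of_under {s p a q b : ℕ} (ha : 1 ≤ a) (hap : a ≤ p) (hb : 1 ≤ b) (hbq : b ≤ q)
    (h : Under s ((p : ℝ) / a) ((q : ℝ) / b)) : Sp ℝ s p a q b := by
  obtain ⟨x, y, hx, hy, hxy, h⟩ := h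
  have ha' : (0 : ℝ) < a := by exact_mod_cast (by omega : 0 < a)
  have hb' : (0 : ℝ) < b := by exact_mod_cast (by omega : 0 < b)
  have hap' : (a : ℝ) ≤ p := by exact_mod_cast hap
  have hbq' : (b : ℝ) ≤ q := by exact_mod_cast hbq
  have hx1 : (1 : ℝ) ≤ x := le_trans (by rw [one_le_div ha']; exact hap') hx
  have hy1 : (1 : ℝ) ≤ y := le_trans (by rw [one_le_div hb']; exact hbq') hy
  rw [div_le_iff₀ ha'] at hx
  rw [div_le_iff₀ hb'] at hy
  rcases h with h | h
  · refine sp_main (a * x) (b * y) ha hb (by linarith) (by linarith) (by nlinarith)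
      (by nlinarith) ?_ ?_
    · rw [← hxy]
      exact le_of_eq (by ring)
    · have h1 : 1 ≤ (x - 1) * (y - 1) := by
        have : (x - 1) * (y - 1) = x * y - (x + y) + 1 := by ring
        rw [this, hxy]
        linarith
      calc (a : ℝ) * b = a * b * 1 := by ring
        _ ≤ a * b * ((x - 1) * (y - 1)) := mul_le_mul_of_nonneg_left h1 (mul_pos ha' hb').le
        _ = _ := by ring
  · rcases le_or_gt 2 s with hs | hs
    · exact sp_of_corner hs h p a q b ha hb (by linarith) (by linarith)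
    · -- `s = 1`
      have h1 : (1 : ℝ) ≤ s := by rw [← hxy]; nlinarith
      have h2 : 1 ≤ s := by exact_mod_cast h1
      obtain rfl : s = 1 := by omega
      rw [Nat.cast_one] at hxy
      have h3 : x = 1 := by nlinarith
      have h4 : y = 1 := by nlinarith
      subst h3
      subst h4
      refine sp_base ?_ ?_
      · have : (p : ℝ) ≤ a := by linarith
        exact_mod_cast this
      · have : (q : ℝ) ≤ b := by linarith
        rw [one_mul]
        exact_mod_cast this

theorem under_of_sp_le {s p a q b : ℕ} (ha : 1 ≤ a) (hap : a ≤ p) (hb : 1 ≤ b) (hbq : b ≤ q)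
    (hPQ : (p : ℝ) / a ≤ (q : ℝ) / b) (h : Sp ℝ s p a q b) :
    Under s ((p : ℝ) / a) ((q : ℝ) / b) := by
  have ha' : (0 : ℝ) < a := by exact_mod_cast (by omega : 0 < a)
  have hb' : (0 : ℝ) < b := by exact_mod_cast (by omega : 0 < b)
  have hap' : (a : ℝ) ≤ p := by exact_mod_cast hap
  have hbq' : (b : ℝ) ≤ q := by exact_mod_cast hbq
  have hbound : (p : ℝ) * q ≤ s * (a * b) := by exact_mod_cast sp_bound h
  set P : ℝ := (p : ℝ) / a with hP
  set Q : ℝ := (q : ℝ) / b with hQ
  have eP : (p : ℝ) = a * P := by rw [hP]; field_simp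
  have eQ : (q : ℝ) = b * Q := by rw [hQ]; field_simp
  have hP1 : 1 ≤ P := by rw [hP, one_le_div ha']; exact hap'
  have hPQs : P * Q ≤ s := by
    rw [eP, eQ] at hbound
    have h1 : (a * b : ℝ) * (P * Q) ≤ (a * b) * s := by nlinarith
    exact le_of_mul_le_mul_left h1 (mul_pos ha' hb')
  have hs1 : (1 : ℝ) ≤ s := by nlinarith
  rcases le_or_gt p a with hpa | hpa
  · -- the first corner
    have h1 := sp_bound_all h (by omega)
    refine ⟨1, s, ?_, ?_, by ring, Or.inr Corner.one⟩
    · rw [hP, div_le_one ha']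
      exact_mod_cast hpa
    · rw [hQ, div_le_iff₀ hb']
      exact_mod_cast h1
  have hq1 := sp_bound_pred h hpa (by omega)
  have hs2 : 2 ≤ s := by
    by_contra h0
    have h1 : s - 1 = 0 := by omega
    rw [h1, zero_mul] at hq1
    omega
  have hs2' : (2 : ℝ) ≤ s := by exact_mod_cast hs2
  have hQs : Q ≤ s - 1 := by
    rw [hQ, div_le_iff₀ hb']
    have h1 : (q : ℝ) ≤ ((s - 1) * b : ℕ) := by exact_mod_cast hq1
    rw [Nat.cast_mul, Nat.cast_sub (by omega : 1 ≤ s), Nat.cast_one] at h1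
    exact h1
  by_cases hP2 : P ≤ s / (s - 1)
  · refine ⟨_, _, hP2, hQs, ?_, Or.inr Corner.two⟩
    have : (s : ℝ) - 1 ≠ 0 := by linarith
    field_simp
  push Not at hP2
  rw [div_lt_iff₀ (by linarith)] at hP2
  -- now `s ≥ 3`
  have hs3 : 3 ≤ s := by
    by_contra h0
    have h1 : s = 2 := by omega
    subst h1
    push_cast at hP2 hQs hPQs
    nlinarith
  have hs3' : (3 : ℝ) ≤ s := by exact_mod_cast hs3
  by_cases hcase : s * b < 2 * q ∧ s * q * b < q * q + s * b * b
  · obtain ⟨x, y, hxy, hx, hy⟩ := corner_of_sp hs3 a p q b h (by omega) (by omega) (by omega)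
      hcase.1 hcase.2
    refine ⟨x, y, ?_, ?_, corner_mul hs2 hxy, Or.inr hxy⟩
    · rw [hP, div_le_iff₀ ha']
      linarith
    · rw [hQ, div_le_iff₀ hb']
      linarith
  -- the cases in real terms
  have hcase' : 2 * Q ≤ s ∨ Q * Q + s ≤ s * Q := by
    by_contra hcon
    push Not at hcon
    obtain ⟨h1, h2⟩ := hcon
    refine hcase ⟨?_, ?_⟩
    · have h3 : (s : ℝ) * b < 2 * q := by
        rw [eQ]
        nlinarith
      exact_mod_cast h3
    · have h3 : (s : ℝ) * q * b < q * q + s * b * b := by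
        rw [eQ]
        nlinarith [mul_lt_mul_of_pos_left h2 (mul_pos hb' hb')]
      exact_mod_cast h3
  by_cases hN : Q * Q + s ≤ s * Q
  · have hQ0 : 0 < Q := by linarith
    refine ⟨s / Q, Q, ?_, le_rfl, ?_, Or.inl ?_⟩
    · rw [le_div_iff₀ hQ0]
      exact hPQs
    · field_simp
    · have h1 : (s : ℝ) / Q ≤ s - Q := by
        rw [div_le_iff₀ hQ0]
        nlinarith
      linarith
  · have h2Q : 2 * Q ≤ s := hcase'.resolve_right hN
    push Not at hN
    have hs4 : 4 ≤ s := by
      by_contra h0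
      have h1 : s = 3 := by omega
      subst h1
      push_cast at hP2 h2Q
      linarith
    have hs4' : (4 : ℝ) ≤ s := by exact_mod_cast hs4
    have hQ2 : Q < 2 := by
      by_contra h0
      push Not at h0
      nlinarith [mul_nonneg (sub_nonneg.2 h0) (sub_nonneg.2 h2Q)]
    refine ⟨2, s / 2, by linarith, by linarith, by ring, Or.inl (by linarith)⟩

/-- **The classification for two factors.** -/
theorem sp_iff_under {s p a q b : ℕ} (ha : 1 ≤ a) (hap : a ≤ p) (hb : 1 ≤ b) (hbq : b ≤ q) :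
    Sp ℝ s p a q b ↔
      Under s ((p : ℝ) / a) ((q : ℝ) / b) ∨ Under s ((q : ℝ) / b) ((p : ℝ) / a) := by
  constructor
  · intro h
    rcases le_total ((p : ℝ) / a) ((q : ℝ) / b) with h1 | h1
    · exact Or.inl (under_of_sp_le ha hap hb hbq h1 h)
    · exact Or.inr (under_of_sp_le hb hbq ha hap h1 (sp_swap h))
  · rintro (h | h)
    · exact sp_of_under ha hap hb hbq h
    · exact sp_swap (sp_of_under hb hbq ha hap h)

end Pool.Agent.SubTwo
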