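import Pool.Agent.SubTwo.Main

/-!
# Box numbers and full factors: the general upper bound
-/

open Module Submodule Set Polynomial

namespace Pool.Agent.SubTwo

open Pool.Agent.SubTyp

variable {n : ℕ} {m r : Fin n → ℕ}

theorem finite_bad_many {s : ℕ} (b₁ b₂ : Fin s → (i : Fin n) → Fin (r i) → Fin (m i) → ℝ)
    (J : Finset (Fin s)) (t₀ : ℝ) :
    {t : ℝ | ¬ finrank ℝ (⨆ j : J, boxT (lineS (b₁ j) (b₂ j) t₀) : Submodule ℝ (Ten m)) ≤
      finrank ℝ (⨆ j : J, boxT (lineS (b₁ j) (b₂ j) t) : Submodule ℝ (Ten m))}.Finite := by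
  classical
  let I : Type := J × ((i : Fin n) → Fin (r i))
  let w : I → ((i : Fin n) → Fin (m i)) → ℝ[X] := fun κ x =>
    ∏ i, ((1 - Polynomial.X) * C (b₁ κ.1 i (κ.2 i) (x i)) +
      Polynomial.X * C (b₂ κ.1 i (κ.2 i) (x i)))
  have hw1 : ∀ κ t, (fun x => (w κ x).eval t) =
      pureT (fun i => fun x => (1 - t) * b₁ κ.1 i (κ.2 i) x + t * b₂ κ.1 i (κ.2 i) x) := by
    intro κ t
    funext x
    simp only [w, eval_prod, pureT]
    refine Finset.prod_congr rfl fun i _ => ?_
    simp only [eval_add, eval_mul, eval_sub, eval_one, eval_X, eval_C]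
  have hspan : ∀ t, (⨆ j : J, boxT (lineS (b₁ j) (b₂ j) t) : Submodule ℝ (Ten m)) =
      span ℝ (Set.range fun κ : I => fun x => (w κ x).eval t) := by
    intro t
    have h1 : ∀ j : J, boxT (lineS (b₁ j) (b₂ j) t) = span ℝ (Set.range
        fun κ : (i : Fin n) → Fin (r i) => fun x => (w (j, κ) x).eval t) := by
      intro j
      have h2 := boxT_span (fun i k x => (1 - t) * b₁ j i k x + t * b₂ j i k x)
      refine h2.trans ?_
      congr 1
      congr 1
      funext κ
      exact (hw1 (j, κ) t).symm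
    simp only [h1]
    rw [← Submodule.span_iUnion]
    congr 1
    ext u
    simp only [Set.mem_iUnion, Set.mem_range]
    constructor
    · rintro ⟨j, κ, h⟩
      exact ⟨(j, κ), h⟩
    · rintro ⟨⟨j, κ⟩, h⟩
      exact ⟨j, κ, h⟩
  obtain ⟨f, hf1, -, hf3⟩ := Submodule.exists_fun_fin_finrank_span_eq ℝ
    (Set.range fun κ : I => fun x => (w κ x).eval t₀)
  choose g hg using hf1
  have hli : LinearIndependent ℝ (fun b => fun x => (w (g b) x).eval t₀) := by
    have : (fun b => fun x => (w (g b) x).eval t₀) = f := funext hg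
    rw [this]
    exact hf3
  refine (finite_not_li (fun b => w (g b)) t₀ hli).subset fun t ht => ?_
  rw [mem_ofPred_eq] at ht ⊢
  intro hcon
  refine ht ?_
  rw [hspan t₀, hspan t]
  have h1 := finrank_span_eq_card hcon
  rw [Fintype.card_fin] at h1
  rw [← h1]
  refine Submodule.finrank_mono (span_mono ?_)
  rintro _ ⟨b, rfl⟩
  exact ⟨g b, rfl⟩

/-- There are `s` boxes such that many prescribed subfamilies span. -/
theorem exists_generic (hr : ∀ i, r i ≤ m i) {S : ℕ} (hS : SpansT m r S) (s : ℕ)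
    (F : Finset (Finset (Fin s))) (hF : ∀ J ∈ F, S ≤ J.card) :
    ∃ A : Fin s → (i : Fin n) → Submodule ℝ (Fin (m i) → ℝ),
      (∀ j i, finrank ℝ (A j i) = r i) ∧ ∀ J ∈ F, ⨆ j : J, boxT (A j) = ⊤ := by
  classical
  induction F using Finset.induction_on with
  | empty =>
    obtain ⟨A⟩ := nonempty_fam hr
    exact ⟨fun _ => A.1, fun _ => A.2, fun J hJ => absurd hJ (Finset.notMem_empty J)⟩
  | insert J₀ F _ ih =>
    obtain ⟨A₁, h₁, hF₁⟩ := ih fun J hJ => hF J (Finset.mem_insert_of_mem hJ)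
    -- a family for which `J₀` spans
    obtain ⟨A₂, h₂, hJ₂⟩ : ∃ A : Fin s → (i : Fin n) → Submodule ℝ (Fin (m i) → ℝ),
        (∀ j i, finrank ℝ (A j i) = r i) ∧ ⨆ j : J₀, boxT (A j) = ⊤ := by
      obtain ⟨B, hB, hBtop⟩ := hS
      obtain ⟨A0⟩ := nonempty_fam hr
      have hc := hF J₀ (Finset.mem_insert_self _ _)
      let e : Fin J₀.card ≃ J₀ := (Finset.equivFin J₀).symm
      refine ⟨fun j => if h : j ∈ J₀ then (if h' : (e.symm ⟨j, h⟩ : ℕ) < S then
        B ⟨_, h'⟩ else A0.1) else A0.1, fun j i => ?_, ?_⟩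
      · have key : ∀ C : (i : Fin n) → Submodule ℝ (Fin (m i) → ℝ),
            ((∃ k, C = B k) ∨ C = A0.1) → finrank ℝ (C i) = r i := by
          rintro C (⟨k, rfl⟩ | rfl)
          · exact hB k i
          · exact A0.2 i
        refine key _ ?_
        by_cases h : j ∈ J₀
        · rw [dif_pos h]
          by_cases h' : (e.symm ⟨j, h⟩ : ℕ) < S
          · rw [dif_pos h']
            exact Or.inl ⟨_, rfl⟩
          · rw [dif_neg h']
            exact Or.inr rfl
        · rw [dif_neg h]
          exact Or.inr rfl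
      · rw [eq_top_iff, ← hBtop]
        refine iSup_le fun k => ?_
        refine le_iSup_of_le (e ⟨k, by omega⟩) ?_
        have h : ((e ⟨k, by omega⟩ : J₀) : Fin s) ∈ J₀ := (e ⟨k, by omega⟩).2
        have h3 : e.symm ⟨((e ⟨k, by omega⟩ : J₀) : Fin s), h⟩ = ⟨k, by omega⟩ := by
          have : (⟨((e ⟨k, by omega⟩ : J₀) : Fin s), h⟩ : J₀) = e ⟨k, by omega⟩ := rfl
          rw [this, Equiv.symm_apply_apply]
        have h5 : ((e.symm ⟨((e ⟨k, by omega⟩ : J₀) : Fin s), h⟩ : Fin J₀.card) : ℕ) = k :=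
          congrArg (fun z : Fin J₀.card => (z : ℕ)) h3
        have h6 : ((e.symm ⟨((e ⟨k, by omega⟩ : J₀) : Fin s), h⟩ : Fin J₀.card) : ℕ) < S :=
          h5.trans_lt k.2
        have h4 : (if h : ((e ⟨k, by omega⟩ : J₀) : Fin s) ∈ J₀ then
            (if h' : (e.symm ⟨((e ⟨k, by omega⟩ : J₀) : Fin s), h⟩ : ℕ) < S then
              B ⟨_, h'⟩ else A0.1) else A0.1) = B k := by
          rw [dif_pos h, dif_pos h6]
          exact congrArg B (Fin.ext h5)
        exact (congrArg boxT h4).ge
    have e1 : ∀ j i, ∃ b : Fin (r i) → Fin (m i) → ℝ, LinearIndependent ℝ b ∧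
        span ℝ (Set.range b) = A₁ j i := fun j i => exists_span_eq (h₁ j i)
    have e2 : ∀ j i, ∃ b : Fin (r i) → Fin (m i) → ℝ, LinearIndependent ℝ b ∧
        span ℝ (Set.range b) = A₂ j i := fun j i => exists_span_eq (h₂ j i)
    choose b₁ hb₁ hs₁ using e1
    choose b₂ hb₂ hs₂ using e2
    have l0 : ∀ j, lineS (b₁ j) (b₂ j) 0 = A₁ j := by
      intro j
      funext i
      rw [← hs₁ j i]
      unfold lineS
      congr 1
      congr 1
      funext k x
      ring
    have l1 : ∀ j, lineS (b₁ j) (b₂ j) 1 = A₂ j := by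
      intro j
      funext i
      rw [← hs₂ j i]
      unfold lineS
      congr 1
      congr 1
      funext k x
      ring
    have hfin : ((⋃ j, ⋃ i, {t : ℝ | ¬ finrank ℝ (lineS (b₁ j) (b₂ j) t i) = r i}) ∪
        ((⋃ J ∈ F, {t : ℝ | ¬ finrank ℝ (⨆ j : J, boxT (lineS (b₁ j) (b₂ j) 0) :
            Submodule ℝ (Ten m)) ≤
          finrank ℝ (⨆ j : J, boxT (lineS (b₁ j) (b₂ j) t) : Submodule ℝ (Ten m))}) ∪
        {t : ℝ | ¬ finrank ℝ (⨆ j : J₀, boxT (lineS (b₁ j) (b₂ j) 1) :
            Submodule ℝ (Ten m)) ≤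
          finrank ℝ (⨆ j : J₀, boxT (lineS (b₁ j) (b₂ j) t) : Submodule ℝ (Ten m))})).Finite := by
      refine (Set.finite_iUnion fun j => Set.finite_iUnion fun i =>
        finite_bad_dim (b₁ j) (b₂ j) (hb₁ j) i).union (Set.Finite.union ?_ ?_)
      · exact Set.Finite.biUnion F.finite_toSet fun J _ => finite_bad_many b₁ b₂ J 0
      · exact finite_bad_many b₁ b₂ J₀ 1
    obtain ⟨t, ht⟩ := hfin.infinite_compl.nonempty
    rw [Set.mem_compl_iff, Set.mem_union, Set.mem_union] at ht
    obtain ⟨ht1, ht23⟩ := not_or.1 ht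
    obtain ⟨ht2, ht3⟩ := not_or.1 ht23
    refine ⟨fun j => lineS (b₁ j) (b₂ j) t, fun j i => ?_, fun J hJ => ?_⟩
    · by_contra h
      exact ht1 (Set.mem_iUnion.2 ⟨j, Set.mem_iUnion.2 ⟨i, h⟩⟩)
    · refine Submodule.eq_top_of_finrank_eq (le_antisymm (Submodule.finrank_le _) ?_)
      rcases Finset.mem_insert.1 hJ with rfl | hJ
      · by_contra h
        have h7 : (⨆ j : J, boxT (lineS (b₁ j) (b₂ j) 1) : Submodule ℝ (Ten m)) = ⊤ := by
          rw [← hJ₂]
          exact iSup_congr fun j => by rw [l1]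
        refine ht3 fun h4 => h (le_trans ?_ h4)
        rw [h7, finrank_top]
      · by_contra h
        have h7 : (⨆ j : J, boxT (lineS (b₁ j) (b₂ j) 0) : Submodule ℝ (Ten m)) = ⊤ := by
          rw [← hF₁ J hJ]
          exact iSup_congr fun j => by rw [l0]
        refine ht2 (Set.mem_iUnion₂.2 ⟨J, hJ, fun h4 => h (le_trans ?_ h4)⟩)
        rw [h7, finrank_top]

/-- The general upper bound. -/
theorem spansT_ext (hr : ∀ i, 1 ≤ r i ∧ r i ≤ m i) (i₀ : Fin n) {S s : ℕ}
    (hS : SpansT m (Function.update r i₀ (m i₀)) S) (hs : S * m i₀ ≤ s * r i₀) :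
    SpansT m r s := by
  classical
  have hr' : ∀ i, Function.update r i₀ (m i₀) i ≤ m i := by
    intro i
    by_cases h : i = i₀
    · subst h
      rw [Function.update_self]
    · rw [Function.update_of_ne h]
      exact (hr i).2
  have hm0 : 0 < m i₀ := by
    have := hr i₀
    omega
  have hr0 : 0 < r i₀ := (hr i₀).1
  -- the cyclic subsets of the coordinates of the factor `i₀`
  let inL : Fin s → Fin (m i₀) → Prop := fun j x => ∃ u : Fin (r i₀), ((j : ℕ) * r i₀ + u) % m i₀ = x
  let Jx : Fin (m i₀) → Finset (Fin s) := fun x => Finset.univ.filter fun j => inL j x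
  have hJ : ∀ x, S ≤ (Jx x).card := by
    intro x
    -- an injection of `Fin S`
    have hlt : ∀ e : Fin S, (e : ℕ) * m i₀ + x < s * r i₀ := by
      intro e
      have h3 := x.2
      calc (e : ℕ) * m i₀ + x < (e : ℕ) * m i₀ + m i₀ := by omega
        _ = ((e : ℕ) + 1) * m i₀ := by ring
        _ ≤ S * m i₀ := Nat.mul_le_mul_right _ e.2
        _ ≤ _ := hs
    let f : Fin S → Fin s := fun e => ⟨((e : ℕ) * m i₀ + x) / r i₀,
      Nat.div_lt_of_lt_mul ((hlt e).trans_eq (mul_comm _ _))⟩
    have hf : ∀ e, f e ∈ Jx x := by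
      intro e
      refine Finset.mem_filter.2 ⟨Finset.mem_univ _,
        ⟨⟨((e : ℕ) * m i₀ + x) % r i₀, Nat.mod_lt _ hr0⟩, ?_⟩⟩
      change (((e : ℕ) * m i₀ + x) / r i₀ * r i₀ + ((e : ℕ) * m i₀ + x) % r i₀) % m i₀ = _
      rw [Nat.div_add_mod', Nat.mul_add_mod']
      exact Nat.mod_eq_of_lt x.2
    have hinj : Function.Injective f := by
      intro e e' h
      have h1 : ((e : ℕ) * m i₀ + x) / r i₀ = ((e' : ℕ) * m i₀ + x) / r i₀ :=
        congrArg Fin.val h
      have hrm := (hr i₀).2
      have key : ∀ a b : ℕ, a < b → (a * m i₀ + x) / r i₀ < (b * m i₀ + x) / r i₀ := by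
        intro a b hab
        have h3 : a * m i₀ + x + r i₀ ≤ b * m i₀ + x := by
          have : (a + 1) * m i₀ ≤ b * m i₀ := Nat.mul_le_mul_right _ hab
          have e5 : (a + 1) * m i₀ = a * m i₀ + m i₀ := by ring
          omega
        calc (a * m i₀ + x) / r i₀ < (a * m i₀ + x) / r i₀ + 1 := Nat.lt_succ_self _
          _ = (a * m i₀ + x + r i₀) / r i₀ := (Nat.add_div_right _ hr0).symm
          _ ≤ _ := Nat.div_le_div_right h3
      by_contra hne
      have h2 : (e : ℕ) ≠ e' := fun h3 => hne (Fin.ext h3)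
      rcases lt_or_gt_of_ne h2 with h3 | h3
      · exact absurd h1 (key _ _ h3).ne
      · exact absurd h1 (key _ _ h3).ne'
    have := Finset.card_le_card_of_injOn (s := Finset.univ) f (fun e _ => hf e)
      (fun e _ e' _ h => hinj h)
    rwa [Finset.card_univ, Fintype.card_fin] at this
  obtain ⟨A, hA, hAtop⟩ := exists_generic hr' hS s (Finset.univ.image Jx) (by
    intro J hJ'
    obtain ⟨x, -, rfl⟩ := Finset.mem_image.1 hJ'
    exact hJ x)
  -- the new subspaces
  let L : Fin s → Submodule ℝ (Fin (m i₀) → ℝ) := fun j =>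
    span ℝ (Set.range fun u : Fin (r i₀) => fun x : Fin (m i₀) =>
      if ((j : ℕ) * r i₀ + u) % m i₀ = x then (1 : ℝ) else 0)
  have hLmem : ∀ j x, inL j x → (Pi.single x 1 : Fin (m i₀) → ℝ) ∈ L j := by
    rintro j x ⟨u, hu⟩
    refine subset_span ⟨u, ?_⟩
    funext y
    simp only [hu]
    by_cases h : y = x
    · subst h
      rw [Pi.single_eq_same, if_pos rfl]
    · rw [Pi.single_eq_of_ne h, if_neg]
      intro h3
      exact h (Fin.ext h3.symm)
  let B : Fin s → (i : Fin n) → Submodule ℝ (Fin (m i) → ℝ) := fun j =>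
    Function.update (A j) i₀ (L j)
  have hB1 : ∀ j, B j i₀ = L j := fun j => Function.update_self _ _ _
  have hB2 : ∀ j i, i ≠ i₀ → B j i = A j i := fun j i hi => Function.update_of_ne hi _ _
  refine spansT_of_le' (fun i => (hr i).2) B (fun j i => ?_) ?_
  · by_cases h : i = i₀
    · subst h
      rw [hB1]
      exact (finrank_range_le_card _).trans (by rw [Fintype.card_fin])
    · rw [hB2 j i h, hA j i, Function.update_of_ne h]
  · refine top_of_dual _ fun ψ hψ => ?_
    funext τ
    let ψ' : Ten m := fun t => if t i₀ = τ i₀ then ψ t else 0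
    have htop := hAtop (Jx (τ i₀)) (Finset.mem_image.2 ⟨τ i₀, Finset.mem_univ _, rfl⟩)
    let Λ : Ten m →ₗ[ℝ] ℝ :=
      { toFun := fun T => ∑ t, T t * ψ' t
        map_add' := fun T U => by
          simp only [Pi.add_apply, add_mul, Finset.sum_add_distrib]
        map_smul' := fun c T => by
          simp only [Pi.smul_apply, smul_eq_mul, RingHom.id_apply, Finset.mul_sum, mul_assoc] }
    have hker : (⨆ j : Jx (τ i₀), boxT (A j)) ≤ LinearMap.ker Λ := by
      refine iSup_le fun j => ?_
      unfold boxT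
      rw [span_le]
      rintro _ ⟨v, hv, rfl⟩
      rw [SetLike.mem_coe, LinearMap.mem_ker]
      change ∑ t, pureT v t * ψ' t = 0
      have hj : inL j (τ i₀) := (Finset.mem_filter.1 j.2).2
      have h1 := hψ (pureT (Function.update v i₀ (Pi.single (τ i₀) 1)))
        (Submodule.mem_iSup_of_mem (j : Fin s) (subset_span ⟨_, fun i => by
          by_cases h : i = i₀
          · subst h
            rw [Function.update_self, hB1]
            exact hLmem _ _ hj
          · rw [Function.update_of_ne h, hB2 _ i h]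
            exact hv i, rfl⟩))
      have h2 : ∑ t, pureT v t * ψ' t = v i₀ (τ i₀) *
          ∑ t, pureT (Function.update v i₀ (Pi.single (τ i₀) 1)) t * ψ t := by
        rw [Finset.mul_sum]
        refine Finset.sum_congr rfl fun t _ => ?_
        have h3 : pureT v t = v i₀ (t i₀) * ∏ i ∈ Finset.univ.erase i₀, v i (t i) := by
          unfold pureT
          exact (Finset.mul_prod_erase _ _ (Finset.mem_univ i₀)).symm
        have h4 : pureT (Function.update v i₀ (Pi.single (τ i₀) 1)) t =
            (Pi.single (τ i₀) 1 : Fin (m i₀) → ℝ) (t i₀) *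
              ∏ i ∈ Finset.univ.erase i₀, v i (t i) := by
          unfold pureT
          rw [← Finset.mul_prod_erase _ _ (Finset.mem_univ i₀), Function.update_self]
          congr 1
          refine Finset.prod_congr rfl fun i hi => ?_
          rw [Function.update_of_ne (Finset.ne_of_mem_erase hi)]
        rw [h3, h4]
        by_cases h : t i₀ = τ i₀
        · simp only [ψ', if_pos h]
          rw [h, Pi.single_eq_same]
          ring
        · simp only [ψ', if_neg h]
          rw [Pi.single_eq_of_ne h]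
          ring
      rw [h2, h1, mul_zero]
    rw [htop, top_le_iff, LinearMap.ker_eq_top] at hker
    have h5 := LinearMap.congr_fun hker (Pi.single τ 1)
    change ∑ t, (Pi.single τ 1 : Ten m) t * ψ' t = 0 at h5
    rw [Finset.sum_eq_single τ] at h5
    · rw [Pi.single_eq_same, one_mul] at h5
      simp only [ψ', if_true] at h5
      exact h5
    · intro t _ ht
      rw [Pi.single_eq_of_ne ht, zero_mul]
    · intro h6
      exact absurd (Finset.mem_univ _) h6

/-- The general upper bound for the box number. -/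
theorem boxNumber_ext (hr : ∀ i, 1 ≤ r i ∧ r i ≤ m i) (i₀ : Fin n) :
    boxNumber m r ≤
      ⌈((boxNumber m (Function.update r i₀ (m i₀)) : ℚ) * m i₀) / (r i₀ : ℚ)⌉₊ := by
  have hr' : ∀ i, 1 ≤ Function.update r i₀ (m i₀) i ∧ Function.update r i₀ (m i₀) i ≤ m i := by
    intro i
    by_cases h : i = i₀
    · subst h
      rw [Function.update_self]
      have := hr i
      omega
    · rw [Function.update_of_ne h]
      exact hr i
  have e : ((boxNumber m (Function.update r i₀ (m i₀)) : ℚ) * m i₀) =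
      ((boxNumber m (Function.update r i₀ (m i₀)) * m i₀ : ℕ) : ℚ) := by
    push_cast
    rfl
  refine (boxNumber_isLeast hr).2 (spansT_ext hr i₀ (boxNumber_isLeast hr').1 ?_)
  rw [e]
  exact (ceil_div_le_iff (hr i₀).1 _).1 le_rfl

end Pool.Agent.SubTwo
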