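import Pool.Agent.SubTwo.Form
import Pool.Agent.SubTwo.Ext

/-!
# Composition and extension of spanning families of boxes
-/

open Module Submodule Set

namespace Pool.Agent.SubTwo

open Pool.Agent.SubTyp

variable {n : ℕ} {m r : Fin n → ℕ}

theorem finrank_range_pi_le {κ : Type} [Fintype κ] {V W : Type} [AddCommGroup V] [Module ℝ V]
    [FiniteDimensional ℝ V] [AddCommGroup W] [Module ℝ W] (A : Submodule ℝ V)
    (f : (κ → A) →ₗ[ℝ] W) {k d : ℕ} (hk : Fintype.card κ ≤ k) (hd : finrank ℝ A ≤ d) :
    finrank ℝ (LinearMap.range f) ≤ k * d := by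
  refine (LinearMap.finrank_range_le _).trans ?_
  rw [finrank_pi_fintype]
  simp only [Finset.sum_const, Finset.card_univ, smul_eq_mul]
  exact Nat.mul_le_mul hk hd

/-- Composition: a factor `a` is filled by a two-factor family, at the cost of enlarging the
factor `i₀`. -/
theorem spM_comp {m' d d' : Fin n → ℕ} {i₀ a : Fin n} (hne : a ≠ i₀) {S h w γ : ℕ}
    (hS : SpM m d S) (hSp : Sp ℝ h (m a) (d' a) w γ)
    (hm : ∀ i, i ≠ i₀ → m' i ≤ m i) (hm0 : m' i₀ ≤ w * m i₀)
    (hd : ∀ i, i ≠ i₀ → i ≠ a → d i ≤ d' i) (hd0 : γ * d i₀ ≤ d' i₀) : SpM m' d' (S * h) := by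
  classical
  obtain ⟨A, hA, hA0⟩ := hS
  obtain ⟨f, g, hfg⟩ := hSp
  obtain ⟨σ, ι, hglue⟩ := exists_maps (m := m) (m' := m') i₀ w hm hm0
  -- the maps for the factor `i₀`
  let row : Fin h → Fin γ → Fin w → ℝ := fun k l y => g k (Pi.single y 1) l
  let Θ : (j : Fin S) → (k : Fin h) → (Fin γ → A j i₀) →ₗ[ℝ] Vs m' i₀ := fun j k =>
    ∑ l, ∑ y, row k l y • (ι y ∘ₗ (A j i₀).subtype ∘ₗ LinearMap.proj l)
  let B : Fin S → Fin h → (i : Fin n) → Submodule ℝ (Vs m' i) := fun j k =>
    Function.update (Function.update (fun i => (A j i).map (σ i)) a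
      (LinearMap.range (σ a ∘ₗ f k))) i₀ (LinearMap.range (Θ j k))
  have hB0 : ∀ j k, B j k i₀ = LinearMap.range (Θ j k) := fun j k => Function.update_self _ _ _
  have hB1 : ∀ j k, B j k a = LinearMap.range (σ a ∘ₗ f k) := fun j k => by
    change Function.update _ _ _ _ = _
    rw [Function.update_of_ne hne, Function.update_self]
  have hB2 : ∀ j k i, i ≠ i₀ → i ≠ a → B j k i = (A j i).map (σ i) := fun j k i h1 h2 => by
    change Function.update _ _ _ _ = _
    rw [Function.update_of_ne h1, Function.update_of_ne h2]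
  have hdim : ∀ j k i, finrank ℝ (B j k i) ≤ d' i := by
    intro j k i
    by_cases h1 : i = i₀
    · subst h1
      rw [hB0]
      exact (finrank_range_pi_le _ _ (by rw [Fintype.card_fin]) (hA j i)).trans hd0
    · by_cases h2 : i = a
      · subst h2
        rw [hB1]
        refine (LinearMap.finrank_range_le _).trans ?_
        rw [finrank_pi, Fintype.card_fin]
      · rw [hB2 j k i h1 h2]
        exact ((Submodule.finrank_map_le _ _).trans (hA j i)).trans (hd i h1 h2)
  refine ⟨fun q => B (finProdFinEquiv.symm q).1 (finProdFinEquiv.symm q).2,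
    fun q i => hdim _ _ i, fun φ hφ => ?_⟩
  · have hφ' : ∀ j k, VanOn (B j k) φ := by
      intro j k
      have := hφ (finProdFinEquiv (j, k))
      simp only [Equiv.symm_apply_apply] at this
      exact this
    refine hglue φ fun y₀ => hA0 _ fun j v hv => ?_
    -- the bilinear form
    let Φ : (Fin (m a) → ℝ) →ₗ[ℝ] (Fin w → ℝ) := LinearMap.pi fun y =>
      (φ.compLinearMap (Function.update σ i₀ (ι y))).toLinearMap v a
    have hΦ : ∀ x y, Φ x y = φ (Function.update
        (fun i => σ i (Function.update v a x i)) i₀ (ι y (v i₀))) := by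
      intro x y
      change φ _ = φ _
      congr 1
      funext i
      by_cases hi : i = i₀
      · subst hi
        rw [Function.update_self, Function.update_self, Function.update_of_ne hne.symm]
      · rw [Function.update_of_ne hi, Function.update_of_ne hi]
    have h0 : Φ = 0 := by
      refine hfg Φ fun k => ?_
      refine LinearMap.ext fun z => funext fun l => ?_
      have e1 : (g k ∘ₗ Φ ∘ₗ f k) z l = ∑ y, row k l y * Φ (f k z) y := by
        have h5 : Φ (f k z) = ∑ y, Φ (f k z) y • (Pi.single y 1 : Fin w → ℝ) := by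
          have := (Pi.basisFun ℝ (Fin w)).sum_repr (Φ (f k z))
          simp only [Pi.basisFun_repr, Pi.basisFun_apply] at this
          exact this.symm
        rw [LinearMap.comp_apply, LinearMap.comp_apply]
        conv_lhs => rw [h5, map_sum]
        rw [Finset.sum_apply]
        refine Finset.sum_congr rfl fun y _ => ?_
        rw [map_smul, Pi.smul_apply, smul_eq_mul, mul_comm]
      rw [e1]
      simp only [hΦ]
      -- one evaluation of `φ`
      have e2 : ∑ y, row k l y * φ (Function.update
          (fun i => σ i (Function.update v a (f k z) i)) i₀ (ι y (v i₀))) =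
          φ (Function.update (fun i => σ i (Function.update v a (f k z) i)) i₀
            (∑ y, row k l y • ι y (v i₀))) := by
        rw [MultilinearMap.map_update_sum]
        refine Finset.sum_congr rfl fun y _ => ?_
        rw [MultilinearMap.map_update_smul, smul_eq_mul]
      rw [e2]
      refine hφ' j k _ fun i => ?_
      by_cases h1 : i = i₀
      · subst h1
        rw [Function.update_self, hB0]
        refine ⟨Pi.single l ⟨v i, hv i⟩, ?_⟩
        simp only [Θ, LinearMap.sum_apply, LinearMap.smul_apply, LinearMap.comp_apply,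
          LinearMap.proj_apply, Submodule.subtype_apply]
        rw [Finset.sum_eq_single l]
        · rw [Pi.single_eq_same]
        · intro l' _ hl'
          refine Finset.sum_eq_zero fun y _ => ?_
          rw [Pi.single_eq_of_ne hl', Submodule.coe_zero, map_zero, smul_zero]
        · intro h
          exact absurd (Finset.mem_univ _) h
      · rw [Function.update_of_ne h1]
        by_cases h2 : i = a
        · subst h2
          rw [hB1, Function.update_self]
          exact ⟨z, rfl⟩
        · rw [hB2 j k i h1 h2, Function.update_of_ne h2]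
          exact ⟨v i, hv i, rfl⟩
    have h6 := congrFun (LinearMap.congr_fun h0 (v a)) y₀
    refine Eq.trans ?_ h6
    change φ _ = φ _
    rw [Function.update_eq_self]

/-- Extension: subfamilies are used in the layers of the factor `i₀`. -/
theorem spM_layers {m' d' : Fin n → ℕ} (i₀ : Fin n) {s w k : ℕ}
    (A : Fin s → (i : Fin n) → Submodule ℝ (Vs m i)) (hA : ∀ j i, finrank ℝ (A j i) ≤ r i)
    (J : Fin w → Finset (Fin s)) (hJ : ∀ x, ⨆ j : J x, boxT (A j) = ⊤)
    (hk : ∀ j, (Finset.univ.filter fun x => j ∈ J x).card ≤ k)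
    (hm : ∀ i, i ≠ i₀ → m' i ≤ m i) (hm0 : m' i₀ ≤ w * m i₀)
    (hd : ∀ i, i ≠ i₀ → r i ≤ d' i) (hd0 : k * r i₀ ≤ d' i₀) : SpM m' d' s := by
  classical
  obtain ⟨σ, ι, hglue⟩ := exists_maps (m := m) (m' := m') i₀ w hm hm0
  let Θ : (j : Fin s) → ({x // j ∈ J x} → A j i₀) →ₗ[ℝ] Vs m' i₀ := fun j =>
    ∑ x : {x // j ∈ J x}, ι x ∘ₗ (A j i₀).subtype ∘ₗ LinearMap.proj x
  let B : Fin s → (i : Fin n) → Submodule ℝ (Vs m' i) := fun j =>
    Function.update (fun i => (A j i).map (σ i)) i₀ (LinearMap.range (Θ j))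
  have hB0 : ∀ j, B j i₀ = LinearMap.range (Θ j) := fun j => Function.update_self _ _ _
  have hB2 : ∀ j i, i ≠ i₀ → B j i = (A j i).map (σ i) := fun j i h1 =>
    Function.update_of_ne h1 _ _
  refine ⟨B, fun j i => ?_, fun φ hφ => ?_⟩
  · by_cases h1 : i = i₀
    · subst h1
      rw [hB0]
      refine (finrank_range_pi_le _ _ ?_ (hA j i)).trans hd0
      rw [Fintype.card_subtype]
      exact hk j
    · rw [hB2 j i h1]
      exact ((Submodule.finrank_map_le _ _).trans (hA j i)).trans (hd i h1)
  · refine hglue φ fun x => (top_iff fun j : J x => A j).1 (hJ x) _ fun j v hv => ?_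
    rw [MultilinearMap.compLinearMap_apply]
    refine hφ j _ fun i => ?_
    by_cases h1 : i = i₀
    · subst h1
      rw [Function.update_self, hB0]
      refine ⟨Pi.single ⟨x, j.2⟩ ⟨v i, hv i⟩, ?_⟩
      simp only [Θ, LinearMap.sum_apply, LinearMap.comp_apply, LinearMap.proj_apply,
        Submodule.subtype_apply]
      rw [Finset.sum_eq_single ⟨x, j.2⟩]
      · rw [Pi.single_eq_same]
      · intro l' _ hl'
        rw [Pi.single_eq_of_ne hl', Submodule.coe_zero, map_zero]
      · intro h
        exact absurd (Finset.mem_univ _) h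
    · rw [Function.update_of_ne h1, hB2 j i h1]
      exact ⟨v i, hv i, rfl⟩

/-- From `S` boxes to `s ≥ S` boxes: the factor `i₀` is enlarged `s` times, the subspaces `S`
times. -/
theorem spM_more {m' d' : Fin n → ℕ} (hr : ∀ i, r i ≤ m i) (i₀ : Fin n) {S s : ℕ}
    (h : SpM m r S) (hs : S ≤ s) (hm : ∀ i, i ≠ i₀ → m' i ≤ m i) (hm0 : m' i₀ ≤ s * m i₀)
    (hd : ∀ i, i ≠ i₀ → r i ≤ d' i) (hd0 : S * r i₀ ≤ d' i₀) : SpM m' d' s := by
  classical
  rcases Nat.eq_zero_or_pos s with hs0 | hs0
  · subst hs0
    have : S = 0 := by omega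
    subst this
    refine spM_layers i₀ (r := r) (w := 0) (k := 0) (m := m) Fin.elim0 (fun j => j.elim0)
      (fun x => x.elim0) (fun x => x.elim0) (fun j => j.elim0) hm hm0 hd hd0
  -- the cyclic intervals
  let J : Fin s → Finset (Fin s) := fun x => Finset.univ.image
    fun e : Fin S => (⟨((x : ℕ) + e) % s, Nat.mod_lt _ hs0⟩ : Fin s)
  have hcard : ∀ x, S ≤ (J x).card := by
    intro x
    rw [Finset.card_image_of_injective, Finset.card_univ, Fintype.card_fin]
    intro e e' hee
    have h1 : ((x : ℕ) + e) % s = ((x : ℕ) + e') % s := congrArg Fin.val hee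
    have h2 : (e : ℕ) ≡ e' [MOD s] := Nat.ModEq.add_left_cancel' (x : ℕ) h1
    have h3 : (e : ℕ) < s := e.2.trans_le hs
    have h4 : (e' : ℕ) < s := e'.2.trans_le hs
    exact Fin.ext (Nat.ModEq.eq_of_lt_of_lt h2 h3 h4)
  have hk : ∀ j, (Finset.univ.filter fun x => j ∈ J x).card ≤ S := by
    intro j
    have h1 : (Finset.univ.filter fun x => j ∈ J x) ⊆ Finset.univ.image
        fun e : Fin S => (⟨((j : ℕ) + (s - e)) % s, Nat.mod_lt _ hs0⟩ : Fin s) := by
      intro x hx
      obtain ⟨e, -, he⟩ := Finset.mem_image.1 (Finset.mem_filter.1 hx).2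
      refine Finset.mem_image.2 ⟨e, Finset.mem_univ _, Fin.ext ?_⟩
      have h2 : ((x : ℕ) + e) % s = j := congrArg Fin.val he
      change ((j : ℕ) + (s - e)) % s = x
      have h3 : (e : ℕ) < s := e.2.trans_le hs
      have h4 := x.2
      rw [← h2, Nat.mod_add_mod]
      have h5 : (x : ℕ) + e + (s - e) = x + s := by omega
      rw [h5, Nat.add_mod_right]
      exact Nat.mod_eq_of_lt h4
    refine (Finset.card_le_card h1).trans (Finset.card_image_le.trans ?_)
    rw [Finset.card_univ, Fintype.card_fin]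
  obtain ⟨A, hA, hAtop⟩ := exists_generic hr (spansT_of_spM hr h) s (Finset.univ.image J) (by
    intro J' hJ'
    obtain ⟨x, -, rfl⟩ := Finset.mem_image.1 hJ'
    exact hcard x)
  exact spM_layers i₀ A (fun j i => (hA j i).le) J
    (fun x => hAtop (J x) (Finset.mem_image.2 ⟨x, Finset.mem_univ _, rfl⟩)) hk hm hm0 hd hd0

end Pool.Agent.SubTwo
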