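import Mathlib

/-!
# Counting matrices over finite fields
-/

open Module Matrix

namespace Pool.Agent.SubTwo

section Fact

variable {K : Type*} [Field K]

/-- rank factorization, with one-sided inverses -/
theorem exists_fact {x a y : ℕ} (M : Matrix (Fin x) (Fin a) K) (h : M.rank = y) :
    ∃ (H : Matrix (Fin x) (Fin y) K) (G : Matrix (Fin y) (Fin a) K)
      (H' : Matrix (Fin y) (Fin x) K) (G' : Matrix (Fin a) (Fin y) K),
      M = H * G ∧ H' * H = 1 ∧ G * G' = 1 := by
  classical
  let R := LinearMap.range M.mulVecLin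
  have hR : finrank K R = y := h
  let e : R ≃ₗ[K] (Fin y → K) := (Module.finBasisOfFinrankEq K R hR).equivFun
  let g : (Fin a → K) →ₗ[K] (Fin y → K) := e.toLinearMap ∘ₗ M.mulVecLin.rangeRestrict
  let f : (Fin y → K) →ₗ[K] (Fin x → K) := R.subtype ∘ₗ e.symm.toLinearMap
  have hf : LinearMap.ker f = ⊥ := by
    rw [LinearMap.ker_eq_bot]
    exact R.injective_subtype.comp e.symm.injective
  have hg : LinearMap.range g = ⊤ := by
    rw [LinearMap.range_eq_top]
    exact e.surjective.comp M.mulVecLin.surjective_rangeRestrict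
  obtain ⟨f', hf'⟩ := LinearMap.exists_leftInverse_of_injective f hf
  obtain ⟨g', hg'⟩ := LinearMap.exists_rightInverse_of_surjective g hg
  refine ⟨LinearMap.toMatrix' f, LinearMap.toMatrix' g, LinearMap.toMatrix' f',
    LinearMap.toMatrix' g', ?_, ?_, ?_⟩
  · rw [← LinearMap.toMatrix'_comp]
    have h1 : f ∘ₗ g = M.mulVecLin := by
      refine LinearMap.ext fun v => ?_
      simp only [f, g, LinearMap.comp_apply, LinearEquiv.coe_coe, LinearEquiv.symm_apply_apply]
      rfl
    rw [h1]
    exact (LinearMap.toMatrix'_toLin' M).symm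
  · rw [← LinearMap.toMatrix'_comp, hf', LinearMap.toMatrix'_id]
  · rw [← LinearMap.toMatrix'_comp, hg', LinearMap.toMatrix'_id]

theorem rank_mul_left {x y a : ℕ} {H : Matrix (Fin x) (Fin y) K} {H' : Matrix (Fin y) (Fin x) K}
    (h : H' * H = 1) (A : Matrix (Fin y) (Fin a) K) : (H * A).rank = A.rank := by
  refine le_antisymm (rank_mul_le_right _ _) ?_
  calc A.rank = (H' * (H * A)).rank := by rw [← Matrix.mul_assoc, h, Matrix.one_mul]
    _ ≤ _ := rank_mul_le_right _ _

theorem rank_mul_right {x y a : ℕ} {G : Matrix (Fin y) (Fin a) K} {G' : Matrix (Fin a) (Fin y) K}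
    (h : G * G' = 1) (A : Matrix (Fin x) (Fin y) K) : (A * G).rank = A.rank := by
  refine le_antisymm (rank_mul_le_left _ _) ?_
  calc A.rank = ((A * G) * G').rank := by rw [Matrix.mul_assoc, h, Matrix.mul_one]
    _ ≤ _ := rank_mul_le_left _ _

theorem exists_rinv {x p : ℕ} (X : Matrix (Fin x) (Fin p) K) (h : X.rank = x) :
    ∃ X' : Matrix (Fin p) (Fin x) K, X * X' = 1 := by
  obtain ⟨H, G, H', G', h1, h2, h3⟩ := exists_fact X h
  refine ⟨G' * H', ?_⟩
  have h4 : H * H' = 1 := mul_eq_one_comm.1 h2
  rw [h1, Matrix.mul_assoc, ← Matrix.mul_assoc G, h3, Matrix.one_mul, h4]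

end Fact

variable {K : Type*} [Field K] [Fintype K]

theorem two_le_card : 2 ≤ Fintype.card K := Fintype.one_lt_card

theorem gl_bound (x : ℕ) : (Fintype.card K) ^ (x * x) ≤ 2 ^ x * Nat.card (GL (Fin x) K) := by
  rw [card_GL_field]
  have h1 : ∀ i : Fin x, (Fintype.card K) ^ x ≤ 2 * ((Fintype.card K) ^ x - (Fintype.card K) ^ (i : ℕ)) := by
    intro i
    have h2 : 2 * (Fintype.card K) ^ (i : ℕ) ≤ (Fintype.card K) ^ x := by
      have h4 := two_le_card (K := K)
      calc 2 * (Fintype.card K) ^ (i : ℕ) ≤ Fintype.card K * (Fintype.card K) ^ (i : ℕ) :=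
            Nat.mul_le_mul_right _ h4
        _ = (Fintype.card K) ^ ((i : ℕ) + 1) := by ring
        _ ≤ _ := Nat.pow_le_pow_right (by omega) i.2
    omega
  calc (Fintype.card K) ^ (x * x) = ∏ _i : Fin x, (Fintype.card K) ^ x := by
        rw [Finset.prod_const, Finset.card_univ, Fintype.card_fin, pow_mul]
    _ ≤ ∏ i : Fin x, (2 * ((Fintype.card K) ^ x - (Fintype.card K) ^ (i : ℕ))) :=
        Finset.prod_le_prod' fun i _ => h1 i
    _ = _ := by
        rw [Finset.prod_mul_distrib, Finset.prod_const, Finset.card_univ, Fintype.card_fin]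

omit [Field K] in
theorem card_mat (x y : ℕ) : Fintype.card (Matrix (Fin x) (Fin y) K) =
    (Fintype.card K) ^ (x * y) := by
  have h : Fintype.card (Matrix (Fin x) (Fin y) K) = Fintype.card (Fin x → Fin y → K) :=
    Fintype.card_congr (Equiv.refl _)
  rw [h, Fintype.card_fun, Fintype.card_fun, Fintype.card_fin, Fintype.card_fin, ← pow_mul,
    mul_comm]

open Classical in
theorem card_rank_mul (x a y : ℕ) :
    (Finset.univ.filter fun M : Matrix (Fin x) (Fin a) K => M.rank = y).card *
      Nat.card (GL (Fin y) K) ≤ (Fintype.card K) ^ (x * y + y * a) := by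
  have h1 := Finset.card_mul_le_card_mul
    (r := fun (M : Matrix (Fin x) (Fin a) K)
      (P : Matrix (Fin x) (Fin y) K × Matrix (Fin y) (Fin a) K) => P.1 * P.2 = M)
    (s := Finset.univ.filter fun M : Matrix (Fin x) (Fin a) K => M.rank = y)
    (t := Finset.univ) (m := Nat.card (GL (Fin y) K)) (n := 1) ?_ ?_
  · rw [mul_one, Finset.card_univ, Fintype.card_prod, card_mat, card_mat] at h1
    rw [pow_add]
    exact h1
  · intro M hM
    obtain ⟨H, G, H', G', e1, e2, e3⟩ := exists_fact M (Finset.mem_filter.1 hM).2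
    rw [Nat.card_eq_fintype_card, ← Finset.card_univ]
    refine Finset.card_le_card_of_injOn
      (fun u : GL (Fin y) K => (H * (u⁻¹ : GL (Fin y) K).1, u.1 * G)) ?_ ?_
    · intro u _
      rw [Finset.mem_coe, Finset.mem_bipartiteAbove]
      refine ⟨Finset.mem_univ _, ?_⟩
      change H * (u⁻¹ : GL (Fin y) K).1 * (u.1 * G) = M
      rw [e1, Matrix.mul_assoc, ← Matrix.mul_assoc (u⁻¹ : GL (Fin y) K).1, Units.inv_mul,
        Matrix.one_mul]
    · intro u _ v _ huv
      have h2 : u.1 * G = v.1 * G := congrArg Prod.snd huv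
      have h3 := congrArg (· * G') h2
      simp only [Matrix.mul_assoc, e3, Matrix.mul_one] at h3
      exact Units.ext h3
  · intro P _
    rw [Finset.card_le_one]
    intro M hM N hN
    rw [Finset.mem_bipartiteBelow] at hM hN
    rw [← hM.2, ← hN.2]

open Classical in
theorem card_rank_le (x a y : ℕ) :
    (Finset.univ.filter fun M : Matrix (Fin x) (Fin a) K => M.rank = y).card *
      (Fintype.card K) ^ (y * y) ≤ 2 ^ y * (Fintype.card K) ^ (x * y + y * a) := by
  calc _ ≤ (Finset.univ.filter fun M : Matrix (Fin x) (Fin a) K => M.rank = y).card *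
        (2 ^ y * Nat.card (GL (Fin y) K)) := Nat.mul_le_mul_left _ (gl_bound y)
    _ = 2 ^ y * ((Finset.univ.filter fun M : Matrix (Fin x) (Fin a) K => M.rank = y).card *
        Nat.card (GL (Fin y) K)) := by ring
    _ ≤ _ := Nat.mul_le_mul_left _ (card_rank_mul x a y)

open Classical in
theorem card_fiber_le {x p a : ℕ} (X : Matrix (Fin x) (Fin p) K) (M : Matrix (Fin x) (Fin a) K) :
    (Finset.univ.filter fun A : Matrix (Fin p) (Fin a) K => X * A = M).card ≤
      (Fintype.card K) ^ ((p - X.rank) * a) := by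
  rcases Finset.eq_empty_or_nonempty
    (Finset.univ.filter fun A : Matrix (Fin p) (Fin a) K => X * A = M) with h | ⟨A₀, hA₀⟩
  · rw [h, Finset.card_empty]
    exact Nat.zero_le _
  · have e0 : X * A₀ = M := (Finset.mem_filter.1 hA₀).2
    have hk : Fintype.card (LinearMap.ker X.mulVecLin) = (Fintype.card K) ^ (p - X.rank) := by
      rw [Module.card_eq_pow_finrank (K := K)]
      congr 1
      have h1 := LinearMap.finrank_range_add_finrank_ker X.mulVecLin
      rw [finrank_fin_fun] at h1
      change X.rank + _ = p at h1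
      omega
    have h2 : Fintype.card (Fin a → LinearMap.ker X.mulVecLin) =
        (Fintype.card K) ^ ((p - X.rank) * a) := by
      rw [Fintype.card_fun, hk, Fintype.card_fin, pow_mul]
    rw [← h2, ← Finset.card_univ]
    refine Finset.card_le_card_of_injOn (fun A j => if h : (fun i => (A - A₀) i j) ∈
      LinearMap.ker X.mulVecLin then ⟨fun i => (A - A₀) i j, h⟩ else 0) (fun _ _ => by simp) ?_
    intro A hA B hB hAB
    have hmem : ∀ C : Matrix (Fin p) (Fin a) K, X * C = M → ∀ j,
        (fun i => (C - A₀) i j) ∈ LinearMap.ker X.mulVecLin := by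
      intro C hC j
      rw [LinearMap.mem_ker, mulVecLin_apply]
      have h3 : X * (C - A₀) = 0 := by rw [Matrix.mul_sub, hC, e0, sub_self]
      funext i
      have h4 := congrFun (congrFun h3 i) j
      exact h4
    rw [Finset.mem_coe, Finset.mem_filter] at hA hB
    ext i j
    have h5 := congrFun hAB j
    simp only at h5
    rw [dif_pos (hmem A hA.2 j), dif_pos (hmem B hB.2 j)] at h5
    have h6 := congrFun (congrArg Subtype.val h5) i
    have h7 : A i j - A₀ i j = B i j - A₀ i j := h6
    linear_combination h7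

open Classical in
/-- the matrices `A` with `rank (X A) = y`, for `X` of full row rank -/
theorem card_XA_le {x p a : ℕ} (X : Matrix (Fin x) (Fin p) K) (hX : X.rank = x) (y : ℕ) :
    (Finset.univ.filter fun A : Matrix (Fin p) (Fin a) K => (X * A).rank = y).card *
      (Fintype.card K) ^ ((a - y) * (x - y)) ≤ 2 ^ y * (Fintype.card K) ^ (p * a) := by
  have hxp : x ≤ p := by
    have := X.rank_le_width
    omega
  have hl := two_le_card (K := K)
  by_cases hy : y ≤ a ∧ y ≤ x
  · obtain ⟨hya, hyx⟩ := hy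
    have h1 := Finset.card_le_mul_card_image_of_maps_to
      (f := fun A : Matrix (Fin p) (Fin a) K => X * A)
      (s := Finset.univ.filter fun A : Matrix (Fin p) (Fin a) K => (X * A).rank = y)
      (t := Finset.univ.filter fun M : Matrix (Fin x) (Fin a) K => M.rank = y)
      (fun A hA => by
        rw [Finset.mem_filter] at hA ⊢
        exact ⟨Finset.mem_univ _, hA.2⟩) ((Fintype.card K) ^ ((p - x) * a)) (fun M _ => by
        refine (Finset.card_le_card ?_).trans ((card_fiber_le X M).trans (by rw [hX]))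
        intro A hA
        rw [Finset.mem_filter] at hA ⊢
        exact ⟨Finset.mem_univ _, hA.2⟩)
    have h2 := card_rank_le (K := K) x a y
    obtain ⟨a1, rfl⟩ : ∃ a1, a = y + a1 := ⟨a - y, by omega⟩
    obtain ⟨x1, rfl⟩ : ∃ x1, x = y + x1 := ⟨x - y, by omega⟩
    obtain ⟨p1, rfl⟩ : ∃ p1, p = y + x1 + p1 := ⟨p - (y + x1), by omega⟩
    rw [Nat.add_sub_cancel_left, Nat.add_sub_cancel_left]
    rw [Nat.add_sub_cancel_left] at h1
    have hpos : 0 < (Fintype.card K) ^ (y * y) := Nat.pow_pos (by omega)
    refine Nat.le_of_mul_le_mul_right (c := (Fintype.card K) ^ (y * y)) ?_ hpos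
    calc _ ≤ (Fintype.card K) ^ (p1 * (y + a1)) *
          (Finset.univ.filter fun M : Matrix (Fin (y + x1)) (Fin (y + a1)) K => M.rank = y).card *
          (Fintype.card K) ^ (a1 * x1) * (Fintype.card K) ^ (y * y) :=
          Nat.mul_le_mul_right _ (Nat.mul_le_mul_right _ h1)
      _ = (Fintype.card K) ^ (p1 * (y + a1)) * (Fintype.card K) ^ (a1 * x1) *
          ((Finset.univ.filter fun M : Matrix (Fin (y + x1)) (Fin (y + a1)) K =>
            M.rank = y).card * (Fintype.card K) ^ (y * y)) := by ring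
      _ ≤ (Fintype.card K) ^ (p1 * (y + a1)) * (Fintype.card K) ^ (a1 * x1) *
          (2 ^ y * (Fintype.card K) ^ ((y + x1) * y + y * (y + a1))) :=
          Nat.mul_le_mul_left _ h2
      _ = 2 ^ y * (Fintype.card K) ^ ((y + x1 + p1) * (y + a1)) *
          (Fintype.card K) ^ (y * y) := by ring
  · have : (Finset.univ.filter fun A : Matrix (Fin p) (Fin a) K => (X * A).rank = y) = ∅ := by
      rw [Finset.filter_eq_empty_iff]
      intro A _ hA
      have h1 := (X * A).rank_le_width
      have h2 := (X * A).rank_le_height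
      exact hy ⟨by omega, by omega⟩
    rw [this, Finset.card_empty, zero_mul]
    exact Nat.zero_le _

end Pool.Agent.SubTwo
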