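import Pool.Agent.SubTwo.Count

/-!
# Bad events
-/

open Module Matrix

namespace Pool.Agent.SubTwo

theorem event_le {W Y : Type*} [Fintype Y] {s : ℕ} (t : Finset W)
    (R : W → Fin s → Y → Prop) (c D : Fin s → ℕ)
    (hR : ∀ w ∈ t, ∀ j, ∀ T : Finset Y, (∀ x ∈ T, R w j x) → T.card * c j ≤ D j)
    (E : Finset (Fin s → Y)) (m : ℕ)
    (hm : ∀ ω ∈ E, ∃ T : Finset W, (∀ w ∈ T, w ∈ t ∧ ∀ j, R w j (ω j)) ∧ m ≤ T.card) :
    E.card * m * ∏ j, c j ≤ t.card * ∏ j, D j := by
  classical
  let r : (Fin s → Y) → W → Prop := fun ω w => ∀ j, R w j (ω j)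
  have h1 : E.card * m ≤ ∑ w ∈ t, (E.bipartiteBelow r w).card := by
    rw [← Finset.sum_card_bipartiteAbove_eq_sum_card_bipartiteBelow]
    calc E.card * m = ∑ _ω ∈ E, m := by rw [Finset.sum_const, smul_eq_mul]
      _ ≤ _ := Finset.sum_le_sum fun ω hω => by
          obtain ⟨T, hT, hmT⟩ := hm ω hω
          refine hmT.trans (Finset.card_le_card fun w hw => ?_)
          rw [Finset.mem_bipartiteAbove]
          exact hT w hw
  calc E.card * m * ∏ j, c j ≤ (∑ w ∈ t, (E.bipartiteBelow r w).card) * ∏ j, c j :=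
        Nat.mul_le_mul_right _ h1
    _ = ∑ w ∈ t, (E.bipartiteBelow r w).card * ∏ j, c j := Finset.sum_mul _ _ _
    _ ≤ ∑ _w ∈ t, ∏ j, D j := by
        refine Finset.sum_le_sum fun w hw => ?_
        have h2 : (E.bipartiteBelow r w).card ≤
            ∏ j, (Finset.univ.filter fun x : Y => R w j x).card := by
          rw [← Fintype.card_piFinset]
          refine Finset.card_le_card fun ω hω => ?_
          rw [Finset.mem_bipartiteBelow] at hω
          rw [Fintype.mem_piFinset]
          intro j
          rw [Finset.mem_filter]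
          exact ⟨Finset.mem_univ _, hω.2 j⟩
        calc _ ≤ (∏ j, (Finset.univ.filter fun x : Y => R w j x).card) * ∏ j, c j :=
              Nat.mul_le_mul_right _ h2
          _ = ∏ j, ((Finset.univ.filter fun x : Y => R w j x).card * c j) :=
              Finset.prod_mul_distrib.symm
          _ ≤ _ := Finset.prod_le_prod' fun j _ =>
              hR w hw j _ fun x hx => (Finset.mem_filter.1 hx).2
    _ = _ := by rw [Finset.sum_const, smul_eq_mul]

variable {K : Type*} [Field K] [Fintype K]

/-- pairs of matrices -/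
abbrev Pr (K : Type*) (p a q b : ℕ) : Type _ := Matrix (Fin p) (Fin a) K × Matrix (Fin b) (Fin q) K

theorem event1 {s p a q b x : ℕ} (y : Fin s → ℕ) (E : Finset (Fin s → Pr K p a q b))
    (hE : ∀ ω ∈ E, ∃ X : Matrix (Fin x) (Fin p) K,
      X.rank = x ∧ ∀ j, (X * (ω j).1).rank = y j) :
    E.card * (Fintype.card K) ^ (x * x + ∑ j, (a - y j) * (x - y j)) ≤
    2 ^ (x + ∑ j, y j) * (Fintype.card K) ^ (x * p) *
      ((Fintype.card K) ^ (p * a) * (Fintype.card K) ^ (b * q)) ^ s := by
  classical
  have h1 := event_le (Finset.univ.filter fun X : Matrix (Fin x) (Fin p) K => X.rank = x)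
    (fun X j (v : Pr K p a q b) => (X * v.1).rank = y j)
    (fun j => (Fintype.card K) ^ ((a - y j) * (x - y j)))
    (fun j => 2 ^ (y j) * ((Fintype.card K) ^ (p * a) * (Fintype.card K) ^ (b * q))) ?_ E
    (Nat.card (GL (Fin x) K)) ?_
  · have h2 : (Finset.univ.filter fun X : Matrix (Fin x) (Fin p) K => X.rank = x).card ≤
        (Fintype.card K) ^ (x * p) := by
      rw [← card_mat]
      exact Finset.card_le_univ _
    rw [Finset.prod_pow_eq_pow_sum, Finset.prod_mul_distrib, Finset.prod_pow_eq_pow_sum,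
      Finset.prod_const, Finset.card_univ, Fintype.card_fin] at h1
    calc _ = E.card * (Fintype.card K) ^ (x * x) *
          (Fintype.card K) ^ (∑ j, (a - y j) * (x - y j)) := by rw [pow_add]; ring
      _ ≤ E.card * (2 ^ x * Nat.card (GL (Fin x) K)) *
          (Fintype.card K) ^ (∑ j, (a - y j) * (x - y j)) :=
          Nat.mul_le_mul_right _ (Nat.mul_le_mul_left _ (gl_bound x))
      _ = 2 ^ x * (E.card * Nat.card (GL (Fin x) K) *
          (Fintype.card K) ^ (∑ j, (a - y j) * (x - y j))) := by ring
      _ ≤ 2 ^ x * ((Fintype.card K) ^ (x * p) * (2 ^ (∑ j, y j) *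
          ((Fintype.card K) ^ (p * a) * (Fintype.card K) ^ (b * q)) ^ s)) :=
          Nat.mul_le_mul_left _ (h1.trans (Nat.mul_le_mul_right _ h2))
      _ = _ := by rw [pow_add]; ring
  · intro X hX j T hT
    have h3 : T.card ≤ (Finset.univ.filter fun A : Matrix (Fin p) (Fin a) K =>
        (X * A).rank = y j).card * (Fintype.card K) ^ (b * q) := by
      rw [← card_mat, ← Finset.card_univ, ← Finset.card_product]
      refine Finset.card_le_card fun v hv => ?_
      rw [Finset.mem_product, Finset.mem_filter]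
      exact ⟨⟨Finset.mem_univ _, hT v hv⟩, Finset.mem_univ _⟩
    have h4 := card_XA_le (a := a) X (Finset.mem_filter.1 hX).2 (y j)
    calc _ ≤ (Finset.univ.filter fun A : Matrix (Fin p) (Fin a) K => (X * A).rank = y j).card *
          (Fintype.card K) ^ (b * q) * (Fintype.card K) ^ ((a - y j) * (x - y j)) :=
          Nat.mul_le_mul_right _ h3
      _ = (Finset.univ.filter fun A : Matrix (Fin p) (Fin a) K => (X * A).rank = y j).card *
          (Fintype.card K) ^ ((a - y j) * (x - y j)) * (Fintype.card K) ^ (b * q) := by ring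
      _ ≤ 2 ^ (y j) * (Fintype.card K) ^ (p * a) * (Fintype.card K) ^ (b * q) := by
          refine Nat.mul_le_mul_right _ (le_trans (le_of_eq ?_) h4)
          congr
      _ = _ := by ring
  · intro ω hω
    obtain ⟨X, hX, hXj⟩ := hE ω hω
    obtain ⟨X', hX'⟩ := exists_rinv X hX
    have hinj : Function.Injective (fun u : GL (Fin x) K => u.1 * X) := by
      intro u v huv
      have h3 := congrArg (· * X') huv
      simp only [Matrix.mul_assoc, hX', Matrix.mul_one] at h3
      exact Units.ext h3
    refine ⟨Finset.univ.image (fun u : GL (Fin x) K => u.1 * X), ?_, ?_⟩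
    · intro w hw
      obtain ⟨u, -, rfl⟩ := Finset.mem_image.1 hw
      have hu : (u⁻¹ : GL (Fin x) K).1 * u.1 = 1 := Units.inv_mul u
      refine ⟨Finset.mem_filter.2 ⟨Finset.mem_univ _, ?_⟩, fun j => ?_⟩
      · rw [rank_mul_left hu, hX]
      · rw [Matrix.mul_assoc, rank_mul_left hu, hXj j]
    · rw [Finset.card_image_of_injective _ hinj, Finset.card_univ, Nat.card_eq_fintype_card]

theorem event2 {s p a q b x : ℕ} (z : Fin s → ℕ) (E : Finset (Fin s → Pr K p a q b))
    (hE : ∀ ω ∈ E, ∃ X : Matrix (Fin x) (Fin q) K,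
      X.rank = x ∧ ∀ j, (X * (ω j).2.transpose).rank = z j) :
    E.card * (Fintype.card K) ^ (x * x + ∑ j, (b - z j) * (x - z j)) ≤
    2 ^ (x + ∑ j, z j) * (Fintype.card K) ^ (x * q) *
      ((Fintype.card K) ^ (p * a) * (Fintype.card K) ^ (b * q)) ^ s := by
  classical
  have hinj : Function.Injective (fun (ω : Fin s → Pr K p a q b) (j : Fin s) =>
      (((ω j).2.transpose, (ω j).1.transpose) : Pr K q b p a)) := by
    intro ω ω' h
    funext j
    have h3 := congrFun h j
    refine Prod.ext ?_ ?_
    · exact Matrix.transpose_injective (congrArg Prod.snd h3)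
    · exact Matrix.transpose_injective (congrArg Prod.fst h3)
  have h1 := event1 (K := K) (p := q) (a := b) (q := p) (b := a) (x := x) z
    (E.image (fun (ω : Fin s → Pr K p a q b) (j : Fin s) =>
      (((ω j).2.transpose, (ω j).1.transpose) : Pr K q b p a))) (by
      intro w hw
      obtain ⟨ω, hω, rfl⟩ := Finset.mem_image.1 hw
      exact hE ω hω)
  have h2 : (Fintype.card K) ^ (q * b) * (Fintype.card K) ^ (a * p) =
      (Fintype.card K) ^ (p * a) * (Fintype.card K) ^ (b * q) := by
    rw [mul_comm q b, mul_comm a p, mul_comm]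
  rw [h2, Finset.card_image_of_injective _ hinj] at h1
  exact h1

theorem card_pairs_le {p a q b x : ℕ} (φ : Matrix (Fin q) (Fin p) K) (hφ : φ.rank = x) (y : ℕ)
    (T : Finset (Pr K p a q b)) (hT : ∀ v ∈ T, (φ * v.1).rank = y ∧ v.2 * (φ * v.1) = 0) :
    T.card * (Fintype.card K) ^ ((a - y) * (x - y) + b * y) ≤
    2 ^ y * ((Fintype.card K) ^ (p * a) * (Fintype.card K) ^ (b * q)) := by
  classical
  have hl := two_le_card (K := K)
  rcases le_or_gt y q with hyq | hyq
  · obtain ⟨H, X, H', X', e1, e2, e3⟩ := exists_fact φ hφ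
    have hX : X.rank = x := by
      have h0 := rank_mul_left e2 X
      rw [← e1, hφ] at h0
      exact h0.symm
    have h1 := card_XA_le (a := a) X hX y
    have h2 := Finset.card_le_mul_card_image_of_maps_to
      (f := fun v : Pr K p a q b => v.1) (s := T)
      (t := Finset.univ.filter fun A : Matrix (Fin p) (Fin a) K => (X * A).rank = y)
      (fun v hv => by
        rw [Finset.mem_filter]
        refine ⟨Finset.mem_univ _, ?_⟩
        rw [← (hT v hv).1, e1, Matrix.mul_assoc, rank_mul_left e2])
      ((Fintype.card K) ^ ((q - y) * b)) (fun A hA => by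
        have hr : (φ * A).rank = y := by
          rw [e1, Matrix.mul_assoc, rank_mul_left e2]
          exact (Finset.mem_filter.1 hA).2
        have h3 := card_fiber_le (a := b) ((φ * A).transpose) (0 : Matrix (Fin a) (Fin b) K)
        rw [rank_transpose, hr] at h3
        refine le_trans ?_ h3
        refine Finset.card_le_card_of_injOn (fun v : Pr K p a q b => v.2.transpose) ?_ ?_
        · intro v hv
          rw [Finset.mem_coe, Finset.mem_filter] at hv
          rw [Finset.mem_coe, Finset.mem_filter]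
          refine ⟨Finset.mem_univ _, ?_⟩
          have h4 := (hT v hv.1).2
          rw [hv.2] at h4
          rw [← Matrix.transpose_mul, h4, Matrix.transpose_zero]
        · intro v hv w hw h4
          rw [Finset.mem_coe, Finset.mem_filter] at hv hw
          refine Prod.ext ?_ (Matrix.transpose_injective h4)
          rw [hv.2, hw.2])
    rw [pow_add]
    calc _ ≤ ((Fintype.card K) ^ ((q - y) * b) *
          (Finset.univ.filter fun A : Matrix (Fin p) (Fin a) K => (X * A).rank = y).card) *
          ((Fintype.card K) ^ ((a - y) * (x - y)) * (Fintype.card K) ^ (b * y)) :=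
          Nat.mul_le_mul_right _ h2
      _ = ((Finset.univ.filter fun A : Matrix (Fin p) (Fin a) K => (X * A).rank = y).card *
          (Fintype.card K) ^ ((a - y) * (x - y))) *
          ((Fintype.card K) ^ ((q - y) * b) * (Fintype.card K) ^ (b * y)) := by ring
      _ ≤ (2 ^ y * (Fintype.card K) ^ (p * a)) *
          ((Fintype.card K) ^ ((q - y) * b) * (Fintype.card K) ^ (b * y)) := by
          refine Nat.mul_le_mul_right _ (le_trans (le_of_eq ?_) h1)
          congr
      _ = _ := by
          rw [← pow_add]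
          have h5 : (q - y) * b + b * y = b * q := by
            obtain ⟨k, rfl⟩ : ∃ k, q = y + k := ⟨q - y, by omega⟩
            rw [Nat.add_sub_cancel_left]
            ring
          rw [h5]
          ring
  · have : T = ∅ := by
      rw [Finset.eq_empty_iff_forall_notMem]
      intro v hv
      have h1 := (φ * v.1).rank_le_height
      have h2 := (hT v hv).1
      omega
    rw [this, Finset.card_empty, zero_mul]
    exact Nat.zero_le _

theorem event3 {s p a q b x : ℕ} (hx : 1 ≤ x) (y : Fin s → ℕ)
    (E : Finset (Fin s → Pr K p a q b))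
    (hE : ∀ ω ∈ E, ∃ φ : Matrix (Fin q) (Fin p) K, φ.rank = x ∧
      ∀ j, (φ * (ω j).1).rank = y j ∧ (ω j).2 * (φ * (ω j).1) = 0) :
    E.card * (Fintype.card K - 1) *
      (Fintype.card K) ^ (x * x + ∑ j, ((a - y j) * (x - y j) + b * y j)) ≤
    2 ^ (x + ∑ j, y j) * (Fintype.card K) ^ (q * x + x * p) *
      ((Fintype.card K) ^ (p * a) * (Fintype.card K) ^ (b * q)) ^ s := by
  classical
  have h1 := event_le (Finset.univ.filter fun φ : Matrix (Fin q) (Fin p) K => φ.rank = x)
    (fun φ j (v : Pr K p a q b) => (φ * v.1).rank = y j ∧ v.2 * (φ * v.1) = 0)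
    (fun j => (Fintype.card K) ^ ((a - y j) * (x - y j) + b * y j))
    (fun j => 2 ^ (y j) * ((Fintype.card K) ^ (p * a) * (Fintype.card K) ^ (b * q))) ?_ E
    (Fintype.card K - 1) ?_
  · have h2 : (Finset.univ.filter fun φ : Matrix (Fin q) (Fin p) K => φ.rank = x).card *
      (Fintype.card K) ^ (x * x) ≤ 2 ^ x * (Fintype.card K) ^ (q * x + x * p) := by
      refine le_trans (le_of_eq ?_) (card_rank_le (K := K) q p x)
      congr
    rw [Finset.prod_pow_eq_pow_sum, Finset.prod_mul_distrib, Finset.prod_pow_eq_pow_sum,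
      Finset.prod_const, Finset.card_univ, Fintype.card_fin] at h1
    calc _ = (E.card * (Fintype.card K - 1) *
          (Fintype.card K) ^ (∑ j, ((a - y j) * (x - y j) + b * y j))) *
          (Fintype.card K) ^ (x * x) := by rw [pow_add]; ring
      _ ≤ ((Finset.univ.filter fun φ : Matrix (Fin q) (Fin p) K => φ.rank = x).card *
          (2 ^ (∑ j, y j) * ((Fintype.card K) ^ (p * a) * (Fintype.card K) ^ (b * q)) ^ s)) *
          (Fintype.card K) ^ (x * x) := Nat.mul_le_mul_right _ h1
      _ = ((Finset.univ.filter fun φ : Matrix (Fin q) (Fin p) K => φ.rank = x).card *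
          (Fintype.card K) ^ (x * x)) * (2 ^ (∑ j, y j) *
          ((Fintype.card K) ^ (p * a) * (Fintype.card K) ^ (b * q)) ^ s) := by ring
      _ ≤ (2 ^ x * (Fintype.card K) ^ (q * x + x * p)) * (2 ^ (∑ j, y j) *
          ((Fintype.card K) ^ (p * a) * (Fintype.card K) ^ (b * q)) ^ s) :=
          Nat.mul_le_mul_right _ h2
      _ = _ := by rw [pow_add 2]; ring
  · intro φ hφ j T hT
    exact card_pairs_le φ (Finset.mem_filter.1 hφ).2 (y j) T hT
  · intro ω hω
    obtain ⟨φ, hφ, hφj⟩ := hE ω hω
    have hφ0 : φ ≠ 0 := by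
      rintro rfl
      rw [Matrix.rank_zero] at hφ
      omega
    have hrk : ∀ (c : Kˣ) {k : ℕ} (M : Matrix (Fin q) (Fin k) K), ((c : K) • M).rank = M.rank :=
      fun c k M => rank_smul_of_mem_nonZeroDivisors M
        (mem_nonZeroDivisors_of_ne_zero c.ne_zero)
    have hinj : Function.Injective (fun c : Kˣ => (c : K) • φ) := by
      intro c c' h
      obtain ⟨i, k, hik⟩ : ∃ i k, φ i k ≠ 0 := by
        by_contra hcon
        push Not at hcon
        exact hφ0 (by ext i k; exact hcon i k)
      have h3 := congrFun (congrFun h i) k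
      simp only [Matrix.smul_apply, smul_eq_mul] at h3
      exact Units.ext (mul_right_cancel₀ hik h3)
    refine ⟨Finset.univ.image (fun c : Kˣ => (c : K) • φ), ?_, ?_⟩
    · intro w hw
      obtain ⟨c, -, rfl⟩ := Finset.mem_image.1 hw
      refine ⟨Finset.mem_filter.2 ⟨Finset.mem_univ _, ?_⟩, fun j => ?_⟩
      · rw [hrk, hφ]
      · rw [Matrix.smul_mul, hrk, Matrix.mul_smul, (hφj j).2, smul_zero]
        exact ⟨(hφj j).1, rfl⟩
    · rw [Finset.card_image_of_injective _ hinj, Finset.card_univ, Fintype.card_units]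

end Pool.Agent.SubTwo
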