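import Pool.Agent.SubTwo.Count2
import Pool.Agent.SubTwo.Sp

/-!
# Existence by counting, and transfer to the reals
-/

open Module Matrix

namespace Pool.Agent.SubTwo

/-- The numerical criterion. -/
def Crit (s p a q b : ℕ) : Prop :=
  ∀ (x : ℕ) (y z : Fin s → ℕ), 1 ≤ x → x ≤ p → x ≤ q → (∀ j, y j ≤ a) → (∀ j, z j ≤ b) →
    (∀ j, y j + z j ≤ x) →
    (x * p + 1 ≤ x * x + ∑ j, (a - y j) * (x - y j)) ∨
    (x * q + 1 ≤ x * x + ∑ j, (b - z j) * (x - z j)) ∨
    (x * p + x * q ≤ x * x + ∑ j, ((a - y j) * (x - y j) + b * y j))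

theorem exists_good (K : Type*) [Field K] [Fintype K] {s p a q b : ℕ} (h : Crit s p a q b)
    (hl : ((p + 1) * ((a + 1) ^ s * (b + 1) ^ s)) * 2 ^ (p + q + s * (a + b)) <
      Fintype.card K - 1) :
    ∃ ω : Fin s → Pr K p a q b, ∀ φ : Matrix (Fin q) (Fin p) K,
      (∀ j, (ω j).2 * φ * (ω j).1 = 0) → φ = 0 := by
  classical
  by_contra hcon
  push Not at hcon
  have hl2 := two_le_card (K := K)
  set L := ((Fintype.card K) ^ (p * a) * (Fintype.card K) ^ (b * q)) ^ s with hL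
  have hLpos : 0 < L := by
    rw [hL]
    positivity
  let Ty : Type := Fin (p + 1) × (Fin s → Fin (a + 1)) × (Fin s → Fin (b + 1))
  let P : Ty → (Fin s → Pr K p a q b) → Prop := fun τ ω =>
    (1 ≤ (τ.1 : ℕ) ∧ (τ.1 : ℕ) ≤ q ∧ ∀ j, (τ.2.1 j : ℕ) + (τ.2.2 j : ℕ) ≤ (τ.1 : ℕ)) ∧
    (∃ X : Matrix (Fin (τ.1 : ℕ)) (Fin p) K, X.rank = (τ.1 : ℕ) ∧
      ∀ j, (X * (ω j).1).rank = (τ.2.1 j : ℕ)) ∧
    (∃ X : Matrix (Fin (τ.1 : ℕ)) (Fin q) K, X.rank = (τ.1 : ℕ) ∧
      ∀ j, (X * (ω j).2.transpose).rank = (τ.2.2 j : ℕ)) ∧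
    (∃ φ : Matrix (Fin q) (Fin p) K, φ.rank = (τ.1 : ℕ) ∧
      ∀ j, (φ * (ω j).1).rank = (τ.2.1 j : ℕ) ∧ (ω j).2 * (φ * (ω j).1) = 0)
  have claim1 : ∀ ω, ∃ τ, P τ ω := by
    intro ω
    obtain ⟨φ, hφ, hφ0⟩ := hcon ω
    obtain ⟨H, X, H', X', e1, e2, e3⟩ := exists_fact φ rfl
    have hp : φ.rank ≤ p := φ.rank_le_width
    have hq : φ.rank ≤ q := φ.rank_le_height
    have hx1 : 1 ≤ φ.rank := by
      by_contra h0
      have h1 : φ.rank = 0 := by omega
      refine hφ0 ?_
      have h2 : finrank K (LinearMap.range φ.mulVecLin) = 0 := h1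
      rw [Submodule.finrank_eq_zero, LinearMap.range_eq_bot] at h2
      have h3 : Matrix.toLin' φ = 0 := h2
      exact (LinearEquiv.map_eq_zero_iff Matrix.toLin').1 h3
    have hXr : X.rank = φ.rank := by
      have h0 := rank_mul_left e2 X
      rw [← e1] at h0
      exact h0.symm
    have hHr : H.rank = φ.rank := by
      have h0 := rank_mul_right e3 H
      rw [← e1] at h0
      exact h0.symm
    have hy : ∀ j, (φ * (ω j).1).rank ≤ a := fun j => (φ * (ω j).1).rank_le_width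
    have hz : ∀ j, ((ω j).2 * H).rank ≤ b := fun j => ((ω j).2 * H).rank_le_height
    have hXy : ∀ j, (X * (ω j).1).rank = (φ * (ω j).1).rank := by
      intro j
      have h0 := rank_mul_left e2 (X * (ω j).1)
      rw [← Matrix.mul_assoc, ← e1] at h0
      exact h0.symm
    refine ⟨⟨⟨φ.rank, by omega⟩, fun j => ⟨(φ * (ω j).1).rank, by have := hy j; omega⟩,
      fun j => ⟨((ω j).2 * H).rank, by have := hz j; omega⟩⟩, ⟨hx1, hq, fun j => ?_⟩,
      ⟨X, hXr, hXy⟩, ⟨H.transpose, ?_, fun j => ?_⟩, ⟨φ, rfl, fun j => ⟨rfl, ?_⟩⟩⟩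
    · change (φ * (ω j).1).rank + ((ω j).2 * H).rank ≤ φ.rank
      have h1 : ((ω j).2 * H) * (X * (ω j).1) = 0 := by
        have h2 := hφ j
        rw [e1] at h2
        rw [← h2]
        simp only [Matrix.mul_assoc]
      have h3 := rank_add_rank_le_card_of_mul_eq_zero h1
      rw [Fintype.card_fin, hXy j] at h3
      omega
    · rw [rank_transpose]
      exact hHr
    · rw [← Matrix.transpose_mul, rank_transpose]
    · rw [← Matrix.mul_assoc]
      exact hφ j
  have hCbound : ∀ (τ : Ty), (∑ j, (τ.2.1 j : ℕ)) ≤ s * a ∧ (∑ j, (τ.2.2 j : ℕ)) ≤ s * b := by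
    intro τ
    constructor
    · calc ∑ j, (τ.2.1 j : ℕ) ≤ ∑ _j : Fin s, a := Finset.sum_le_sum fun j _ => by
            have := (τ.2.1 j).2
            omega
        _ = s * a := by rw [Finset.sum_const, Finset.card_univ, Fintype.card_fin, smul_eq_mul]
    · calc ∑ j, (τ.2.2 j : ℕ) ≤ ∑ _j : Fin s, b := Finset.sum_le_sum fun j _ => by
            have := (τ.2.2 j).2
            omega
        _ = s * b := by rw [Finset.sum_const, Finset.card_univ, Fintype.card_fin, smul_eq_mul]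
  have claim2 : ∀ (τ : Ty) (E : Finset (Fin s → Pr K p a q b)), (∀ ω ∈ E, P τ ω) →
      (Fintype.card K - 1) * E.card ≤ 2 ^ (p + q + s * (a + b)) * L := by
    intro τ E hE
    rcases E.eq_empty_or_nonempty with h0 | ⟨ω₀, hω₀⟩
    · rw [h0, Finset.card_empty, mul_zero]
      exact Nat.zero_le _
    obtain ⟨⟨hx1, hxq, hyz⟩, -⟩ := hE ω₀ hω₀
    have hxp : (τ.1 : ℕ) ≤ p := by
      have := τ.1.2
      omega
    obtain ⟨hC1, hC2⟩ := hCbound τ
    have hmulab : s * (a + b) = s * a + s * b := by ring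
    rcases h (τ.1 : ℕ) (fun j => (τ.2.1 j : ℕ)) (fun j => (τ.2.2 j : ℕ)) hx1 hxp hxq
      (fun j => by have := (τ.2.1 j).2; omega) (fun j => by have := (τ.2.2 j).2; omega) hyz
      with h1 | h1 | h1
    · have h2 := event1 (fun j => (τ.2.1 j : ℕ)) E fun ω hω => (hE ω hω).2.1
      have h3 : (Fintype.card K) ^ ((τ.1 : ℕ) * p) * (E.card * Fintype.card K) ≤
          (Fintype.card K) ^ ((τ.1 : ℕ) * p) * (2 ^ ((τ.1 : ℕ) + ∑ j, (τ.2.1 j : ℕ)) * L) := by
        calc _ = E.card * (Fintype.card K) ^ ((τ.1 : ℕ) * p + 1) := by rw [pow_succ]; ring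
          _ ≤ E.card * (Fintype.card K) ^ ((τ.1 : ℕ) * (τ.1 : ℕ) +
              ∑ j, (a - (τ.2.1 j : ℕ)) * ((τ.1 : ℕ) - (τ.2.1 j : ℕ))) :=
              Nat.mul_le_mul_left _ (Nat.pow_le_pow_right (by omega) h1)
          _ ≤ _ := h2
          _ = _ := by ring
      have h4 := Nat.le_of_mul_le_mul_left h3 (Nat.pow_pos (by omega))
      calc (Fintype.card K - 1) * E.card ≤ E.card * Fintype.card K := by
            rw [mul_comm]
            exact Nat.mul_le_mul_left _ (Nat.sub_le _ _)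
        _ ≤ _ := h4
        _ ≤ _ := Nat.mul_le_mul_right _ (Nat.pow_le_pow_right (by omega) (by omega))
    · have h2 := event2 (fun j => (τ.2.2 j : ℕ)) E fun ω hω => (hE ω hω).2.2.1
      have h3 : (Fintype.card K) ^ ((τ.1 : ℕ) * q) * (E.card * Fintype.card K) ≤
          (Fintype.card K) ^ ((τ.1 : ℕ) * q) * (2 ^ ((τ.1 : ℕ) + ∑ j, (τ.2.2 j : ℕ)) * L) := by
        calc _ = E.card * (Fintype.card K) ^ ((τ.1 : ℕ) * q + 1) := by rw [pow_succ]; ring
          _ ≤ E.card * (Fintype.card K) ^ ((τ.1 : ℕ) * (τ.1 : ℕ) +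
              ∑ j, (b - (τ.2.2 j : ℕ)) * ((τ.1 : ℕ) - (τ.2.2 j : ℕ))) :=
              Nat.mul_le_mul_left _ (Nat.pow_le_pow_right (by omega) h1)
          _ ≤ _ := h2
          _ = _ := by ring
      have h4 := Nat.le_of_mul_le_mul_left h3 (Nat.pow_pos (by omega))
      calc (Fintype.card K - 1) * E.card ≤ E.card * Fintype.card K := by
            rw [mul_comm]
            exact Nat.mul_le_mul_left _ (Nat.sub_le _ _)
        _ ≤ _ := h4
        _ ≤ _ := Nat.mul_le_mul_right _ (Nat.pow_le_pow_right (by omega) (by omega))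
    · have h2 := event3 hx1 (fun j => (τ.2.1 j : ℕ)) E fun ω hω => (hE ω hω).2.2.2
      have h3 : (Fintype.card K) ^ ((τ.1 : ℕ) * p + (τ.1 : ℕ) * q) *
          ((Fintype.card K - 1) * E.card) ≤
          (Fintype.card K) ^ ((τ.1 : ℕ) * p + (τ.1 : ℕ) * q) *
            (2 ^ ((τ.1 : ℕ) + ∑ j, (τ.2.1 j : ℕ)) * L) := by
        calc _ = E.card * (Fintype.card K - 1) *
              (Fintype.card K) ^ ((τ.1 : ℕ) * p + (τ.1 : ℕ) * q) := by ring
          _ ≤ E.card * (Fintype.card K - 1) * (Fintype.card K) ^ ((τ.1 : ℕ) * (τ.1 : ℕ) +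
              ∑ j, ((a - (τ.2.1 j : ℕ)) * ((τ.1 : ℕ) - (τ.2.1 j : ℕ)) + b * (τ.2.1 j : ℕ))) :=
              Nat.mul_le_mul_left _ (Nat.pow_le_pow_right (by omega) h1)
          _ ≤ _ := h2
          _ = _ := by
              rw [mul_comm q, add_comm ((τ.1 : ℕ) * q)]
              ring
      have h4 := Nat.le_of_mul_le_mul_left h3 (Nat.pow_pos (by omega))
      exact h4.trans (Nat.mul_le_mul_right _ (Nat.pow_le_pow_right (by omega) (by omega)))
  choose τ hτ using claim1
  have h5 : (Finset.univ : Finset (Fin s → Pr K p a q b)).card =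
      ∑ t : Ty, (Finset.univ.filter fun ω => τ ω = t).card :=
    Finset.card_eq_sum_card_fiberwise fun ω _ => by simp
  have h6 : (Finset.univ : Finset (Fin s → Pr K p a q b)).card = L := by
    rw [Finset.card_univ, Fintype.card_fun, Fintype.card_prod, card_mat, card_mat,
      Fintype.card_fin]
  have h7 : (Fintype.card K - 1) * L ≤
      ((p + 1) * ((a + 1) ^ s * (b + 1) ^ s)) * 2 ^ (p + q + s * (a + b)) * L := by
    rw [← h6, h5, Finset.mul_sum]
    calc _ ≤ ∑ _t : Ty, 2 ^ (p + q + s * (a + b)) * L := Finset.sum_le_sum fun t _ =>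
          claim2 t _ fun ω hω => by
            rw [← (Finset.mem_filter.1 hω).2]
            exact hτ ω
      _ = _ := by
          rw [Finset.sum_const, Finset.card_univ, smul_eq_mul, ← h5, h6]
          have h8 : Fintype.card Ty = (p + 1) * ((a + 1) ^ s * (b + 1) ^ s) := by
            simp only [Ty, Fintype.card_prod, Fintype.card_fun, Fintype.card_fin]
          rw [h8]
          ring
  have h9 := Nat.le_of_mul_le_mul_right h7 hLpos
  omega

/-- Transfer from `ℤ/ℓ` to the reals. -/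
theorem sp_transfer {l : ℕ} [Fact l.Prime] {s p a q b : ℕ} (h : Sp (ZMod l) s p a q b) :
    Sp ℝ s p a q b := by
  classical
  rw [sp_iff_matrix] at h ⊢
  obtain ⟨f, g, h⟩ := h
  -- integer lifts
  let fZ : Fin s → Matrix (Fin p) (Fin a) ℤ := fun j => (f j).map fun c => (c.val : ℤ)
  let gZ : Fin s → Matrix (Fin b) (Fin q) ℤ := fun j => (g j).map fun c => (c.val : ℤ)
  have hfZ : ∀ j i v, ((fZ j i v : ℤ) : ZMod l) = f j i v := by
    intro j i v
    simp [fZ]
  have hgZ : ∀ j i v, ((gZ j i v : ℤ) : ZMod l) = g j i v := by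
    intro j i v
    simp [gZ]
  let M : Matrix (Fin s × Fin b × Fin a) (Fin q × Fin p) ℤ :=
    Matrix.of fun J I => gZ J.1 J.2.1 I.1 * fZ J.1 I.2 J.2.2
  let Ml : Matrix (Fin s × Fin b × Fin a) (Fin q × Fin p) (ZMod l) :=
    Matrix.of fun J I => g J.1 J.2.1 I.1 * f J.1 I.2 J.2.2
  have hMl : M.map (Int.castRingHom (ZMod l)) = Ml := by
    ext J I
    simp only [M, Ml, Matrix.map_apply, Matrix.of_apply, eq_intCast, Int.cast_mul, hfZ, hgZ]
  have hinj : Function.Injective Ml.mulVec := by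
    intro v w hvw
    have h1 : Ml.mulVec (v - w) = 0 := by rw [Matrix.mulVec_sub, hvw, sub_self]
    have h2 := h (Matrix.of fun k i => (v - w) (k, i)) fun j => by
      ext u t
      have h3 := congrFun h1 (j, u, t)
      rw [Matrix.mulVec, dotProduct, Fintype.sum_prod_type] at h3
      rw [Matrix.mul_apply, Matrix.zero_apply]
      simp only [Matrix.mul_apply, Matrix.of_apply, Finset.sum_mul]
      rw [Finset.sum_comm]
      rw [Pi.zero_apply] at h3
      rw [← h3]
      refine Finset.sum_congr rfl fun k _ => Finset.sum_congr rfl fun i _ => ?_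
      simp only [Ml, Matrix.of_apply]
      ring
    have h4 : v - w = 0 := by
      funext I
      exact congrFun (congrFun h2 I.1) I.2
    exact sub_eq_zero.1 h4
  have hker : LinearMap.ker (Matrix.mulVecLin Ml) = ⊥ := LinearMap.ker_eq_bot.2 hinj
  obtain ⟨n, hn⟩ := LinearMap.exists_leftInverse_of_injective _ hker
  let Nl : Matrix (Fin q × Fin p) (Fin s × Fin b × Fin a) (ZMod l) := LinearMap.toMatrix' n
  have hN : Nl * Ml = 1 := by
    have h1 := congrArg LinearMap.toMatrix' hn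
    rw [LinearMap.toMatrix'_comp, LinearMap.toMatrix'_id] at h1
    rw [← h1]
    congr 1
    exact (LinearMap.toMatrix'_toLin' Ml).symm
  let N : Matrix (Fin q × Fin p) (Fin s × Fin b × Fin a) ℤ := Nl.map fun c => (c.val : ℤ)
  have hNl : N.map (Int.castRingHom (ZMod l)) = Nl := by
    ext I J
    simp [N]
  have hdet : (N * M).det ≠ 0 := by
    intro h0
    have h1 := congrArg (Int.castRingHom (ZMod l)) h0
    rw [RingHom.map_det, RingHom.mapMatrix_apply, Matrix.map_mul, hMl, hNl, hN, Matrix.det_one,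
      map_zero] at h1
    exact one_ne_zero h1
  refine ⟨fun j => (fZ j).map (Int.castRingHom ℝ), fun j => (gZ j).map (Int.castRingHom ℝ),
    fun φ hφ => ?_⟩
  have h1 : (M.map (Int.castRingHom ℝ)).mulVec (fun I => φ I.1 I.2) = 0 := by
    funext J
    obtain ⟨j, u, t⟩ := J
    have h2 := congrFun (congrFun (hφ j) u) t
    rw [Matrix.mul_apply, Matrix.zero_apply] at h2
    simp only [Matrix.mul_apply, Finset.sum_mul] at h2
    rw [Finset.sum_comm] at h2
    rw [Matrix.mulVec, dotProduct, Fintype.sum_prod_type, Pi.zero_apply, ← h2]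
    refine Finset.sum_congr rfl fun k _ => Finset.sum_congr rfl fun i _ => ?_
    simp only [M, Matrix.map_apply, Matrix.of_apply, eq_intCast, Int.cast_mul]
    ring
  have h2 : ((N * M).map (Int.castRingHom ℝ)).mulVec (fun I => φ I.1 I.2) = 0 := by
    rw [Matrix.map_mul, ← Matrix.mulVec_mulVec, h1, Matrix.mulVec_zero]
  have h3 : ((N * M).map (Int.castRingHom ℝ)).det ≠ 0 := by
    have h4 := RingHom.map_det (Int.castRingHom ℝ) (N * M)
    rw [RingHom.mapMatrix_apply] at h4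
    rw [← h4, eq_intCast]
    exact_mod_cast hdet
  have h5 := Matrix.eq_zero_of_mulVec_eq_zero h3 h2
  ext k i
  exact congrFun h5 (k, i)

theorem sp_count {s p a q b : ℕ} (h : Crit s p a q b) : Sp ℝ s p a q b := by
  obtain ⟨l, hl, hprime⟩ := Nat.exists_infinite_primes
    (((p + 1) * ((a + 1) ^ s * (b + 1) ^ s)) * 2 ^ (p + q + s * (a + b)) + 2)
  have : Fact l.Prime := ⟨hprime⟩
  obtain ⟨ω, hω⟩ := exists_good (ZMod l) h (by rw [ZMod.card]; omega)
  refine sp_transfer (l := l) ?_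
  rw [sp_iff_matrix]
  exact ⟨fun j => (ω j).1, fun j => (ω j).2, hω⟩

end Pool.Agent.SubTwo
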