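import Pool.Agent.SubTyp.Defs

/-!
# Box numbers: definitions

* `boxNumber m r`: the least `s` such that the tensor space of format `m` is spanned by `s` boxes
  `A₁ ⊗ ⋯ ⊗ Aₙ` with `dim Aᵢ = rᵢ`.
* `corner s k`: `1, s / (s - 1), …`, `corner s (k + 2) = 1 + 1 / (s - 1 - corner s k)`.
-/

open Module

namespace Pool.Agent.SubTwo

open Pool.Agent.SubTyp

/-- The least number of boxes `A₁ ⊗ ⋯ ⊗ Aₙ`, `dim Aᵢ = rᵢ`, that span the tensor space. -/
noncomputable def boxNumber {n : ℕ} (m r : Fin n → ℕ) : ℕ :=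
  sInf {s : ℕ | ∃ A : Fin s → (i : Fin n) → Submodule ℝ (Fin (m i) → ℝ),
    (∀ j i, finrank ℝ (A j i) = r i) ∧ ⨆ j, boxT (A j) = ⊤}

/-- The sequence `1, s / (s - 1), …` with `x ↦ 1 + 1 / (s - 1 - x)` in steps of two. -/
noncomputable def corner (s : ℕ) : ℕ → ℝ
  | 0 => 1
  | 1 => s / (s - 1)
  | k + 2 => 1 + 1 / (s - 1 - corner s k)

end Pool.Agent.SubTwo
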