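import Pool.Agent.SubTwo.Gen

/-!
# Spanning by boxes: the divisible case
-/

open Module Submodule Set
open scoped Topology

namespace Pool.Agent.SubTwo

open Pool.Agent.SubTyp

/-- the functionals on the tensor space -/
theorem top_of_dual {n : ℕ} {m : Fin n → ℕ} (B : Submodule ℝ (Ten m))
    (h : ∀ ψ : Ten m, (∀ T ∈ B, ∑ t, T t * ψ t = 0) → ψ = 0) : B = ⊤ := by
  classical
  by_contra hne
  obtain ⟨f, hf0, hf⟩ := Submodule.exists_le_ker_of_lt_top B (lt_top_iff_ne_top.2 hne)
  have hsum : ∀ T : Ten m, f T = ∑ t, T t * f (Pi.single t 1) := by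
    intro T
    have h5 : T = ∑ t, T t • (Pi.single t 1 : Ten m) := by
      have := (Pi.basisFun ℝ ((i : Fin n) → Fin (m i))).sum_repr T
      simp only [Pi.basisFun_repr, Pi.basisFun_apply] at this
      exact this.symm
    conv_lhs => rw [h5, map_sum]
    refine Finset.sum_congr rfl fun t _ => ?_
    rw [map_smul, smul_eq_mul]
  have h1 : (fun t => f (Pi.single t 1)) = (0 : Ten m) := by
    refine h _ fun T hT => ?_
    rw [← hsum]
    exact hf hT
  refine hf0 (LinearMap.ext fun T => ?_)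
  rw [hsum]
  refine Finset.sum_eq_zero fun t _ => ?_
  rw [congrFun h1 t]
  exact mul_zero _

/-- It is enough to have families of at most the required dimension. -/
theorem spansT_of_le {n : ℕ} {m r : Fin n → ℕ} (hr : ∀ i, r i ≤ m i) {s : ℕ}
    (b : Fin s → (i : Fin n) → Fin (r i) → Fin (m i) → ℝ)
    (htop : ⨆ j, boxT (fun i => span ℝ (Set.range (b j i))) = ⊤) : SpansT m r s := by
  have h1 : ∀ j i, ∃ B : Submodule ℝ (Fin (m i) → ℝ), span ℝ (Set.range (b j i)) ≤ B ∧
      finrank ℝ B = r i := by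
    intro j i
    refine enlarge (by rw [finrank_pi, Fintype.card_fin]; exact hr i) _ ?_
    exact (finrank_range_le_card _).trans (by rw [Fintype.card_fin])
  choose B hB hB' using h1
  refine ⟨B, hB', ?_⟩
  rw [eq_top_iff, ← htop]
  refine iSup_mono fun j => ?_
  unfold boxT
  refine span_mono ?_
  rintro _ ⟨v, hv, rfl⟩
  exact ⟨v, fun i => hB j i (hv i), rfl⟩

theorem spans_div {n : ℕ} {m r : Fin n → ℕ} (hr : ∀ i, 1 ≤ r i ∧ r i ≤ m i) (i₀ : Fin n)
    (hdiv : ∀ i, i ≠ i₀ → r i ∣ m i) {s : ℕ} (hs : ∏ i, m i ≤ s * ∏ i, r i) :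
    SpansT m r s := by
  classical
  -- the quotients
  set d : Fin n → ℕ := fun i => if i = i₀ then 1 else m i / r i with hd
  have hd0 : d i₀ = 1 := by simp [hd]
  have hd1 : ∀ i, i ≠ i₀ → r i * d i = m i := by
    intro i hi
    have : d i = m i / r i := by simp [hd, hi]
    rw [this]
    exact Nat.mul_div_cancel' (hdiv i hi)
  have hdpos : ∀ i, 1 ≤ d i := by
    intro i
    by_cases hi : i = i₀
    · rw [hi, hd0]
    · have h1 := hd1 i hi
      have h2 := hr i
      by_contra h3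
      have h4 : d i = 0 := by omega
      rw [h4, mul_zero] at h1
      omega
  have hDm : (∏ i, d i) * m i₀ ≤ s * r i₀ := by
    have e1 : ∏ i, m i = m i₀ * ((∏ i ∈ Finset.univ.erase i₀, r i) * ∏ i, d i) := by
      rw [← Finset.mul_prod_erase _ _ (Finset.mem_univ i₀),
        ← Finset.mul_prod_erase _ d (Finset.mem_univ i₀), hd0, one_mul,
        ← Finset.prod_mul_distrib]
      congr 1
      exact Finset.prod_congr rfl fun i hi => (hd1 i (Finset.ne_of_mem_erase hi)).symm
    have e2 : ∏ i, r i = r i₀ * ∏ i ∈ Finset.univ.erase i₀, r i :=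
      (Finset.mul_prod_erase _ _ (Finset.mem_univ i₀)).symm
    have e3 : 0 < ∏ i ∈ Finset.univ.erase i₀, r i := Finset.prod_pos fun i _ => (hr i).1
    rw [e1, e2] at hs
    refine Nat.le_of_mul_le_mul_left (c := ∏ i ∈ Finset.univ.erase i₀, r i) ?_ e3
    calc _ = m i₀ * ((∏ i ∈ Finset.univ.erase i₀, r i) * ∏ i, d i) := by ring
      _ ≤ _ := hs
      _ = _ := by ring
  have hDpos : 0 < ∏ i, d i := Finset.prod_pos fun i _ => hdpos i
  -- the weights
  let wt : Fin n → ℕ := fun i => ∏ j : Fin i, d (Fin.castLE i.is_lt.le j)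
  let cc : ((i : Fin n) → Fin (m i)) → (i : Fin n) → Fin (d i) := fun t i =>
    ⟨if i = i₀ then 0 else (t i : ℕ) / r i, by
      by_cases hi : i = i₀
      · rw [if_pos hi]
        exact hdpos i
      · rw [if_neg hi]
        have h1 := hd1 i hi
        have h2 := (t i).2
        exact Nat.div_lt_of_lt_mul (by omega)⟩
  let Wt : ((i : Fin n) → Fin (m i)) → ℕ := fun t => (finPiFinEquiv (cc t) : ℕ)
  have hWt : ∀ t, Wt t = ∑ i, (cc t i : ℕ) * wt i := fun t => finPiFinEquiv_apply (cc t)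
  have hWlt : ∀ t, Wt t < ∏ i, d i := fun t => (finPiFinEquiv (cc t)).2
  have hWinj : ∀ t t', Wt t = Wt t' → cc t = cc t' := by
    intro t t' h
    exact finPiFinEquiv.injective (Fin.ext h)
  -- the vectors
  let g : Fin s → (i : Fin n) → Fin (r i) → Fin (m i) → ℝ := fun j i e x =>
    if i = i₀ then (if ((j : ℕ) * r i + e) % m i = x then 1 else 0)
    else (if (x : ℕ) % r i = e then ((j : ℕ) : ℝ) ^ (((x : ℕ) / r i) * wt i) else 0)
  refine spansT_of_le (fun i => (hr i).2) g ?_
  refine top_of_dual _ fun ψ hψ => ?_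
  funext τ
  -- the support
  let Q : ((i : Fin n) → Fin (m i)) → Prop := fun t =>
    (∀ i, i ≠ i₀ → (t i : ℕ) % r i = (τ i : ℕ) % r i) ∧ t i₀ = τ i₀
  let P : Polynomial ℝ := ∑ t ∈ Finset.univ.filter Q, Polynomial.C (ψ t) * Polynomial.X ^ (Wt t)
  have hm0 : 0 < m i₀ := by
    have := hr i₀
    omega
  have hr0 : 0 < r i₀ := (hr i₀).1
  -- the values of P
  have hval : ∀ (j : Fin s) (e : ℕ) (he : e < r i₀), ((j : ℕ) * r i₀ + e) % m i₀ = τ i₀ →
      P.eval ((j : ℕ) : ℝ) = 0 := by
    intro j e he hje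
    let κ : (i : Fin n) → Fin (r i) := fun i =>
      ⟨if i = i₀ then e else (τ i : ℕ) % r i, by
        by_cases hi : i = i₀
        · subst hi
          rw [if_pos rfl]
          exact he
        · rw [if_neg hi]
          exact Nat.mod_lt _ (hr i).1⟩
    have h1 := hψ (pureT fun i => g j i (κ i)) (Submodule.mem_iSup_of_mem j (subset_span
      ⟨_, fun i => subset_span ⟨κ i, rfl⟩, rfl⟩))
    have h2 : ∀ t : (i : Fin n) → Fin (m i), pureT (fun i => g j i (κ i)) t =
        if Q t then ((j : ℕ) : ℝ) ^ Wt t else 0 := by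
      intro t
      unfold pureT
      by_cases hQ : Q t
      · rw [if_pos hQ, hWt, ← Finset.prod_pow_eq_pow_sum]
        refine Finset.prod_congr rfl fun i _ => ?_
        by_cases hi : i = i₀
        · subst hi
          have h3 : (cc t i : ℕ) = 0 := if_pos rfl
          have h4 : (κ i : ℕ) = e := if_pos rfl
          simp only [g, if_true]
          rw [h3, zero_mul, pow_zero, h4, hje, hQ.2, if_pos rfl]
        · have h3 : (cc t i : ℕ) = (t i : ℕ) / r i := if_neg hi
          have h4 : (κ i : ℕ) = (τ i : ℕ) % r i := if_neg hi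
          simp only [g]
          rw [if_neg hi, h4, hQ.1 i hi, if_pos rfl, h3]
      · rw [if_neg hQ]
        have h3 : (∃ i, i ≠ i₀ ∧ (t i : ℕ) % r i ≠ (τ i : ℕ) % r i) ∨ t i₀ ≠ τ i₀ := by
          by_contra hcon
          push Not at hcon
          exact hQ ⟨hcon.1, hcon.2⟩
        rcases h3 with ⟨i, hi, hne⟩ | hne
        · refine Finset.prod_eq_zero (Finset.mem_univ i) ?_
          have h4 : (κ i : ℕ) = (τ i : ℕ) % r i := if_neg hi
          simp only [g]
          rw [if_neg hi, h4, if_neg hne]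
        · refine Finset.prod_eq_zero (Finset.mem_univ i₀) ?_
          have h4 : (κ i₀ : ℕ) = e := if_pos rfl
          simp only [g, if_true]
          rw [h4, hje, if_neg]
          intro h5
          exact hne (Fin.ext h5.symm)
    rw [Polynomial.eval_finsetSum, ← h1]
    rw [Finset.sum_filter]
    refine Finset.sum_congr rfl fun t _ => ?_
    rw [h2]
    by_cases hQ : Q t
    · rw [if_pos hQ, if_pos hQ]
      simp [mul_comm]
    · rw [if_neg hQ, if_neg hQ, zero_mul]
  -- the roots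
  have hroot : ∀ e : Fin (∏ i, d i), ∃ j : Fin s, (j : ℕ) = ((e : ℕ) * m i₀ + τ i₀) / r i₀ ∧
      P.eval ((j : ℕ) : ℝ) = 0 := by
    intro e
    have h1 : (e : ℕ) * m i₀ + τ i₀ < s * r i₀ := by
      have h2 := e.2
      have h3 := (τ i₀).2
      calc (e : ℕ) * m i₀ + τ i₀ < (e : ℕ) * m i₀ + m i₀ := by omega
        _ = ((e : ℕ) + 1) * m i₀ := by ring
        _ ≤ (∏ i, d i) * m i₀ := Nat.mul_le_mul_right _ h2
        _ ≤ _ := hDm
    have h4 : ((e : ℕ) * m i₀ + τ i₀) / r i₀ < s :=
      Nat.div_lt_of_lt_mul (h1.trans_eq (mul_comm _ _))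
    refine ⟨⟨_, h4⟩, rfl, hval ⟨_, h4⟩ (((e : ℕ) * m i₀ + τ i₀) % r i₀) (Nat.mod_lt _ hr0) ?_⟩
    change (((e : ℕ) * m i₀ + τ i₀) / r i₀ * r i₀ + ((e : ℕ) * m i₀ + τ i₀) % r i₀) % m i₀ = _
    rw [Nat.div_add_mod', Nat.mul_add_mod']
    exact Nat.mod_eq_of_lt (τ i₀).2
  choose jj hjj hjj' using hroot
  have hinj : Function.Injective fun e : Fin (∏ i, d i) => (((jj e : Fin s) : ℕ) : ℝ) := by
    intro e e' h
    have h0 : (((jj e : Fin s) : ℕ) : ℝ) = (((jj e' : Fin s) : ℕ) : ℝ) := h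
    have h1 : (jj e : ℕ) = jj e' := by exact_mod_cast h0
    rw [hjj, hjj] at h1
    by_contra hne
    have h2 : (e : ℕ) ≠ e' := fun h3 => hne (Fin.ext h3)
    have hrm := (hr i₀).2
    -- different quotients
    have key : ∀ a b : ℕ, a < b → (a * m i₀ + τ i₀) / r i₀ < (b * m i₀ + τ i₀) / r i₀ := by
      intro a b hab
      have h3 : a * m i₀ + τ i₀ + r i₀ ≤ b * m i₀ + τ i₀ := by
        have : (a + 1) * m i₀ ≤ b * m i₀ := Nat.mul_le_mul_right _ hab
        have e5 : (a + 1) * m i₀ = a * m i₀ + m i₀ := by ring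
        omega
      calc (a * m i₀ + τ i₀) / r i₀ < (a * m i₀ + τ i₀) / r i₀ + 1 := Nat.lt_succ_self _
        _ = (a * m i₀ + τ i₀ + r i₀) / r i₀ := (Nat.add_div_right _ hr0).symm
        _ ≤ _ := Nat.div_le_div_right h3
    rcases lt_or_gt_of_ne h2 with h3 | h3
    · exact absurd h1 (key _ _ h3).ne
    · exact absurd h1 (key _ _ h3).ne'
  have hP0 : P = 0 := by
    refine Polynomial.eq_zero_of_natDegree_lt_card_of_eval_eq_zero P hinj hjj' ?_
    rw [Fintype.card_fin]
    have : P.natDegree ≤ (∏ i, d i) - 1 := by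
      refine Polynomial.natDegree_sum_le_of_forall_le _ _ fun t _ => ?_
      refine (Polynomial.natDegree_C_mul_X_pow_le _ _).trans ?_
      have := hWlt t
      omega
    omega
  have hcoef : P.coeff (Wt τ) = ψ τ := by
    rw [Polynomial.finsetSum_coeff, Finset.sum_eq_single τ]
    · rw [Polynomial.coeff_C_mul_X_pow, if_pos rfl]
    · intro t ht hne
      rw [Polynomial.coeff_C_mul_X_pow, if_neg]
      intro h
      refine hne ?_
      have h1 := hWinj _ _ h
      obtain ⟨h2, h3⟩ := (Finset.mem_filter.1 ht).2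
      funext i
      by_cases hi : i = i₀
      · subst hi
        exact h3
      · have h4 := congrArg (fun c => (c i : ℕ)) h1
        have h5 : (cc t i : ℕ) = (t i : ℕ) / r i := if_neg hi
        have h6 : (cc τ i : ℕ) = (τ i : ℕ) / r i := if_neg hi
        rw [h5, h6] at h4
        refine Fin.ext ?_
        rw [← Nat.div_add_mod (t i : ℕ) (r i), ← Nat.div_add_mod (τ i : ℕ) (r i), ← h4, h2 i hi]
    · intro h
      exact absurd (Finset.mem_filter.2 ⟨Finset.mem_univ _, fun _ _ => rfl, rfl⟩) h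
  rw [← hcoef, hP0, Polynomial.coeff_zero]
  rfl

end Pool.Agent.SubTwo
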