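import Mathlib

/-!
# Choosing small subspaces of the members of a spanning family
-/

open Module Submodule

namespace Pool.Agent.SubTwo

variable {W : Type*} [AddCommGroup W] [Module ℝ W] [FiniteDimensional ℝ W]

omit [FiniteDimensional ℝ W] in
theorem exists_compl_in (Z B : Submodule ℝ W) : ∃ E, E ≤ B ∧ Disjoint Z E ∧ Z ⊔ E = Z ⊔ B := by
  obtain ⟨E, h1, h2⟩ := IsModularLattice.exists_disjoint_and_sup_eq (inf_le_right : Z ⊓ B ≤ B)
  have hE : E ≤ B := h2 ▸ le_sup_right
  refine ⟨E, hE, ?_, ?_⟩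
  · rw [disjoint_iff] at h1 ⊢
    rw [eq_bot_iff, ← h1]
    exact le_inf (le_inf inf_le_left (inf_le_right.trans hE)) inf_le_right
  · refine le_antisymm (sup_le_sup_left hE _) (sup_le le_sup_left ?_)
    calc B = Z ⊓ B ⊔ E := h2.symm
      _ ≤ Z ⊔ E := sup_le_sup_right inf_le_left _

theorem finrank_sup_disj {Z E : Submodule ℝ W} (h : Disjoint Z E) :
    finrank ℝ (Z ⊔ E : Submodule ℝ W) = finrank ℝ Z + finrank ℝ E := by
  have := Submodule.finrank_sup_add_finrank_inf_eq Z E
  rw [h.eq_bot, finrank_bot] at this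
  omega

theorem finrank_finsetSup_le {ι : Type*} (E : ι → Submodule ℝ W) (T : Finset ι) :
    finrank ℝ (T.sup E : Submodule ℝ W) ≤ ∑ j ∈ T, finrank ℝ (E j) := by
  classical
  induction T using Finset.induction_on with
  | empty => simp
  | insert a T ha ih =>
    rw [Finset.sup_insert, Finset.sum_insert ha]
    exact (Submodule.finrank_add_le_finrank_add_finrank _ _).trans (by omega)

theorem exch {R E B : Submodule ℝ W} {n₂ : ℕ} (h0 : n₂ < finrank ℝ E)
    (ha : finrank ℝ (E ⊔ R : Submodule ℝ W) = finrank ℝ E + finrank ℝ R)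
    (hb : finrank ℝ W = finrank ℝ E + n₂ + finrank ℝ R) (hc : B ⊔ (E ⊔ R) = ⊤)
    (hd : finrank ℝ E + finrank ℝ R ≤ finrank ℝ (B ⊔ R : Submodule ℝ W)) :
    ∃ E' F, E' ≤ E ∧ F ≤ B ∧ finrank ℝ E' + 1 ≤ finrank ℝ E ∧ finrank ℝ F ≤ n₂ + 1 ∧
      E' ⊔ F ⊔ R = ⊤ := by
  obtain ⟨F0, hF0, hd0, hs0⟩ := exists_compl_in (E ⊔ R) B
  have hs1 : (E ⊔ R) ⊔ F0 = ⊤ := by rw [hs0, sup_comm, hc]
  have e1 := finrank_sup_disj hd0
  rw [hs1, finrank_top, ha] at e1
  have e2 : finrank ℝ F0 = n₂ := by omega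
  have hdR : Disjoint R F0 := hd0.mono_left le_sup_right
  have e3 := finrank_sup_disj hdR
  have hnot : ¬ B ≤ R ⊔ F0 := by
    intro h
    have : B ⊔ R ≤ R ⊔ F0 := sup_le h le_sup_left
    have := Submodule.finrank_mono this
    omega
  obtain ⟨w, hw, hw'⟩ := SetLike.not_le_iff_exists.1 hnot
  have hF : F0 ⊔ span ℝ {w} ≤ B := sup_le hF0 (by rwa [span_singleton_le_iff_mem])
  have hlt : R ⊔ F0 < R ⊔ (F0 ⊔ span ℝ {w}) := by
    refine lt_of_le_of_ne (sup_le_sup_left le_sup_left _) fun h => hw' ?_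
    rw [h]
    exact Submodule.mem_sup_right (Submodule.mem_sup_right (mem_span_singleton_self w))
  have e4 := Submodule.finrank_lt_finrank_of_lt hlt
  obtain ⟨E', hE', hdE, hsE⟩ := exists_compl_in (R ⊔ (F0 ⊔ span ℝ {w})) E
  have hs2 : R ⊔ (F0 ⊔ span ℝ {w}) ⊔ E' = ⊤ := by
    rw [hsE, eq_top_iff, ← hs1]
    refine sup_le (sup_le le_sup_right (le_sup_left.trans le_sup_left)) ?_
    exact (le_sup_left.trans le_sup_right).trans le_sup_left
  have e5 := finrank_sup_disj hdE
  rw [hs2, finrank_top] at e5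
  have e6 : finrank ℝ (F0 ⊔ span ℝ {w} : Submodule ℝ W) ≤ n₂ + 1 := by
    refine (Submodule.finrank_add_le_finrank_add_finrank _ _).trans ?_
    have : finrank ℝ (span ℝ {w}) ≤ 1 := (finrank_span_le_card _).trans (by simp)
    omega
  refine ⟨E', F0 ⊔ span ℝ {w}, hE', hF, by omega, e6, ?_⟩
  rw [← hs2]
  rw [sup_comm (R ⊔ _), sup_comm R, sup_assoc]

/-- every finite family has independent subspaces with the same sum -/
theorem exists_indep {ι : Type*} (B : ι → Submodule ℝ W) (T : Finset ι) :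
    ∃ E : ι → Submodule ℝ W, (∀ j, E j ≤ B j) ∧ T.sup E = T.sup B ∧
      ∑ j ∈ T, finrank ℝ (E j) ≤ finrank ℝ (T.sup B : Submodule ℝ W) := by
  classical
  induction T using Finset.induction_on with
  | empty => exact ⟨B, fun _ => le_rfl, rfl, by simp⟩
  | insert a T ha ih =>
    obtain ⟨E, h1, h2, h3⟩ := ih
    obtain ⟨F, hF, hd, hs⟩ := exists_compl_in (T.sup B) (B a)
    refine ⟨Function.update E a F, fun j => ?_, ?_, ?_⟩
    · by_cases h : j = a
      · subst h
        rw [Function.update_self]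
        exact hF
      · rw [Function.update_of_ne h]
        exact h1 j
    · rw [Finset.sup_insert, Finset.sup_insert, Function.update_self]
      have : T.sup (Function.update E a F) = T.sup E :=
        Finset.sup_congr rfl fun j hj => Function.update_of_ne (by rintro rfl; exact ha hj) _ _
      rw [this, h2, sup_comm, hs, sup_comm]
    · rw [Finset.sum_insert ha, Function.update_self, Finset.sup_insert]
      have : ∑ j ∈ T, finrank ℝ (Function.update E a F j) = ∑ j ∈ T, finrank ℝ (E j) :=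
        Finset.sum_congr rfl fun j hj => by
          rw [Function.update_of_ne (by rintro rfl; exact ha hj)]
      rw [this, sup_comm, ← hs, finrank_sup_disj hd]
      omega

theorem exists_small_aux (S : Set (Submodule ℝ W))
    (hP : ∀ B₁ ∈ S, ∀ B₂ ∈ S, ∀ X Y : Submodule ℝ W, ∃ B ∈ S,
      finrank ℝ (B₁ ⊔ X : Submodule ℝ W) ≤ finrank ℝ (B ⊔ X : Submodule ℝ W) ∧
      finrank ℝ (B₂ ⊔ Y : Submodule ℝ W) ≤ finrank ℝ (B ⊔ Y : Submodule ℝ W))
    {s c : ℕ} (hc : finrank ℝ W ≤ s * c) (k : ℕ) : ∀ (B E : Fin s → Submodule ℝ W),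
      (∀ j, B j ∈ S) → (∀ j, E j ≤ B j) → Finset.univ.sup E = ⊤ →
      ∑ j, finrank ℝ (E j) ≤ finrank ℝ W → ∑ j, (finrank ℝ (E j) - c) ≤ k →
    ∃ B' E : Fin s → Submodule ℝ W, (∀ j, B' j ∈ S) ∧ (∀ j, E j ≤ B' j) ∧
      (∀ j, finrank ℝ (E j) ≤ c) ∧ Finset.univ.sup E = ⊤ := by
  classical
  induction k with
  | zero =>
    intro B E hB hE ht hs hk
    refine ⟨B, E, hB, hE, fun j => ?_, ht⟩
    have h1 : finrank ℝ (E j) - c ≤ ∑ j, (finrank ℝ (E j) - c) :=
      Finset.single_le_sum (f := fun j => finrank ℝ (E j) - c) (fun _ _ => Nat.zero_le _)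
        (Finset.mem_univ j)
    omega
  | succ k ih =>
    intro B E hB hE ht hs hk
    by_cases hall : ∀ j, finrank ℝ (E j) ≤ c
    · exact ⟨B, E, hB, hE, hall, ht⟩
    push Not at hall
    obtain ⟨j₁, hj₁⟩ := hall
    obtain ⟨j₂, hj₂, hne⟩ : ∃ j₂, finrank ℝ (E j₂) < c ∧ j₂ ≠ j₁ := by
      by_contra hcon
      push Not at hcon
      have h1 : ∀ j, c ≤ finrank ℝ (E j) := by
        intro j
        by_contra h
        push Not at h
        have := hcon j h
        subst this
        omega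
      have h2 : ∑ _j : Fin s, c < ∑ j, finrank ℝ (E j) :=
        Finset.sum_lt_sum (fun j _ => h1 j) ⟨j₁, Finset.mem_univ _, hj₁⟩
      rw [Finset.sum_const, Finset.card_univ, Fintype.card_fin, smul_eq_mul] at h2
      omega
    set T : Finset (Fin s) := (Finset.univ.erase j₁).erase j₂ with hT
    have hm2 : j₂ ∈ Finset.univ.erase j₁ := Finset.mem_erase.2 ⟨hne, Finset.mem_univ _⟩
    have hsplit : ∀ f : Fin s → ℕ, ∑ j, f j = f j₁ + (f j₂ + ∑ j ∈ T, f j) := by
      intro f
      rw [hT, Finset.add_sum_erase _ _ hm2, Finset.add_sum_erase _ _ (Finset.mem_univ _)]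
    have hmemT : ∀ j, j ≠ j₁ → j ≠ j₂ → j ∈ T := by
      intro j h1 h2
      exact Finset.mem_erase.2 ⟨h2, Finset.mem_erase.2 ⟨h1, Finset.mem_univ _⟩⟩
    have hT1 : ∀ j ∈ T, j ≠ j₁ ∧ j ≠ j₂ := by
      intro j hj
      rw [hT, Finset.mem_erase, Finset.mem_erase] at hj
      exact ⟨hj.2.1, hj.1⟩
    set R := T.sup E with hR
    have htop : E j₁ ⊔ R ⊔ E j₂ = ⊤ := by
      rw [eq_top_iff, ← ht]
      refine Finset.sup_le fun j _ => ?_
      by_cases h1 : j = j₁
      · subst h1
        exact le_sup_left.trans le_sup_left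
      · by_cases h2 : j = j₂
        · subst h2
          exact le_sup_right
        · exact (Finset.le_sup (hmemT j h1 h2)).trans (le_sup_right.trans le_sup_left)
    have hR1 : finrank ℝ R ≤ ∑ j ∈ T, finrank ℝ (E j) := finrank_finsetSup_le E T
    have e1 := Submodule.finrank_add_le_finrank_add_finrank (E j₁ ⊔ R) (E j₂)
    have e2 := Submodule.finrank_add_le_finrank_add_finrank (E j₁) R
    rw [htop, finrank_top] at e1
    rw [hsplit] at hs
    obtain ⟨B', hB', h1, h2⟩ := hP (B j₁) (hB j₁) (B j₂) (hB j₂) R (E j₁ ⊔ R)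
    have h3 : finrank ℝ (E j₁ ⊔ R : Submodule ℝ W) ≤ finrank ℝ (B j₁ ⊔ R : Submodule ℝ W) :=
      Submodule.finrank_mono (sup_le_sup_right (hE j₁) _)
    have h4 : B' ⊔ (E j₁ ⊔ R) = ⊤ := by
      refine Submodule.eq_top_of_finrank_eq (le_antisymm (Submodule.finrank_le _) ?_)
      have h5 : B j₂ ⊔ (E j₁ ⊔ R) = ⊤ := by
        rw [eq_top_iff, ← htop]
        exact sup_le le_sup_right ((hE j₂).trans le_sup_left)
      rw [h5, finrank_top] at h2
      exact h2
    obtain ⟨E', F, hE', hF, h6, h7, h8⟩ := exch (R := R) (E := E j₁) (B := B')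
      (n₂ := finrank ℝ (E j₂)) (by omega) (by omega) (by omega) h4 (by omega)
    have hu1 : ∀ j ∈ T, Function.update (Function.update E j₁ E') j₂ F j = E j := by
      intro j hj
      rw [Function.update_of_ne (hT1 j hj).2, Function.update_of_ne (hT1 j hj).1]
    have hu2 : Function.update (Function.update E j₁ E') j₂ F j₂ = F := Function.update_self _ _ _
    have hu3 : Function.update (Function.update E j₁ E') j₂ F j₁ = E' := by
      rw [Function.update_of_ne hne.symm, Function.update_self]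
    refine ih (Function.update B j₂ B') (Function.update (Function.update E j₁ E') j₂ F)
      ?_ ?_ ?_ ?_ ?_
    · intro j
      by_cases h : j = j₂
      · subst h
        rw [Function.update_self]
        exact hB'
      · rw [Function.update_of_ne h]
        exact hB j
    · intro j
      by_cases h : j = j₂
      · subst h
        rw [Function.update_self, Function.update_self]
        exact hF
      · rw [Function.update_of_ne h, Function.update_of_ne h]
        by_cases h' : j = j₁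
        · subst h'
          rw [Function.update_self]
          exact hE'.trans (hE j)
        · rw [Function.update_of_ne h']
          exact hE j
    · rw [eq_top_iff, ← h8]
      refine sup_le (sup_le ?_ ?_) ?_
      · have := Finset.le_sup (f := Function.update (Function.update E j₁ E') j₂ F)
          (Finset.mem_univ j₁)
        rwa [hu3] at this
      · have := Finset.le_sup (f := Function.update (Function.update E j₁ E') j₂ F)
          (Finset.mem_univ j₂)
        rwa [hu2] at this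
      · rw [hR]
        refine Finset.sup_le fun j hj => ?_
        rw [← hu1 j hj]
        exact Finset.le_sup (f := Function.update (Function.update E j₁ E') j₂ F)
          (Finset.mem_univ j)
    · rw [hsplit, hu2, hu3, Finset.sum_congr rfl fun j hj => by rw [hu1 j hj]]
      omega
    · rw [hsplit] at hk ⊢
      rw [hu2, hu3, Finset.sum_congr rfl fun j hj => by rw [hu1 j hj]]
      omega

/-- If `s` members of a family with the interpolation property span `W` and `dim W ≤ s c`, then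
there are `s` subspaces of dimension at most `c`, contained in members of the family, that span. -/
theorem exists_small (S : Set (Submodule ℝ W))
    (hP : ∀ B₁ ∈ S, ∀ B₂ ∈ S, ∀ X Y : Submodule ℝ W, ∃ B ∈ S,
      finrank ℝ (B₁ ⊔ X : Submodule ℝ W) ≤ finrank ℝ (B ⊔ X : Submodule ℝ W) ∧
      finrank ℝ (B₂ ⊔ Y : Submodule ℝ W) ≤ finrank ℝ (B ⊔ Y : Submodule ℝ W))
    {s c : ℕ} (hc : finrank ℝ W ≤ s * c) (B : Fin s → Submodule ℝ W) (hB : ∀ j, B j ∈ S)
    (htop : ⨆ j, B j = ⊤) :
    ∃ B' E : Fin s → Submodule ℝ W, (∀ j, B' j ∈ S) ∧ (∀ j, E j ≤ B' j) ∧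
      (∀ j, finrank ℝ (E j) ≤ c) ∧ ⨆ j, E j = ⊤ := by
  obtain ⟨E, h1, h2, h3⟩ := exists_indep B Finset.univ
  have hu : Finset.univ.sup B = ⊤ := by
    rw [Finset.sup_univ_eq_iSup]
    exact htop
  rw [hu] at h2 h3
  rw [finrank_top] at h3
  obtain ⟨B', E', h4, h5, h6, h7⟩ := exists_small_aux S hP hc _ B E hB h1
    h2 h3 le_rfl
  exact ⟨B', E', h4, h5, h6, by rw [← h7, Finset.sup_univ_eq_iSup]⟩

end Pool.Agent.SubTwo
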