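import Pool.Agent.SubTyp.Typical
import Pool.Agent.SubTwo.Exch

/-!
# Flattening along the last factor
-/

open Module Submodule Set
open scoped LinearAlgebra.Projectivization Topology

namespace Pool.Agent.SubTwo

open Pool.Agent.SubTyp

/-- subspaces can be enlarged to a given dimension -/
theorem enlarge {V : Type*} [AddCommGroup V] [Module ℝ V] [FiniteDimensional ℝ V] {a : ℕ}
    (ha : a ≤ finrank ℝ V) (A : Submodule ℝ V) (hA : finrank ℝ A ≤ a) :
    ∃ B, A ≤ B ∧ finrank ℝ B = a := by
  obtain ⟨k, hk⟩ : ∃ k, a = finrank ℝ A + k := ⟨a - finrank ℝ A, by omega⟩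
  clear hA
  induction k generalizing A with
  | zero => exact ⟨A, le_rfl, by omega⟩
  | succ k ih =>
    have hne : A ≠ ⊤ := by
      rintro rfl
      rw [finrank_top] at hk
      omega
    obtain ⟨x, -, hx⟩ := SetLike.exists_of_lt (lt_top_iff_ne_top.2 hne)
    have h1 : A < A ⊔ span ℝ {x} := by
      refine lt_of_le_of_ne le_sup_left fun h => hx ?_
      rw [h]
      exact Submodule.mem_sup_right (mem_span_singleton_self x)
    have h2 := Submodule.finrank_lt_finrank_of_lt h1
    have h3 := Submodule.finrank_add_le_finrank_add_finrank A (span ℝ {x})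
    have h4 : finrank ℝ (span ℝ {x}) ≤ 1 := (finrank_span_le_card _).trans (by simp)
    obtain ⟨B, hB, hB'⟩ := ih (A ⊔ span ℝ {x}) (by omega)
    exact ⟨B, le_sup_left.trans hB, hB'⟩

/-- the families of subspaces of dimensions `r i` -/
abbrev FamT {n : ℕ} (m r : Fin n → ℕ) : Type :=
  {A : (i : Fin n) → Submodule ℝ (Fin (m i) → ℝ) // ∀ i, finrank ℝ (A i) = r i}

/-- the box of a family -/
def famK {n : ℕ} (m r : Fin n → ℕ) (A : FamT m r) : Submodule ℝ (Ten m) := boxT A.1

theorem subVar_eq {n : ℕ} (m r : Fin n → ℕ) : SubVar m r = famSet (famK m r) := by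
  ext p
  constructor
  · rintro ⟨A, hA, hp⟩
    exact ⟨⟨A, hA⟩, hp⟩
  · rintro ⟨A, hp⟩
    exact ⟨A.1, A.2, hp⟩

theorem nonempty_fam {n : ℕ} {m r : Fin n → ℕ} (hr : ∀ i, r i ≤ m i) : Nonempty (FamT m r) := by
  have : ∀ i, ∃ A : Submodule ℝ (Fin (m i) → ℝ), finrank ℝ A = r i := by
    intro i
    obtain ⟨A, -, hA⟩ := enlarge (a := r i) (V := Fin (m i) → ℝ)
      (by rw [finrank_pi, Fintype.card_fin]; exact hr i) ⊥ (by rw [finrank_bot]; exact Nat.zero_le _)
    exact ⟨A, hA⟩
  choose A hA using this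
  exact ⟨⟨A, hA⟩⟩

/-- `s` boxes span the tensor space -/
def SpansT {n : ℕ} (m r : Fin n → ℕ) (s : ℕ) : Prop :=
  ∃ A : Fin s → (i : Fin n) → Submodule ℝ (Fin (m i) → ℝ),
    (∀ j i, finrank ℝ (A j i) = r i) ∧ ⨆ j, boxT (A j) = ⊤

theorem spansT_mono {n : ℕ} {m r : Fin n → ℕ} (hr : ∀ i, r i ≤ m i) {s t : ℕ} (hst : s ≤ t)
    (h : SpansT m r s) : SpansT m r t := by
  obtain ⟨A, hA, htop⟩ := h
  obtain ⟨⟨A0, hA0⟩⟩ := nonempty_fam hr
  refine ⟨fun j => if h : j.1 < s then A ⟨j.1, h⟩ else A0, fun j i => ?_, ?_⟩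
  · by_cases h : j.1 < s
    · exact (congrArg (fun B : (i : Fin n) → Submodule ℝ (Fin (m i) → ℝ) => finrank ℝ (B i))
        (dif_pos h)).trans (hA ⟨j.1, h⟩ i)
    · exact (congrArg (fun B : (i : Fin n) → Submodule ℝ (Fin (m i) → ℝ) => finrank ℝ (B i))
        (dif_neg h)).trans (hA0 i)
  · rw [eq_top_iff, ← htop]
    refine iSup_le fun j => ?_
    refine le_iSup_of_le (Fin.castLE hst j) ?_
    simp

variable {n : ℕ} {m : Fin (n + 1) → ℕ}

/-- the format of the first factors -/
abbrev ini (m : Fin (n + 1) → ℕ) : Fin n → ℕ := fun i => m i.castSucc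

/-- the slices along the last factor -/
def slice (x : Fin (m (Fin.last n))) : Ten m →ₗ[ℝ] Ten (ini m) where
  toFun T := fun t => T (Fin.snoc (α := fun i => Fin (m i)) t x)
  map_add' _ _ := rfl
  map_smul' _ _ := rfl

theorem slice_apply (x : Fin (m (Fin.last n))) (T : Ten m) (t : (i : Fin n) → Fin (ini m i)) :
    slice x T t = T (Fin.snoc (α := fun i => Fin (m i)) t x) := rfl

/-- the tensor with given slices -/
def unslice (e : Fin (m (Fin.last n)) → Ten (ini m)) : Ten m :=
  fun t => e (t (Fin.last n)) (fun i => t i.castSucc)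

theorem slice_unslice (e : Fin (m (Fin.last n)) → Ten (ini m)) (x : Fin (m (Fin.last n))) :
    slice x (unslice e) = e x := by
  funext t
  rw [slice_apply]
  unfold unslice
  rw [Fin.snoc_last]
  congr 1
  funext i
  exact Fin.snoc_castSucc (α := fun i => Fin (m i)) x t i

theorem ext_slice {T U : Ten m} (h : ∀ x, slice x T = slice x U) : T = U := by
  funext t
  have h1 := congrFun (h (t (Fin.last n))) (Fin.init (α := fun i => Fin (m i)) t)
  rw [slice_apply, slice_apply, Fin.snoc_init_self] at h1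
  exact h1

theorem slice_pure (v : (i : Fin (n + 1)) → Fin (m i) → ℝ) (x : Fin (m (Fin.last n))) :
    slice x (pureT v) = v (Fin.last n) x • pureT (m := ini m) (fun i : Fin n => v i.castSucc) := by
  funext t
  rw [slice_apply, Pi.smul_apply, smul_eq_mul]
  unfold pureT
  rw [Fin.prod_univ_castSucc, mul_comm]
  congr 1
  · rw [Fin.snoc_last]
  · refine Finset.prod_congr rfl fun i _ => ?_
    rw [Fin.snoc_castSucc (α := fun i => Fin (m i)) x t i]

theorem slice_mem {A : (i : Fin (n + 1)) → Submodule ℝ (Fin (m i) → ℝ)} {T : Ten m}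
    (hT : T ∈ boxT A) (x : Fin (m (Fin.last n))) :
    slice x T ∈ boxT (m := ini m) (fun i : Fin n => A i.castSucc) := by
  have h : boxT A ≤ (boxT (m := ini m) (fun i : Fin n => A i.castSucc)).comap (slice x) := by
    unfold boxT
    rw [span_le]
    rintro _ ⟨v, hv, rfl⟩
    rw [SetLike.mem_coe, Submodule.mem_comap, slice_pure]
    exact Submodule.smul_mem _ _ (subset_span ⟨_, fun i => hv _, rfl⟩)
  exact h hT

/-- the tensor product of a tensor in the first factors with a vector of the last one -/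
def tens (w : Fin (m (Fin.last n)) → ℝ) : Ten (ini m) →ₗ[ℝ] Ten m where
  toFun u := fun t => u (fun i => t i.castSucc) * w (t (Fin.last n))
  map_add' u v := by
    funext t
    simp only [Pi.add_apply, add_mul]
  map_smul' c u := by
    funext t
    simp only [Pi.smul_apply, smul_eq_mul, mul_assoc, RingHom.id_apply]

theorem slice_tens (w : Fin (m (Fin.last n)) → ℝ) (u : Ten (ini m)) (x : Fin (m (Fin.last n))) :
    slice x (tens w u) = w x • u := by
  funext t
  rw [slice_apply, Pi.smul_apply, smul_eq_mul, mul_comm]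
  change u _ * w _ = _
  rw [Fin.snoc_last]
  congr 2
  funext i
  exact Fin.snoc_castSucc (α := fun i => Fin (m i)) x t i

/-- the family with a given last member -/
def snocS (A : (i : Fin n) → Submodule ℝ (Fin (ini m i) → ℝ))
    (C : Submodule ℝ (Fin (m (Fin.last n)) → ℝ)) :
    (i : Fin (n + 1)) → Submodule ℝ (Fin (m i) → ℝ) :=
  Fin.snoc (α := fun i => Submodule ℝ (Fin (m i) → ℝ)) A C

theorem tens_mem {A : (i : Fin n) → Submodule ℝ (Fin (ini m i) → ℝ)}
    {C : Submodule ℝ (Fin (m (Fin.last n)) → ℝ)} {w : Fin (m (Fin.last n)) → ℝ} (hw : w ∈ C)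
    {u : Ten (ini m)} (hu : u ∈ boxT A) : tens w u ∈ boxT (snocS A C) := by
  have h : boxT A ≤ (boxT (snocS A C)).comap (tens w) := by
    unfold boxT
    rw [span_le]
    rintro _ ⟨v, hv, rfl⟩
    rw [SetLike.mem_coe, Submodule.mem_comap]
    refine subset_span ⟨Fin.snoc (α := fun i => Fin (m i) → ℝ) v w, fun i => ?_, ?_⟩
    · refine Fin.lastCases ?_ (fun i => ?_) i
      · unfold snocS
        rw [Fin.snoc_last, Fin.snoc_last]
        exact hw
      · unfold snocS
        rw [Fin.snoc_castSucc (α := fun i => Fin (m i) → ℝ),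
          Fin.snoc_castSucc (α := fun i => Submodule ℝ (Fin (m i) → ℝ))]
        exact hv i
    · refine ext_slice fun x => ?_
      rw [slice_tens, slice_pure, Fin.snoc_last]
      congr 2
      funext i
      exact (Fin.snoc_castSucc (α := fun i => Fin (m i) → ℝ) w v i).symm
  exact h hu

theorem finrank_snocS {r : Fin (n + 1) → ℕ}
    {A : (i : Fin n) → Submodule ℝ (Fin (ini m i) → ℝ)}
    {C : Submodule ℝ (Fin (m (Fin.last n)) → ℝ)} (hA : ∀ i, finrank ℝ (A i) = r i.castSucc)
    (hC : finrank ℝ C = r (Fin.last n)) (i : Fin (n + 1)) : finrank ℝ (snocS A C i) = r i := by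
  refine Fin.lastCases ?_ (fun i => ?_) i
  · unfold snocS
    rw [Fin.snoc_last]
    exact hC
  · unfold snocS
    rw [Fin.snoc_castSucc (α := fun i => Submodule ℝ (Fin (m i) → ℝ))]
    exact hA i

/-- A tensor with slices in a small subspace of a box lies in a box. -/
theorem mem_of_small {A : (i : Fin n) → Submodule ℝ (Fin (ini m i) → ℝ)}
    {E : Submodule ℝ (Ten (ini m))} {c : ℕ} (hE : E ≤ boxT A) (hc : finrank ℝ E ≤ c)
    (hcm : c ≤ m (Fin.last n)) (T : Ten m) (hT : ∀ x, slice x T ∈ E) :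
    ∃ C : Submodule ℝ (Fin (m (Fin.last n)) → ℝ), finrank ℝ C = c ∧ T ∈ boxT (snocS A C) := by
  let e := Module.finBasis ℝ E
  let w : Fin (finrank ℝ E) → Fin (m (Fin.last n)) → ℝ := fun k x => e.repr ⟨slice x T, hT x⟩ k
  obtain ⟨C, hC, hC'⟩ := enlarge (a := c) (V := Fin (m (Fin.last n)) → ℝ)
    (by rw [finrank_pi, Fintype.card_fin]; exact hcm) (span ℝ (Set.range w)) (by
      refine (finrank_range_le_card w).trans ?_
      rw [Fintype.card_fin]
      exact hc)
  refine ⟨C, hC', ?_⟩
  have hTT : T = ∑ k, tens (w k) (e k : Ten (ini m)) := by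
    refine ext_slice fun x => ?_
    rw [map_sum]
    simp only [slice_tens]
    have h1 := congrArg Subtype.val (e.sum_repr ⟨slice x T, hT x⟩)
    rw [AddSubmonoidClass.coe_finsetSum] at h1
    exact h1.symm
  rw [hTT]
  exact Submodule.sum_mem _ fun k _ =>
    tens_mem (hC (subset_span ⟨k, rfl⟩)) (hE (e k).2)

/-- Upper bound for all tensors. -/
theorem all_rankLE {r : Fin (n + 1) → ℕ} (hr : ∀ i, r i ≤ m i) {s : ℕ}
    (A : Fin s → (i : Fin n) → Submodule ℝ (Fin (ini m i) → ℝ))
    (hA : ∀ j i, finrank ℝ (A j i) = r i.castSucc)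
    (E : Fin s → Submodule ℝ (Ten (ini m))) (hE : ∀ j, E j ≤ boxT (A j))
    (hc : ∀ j, finrank ℝ (E j) ≤ r (Fin.last n)) (htop : ⨆ j, E j = ⊤) (T : Ten m) :
    T ∈ RankLE (famK m r) s := by
  classical
  let Φ : ((j : Fin s) → E j) →ₗ[ℝ] Ten (ini m) :=
    ∑ j, (E j).subtype ∘ₗ LinearMap.proj (φ := fun j => (E j : Type)) j
  have hΦ : ∀ f, Φ f = ∑ j, (f j : Ten (ini m)) := by
    intro f
    simp only [Φ, LinearMap.sum_apply]
    rfl
  have hsurj : LinearMap.range Φ = ⊤ := by
    rw [eq_top_iff, ← htop]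
    refine iSup_le fun j => ?_
    intro u hu
    refine ⟨Pi.single j ⟨u, hu⟩, ?_⟩
    rw [hΦ, Finset.sum_eq_single j]
    · rw [Pi.single_eq_same]
    · intro j' _ hj'
      rw [Pi.single_eq_of_ne hj']
      rfl
    · intro h
      exact absurd (Finset.mem_univ j) h
  obtain ⟨σ, hσ⟩ := Φ.exists_rightInverse_of_surjective hsurj
  have hσ' : ∀ u, ∑ j, (σ u j : Ten (ini m)) = u := by
    intro u
    rw [← hΦ]
    exact LinearMap.congr_fun hσ u
  have h1 : ∀ j, ∃ C : Submodule ℝ (Fin (m (Fin.last n)) → ℝ), finrank ℝ C = r (Fin.last n) ∧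
      unslice (fun x => (σ (slice x T) j : Ten (ini m))) ∈ boxT (snocS (A j) C) := by
    intro j
    refine mem_of_small (hE j) (hc j) (hr _) _ fun x => ?_
    rw [slice_unslice]
    exact (σ (slice x T) j).2
  choose C hC hCT using h1
  refine ⟨fun j => ⟨snocS (A j) (C j), finrank_snocS (hA j) (hC j)⟩, ?_⟩
  have h2 : T = ∑ j, unslice (fun x => (σ (slice x T) j : Ten (ini m))) := by
    refine ext_slice fun x => ?_
    rw [map_sum]
    simp only [slice_unslice]
    exact (hσ' _).symm
  rw [h2]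
  exact Submodule.sum_mem _ fun j _ => Submodule.mem_iSup_of_mem j (hCT j)

/-- Lower bound, first part: the first factors. -/
theorem spans_of_rankLE {r : Fin (n + 1) → ℕ} {s : ℕ} {T : Ten m}
    (hT : T ∈ RankLE (famK m r) s) (hfull : span ℝ (Set.range fun x => slice x T) = ⊤) :
    SpansT (ini m) (ini r) s := by
  obtain ⟨A, hA⟩ := hT
  refine ⟨fun j i => (A j).1 i.castSucc, fun j i => (A j).2 _, ?_⟩
  rw [eq_top_iff, ← hfull, span_le]
  rintro _ ⟨x, rfl⟩
  have h : (⨆ j, famK m r (A j)) ≤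
      (⨆ j, boxT (m := ini m) (fun i : Fin n => (A j).1 i.castSucc)).comap (slice x) := by
    refine iSup_le fun j => ?_
    intro U hU
    exact Submodule.mem_iSup_of_mem j (slice_mem hU x)
  exact h hA

theorem finrank_slices_le {A : (i : Fin (n + 1)) → Submodule ℝ (Fin (m i) → ℝ)} {T : Ten m}
    (hT : T ∈ boxT A) :
    finrank ℝ (span ℝ (Set.range fun x => slice x T)) ≤ finrank ℝ (A (Fin.last n)) := by
  let Φ : (Fin (m (Fin.last n)) → ℝ) →ₗ[ℝ] Module.Dual ℝ (A (Fin.last n)) :=
    { toFun := fun ξ =>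
        { toFun := fun y => ∑ x, (y : Fin (m (Fin.last n)) → ℝ) x * ξ x
          map_add' := fun y y' => by
            simp only [Submodule.coe_add, Pi.add_apply, add_mul, Finset.sum_add_distrib]
          map_smul' := fun c y => by
            simp only [Submodule.coe_smul, Pi.smul_apply, smul_eq_mul, RingHom.id_apply,
              Finset.mul_sum, mul_assoc] }
      map_add' := fun ξ ξ' => by
        refine LinearMap.ext fun y => ?_
        change ∑ x, (y : Fin (m (Fin.last n)) → ℝ) x * (ξ + ξ') x =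
          ∑ x, (y : Fin (m (Fin.last n)) → ℝ) x * ξ x +
            ∑ x, (y : Fin (m (Fin.last n)) → ℝ) x * ξ' x
        simp only [Pi.add_apply, mul_add, Finset.sum_add_distrib]
      map_smul' := fun c ξ => by
        refine LinearMap.ext fun y => ?_
        change ∑ x, (y : Fin (m (Fin.last n)) → ℝ) x * (c • ξ) x =
          c * ∑ x, (y : Fin (m (Fin.last n)) → ℝ) x * ξ x
        rw [Finset.mul_sum]
        refine Finset.sum_congr rfl fun x _ => ?_
        rw [Pi.smul_apply, smul_eq_mul]
        ring }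
  let F : (Fin (m (Fin.last n)) → ℝ) →ₗ[ℝ] Ten (ini m) :=
    Fintype.linearCombination ℝ (fun x => slice x T)
  have hF : ∀ ξ, F ξ = ∑ x, ξ x • slice x T := fun ξ => rfl
  have hle : LinearMap.ker Φ ≤ LinearMap.ker F := by
    intro ξ hξ
    rw [LinearMap.mem_ker] at hξ ⊢
    have hann : ∀ y ∈ A (Fin.last n), ∑ x, y x * ξ x = 0 := fun y hy =>
      LinearMap.congr_fun hξ ⟨y, hy⟩
    rw [hF]
    refine Submodule.span_induction ?_ ?_ ?_ ?_ hT
    · rintro _ ⟨v, hv, rfl⟩
      simp only [slice_pure, smul_smul]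
      rw [← Finset.sum_smul]
      have := hann _ (hv (Fin.last n))
      have h2 : ∑ x, ξ x * v (Fin.last n) x = 0 := by
        rw [← this]
        exact Finset.sum_congr rfl fun x _ => mul_comm _ _
      rw [h2, zero_smul]
    · simp
    · intro U V _ _ h1 h2
      simp only [map_add, smul_add, Finset.sum_add_distrib]
      rw [h1, h2, add_zero]
    · intro c U _ h1
      simp only [map_smul]
      have : ∑ x, ξ x • c • slice x U = c • ∑ x, ξ x • slice x U := by
        rw [Finset.smul_sum]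
        exact Finset.sum_congr rfl fun x _ => smul_comm _ _ _
      rw [this, h1, smul_zero]
  have h1 := LinearMap.finrank_range_add_finrank_ker Φ
  have h2 := LinearMap.finrank_range_add_finrank_ker F
  have h3 := Submodule.finrank_mono hle
  have h4 := Submodule.finrank_le (LinearMap.range Φ)
  rw [Subspace.dual_finrank_eq] at h4
  have h5 : LinearMap.range F = span ℝ (Set.range fun x => slice x T) :=
    Fintype.range_linearCombination ℝ (fun x => slice x T)
  rw [← h5]
  omega

/-- Lower bound, second part: the last factor. -/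
theorem le_of_rankLE {r : Fin (n + 1) → ℕ} {s : ℕ} {T : Ten m}
    (hT : T ∈ RankLE (famK m r) s) (hfull : span ℝ (Set.range fun x => slice x T) = ⊤) :
    ∏ i : Fin n, m i.castSucc ≤ s * r (Fin.last n) := by
  obtain ⟨A, hA⟩ := hT
  rw [Submodule.mem_iSup_iff_exists_finsupp] at hA
  obtain ⟨f, hf, hsum⟩ := hA
  rw [Finsupp.sum_fintype _ _ fun _ => rfl] at hsum
  have h1 : (⊤ : Submodule ℝ (Ten (ini m))) ≤
      Finset.univ.sup fun j => span ℝ (Set.range fun x => slice x (f j)) := by
    rw [← hfull, span_le]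
    rintro _ ⟨x, rfl⟩
    simp only
    rw [← hsum, map_sum]
    refine Submodule.sum_mem _ fun j _ => ?_
    exact (Finset.le_sup (f := fun j => span ℝ (Set.range fun x => slice x (f j)))
      (Finset.mem_univ j)) (subset_span ⟨x, rfl⟩)
  have h2 := Submodule.finrank_mono h1
  have h3 := finrank_finsetSup_le (fun j => span ℝ (Set.range fun x => slice x (f j)))
    (Finset.univ : Finset (Fin s))
  have h4 : ∑ j : Fin s, finrank ℝ (span ℝ (Set.range fun x => slice x (f j))) ≤
      ∑ _j : Fin s, r (Fin.last n) := by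
    refine Finset.sum_le_sum fun j _ => ?_
    rw [← (A j).2 (Fin.last n)]
    exact finrank_slices_le (hf j)
  rw [Finset.sum_const, Finset.card_univ, Fintype.card_fin, smul_eq_mul] at h4
  rw [finrank_top, finrank_pi, Fintype.card_pi] at h2
  simp only [Fintype.card_fin] at h2
  have h5 : ∏ x, ini m x = ∏ i : Fin n, m i.castSucc := rfl
  omega

end Pool.Agent.SubTwo
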