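import Pool.Agent.SubTwo.Bridge

/-!
# Spanning by boxes in terms of multilinear forms
-/

open Module Submodule Set

namespace Pool.Agent.SubTwo

open Pool.Agent.SubTyp

variable {n : ℕ} {m r : Fin n → ℕ}

/-- the space of the factor `i` -/
abbrev Vs (m : Fin n → ℕ) (i : Fin n) : Type := Fin (m i) → ℝ

/-- The form `φ` vanishes on the box `A`. -/
def VanOn (A : (i : Fin n) → Submodule ℝ (Vs m i)) (φ : MultilinearMap ℝ (Vs m) ℝ) : Prop :=
  ∀ v : (i : Fin n) → Vs m i, (∀ i, v i ∈ A i) → φ v = 0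

/-- the form with given coefficients -/
noncomputable def formOf (ψ : Ten m) : MultilinearMap ℝ (Vs m) ℝ :=
  ∑ t : (i : Fin n) → Fin (m i),
    ψ t • (MultilinearMap.mkPiAlgebra ℝ (Fin n) ℝ).compLinearMap fun i => LinearMap.proj (t i)

theorem formOf_apply (ψ : Ten m) (v : (i : Fin n) → Vs m i) :
    formOf ψ v = ∑ t, pureT v t * ψ t := by
  unfold formOf pureT
  rw [MultilinearMap.sum_apply]
  refine Finset.sum_congr rfl fun t _ => ?_
  rw [MultilinearMap.smul_apply, MultilinearMap.compLinearMap_apply,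
    MultilinearMap.mkPiAlgebra_apply, smul_eq_mul, mul_comm]
  rfl

theorem eq_formOf (φ : MultilinearMap ℝ (Vs m) ℝ) :
    φ = formOf (fun t => φ fun i => (Pi.single (t i) 1 : Fin (m i) → ℝ)) := by
  refine Basis.ext_multilinear (fun i => Pi.basisFun ℝ (Fin (m i))) fun t => ?_
  have h0 : (fun i => Pi.basisFun ℝ (Fin (m i)) (t i)) =
      fun i => (Pi.single (t i) 1 : Fin (m i) → ℝ) := funext fun i => Pi.basisFun_apply _ _ _
  rw [h0, formOf_apply, Finset.sum_eq_single t]
  · have h1 : pureT (fun i => (Pi.single (t i) 1 : Fin (m i) → ℝ)) t = 1 := by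
      unfold pureT
      exact Finset.prod_eq_one fun i _ => Pi.single_eq_same _ _
    rw [h1, one_mul]
  · intro t' _ h
    obtain ⟨i, hi⟩ := Function.ne_iff.1 h
    have h1 : pureT (fun i => (Pi.single (t i) 1 : Fin (m i) → ℝ)) t' = 0 := by
      unfold pureT
      exact Finset.prod_eq_zero (Finset.mem_univ i) (Pi.single_eq_of_ne hi _)
    rw [h1, zero_mul]
  · intro h
    exact absurd (Finset.mem_univ _) h

theorem top_iff {κ : Type*} (A : κ → (i : Fin n) → Submodule ℝ (Vs m i)) :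
    (⨆ j, boxT (A j)) = ⊤ ↔ ∀ φ : MultilinearMap ℝ (Vs m) ℝ, (∀ j, VanOn (A j) φ) → φ = 0 := by
  constructor
  · intro htop φ hφ
    set ψ : Ten m := fun t => φ fun i => (Pi.single (t i) 1 : Fin (m i) → ℝ) with hψ
    let Λ : Ten m →ₗ[ℝ] ℝ :=
      { toFun := fun T => ∑ t, T t * ψ t
        map_add' := fun T U => by
          simp only [Pi.add_apply, add_mul, Finset.sum_add_distrib]
        map_smul' := fun c T => by
          simp only [Pi.smul_apply, smul_eq_mul, RingHom.id_apply, Finset.mul_sum, mul_assoc] }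
    have hker : (⨆ j, boxT (A j)) ≤ LinearMap.ker Λ := by
      refine iSup_le fun j => ?_
      unfold boxT
      rw [span_le]
      rintro _ ⟨v, hv, rfl⟩
      rw [SetLike.mem_coe, LinearMap.mem_ker]
      change ∑ t, pureT v t * ψ t = 0
      rw [← formOf_apply, ← eq_formOf]
      exact hφ j v hv
    rw [htop, top_le_iff, LinearMap.ker_eq_top] at hker
    rw [eq_formOf φ, ← hψ]
    refine MultilinearMap.ext fun v => ?_
    rw [formOf_apply]
    exact LinearMap.congr_fun hker (pureT v)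
  · intro h
    refine top_of_dual _ fun ψ hψ => ?_
    have h1 := h (formOf ψ) fun j v hv => by
      rw [formOf_apply]
      exact hψ _ (Submodule.mem_iSup_of_mem j (subset_span ⟨v, hv, rfl⟩))
    funext τ
    have h2 : formOf ψ (fun i => (Pi.single (τ i) 1 : Fin (m i) → ℝ)) = 0 := by
      rw [h1]
      rfl
    rw [formOf_apply, Finset.sum_eq_single τ] at h2
    · have h3 : pureT (fun i => (Pi.single (τ i) 1 : Fin (m i) → ℝ)) τ = 1 := by
        unfold pureT
        exact Finset.prod_eq_one fun i _ => Pi.single_eq_same _ _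
      rw [h3, one_mul] at h2
      exact h2
    · intro t' _ h'
      obtain ⟨i, hi⟩ := Function.ne_iff.1 h'
      have h3 : pureT (fun i => (Pi.single (τ i) 1 : Fin (m i) → ℝ)) t' = 0 := by
        unfold pureT
        exact Finset.prod_eq_zero (Finset.mem_univ i) (Pi.single_eq_of_ne hi _)
      rw [h3, zero_mul]
    · intro h'
      exact absurd (Finset.mem_univ _) h'

/-- Spanning by `s` boxes of dimensions at most `d i`. -/
def SpM (m d : Fin n → ℕ) (s : ℕ) : Prop :=
  ∃ A : Fin s → (i : Fin n) → Submodule ℝ (Vs m i), (∀ j i, finrank ℝ (A j i) ≤ d i) ∧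
    ∀ φ : MultilinearMap ℝ (Vs m) ℝ, (∀ j, VanOn (A j) φ) → φ = 0

theorem spM_of_spansT {s : ℕ} (h : SpansT m r s) : SpM m r s := by
  obtain ⟨A, hA, htop⟩ := h
  exact ⟨A, fun j i => (hA j i).le, (top_iff A).1 htop⟩

theorem spansT_of_spM (hr : ∀ i, r i ≤ m i) {s : ℕ} (h : SpM m r s) : SpansT m r s := by
  obtain ⟨A, hA, htop⟩ := h
  exact spansT_of_le' hr A hA ((top_iff A).2 htop)

/-- Gluing: all factors are enlarged. -/
theorem glue {m' : Fin n → ℕ} (w : Fin n → ℕ)
    (π : (i : Fin n) → (Fin (w i) → Vs m i) →ₗ[ℝ] Vs m' i)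
    (hπ : ∀ i, Function.Surjective (π i)) (φ : MultilinearMap ℝ (Vs m') ℝ)
    (h : ∀ y : (i : Fin n) → Fin (w i),
      φ.compLinearMap (fun i => π i ∘ₗ LinearMap.single ℝ (fun _ => Vs m i) (y i)) = 0) :
    φ = 0 := by
  classical
  refine MultilinearMap.ext fun v' => ?_
  choose u hu using fun i => hπ i (v' i)
  have h1 : v' = fun i => ∑ y : Fin (w i),
      (π i ∘ₗ LinearMap.single ℝ (fun _ => Vs m i) y) (u i y) := by
    funext i
    rw [← hu i]
    conv_lhs => rw [← Finset.univ_sum_single (u i)]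
    rw [map_sum]
    rfl
  rw [h1, MultilinearMap.map_sum]
  refine Finset.sum_eq_zero fun y _ => ?_
  have h2 := congrArg (fun f => f fun i => u i (y i)) (h y)
  exact h2

/-- Blowing up all factors. -/
theorem spM_blow {m' d d' : Fin n → ℕ} (w : Fin n → ℕ) {s : ℕ} (h : SpM m d s)
    (hm : ∀ i, m' i ≤ w i * m i) (hd : ∀ i, w i * d i ≤ d' i) : SpM m' d' s := by
  classical
  obtain ⟨A, hA, hA0⟩ := h
  have h1 : ∀ i, ∃ π : (Fin (w i) → Vs m i) →ₗ[ℝ] Vs m' i, Function.Surjective π := by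
    intro i
    refine exists_surj' (U := Fin (w i) → Vs m i) ?_
    rw [finrank_pi_fintype]
    simp only [finrank_pi, Fintype.card_fin, Finset.sum_const, Finset.card_univ, smul_eq_mul]
    exact hm i
  choose π hπ using h1
  let Θ : (j : Fin s) → (i : Fin n) → (Fin (w i) → A j i) →ₗ[ℝ] Vs m' i := fun j i =>
    π i ∘ₗ LinearMap.pi fun y => (A j i).subtype ∘ₗ LinearMap.proj y
  refine ⟨fun j i => LinearMap.range (Θ j i), fun j i => ?_, fun φ hφ => ?_⟩
  · refine (LinearMap.finrank_range_le _).trans ?_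
    rw [finrank_pi_fintype]
    simp only [Finset.sum_const, Finset.card_univ, Fintype.card_fin, smul_eq_mul]
    exact (Nat.mul_le_mul_left _ (hA j i)).trans (hd i)
  · refine glue w π hπ φ fun y => hA0 _ fun j v hv => ?_
    rw [MultilinearMap.compLinearMap_apply]
    refine hφ j _ fun i => ⟨Pi.single (y i) ⟨v i, hv i⟩, ?_⟩
    change π i _ = π i _
    congr 1
    funext z
    change (((Pi.single (y i) ⟨v i, hv i⟩ : Fin (w i) → A j i) z : A j i) : Vs m i) =
      (Pi.single (y i) (v i) : Fin (w i) → Vs m i) z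
    by_cases hz : z = y i
    · subst hz
      rw [Pi.single_eq_same, Pi.single_eq_same]
    · rw [Pi.single_eq_of_ne hz, Pi.single_eq_of_ne hz]
      rfl

/-- The maps used to enlarge one factor. -/
theorem exists_maps {m' : Fin n → ℕ} (i₀ : Fin n) (w : ℕ) (hm : ∀ i, i ≠ i₀ → m' i ≤ m i)
    (hm0 : m' i₀ ≤ w * m i₀) :
    ∃ (σ : (i : Fin n) → Vs m i →ₗ[ℝ] Vs m' i) (ι : Fin w → Vs m i₀ →ₗ[ℝ] Vs m' i₀),
      ∀ φ : MultilinearMap ℝ (Vs m') ℝ,
        (∀ y, φ.compLinearMap (Function.update σ i₀ (ι y)) = 0) → φ = 0 := by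
  classical
  have h1 : ∀ i, ∃ π : Vs m i →ₗ[ℝ] Vs m' i, i ≠ i₀ → Function.Surjective π := by
    intro i
    by_cases h : i = i₀
    · exact ⟨0, fun h' => absurd h h'⟩
    · obtain ⟨π, hπ⟩ := exists_surj' (F := ℝ) (U := Vs m i) (k := m' i)
        (by rw [finrank_pi, Fintype.card_fin]; exact hm i h)
      exact ⟨π, fun _ => hπ⟩
  choose σ hσ using h1
  obtain ⟨π, hπ⟩ := exists_surj' (F := ℝ) (U := Fin w → Vs m i₀) (k := m' i₀) (by
    rw [finrank_pi_fintype]
    simp only [finrank_pi, Fintype.card_fin, Finset.sum_const, Finset.card_univ, smul_eq_mul]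
    exact hm0)
  refine ⟨σ, fun y => π ∘ₗ LinearMap.single ℝ (fun _ => Vs m i₀) y, fun φ h => ?_⟩
  refine MultilinearMap.ext fun v' => ?_
  have h2 : ∀ i, ∃ v : Vs m i, i ≠ i₀ → σ i v = v' i := by
    intro i
    by_cases h : i = i₀
    · exact ⟨0, fun h' => absurd h h'⟩
    · obtain ⟨v, hv⟩ := hσ i h (v' i)
      exact ⟨v, fun _ => hv⟩
  choose v hv using h2
  obtain ⟨u, hu⟩ := hπ (v' i₀)
  have h3 : v' i₀ = ∑ y : Fin w, (π ∘ₗ LinearMap.single ℝ (fun _ => Vs m i₀) y) (u y) := by
    rw [← hu]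
    conv_lhs => rw [← Finset.univ_sum_single u]
    rw [map_sum]
    rfl
  have h4 : φ v' = ∑ y : Fin w,
      φ (Function.update v' i₀ ((π ∘ₗ LinearMap.single ℝ (fun _ => Vs m i₀) y) (u y))) := by
    rw [← MultilinearMap.map_update_sum, ← h3, Function.update_eq_self]
  rw [h4]
  refine Finset.sum_eq_zero fun y _ => ?_
  have h5 := congrArg (fun f => f (Function.update v i₀ (u y))) (h y)
  refine Eq.trans ?_ h5
  change φ _ = φ _
  congr 1
  funext i
  by_cases hi : i = i₀
  · subst hi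
    rw [Function.update_self, Function.update_self, Function.update_self]
  · rw [Function.update_of_ne hi, Function.update_of_ne hi, Function.update_of_ne hi, hv i hi]

end Pool.Agent.SubTwo
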