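import Pool.Agent.SubTwo.Rays

/-!
# Four factors, and the common region
-/

open Module Submodule Set

namespace Pool.Agent.SubTwo

open Pool.Agent.SubTyp

/-- The product of the numbers `h` for `n = 4`. -/
theorem exists_h_four {m r : Fin 4 → ℕ} (hr : ∀ i, 1 ≤ r i ∧ r i ≤ m i)
    (hm : ∀ i, 4 * r i ≤ m i) : ∃ h : Fin 4 → ℕ,
      (∀ i, (1 + 1 / 100) * (m i : ℝ) ^ 2 ≤ h i * r i * (m i - r i)) ∧
      ((∏ i ∈ Finset.univ.erase (0 : Fin 4), h i : ℕ) : ℝ) ≤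
        (∏ i, (m i : ℝ)) / (∏ i, (r i : ℝ)) := by
  classical
  have hr0 : ∀ i, (0 : ℝ) < r i := fun i => by exact_mod_cast (hr i).1
  have key : ∀ P : ℝ, 4 ≤ P → ∃ h : ℕ, (1 + 1 / 100) * P ^ 2 ≤ h * (P - 1) ∧
      (h : ℝ) ≤ 151 / 100 * P := by
    intro P hP
    by_cases hP1 : P ≤ 46 / 10
    · refine ⟨6, ?_, ?_⟩
      · push_cast
        nlinarith [mul_nonneg (sub_nonneg.2 hP) (sub_nonneg.2 hP1)]
      · push_cast
        linarith
    · push Not at hP1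
      have hP2 : 0 < P - 1 := by linarith
      refine ⟨⌈(1 + 1 / 100) * P ^ 2 / (P - 1)⌉₊, ?_, ?_⟩
      · rw [← div_le_iff₀ hP2]
        exact Nat.le_ceil _
      · refine (Nat.ceil_lt_add_one (by positivity)).le.trans ?_
        rw [← le_sub_iff_add_le, div_le_iff₀ hP2]
        nlinarith
  have hP : ∀ i, (4 : ℝ) ≤ (m i : ℝ) / r i := by
    intro i
    rw [le_div_iff₀ (hr0 i)]
    exact_mod_cast hm i
  choose h hh1 hh2 using fun i => key _ (hP i)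
  refine ⟨h, fun i => ?_, ?_⟩
  · have h1 := hh1 i
    set P : ℝ := (m i : ℝ) / r i with hPdef
    have hPr : P * r i = m i := by
      rw [hPdef]
      exact div_mul_cancel₀ _ (hr0 i).ne'
    calc (1 + 1 / 100) * (m i : ℝ) ^ 2 = ((1 + 1 / 100) * P ^ 2) * (r i : ℝ) ^ 2 := by
          rw [← hPr]
          ring
      _ ≤ (h i * (P - 1)) * (r i : ℝ) ^ 2 := mul_le_mul_of_nonneg_right h1 (sq_nonneg _)
      _ = h i * r i * (P * r i - r i) := by ring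
      _ = _ := by rw [hPr]
  · push_cast
    calc ∏ i ∈ Finset.univ.erase (0 : Fin 4), (h i : ℝ) ≤
          ∏ i ∈ Finset.univ.erase (0 : Fin 4), (151 / 100 * ((m i : ℝ) / r i)) :=
          Finset.prod_le_prod (fun i _ => Nat.cast_nonneg _) fun i _ => hh2 i
      _ = (151 / 100) ^ 3 *
          ∏ i ∈ Finset.univ.erase (0 : Fin 4), ((m i : ℝ) / r i) := by
          rw [Finset.prod_mul_distrib, Finset.prod_const,
            Finset.card_erase_of_mem (Finset.mem_univ _), Finset.card_univ, Fintype.card_fin]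
      _ ≤ ((m 0 : ℝ) / r 0) *
          ∏ i ∈ Finset.univ.erase (0 : Fin 4), ((m i : ℝ) / r i) := by
          refine mul_le_mul_of_nonneg_right ?_ (Finset.prod_nonneg fun i _ => by positivity)
          have := hP 0
          norm_num
          linarith
      _ = ∏ i, ((m i : ℝ) / r i) :=
          Finset.mul_prod_erase Finset.univ (fun i => (m i : ℝ) / r i) (Finset.mem_univ _)
      _ = _ := by rw [Finset.prod_div_distrib]

/-- **Typical ranks of large formats.** -/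
theorem typical_region_min (n : ℕ) (T δ : ℝ) (hδ : 0 < δ) : ∃ C : ℕ, ∀ m r : Fin n → ℕ,
    (∀ i, 1 ≤ r i ∧ r i ≤ m i ∧ C * (r i * (m i - r i)) ≤ ∏ j, r j) →
    ((3 ≤ n ∧ ∀ i, C ≤ r i ∧ min n 5 * r i ≤ m i) ∨ ∃ i₀, C ≤ r i₀ ∧ 3 * r i₀ ≤ 2 * m i₀ ∧
      ∀ i, i ≠ i₀ → r i ∣ m i ∨ C ≤ r i ∧ 5 * r i ≤ m i) →
    ∀ x : ℝ, x = (∏ i, (m i : ℝ)) / (∏ i, (r i : ℝ)) → x ≤ T →
      (∀ d, IsTypicalRank (SubVar m r) d → ⌈x - δ⌉₊ ≤ d ∧ d ≤ ⌈x + δ⌉₊) ∧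
      (⌈x - δ⌉₊ = ⌈x + δ⌉₊ → {d : ℕ | IsTypicalRank (SubVar m r) d} = {⌈x⌉₊}) := by
  classical
  obtain ⟨C, hC⟩ := typical_region n T δ hδ
  by_cases h4 : n = 4
  · subst h4
    have hmin0 : (0 : ℝ) < min δ (1 / 100) := lt_min hδ (by norm_num)
    have hmin1 : min δ (1 / 100) ≤ δ := min_le_left _ _
    have hmin2 : min δ (1 / 100) ≤ (1 / 100 : ℝ) := min_le_right _ _
    obtain ⟨C0, hC0⟩ := box_general 4 T (min δ (1 / 100)) hmin0
    obtain ⟨C1, hC1⟩ := typical_of_span 4 T (min δ (1 / 100)) hmin0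
    refine ⟨max C (max C0 C1), fun m r hyp hreg x hx hxT => ?_⟩
    have hle0 : C ≤ max C (max C0 C1) := le_max_left _ _
    have hle1 : C0 ≤ max C (max C0 C1) := (le_max_left _ _).trans (le_max_right _ _)
    have hle2 : C1 ≤ max C (max C0 C1) := (le_max_right _ _).trans (le_max_right _ _)
    have hr : ∀ i, 1 ≤ r i ∧ r i ≤ m i := fun i => ⟨(hyp i).1, (hyp i).2.1⟩
    rcases hreg with ⟨-, hreg⟩ | ⟨i₀, h1, h2, h3⟩
    · have hr0 : ∀ i, (0 : ℝ) < r i := fun i => by exact_mod_cast (hr i).1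
      have hR0 : (0 : ℝ) < ∏ i, (r i : ℝ) := Finset.prod_pos fun i _ => hr0 i
      have hmT : (∏ i, (m i : ℝ)) ≤ T * ∏ i, (r i : ℝ) := by
        rw [hx, div_le_iff₀ hR0] at hxT
        exact hxT
      obtain ⟨h, hh1, hh2⟩ := exists_h_four hr fun i => (hreg i).2
      have hspan : SpansT m r ⌈x + min δ (1 / 100)⌉₊ := by
        refine hC0 m r h 0 ∅ hr hmT (hle1.trans (hreg 0).1)
          (Finset.notMem_empty _) (fun i hi => absurd hi (Finset.notMem_empty i))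
          (fun i _ _ => Or.inr ⟨hle1.trans (hreg i).1, ?_⟩) x hx (Or.inl ⟨rfl, ?_⟩)
        · refine le_trans ?_ (hh1 i)
          exact mul_le_mul_of_nonneg_right (by linarith) (sq_nonneg _)
        · rw [Finset.sdiff_empty]
          rw [← hx] at hh2
          have h2 : x ≤ (⌈x + min δ (1 / 100)⌉₊ : ℝ) := by
            have := Nat.le_ceil (x + min δ (1 / 100))
            linarith
          exact_mod_cast hh2.trans h2
      obtain ⟨hm1, hm2⟩ := hC1 m r hr x hx hxT hspan fun i =>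
        (Nat.mul_le_mul_right _ hle2).trans (hyp i).2.2
      have c1 : ⌈x - δ⌉₊ ≤ ⌈x - min δ (1 / 100)⌉₊ := Nat.ceil_le_ceil (by linarith)
      have c2 : ⌈x + min δ (1 / 100)⌉₊ ≤ ⌈x + δ⌉₊ := Nat.ceil_le_ceil (by linarith)
      have c3 : ⌈x - min δ (1 / 100)⌉₊ ≤ ⌈x + min δ (1 / 100)⌉₊ :=
        Nat.ceil_le_ceil (by linarith)
      exact ⟨fun d hd => ⟨c1.trans (hm1 d hd).1, (hm1 d hd).2.trans c2⟩,
        fun heq => hm2 (by omega)⟩
    · exact hC m r (fun i => ⟨(hyp i).1, (hyp i).2.1,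
        (Nat.mul_le_mul_right _ hle0).trans (hyp i).2.2⟩) (Or.inr ⟨i₀, hle0.trans h1, h2,
          fun i hi => (h3 i hi).imp id fun h => ⟨hle0.trans h.1, h.2⟩⟩) x hx hxT
  · refine ⟨C, fun m r hyp hreg x hx hxT => hC m r hyp ?_ x hx hxT⟩
    rcases hreg with ⟨h3, hreg⟩ | hreg
    · by_cases hn3 : n = 3
      · subst hn3
        exact Or.inl ⟨rfl, hreg⟩
      · right
        have h5 : min n 5 = 5 := min_eq_right (by omega)
        rw [h5] at hreg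
        refine ⟨⟨0, by omega⟩, (hreg _).1, ?_, fun i _ => Or.inr (hreg i)⟩
        have := (hreg ⟨0, by omega⟩).2
        omega
    · exact Or.inr hreg

/-- **Typical ranks of large formats, all regions.** -/
theorem typical_region_all (n : ℕ) (T δ : ℝ) (hδ : 0 < δ) : ∃ C : ℕ, ∀ m r : Fin n → ℕ,
    (∀ i, 1 ≤ r i ∧ r i ≤ m i ∧ C * (r i * (m i - r i)) ≤ ∏ j, r j) →
    ∀ x : ℝ, x = (∏ i, (m i : ℝ)) / (∏ i, (r i : ℝ)) → x ≤ T →
    ((3 ≤ n ∧ ∀ i, C ≤ r i ∧ min n 5 * r i ≤ m i) ∨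
      (∃ i₀, C ≤ r i₀ ∧ 3 * r i₀ ≤ 2 * m i₀ ∧
        ∀ i, i ≠ i₀ → r i ∣ m i ∨ C ≤ r i ∧ 5 * r i ≤ m i) ∨
      ∃ (i₀ : Fin n) (h : Fin n → ℕ), C ≤ r i₀ ∧
        (∀ i, i ≠ i₀ → h i * r i = m i ∨
          C ≤ r i ∧ (1 + δ) * (m i : ℝ) ^ 2 ≤ h i * r i * (m i - r i)) ∧
        ∏ i ∈ Finset.univ.erase i₀, h i ≤ ⌈x + δ⌉₊) →
      (∀ d, IsTypicalRank (SubVar m r) d → ⌈x - δ⌉₊ ≤ d ∧ d ≤ ⌈x + δ⌉₊) ∧
      (⌈x - δ⌉₊ = ⌈x + δ⌉₊ → {d : ℕ | IsTypicalRank (SubVar m r) d} = {⌈x⌉₊}) := by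
  classical
  obtain ⟨C, hC⟩ := typical_region_min n T δ hδ
  obtain ⟨C0, hC0⟩ := box_general n T δ hδ
  obtain ⟨C1, hC1⟩ := typical_of_span n T δ hδ
  refine ⟨max C (max C0 C1), fun m r hyp x hx hxT hreg => ?_⟩
  have hle0 : C ≤ max C (max C0 C1) := le_max_left _ _
  have hle1 : C0 ≤ max C (max C0 C1) := (le_max_left _ _).trans (le_max_right _ _)
  have hle2 : C1 ≤ max C (max C0 C1) := (le_max_right _ _).trans (le_max_right _ _)
  have hr : ∀ i, 1 ≤ r i ∧ r i ≤ m i := fun i => ⟨(hyp i).1, (hyp i).2.1⟩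
  rcases hreg with ⟨h3, hreg⟩ | ⟨i₀, h1, h2, h3⟩ | ⟨i₀, h, h1, h2, h3⟩
  · exact hC m r (fun i => ⟨(hyp i).1, (hyp i).2.1,
      (Nat.mul_le_mul_right _ hle0).trans (hyp i).2.2⟩)
      (Or.inl ⟨h3, fun i => ⟨hle0.trans (hreg i).1, (hreg i).2⟩⟩) x hx hxT
  · exact hC m r (fun i => ⟨(hyp i).1, (hyp i).2.1,
      (Nat.mul_le_mul_right _ hle0).trans (hyp i).2.2⟩) (Or.inr ⟨i₀, hle0.trans h1, h2,
        fun i hi => (h3 i hi).imp id fun h => ⟨hle0.trans h.1, h.2⟩⟩) x hx hxT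
  · have hR0 : (0 : ℝ) < ∏ i, (r i : ℝ) := Finset.prod_pos fun i _ => by
      exact_mod_cast (hr i).1
    have hmT : (∏ i, (m i : ℝ)) ≤ T * ∏ i, (r i : ℝ) := by
      rw [hx, div_le_iff₀ hR0] at hxT
      exact hxT
    have hspan : SpansT m r ⌈x + δ⌉₊ := by
      refine hC0 m r h i₀ ∅ hr hmT (hle1.trans h1)
        (Finset.notMem_empty _) (fun i hi => absurd hi (Finset.notMem_empty i))
        (fun i _ hi => (h2 i hi).imp id fun h' => ⟨hle1.trans h'.1, h'.2⟩) x hx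
        (Or.inl ⟨rfl, ?_⟩)
      rw [Finset.sdiff_empty]
      exact h3
    exact hC1 m r hr x hx hxT hspan fun i =>
      (Nat.mul_le_mul_right _ hle2).trans (hyp i).2.2

/-- **Large multiples of one format.** -/
theorem typical_rays_min {n : ℕ} {m r : Fin n → ℕ} (hn : 3 ≤ n)
    (hr : ∀ i, 1 ≤ r i ∧ r i ≤ m i) {x : ℝ}
    (hx : x = (∏ i, (m i : ℝ)) / (∏ i, (r i : ℝ)))
    (hreg : (∀ i, min n 5 * r i ≤ m i) ∨
      (∃ i₀, 3 * r i₀ ≤ 2 * m i₀ ∧ ∀ i, i ≠ i₀ → r i ∣ m i ∨ 5 * r i ≤ m i) ∨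
      ∃ (i₀ : Fin n) (h : Fin n → ℕ),
        (∀ i, i ≠ i₀ → h i * r i = m i ∨ m i ^ 2 ≤ h i * r i * (m i - r i)) ∧
        ∏ i ∈ Finset.univ.erase i₀, h i ≤ ⌈x⌉₊) :
    ∃ K N₀ : ℕ, 1 ≤ K ∧ ∀ N, N₀ ≤ N → (¬ ∏ i, r i ∣ ∏ i, m i) ∨ K ∣ N →
      {d : ℕ | IsTypicalRank (SubVar (fun i => N * m i) (fun i => N * r i)) d} = {⌈x⌉₊} := by
  refine typical_rays hn hr hx ?_
  rcases hreg with hreg | hreg
  · by_cases hn3 : n = 3
    · subst hn3
      exact Or.inl ⟨rfl, hreg⟩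
    · by_cases hn4 : n = 4
      · subst hn4
        obtain ⟨h, hh1, hh2⟩ := exists_h_four hr hreg
        refine Or.inr (Or.inr ⟨0, h, fun a _ => Or.inr ?_, ?_⟩)
        · have h1 := hh1 a
          have h2 : ((m a ^ 2 : ℕ) : ℝ) ≤ ((h a * r a * (m a - r a) : ℕ) : ℝ) := by
            push_cast [Nat.cast_sub (hr a).2]
            have h3 : (0 : ℝ) ≤ (m a : ℝ) ^ 2 := sq_nonneg _
            linarith
          exact_mod_cast h2
        · rw [← hx] at hh2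
          exact_mod_cast hh2.trans (Nat.le_ceil x)
      · have h5 : min n 5 = 5 := min_eq_right (by omega)
        rw [h5] at hreg
        refine Or.inr (Or.inl ⟨⟨0, by omega⟩, ?_, fun i _ => Or.inr (hreg i)⟩)
        have := hreg ⟨0, by omega⟩
        omega
  · exact Or.inr hreg

end Pool.Agent.SubTwo
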