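import Pool.Agent.SubTwo.Flat

/-!
# Generic boxes
-/

open Module Submodule Set Polynomial
open scoped LinearAlgebra.Projectivization Topology

namespace Pool.Agent.SubTwo

open Pool.Agent.SubTyp

/-- A family of vectors depending polynomially on a real parameter that is independent for one
value of the parameter is independent for all but finitely many values. -/
theorem finite_not_li {I : Type*} [Fintype I] {d : ℕ} (w : Fin d → I → ℝ[X]) (t₀ : ℝ)
    (h : LinearIndependent ℝ (fun b : Fin d => fun x : I => (w b x).eval t₀)) :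
    {t : ℝ | ¬ LinearIndependent ℝ (fun b : Fin d => fun x : I => (w b x).eval t)}.Finite := by
  classical
  let M : ℝ → Matrix I (Fin d) ℝ := fun t => Matrix.of fun x b => (w b x).eval t
  have hM : ∀ t, LinearIndependent ℝ (fun b : Fin d => fun x : I => (w b x).eval t) ↔
      Function.Injective (M t).mulVec := by
    intro t
    rw [Matrix.mulVec_injective_iff]
    rfl
  rw [hM] at h
  have hker : LinearMap.ker (Matrix.mulVecLin (M t₀)) = ⊥ := LinearMap.ker_eq_bot.2 h
  obtain ⟨g, hg⟩ := LinearMap.exists_leftInverse_of_injective _ hker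
  let N : Matrix (Fin d) I ℝ := LinearMap.toMatrix' g
  have hN : N * M t₀ = 1 := by
    have h1 := congrArg LinearMap.toMatrix' hg
    rw [LinearMap.toMatrix'_comp, LinearMap.toMatrix'_id] at h1
    rw [← h1]
    congr 1
    exact (LinearMap.toMatrix'_toLin' (M t₀)).symm
  let P : ℝ[X] := (N.map C * Matrix.of fun x b => w b x).det
  have hP : ∀ t, P.eval t = (N * M t).det := by
    intro t
    have h1 : P.eval t = (evalRingHom t) P := rfl
    rw [h1, RingHom.map_det]
    congr 1
    rw [RingHom.mapMatrix_apply, Matrix.map_mul]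
    congr 1
    ext i j
    simp
  have hP0 : P ≠ 0 := by
    intro h0
    have h1 := hP t₀
    rw [hN, Matrix.det_one, h0, eval_zero] at h1
    exact zero_ne_one h1
  refine (P.rootSet_finite ℝ).subset fun t ht => ?_
  rw [mem_ofPred_eq, hM] at ht
  rw [mem_rootSet]
  refine ⟨hP0, ?_⟩
  rw [aeval_def, Algebra.algebraMap_self, eval₂_id, hP]
  by_contra hne
  refine ht ?_
  have h2 : Function.Injective (N * M t).mulVec :=
    Matrix.mulVec_injective_of_isUnit ((Matrix.isUnit_iff_isUnit_det _).2 (isUnit_iff_ne_zero.2 hne))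
  intro a b hab
  refine h2 ?_
  rw [← Matrix.mulVec_mulVec, ← Matrix.mulVec_mulVec, hab]

variable {n : ℕ} {m r : Fin n → ℕ}

/-- the box of spans is spanned by the products of the spanning vectors -/
theorem boxT_span (b : (i : Fin n) → Fin (r i) → Fin (m i) → ℝ) :
    boxT (fun i => span ℝ (Set.range (b i))) =
      span ℝ (Set.range fun κ : (i : Fin n) → Fin (r i) => pureT (fun i => b i (κ i))) := by
  apply le_antisymm
  · unfold boxT
    rw [span_le]
    rintro _ ⟨v, hv, rfl⟩
    have h1 : ∀ i, ∃ c : Fin (r i) → ℝ, ∑ k, c k • b i k = v i := fun i =>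
      (Submodule.mem_span_range_iff_exists_fun ℝ).1 (hv i)
    choose c hc using h1
    have h2 : pureT v = ∑ κ : (i : Fin n) → Fin (r i),
        (∏ i, c i (κ i)) • pureT (fun i => b i (κ i)) := by
      funext t
      rw [Finset.sum_apply]
      have h3 : pureT v t = ∏ i, ∑ k, c i k * b i k (t i) := by
        unfold pureT
        refine Finset.prod_congr rfl fun i _ => ?_
        rw [← hc i, Finset.sum_apply]
        rfl
      rw [h3, Finset.prod_univ_sum, Fintype.piFinset_univ]
      refine Finset.sum_congr rfl fun κ _ => ?_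
      rw [Finset.prod_mul_distrib]
      rfl
    rw [SetLike.mem_coe, h2]
    exact Submodule.sum_mem _ fun κ _ => Submodule.smul_mem _ _ (subset_span ⟨κ, rfl⟩)
  · rw [span_le]
    rintro _ ⟨κ, rfl⟩
    exact subset_span ⟨_, fun i => subset_span ⟨κ i, rfl⟩, rfl⟩

/-- the subspaces on the line through two families -/
def lineS (b₁ b₂ : (i : Fin n) → Fin (r i) → Fin (m i) → ℝ) (t : ℝ) (i : Fin n) :
    Submodule ℝ (Fin (m i) → ℝ) :=
  span ℝ (Set.range fun k => fun x => (1 - t) * b₁ i k x + t * b₂ i k x)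

theorem finite_bad (b₁ b₂ : (i : Fin n) → Fin (r i) → Fin (m i) → ℝ) (X : Submodule ℝ (Ten m))
    (t₀ : ℝ) : {t : ℝ | ¬ finrank ℝ (boxT (lineS b₁ b₂ t₀) ⊔ X : Submodule ℝ (Ten m)) ≤
      finrank ℝ (boxT (lineS b₁ b₂ t) ⊔ X : Submodule ℝ (Ten m))}.Finite := by
  classical
  let e := Module.finBasis ℝ X
  let J : Type := ((i : Fin n) → Fin (r i)) ⊕ Fin (finrank ℝ X)
  let w : J → ((i : Fin n) → Fin (m i)) → ℝ[X] := Sum.elim
    (fun κ x => ∏ i, ((1 - Polynomial.X) * C (b₁ i (κ i) (x i)) +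
      Polynomial.X * C (b₂ i (κ i) (x i))))
    (fun k x => C ((e k : Ten m) x))
  have hw1 : ∀ κ t, (fun x => (w (Sum.inl κ) x).eval t) =
      pureT (fun i => fun x => (1 - t) * b₁ i (κ i) x + t * b₂ i (κ i) x) := by
    intro κ t
    funext x
    simp only [w, Sum.elim_inl, eval_prod, pureT]
    refine Finset.prod_congr rfl fun i _ => ?_
    simp only [eval_add, eval_mul, eval_sub, eval_one, eval_X, eval_C]
  have hw2 : ∀ k t, (fun x => (w (Sum.inr k) x).eval t) = (e k : Ten m) := by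
    intro k t
    funext x
    simp [w]
  have hspan : ∀ t, boxT (lineS b₁ b₂ t) ⊔ X =
      span ℝ (Set.range fun j : J => fun x => (w j x).eval t) := by
    intro t
    have h1 : Set.range (fun j : J => fun x => (w j x).eval t) =
        Set.range (fun κ : (i : Fin n) → Fin (r i) =>
          pureT (fun i => fun x => (1 - t) * b₁ i (κ i) x + t * b₂ i (κ i) x)) ∪
        Set.range (fun k => (e k : Ten m)) := by
      ext u
      simp only [Set.mem_range, Set.mem_union]
      constructor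
      · rintro ⟨j | j, rfl⟩
        · exact Or.inl ⟨j, (hw1 j t).symm⟩
        · exact Or.inr ⟨j, (hw2 j t).symm⟩
      · rintro (⟨j, rfl⟩ | ⟨j, rfl⟩)
        · exact ⟨Sum.inl j, hw1 j t⟩
        · exact ⟨Sum.inr j, hw2 j t⟩
    rw [h1, Submodule.span_union]
    congr 1
    · exact boxT_span (fun i k x => (1 - t) * b₁ i k x + t * b₂ i k x)
    · have h2 := congrArg (Submodule.map X.subtype) e.span_eq
      rw [Submodule.map_span, ← Set.range_comp, Submodule.map_top, Submodule.range_subtype] at h2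
      exact h2.symm
  obtain ⟨f, hf1, -, hf3⟩ := Submodule.exists_fun_fin_finrank_span_eq ℝ
    (Set.range fun j : J => fun x => (w j x).eval t₀)
  choose g hg using hf1
  have hli : LinearIndependent ℝ (fun b => fun x => (w (g b) x).eval t₀) := by
    have : (fun b => fun x => (w (g b) x).eval t₀) = f := funext hg
    rw [this]
    exact hf3
  refine (finite_not_li (fun b => w (g b)) t₀ hli).subset fun t ht => ?_
  rw [mem_ofPred_eq] at ht ⊢
  intro hcon
  refine ht ?_
  rw [hspan t₀, hspan t]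
  have h1 := finrank_span_eq_card hcon
  rw [Fintype.card_fin] at h1
  rw [← h1]
  refine Submodule.finrank_mono (span_mono ?_)
  rintro _ ⟨b, rfl⟩
  exact ⟨g b, rfl⟩

theorem finite_bad_dim (b₁ b₂ : (i : Fin n) → Fin (r i) → Fin (m i) → ℝ)
    (h : ∀ i, LinearIndependent ℝ (b₁ i)) (i : Fin n) :
    {t : ℝ | ¬ finrank ℝ (lineS b₁ b₂ t i) = r i}.Finite := by
  let w : Fin (r i) → Fin (m i) → ℝ[X] := fun k x =>
    (1 - Polynomial.X) * C (b₁ i k x) + Polynomial.X * C (b₂ i k x)
  have hw : ∀ t, (fun k => fun x => (w k x).eval t) =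
      fun k => fun x => (1 - t) * b₁ i k x + t * b₂ i k x := by
    intro t
    funext k x
    simp only [w, eval_add, eval_mul, eval_sub, eval_one, eval_X, eval_C]
  have h0 : LinearIndependent ℝ (fun k => fun x => (w k x).eval 0) := by
    rw [hw]
    have : (fun k => fun x => (1 - (0 : ℝ)) * b₁ i k x + 0 * b₂ i k x) = b₁ i := by
      funext k x
      ring
    rw [this]
    exact h i
  refine (finite_not_li w 0 h0).subset fun t ht => ?_
  rw [mem_ofPred_eq] at ht ⊢
  intro hcon
  refine ht ?_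
  rw [hw] at hcon
  have h1 := finrank_span_eq_card hcon
  rw [Fintype.card_fin] at h1
  exact h1

theorem exists_span_eq {V : Type*} [AddCommGroup V] [Module ℝ V] [FiniteDimensional ℝ V] {a : ℕ}
    {A : Submodule ℝ V} (hA : finrank ℝ A = a) :
    ∃ b : Fin a → V, LinearIndependent ℝ b ∧ span ℝ (Set.range b) = A := by
  let e := Module.finBasisOfFinrankEq ℝ A hA
  refine ⟨fun k => (e k : V), ?_, ?_⟩
  · exact e.linearIndependent.map' A.subtype (Submodule.ker_subtype A)
  · have h2 := congrArg (Submodule.map A.subtype) e.span_eq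
    rw [Submodule.map_span, ← Set.range_comp, Submodule.map_top, Submodule.range_subtype] at h2
    exact h2

/-- Interpolation property of the boxes. -/
theorem box_conn (A₁ A₂ : (i : Fin n) → Submodule ℝ (Fin (m i) → ℝ))
    (h₁ : ∀ i, finrank ℝ (A₁ i) = r i) (h₂ : ∀ i, finrank ℝ (A₂ i) = r i)
    (X Y : Submodule ℝ (Ten m)) :
    ∃ A : (i : Fin n) → Submodule ℝ (Fin (m i) → ℝ), (∀ i, finrank ℝ (A i) = r i) ∧
      finrank ℝ (boxT A₁ ⊔ X : Submodule ℝ (Ten m)) ≤
        finrank ℝ (boxT A ⊔ X : Submodule ℝ (Ten m)) ∧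
      finrank ℝ (boxT A₂ ⊔ Y : Submodule ℝ (Ten m)) ≤
        finrank ℝ (boxT A ⊔ Y : Submodule ℝ (Ten m)) := by
  have e1 : ∀ i, ∃ b : Fin (r i) → Fin (m i) → ℝ, LinearIndependent ℝ b ∧
      span ℝ (Set.range b) = A₁ i := fun i => exists_span_eq (h₁ i)
  have e2 : ∀ i, ∃ b : Fin (r i) → Fin (m i) → ℝ, LinearIndependent ℝ b ∧
      span ℝ (Set.range b) = A₂ i := fun i => exists_span_eq (h₂ i)
  choose b₁ hb₁ hs₁ using e1
  choose b₂ hb₂ hs₂ using e2
  have l0 : lineS b₁ b₂ 0 = A₁ := by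
    funext i
    rw [← hs₁ i]
    unfold lineS
    congr 1
    congr 1
    funext k x
    ring
  have l1 : lineS b₁ b₂ 1 = A₂ := by
    funext i
    rw [← hs₂ i]
    unfold lineS
    congr 1
    congr 1
    funext k x
    ring
  have hfin : ((⋃ i, {t : ℝ | ¬ finrank ℝ (lineS b₁ b₂ t i) = r i}) ∪
      ({t : ℝ | ¬ finrank ℝ (boxT (lineS b₁ b₂ 0) ⊔ X : Submodule ℝ (Ten m)) ≤
        finrank ℝ (boxT (lineS b₁ b₂ t) ⊔ X : Submodule ℝ (Ten m))} ∪
      {t : ℝ | ¬ finrank ℝ (boxT (lineS b₁ b₂ 1) ⊔ Y : Submodule ℝ (Ten m)) ≤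
        finrank ℝ (boxT (lineS b₁ b₂ t) ⊔ Y : Submodule ℝ (Ten m))})).Finite :=
    (Set.finite_iUnion fun i => finite_bad_dim b₁ b₂ hb₁ i).union
      ((finite_bad b₁ b₂ X 0).union (finite_bad b₁ b₂ Y 1))
  obtain ⟨t, ht⟩ := hfin.infinite_compl.nonempty
  rw [Set.mem_compl_iff, Set.mem_union, Set.mem_union, Set.mem_iUnion] at ht
  obtain ⟨ht1, ht23⟩ := not_or.1 ht
  obtain ⟨ht2, ht3⟩ := not_or.1 ht23
  refine ⟨lineS b₁ b₂ t, fun i => ?_, ?_, ?_⟩
  · exact not_not.1 fun h => ht1 ⟨i, h⟩
  · rw [← l0]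
    exact not_not.1 ht2
  · rw [← l1]
    exact not_not.1 ht3

end Pool.Agent.SubTwo
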