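import Pool.Agent.SubTwo.Unb
import Pool.Agent.SubTwo.Bridge

/-!
# The typical rank when the full factors are large
-/

open Module Submodule Set
open scoped LinearAlgebra.Projectivization Topology

namespace Pool.Agent.SubTwo

open Pool.Agent.SubTyp

variable {n : ℕ} {m : Fin n → ℕ} (K : Finset (Fin n))

/-- indices of the factors in `K` -/
abbrev InK (m : Fin n → ℕ) (K : Finset (Fin n)) : Type := (i : {i // i ∈ K}) → Fin (m i)

/-- indices of the factors outside `K` -/
abbrev OutK (m : Fin n → ℕ) (K : Finset (Fin n)) : Type := (i : {i // i ∉ K}) → Fin (m i)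

/-- the index with given parts -/
def comb (κ : InK m K) (φ : OutK m K) : (i : Fin n) → Fin (m i) :=
  fun i => if h : i ∈ K then κ ⟨i, h⟩ else φ ⟨i, h⟩

theorem comb_in (κ : InK m K) (φ : OutK m K) (i : {i // i ∈ K}) : comb K κ φ i = κ i := by
  unfold comb
  rw [dif_pos i.2]

theorem comb_out (κ : InK m K) (φ : OutK m K) (i : {i // i ∉ K}) : comb K κ φ i = φ i := by
  unfold comb
  rw [dif_neg i.2]

/-- the first part of an index -/
def fstK (t : (i : Fin n) → Fin (m i)) : InK m K := fun i => t i

/-- the second part of an index -/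
def sndK (t : (i : Fin n) → Fin (m i)) : OutK m K := fun i => t i

theorem comb_parts (t : (i : Fin n) → Fin (m i)) : comb K (fstK K t) (sndK K t) = t := by
  funext i
  unfold comb
  by_cases h : i ∈ K
  · rw [dif_pos h]
    rfl
  · rw [dif_neg h]
    rfl

theorem fst_comb (κ : InK m K) (φ : OutK m K) : fstK K (comb K κ φ) = κ :=
  funext fun i => comb_in K κ φ i

theorem snd_comb (κ : InK m K) (φ : OutK m K) : sndK K (comb K κ φ) = φ :=
  funext fun i => comb_out K κ φ i

/-- the operator moving the part at `β` to `α` -/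
noncomputable def mv (α β : OutK m K) : Ten m →ₗ[ℝ] Ten m where
  toFun T := fun t => by
    classical
    exact if sndK K t = α then T (comb K (fstK K t) β) else 0
  map_add' T U := by
    classical
    funext t
    by_cases h : sndK K t = α
    · simp [h]
    · simp [h]
  map_smul' c T := by
    classical
    funext t
    by_cases h : sndK K t = α
    · simp [h]
    · simp [h]

open Classical in
theorem mv_apply (α β : OutK m K) (T : Ten m) (t : (i : Fin n) → Fin (m i)) :
    mv K α β T t = if sndK K t = α then T (comb K (fstK K t) β) else 0 := by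
  unfold mv
  simp only [LinearMap.coe_mk, AddHom.coe_mk]

/-- boxes that are full outside `K` are stable under the operators -/
theorem mv_mem {A : (i : Fin n) → Submodule ℝ (Fin (m i) → ℝ)} (hA : ∀ i, i ∉ K → A i = ⊤)
    (α β : OutK m K) {T : Ten m} (hT : T ∈ boxT A) : mv K α β T ∈ boxT A := by
  classical
  have h : boxT A ≤ (boxT A).comap (mv K α β) := by
    unfold boxT
    rw [span_le]
    rintro _ ⟨v, hv, rfl⟩
    rw [SetLike.mem_coe, Submodule.mem_comap]
    let w : (i : Fin n) → Fin (m i) → ℝ := fun i =>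
      if h : i ∈ K then v i else Pi.single (α ⟨i, h⟩) 1
    have hw : mv K α β (pureT v) =
        (∏ i : {i // i ∉ K}, v i (β i)) • pureT w := by
      funext t
      rw [mv_apply, Pi.smul_apply, smul_eq_mul]
      have e1 : ∀ u : (i : Fin n) → Fin (m i) → ℝ, ∀ t, pureT u t =
          (∏ i : {i // i ∈ K}, u i (t i)) * ∏ i : {i // i ∉ K}, u i (t i) := by
        intro u t
        unfold pureT
        refine (Fintype.prod_subtype_mul_prod_subtype (fun i => i ∈ K)
          (fun i => u i (t i))).symm.trans ?_
        have hinst : ∀ (i1 i2 : Fintype {i // i ∈ K}) (f : {i // i ∈ K} → ℝ),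
            (@Finset.univ _ i1).prod f = (@Finset.univ _ i2).prod f := by
          intro i1 i2 f
          rw [Subsingleton.elim i1 i2]
        have hinst' : ∀ (i1 i2 : Fintype {i // i ∉ K}) (f : {i // i ∉ K} → ℝ),
            (@Finset.univ _ i1).prod f = (@Finset.univ _ i2).prod f := by
          intro i1 i2 f
          rw [Subsingleton.elim i1 i2]
        exact congrArg₂ (fun a b : ℝ => a * b) (hinst _ _ _) (hinst' _ _ _)
      rw [e1 v, e1 w]
      have e2 : ∏ i : {i // i ∈ K}, w i (t i) = ∏ i : {i // i ∈ K}, v i (t i) := by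
        refine Finset.prod_congr rfl fun i _ => ?_
        simp only [w]
        rw [dif_pos i.2]
      have e3 : ∏ i : {i // i ∈ K}, v i (comb K (fstK K t) β i) =
          ∏ i : {i // i ∈ K}, v i (t i) := by
        refine Finset.prod_congr rfl fun i _ => ?_
        rw [comb_in]
        rfl
      have e4 : ∏ i : {i // i ∉ K}, v i (comb K (fstK K t) β i) =
          ∏ i : {i // i ∉ K}, v i (β i) := by
        refine Finset.prod_congr rfl fun i _ => ?_
        rw [comb_out]
      rw [e2, e3, e4]
      by_cases h : sndK K t = α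
      · rw [if_pos h]
        have e5 : ∏ i : {i // i ∉ K}, w i (t i) = 1 := by
          refine Finset.prod_eq_one fun i _ => ?_
          simp only [w]
          rw [dif_neg i.2]
          have h6 : t i = α i := congrFun h i
          rw [h6]
          exact Pi.single_eq_same _ _
        rw [e5]
        ring
      · rw [if_neg h]
        obtain ⟨i, hi⟩ := Function.ne_iff.1 h
        have e5 : ∏ i : {i // i ∉ K}, w i (t i) = 0 := by
          refine Finset.prod_eq_zero (Finset.mem_univ i) ?_
          simp only [w]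
          rw [dif_neg i.2]
          exact Pi.single_eq_of_ne hi _
        rw [e5]
        ring
    rw [hw]
    refine Submodule.smul_mem _ _ (subset_span ⟨w, fun i => ?_, rfl⟩)
    by_cases hi : i ∈ K
    · simp only [w]
      rw [dif_pos hi]
      exact hv i
    · rw [hA i hi]
      exact Submodule.mem_top
  exact h hT

/-- a square part of the flattening -/
def sqK (ι : InK m K ↪ OutK m K) (T : Ten m) : Matrix (InK m K) (InK m K) ℝ :=
  Matrix.of fun κ κ' => T (comb K κ (ι κ'))

theorem top_of_mv (ι : InK m K ↪ OutK m K) {T : Ten m} (hT : (sqK K ι T).det ≠ 0)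
    {B : Submodule ℝ (Ten m)} (hB : ∀ α β, mv K α β T ∈ B) : B = ⊤ := by
  classical
  rw [eq_top_iff]
  -- the basis vectors
  have h1 : ∀ t : (i : Fin n) → Fin (m i), (Pi.single t 1 : Ten m) ∈ B := by
    intro t
    have h2 : (Pi.single t 1 : Ten m) =
        ∑ κ', ((sqK K ι T)⁻¹ κ' (fstK K t)) • mv K (sndK K t) (ι κ') T := by
      funext t'
      rw [Finset.sum_apply]
      simp only [Pi.smul_apply, smul_eq_mul, mv_apply]
      by_cases h : sndK K t' = sndK K t
      · simp only [if_pos h]
        have h3 : ∑ κ', (sqK K ι T)⁻¹ κ' (fstK K t) * T (comb K (fstK K t') (ι κ')) =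
            (sqK K ι T * (sqK K ι T)⁻¹) (fstK K t') (fstK K t) := by
          rw [Matrix.mul_apply]
          exact Finset.sum_congr rfl fun κ' _ => mul_comm _ _
        rw [h3, Matrix.mul_nonsing_inv _ (isUnit_iff_ne_zero.2 hT), Matrix.one_apply]
        by_cases h4 : t' = t
        · rw [h4, Pi.single_eq_same, if_pos rfl]
        · rw [Pi.single_eq_of_ne h4, if_neg]
          intro h5
          refine h4 ?_
          rw [← comb_parts K t', ← comb_parts K t, h5, h]
      · simp only [if_neg h, mul_zero, Finset.sum_const_zero]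
        rw [Pi.single_eq_of_ne]
        rintro rfl
        exact h rfl
    rw [h2]
    exact Submodule.sum_mem _ fun κ' _ => Submodule.smul_mem _ _ (hB _ _)
  intro U _
  have h5 : U = ∑ t, U t • (Pi.single t 1 : Ten m) := by
    have := (Pi.basisFun ℝ ((i : Fin n) → Fin (m i))).sum_repr U
    simp only [Pi.basisFun_repr, Pi.basisFun_apply] at this
    exact this.symm
  rw [h5]
  exact Submodule.sum_mem _ fun t _ => Submodule.smul_mem _ _ (h1 t)

theorem open_sqK (ι : InK m K ↪ OutK m K) : IsOpen {T : Ten m | (sqK K ι T).det ≠ 0} := by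
  have h1 : Continuous fun T : Ten m => (sqK K ι T).det := by
    refine Continuous.matrix_det ?_
    refine continuous_matrix fun t t' => ?_
    exact continuous_apply _
  exact isOpen_ne_fun h1 continuous_const

theorem dense_sqK (ι : InK m K ↪ OutK m K) : Dense {T : Ten m | (sqK K ι T).det ≠ 0} := by
  classical
  intro T₀
  let T₁ : Ten m := fun t => if ι (fstK K t) = sndK K t then 1 else 0
  have hT₁ : sqK K ι T₁ = 1 := by
    ext κ κ'
    have : sqK K ι T₁ κ κ' = T₁ (comb K κ (ι κ')) := rfl
    rw [this]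
    simp only [T₁]
    rw [fst_comb, snd_comb, Matrix.one_apply]
    simp only [ι.injective.eq_iff]
  have hlin : ∀ a : ℝ, sqK K ι (T₀ + a • T₁) = a • 1 + sqK K ι T₀ := by
    intro a
    rw [← hT₁, add_comm]
    rfl
  have hfin : {a : ℝ | (sqK K ι (T₀ + a • T₁)).det = 0}.Finite := by
    refine ((-(sqK K ι T₀)).charpoly.rootSet_finite ℝ).subset fun a ha => ?_
    rw [mem_ofPred_eq, hlin] at ha
    rw [Polynomial.mem_rootSet]
    refine ⟨(Matrix.charpoly_monic _).ne_zero, ?_⟩
    rw [Polynomial.aeval_def, Algebra.algebraMap_self, Polynomial.eval₂_id,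
      Matrix.eval_charpoly, sub_neg_eq_add]
    rw [← ha]
    congr 2
    rw [Matrix.scalar_apply, ← Matrix.smul_one_eq_diagonal]
  have hd : Dense {a : ℝ | (sqK K ι (T₀ + a • T₁)).det = 0}ᶜ := hfin.countable.dense_compl ℝ
  have hc : Continuous fun a : ℝ => T₀ + a • T₁ :=
    continuous_const.add (continuous_id.smul continuous_const)
  have h0 : (0 : ℝ) ∈ closure {a : ℝ | (sqK K ι (T₀ + a • T₁)).det = 0}ᶜ := hd 0
  have h1 := image_closure_subset_closure_image hc ⟨0, h0, rfl⟩
  simp only [zero_smul, add_zero] at h1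
  refine closure_mono ?_ h1
  rintro _ ⟨a, ha, rfl⟩
  exact ha

/-- **The typical rank when the full factors are large.** -/
theorem typical_full {r : Fin n → ℕ} (hr : ∀ i, 1 ≤ r i ∧ r i ≤ m i)
    (hK : ∀ i, i ∉ K → r i = m i) (hbig : ∏ i ∈ K, m i ≤ ∏ i ∈ Kᶜ, m i) {R : ℕ}
    (hR : IsLeast {s | SpansT m r s} R) (d : ℕ) :
    IsTypicalRank (SubVar m r) d ↔ d = R := by
  classical
  rw [subVar_eq]
  obtain ⟨A0⟩ := nonempty_fam (m := m) (r := r) fun i => (hr i).2
  have hKK : ∃ A, famK m r A ≠ ⊥ := ⟨A0, boxT_ne_bot (fun i => (hr i).1) A0⟩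
  have hne : Nonempty (FamT m r) := ⟨A0⟩
  obtain ⟨ι⟩ : Nonempty (InK m K ↪ OutK m K) := by
    rw [Function.Embedding.nonempty_iff_card_le, Fintype.card_pi, Fintype.card_pi]
    simp only [Fintype.card_fin]
    have e1 : ∏ i : {i // i ∈ K}, m i = ∏ i ∈ K, m i := Finset.prod_coe_sort K m
    have e2 : ∏ i : {i // i ∉ K}, m i = ∏ i ∈ Kᶜ, m i := by
      rw [← Finset.prod_subtype Kᶜ (fun x => Finset.mem_compl) m]
    rw [e1, e2]
    exact hbig
  have hup : ∀ T : Ten m, T ∈ RankLE (famK m r) R := by
    obtain ⟨A, hA, htop⟩ := hR.1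
    intro T
    refine ⟨fun j => ⟨A j, hA j⟩, ?_⟩
    have : (⨆ j, famK m r ⟨A j, hA j⟩) = ⊤ := htop
    rw [this]
    exact Submodule.mem_top
  have hlow : ∀ s, s < R → ∀ T : Ten m, (sqK K ι T).det ≠ 0 → T ∉ RankLE (famK m r) s := by
    rintro s hs T hT ⟨A, hA⟩
    have hfull : ∀ j i, i ∉ K → (A j).1 i = ⊤ := by
      intro j i hi
      refine Submodule.eq_top_of_finrank_eq ?_
      rw [(A j).2 i, hK i hi, finrank_fin_fun]
    have htop : (⨆ j, famK m r (A j)) = ⊤ := by
      refine top_of_mv K ι hT fun α β => ?_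
      have h1 : (⨆ j, famK m r (A j)) ≤ (⨆ j, famK m r (A j)).comap (mv K α β) := by
        refine iSup_le fun j => ?_
        intro U hU
        exact Submodule.mem_iSup_of_mem j (mv_mem K (hfull j) α β hU)
      exact h1 hA
    have := hR.2 (show SpansT m r s from ⟨fun j => (A j).1, fun j => (A j).2, htop⟩)
    omega
  have hR0 : R ≠ 0 := by
    rintro rfl
    obtain ⟨A, -, htop⟩ := hR.1
    rw [iSup_of_empty] at htop
    have h2 : Nontrivial (Ten m) := by
      let x : (i : Fin n) → Fin (m i) := fun i => ⟨0, by have := hr i; omega⟩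
      exact ⟨0, Pi.single x 1, fun h => by simpa using congrFun h x⟩
    exact bot_ne_top htop
  obtain ⟨s, rfl⟩ : ∃ s, R = s + 1 := ⟨R - 1, by omega⟩
  constructor
  · intro hd
    have h1 : d ≤ s + 1 := typical_le _ hKK (by
      have : RankLE (famK m r) (s + 1) = Set.univ := Set.eq_univ_of_forall hup
      rw [this]
      exact dense_univ) hd
    have h2 : s < d := lt_typical _ hKK ((dense_sqK K ι).mono fun T hT =>
      hlow s (by omega) T hT) hd
    omega
  · rintro rfl
    refine typical_of_open _ hKK (open_sqK K ι) ?_ (fun T _ => hup T) fun T hT =>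
      hlow s (by omega) T hT
    exact (dense_sqK K ι).nonempty

end Pool.Agent.SubTwo
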