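import Pool.Agent.SubTyp.Defs

/-!
# Definitions for the theorem on large formats
-/

namespace Pool.Agent.SubTwo

open Pool.Agent.SubTyp

/-- The set of all typical ranks with respect to `Sub_{r₁,…,rₙ}(V₁ ⊗ ⋯ ⊗ Vₙ)`. -/
def TypTen {n : ℕ} (m r : Fin n → ℕ) : Set ℕ := {d | IsTypicalRank (SubVar m r) d}

/-- The set of all typical ranks with respect to `Sub_r(Sⁿ ℝ^m)`. -/
def TypSym (n m r : ℕ) : Set ℕ := {d | IsTypicalRank (SymSubVar n m r) d}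

/-- All elements of `S` lie between the round-ups of `x - δ` and `x + δ`, and `S` consists of the
round-up of `x` if these are equal. -/
def Near (S : Set ℕ) (x δ : ℝ) : Prop :=
  (∀ d ∈ S, ⌈x - δ⌉₊ ≤ d ∧ d ≤ ⌈x + δ⌉₊) ∧ (⌈x - δ⌉₊ = ⌈x + δ⌉₊ → S = {⌈x⌉₊})

/-- The regions:
(a) `n ≥ 3`, `rᵢ ≥ C` and `mᵢ ≥ min (n, 5) rᵢ` for all `i`;
(b) for some `i₀`: `r ≥ C` and `2 m ≥ 3 r` for the factor `i₀`, and `r ∣ m` or `r ≥ C`, `m ≥ 5 r` for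
the others;
(c) for some `i₀` and `h`: `r ≥ C` for the factor `i₀`; `h r = m` or `r ≥ C`,
`h r (m - r) ≥ (1 + δ) m²` for the others; the product of the `h` of the others is at most the
round-up of `x + δ`. -/
def InRegion {n : ℕ} (m r : Fin n → ℕ) (C : ℕ) (δ x : ℝ) : Prop :=
  (3 ≤ n ∧ ∀ i, C ≤ r i ∧ min n 5 * r i ≤ m i) ∨
  (∃ i₀, C ≤ r i₀ ∧ 3 * r i₀ ≤ 2 * m i₀ ∧
    ∀ i, i ≠ i₀ → r i ∣ m i ∨ C ≤ r i ∧ 5 * r i ≤ m i) ∨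
  ∃ (i₀ : Fin n) (h : Fin n → ℕ), C ≤ r i₀ ∧
    (∀ i, i ≠ i₀ → h i * r i = m i ∨
      C ≤ r i ∧ (1 + δ) * (m i : ℝ) ^ 2 ≤ h i * r i * (m i - r i)) ∧
    ∏ i ∈ Finset.univ.erase i₀, h i ≤ ⌈x + δ⌉₊

end Pool.Agent.SubTwo
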