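import Pool.Agent.SubTwo.SymRegion

/-!
# Symmetric subspace varieties: uniform bounds and large multiples
-/

open Module Set

namespace Pool.Agent.SubTwo

open Pool.Agent.SubTyp

/-- The symmetric box number of large formats. -/
theorem sym_box (n : ℕ) (hn : 3 ≤ n) (T δ : ℝ) (hδ : 0 < δ) : ∃ C : ℕ, ∀ m r : ℕ,
    C ≤ r → 1 ≤ r ∧ r ≤ m → min n 5 * r ≤ m →
    ∀ x : ℝ, x = ((m : ℝ) / r) ^ n → x ≤ T →
      ∃ A : Fin ⌈x + δ⌉₊ → Gr m r, ⨆ j, symK n m r (A j) = ⊤ := by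
  by_cases hT : 1 ≤ T
  swap
  · refine ⟨0, fun m r _ hr _ x hx hxT => ?_⟩
    exfalso
    have hr0 : (0 : ℝ) < r := by exact_mod_cast hr.1
    have h1 : (1 : ℝ) ≤ (m : ℝ) / r := by
      rw [one_le_div hr0]
      exact_mod_cast hr.2
    have h2 : (1 : ℝ) ≤ x := hx ▸ one_le_pow₀ h1
    linarith
  have hT0 : 0 < T := by linarith
  obtain ⟨ε, hε0, hε1, hε2⟩ : ∃ ε : ℝ, 0 < ε ∧ 2 * ε ≤ 1 ∧ T * (2 ^ n * (2 * ε)) ≤ δ / 2 := by
    refine ⟨min (1 / 2) (δ / (T * 2 ^ (n + 2))), lt_min (by norm_num) (by positivity), ?_, ?_⟩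
    · have := min_le_left (1 / 2) (δ / (T * 2 ^ (n + 2)))
      linarith
    · have h1 : min (1 / 2) (δ / (T * 2 ^ (n + 2))) ≤ δ / (T * 2 ^ (n + 2)) := min_le_right _ _
      have h2 : 0 < T * 2 ^ (n + 2) := by positivity
      rw [le_div_iff₀ h2] at h1
      have h3 : (2 : ℝ) ^ (n + 2) = 2 ^ n * 4 := by rw [pow_add]; norm_num
      rw [h3] at h1 ⊢
      nlinarith
  obtain ⟨C1, hC1⟩ := span_const n hn (T + δ) (δ / 2) (by positivity)
  set D : ℕ := max (max C1 ⌈1 / ε⌉₊) 1 with hDdef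
  have hCD : C1 ≤ D := (le_max_left _ _).trans (le_max_left _ _)
  have hD1 : 1 ≤ D := le_max_right _ _
  have hD0 : (0 : ℝ) < D := by exact_mod_cast hD1
  have hDε : 1 ≤ ε * D := by
    have h1 : ⌈1 / ε⌉₊ ≤ D := (le_max_right _ _).trans (le_max_left _ _)
    have h2 : 1 / ε ≤ (D : ℝ) := (Nat.le_ceil _).trans (by exact_mod_cast h1)
    rw [div_le_iff₀ hε0] at h2
    linarith
  obtain ⟨C2, hC2⟩ := exists_nat_gt (2 * (D + n * (2 * T * D + 1)) / ε)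
  refine ⟨C2, fun m r hCr hr hreg x hx hxT => ?_⟩
  have hr0 : (0 : ℝ) < r := by exact_mod_cast hr.1
  set P : ℝ := (m : ℝ) / r with hP
  have hP1 : (1 : ℝ) ≤ P := by
    rw [hP, one_le_div hr0]
    exact_mod_cast hr.2
  have hPr : P * r = m := div_mul_cancel₀ _ hr0.ne'
  have hx1 : (1 : ℝ) ≤ x := hx ▸ one_le_pow₀ hP1
  have hPT : P ≤ T := by
    refine le_trans ?_ hxT
    rw [hx]
    exact le_self_pow₀ hP1 (by omega)
  have hCr' : 2 * ((D : ℝ) + n * (2 * T * D + 1)) ≤ ε * r := by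
    rw [div_lt_iff₀ hε0] at hC2
    have h1 : (C2 : ℝ) ≤ r := by exact_mod_cast hCr
    nlinarith
  set K : ℕ := ⌈P * (1 + ε) * D⌉₊ with hKdef
  have hK1 : P * (1 + ε) * D ≤ K := Nat.le_ceil _
  have hK2 : (K : ℝ) < P * (1 + ε) * D + 1 := Nat.ceil_lt_add_one (by positivity)
  have hPD : P * D ≤ K := by
    refine le_trans ?_ hK1
    have : 0 ≤ P * ε * D := by positivity
    nlinarith
  have hDK : D ≤ K := by
    have h1 : (D : ℝ) ≤ K := by nlinarith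
    exact_mod_cast h1
  have hK0 : 1 ≤ K := hD1.trans hDK
  have hK0' : (0 : ℝ) < K := by exact_mod_cast hK0
  have hKbd : (K : ℝ) ≤ 2 * T * D + 1 := by
    have h1 : P * (1 + ε) ≤ T * 2 := mul_le_mul hPT (by linarith) (by positivity) hT0.le
    have h2 : P * (1 + ε) * D ≤ T * 2 * D := mul_le_mul_of_nonneg_right h1 hD0.le
    linarith
  have hreg' : min n 5 * D ≤ K := by
    have h1 : ((min n 5 : ℕ) : ℝ) ≤ P := by
      rw [hP, le_div_iff₀ hr0]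
      exact_mod_cast hreg
    have h2 : ((min n 5 : ℕ) : ℝ) * D ≤ K := (mul_le_mul_of_nonneg_right h1 hD0.le).trans hPD
    exact_mod_cast h2
  -- the ratio of the small format
  have hx' : ((K : ℝ) / D) ^ n ≤ x + δ / 2 := by
    have h1 : (K : ℝ) / D ≤ P * (1 + 2 * ε) := by
      rw [div_le_iff₀ hD0]
      nlinarith
    have h2 := one_add_pow_le n (ε := 2 * ε) (by positivity) hε1
    calc ((K : ℝ) / D) ^ n ≤ (P * (1 + 2 * ε)) ^ n := pow_le_pow_left₀ (by positivity) h1 n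
      _ = x * (1 + 2 * ε) ^ n := by rw [mul_pow, ← hx]
      _ ≤ x * (1 + (2 ^ n - 1) * (2 * ε)) := mul_le_mul_of_nonneg_left h2 (by linarith)
      _ ≤ x + T * (2 ^ n * (2 * ε)) := by
          have h3 : x * ((2 ^ n - 1) * (2 * ε)) ≤ T * (2 ^ n * (2 * ε)) := by
            refine mul_le_mul hxT ?_ ?_ hT0.le
            · exact mul_le_mul_of_nonneg_right (by linarith) (by positivity)
            · have : (1 : ℝ) ≤ 2 ^ n := one_le_pow₀ (by norm_num)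
              exact mul_nonneg (by linarith) (by positivity)
          linarith
      _ ≤ x + δ / 2 := by linarith
  have hS := hC1 K D hCD ⟨hD1, hDK⟩ hreg' _ rfl (by linarith)
  have hS' : SpansT (fun _ : Fin n => K) (fun _ => D) ⌈x + δ⌉₊ :=
    spansT_mono (fun _ => hDK) (Nat.ceil_le_ceil (by linarith)) hS
  -- the number of blocks
  set M : ℕ := (m + K - 1) / K with hM
  have hmM : m ≤ M * K := by
    have h1 := Nat.div_add_mod' (m + K - 1) K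
    have h2 := Nat.mod_lt (m + K - 1) hK0
    rw [← hM] at h1
    omega
  have hMK : M * K ≤ m + K := by
    have h1 : M * K ≤ m + K - 1 := Nat.div_mul_le_self _ _
    omega
  have hnM : n ≤ M := by
    by_contra hcon
    push Not at hcon
    have h1 : m < n * K := lt_of_le_of_lt hmM (Nat.mul_lt_mul_of_pos_right hcon hK0)
    have h2 : (m : ℝ) < n * K := by exact_mod_cast h1
    have h3 : (r : ℝ) ≤ m := by exact_mod_cast hr.2
    have h4 : (n : ℝ) * K ≤ n * (2 * T * D + 1) :=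
      mul_le_mul_of_nonneg_left hKbd (Nat.cast_nonneg _)
    have h5 : (0 : ℝ) ≤ n * (2 * T * D + 1) := by positivity
    nlinarith
  refine sym_of_spans hK0 hDK hS' hnM hmM ?_ hr.2
  have h1 : (M : ℝ) * D * K ≤ (m + K) * D := by
    have : ((M * K : ℕ) : ℝ) ≤ ((m + K : ℕ) : ℝ) := by exact_mod_cast hMK
    push_cast at this
    nlinarith
  have h2 : (m : ℝ) * D * (1 + ε) ≤ K * r := by
    calc (m : ℝ) * D * (1 + ε) = P * (1 + ε) * D * r := by rw [← hPr]; ring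
      _ ≤ K * r := mul_le_mul_of_nonneg_right hK1 hr0.le
  have h3 : (M : ℝ) * D * (1 + ε) ≤ r + D * (1 + ε) := by
    have h4 : (M : ℝ) * D * (1 + ε) * K ≤ (r + D * (1 + ε)) * K := by
      calc (M : ℝ) * D * (1 + ε) * K = (M * D * K) * (1 + ε) := by ring
        _ ≤ ((m + K) * D) * (1 + ε) := mul_le_mul_of_nonneg_right h1 (by positivity)
        _ = m * D * (1 + ε) + K * D * (1 + ε) := by ring
        _ ≤ K * r + K * D * (1 + ε) := by linarith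
        _ = _ := by ring
    exact le_of_mul_le_mul_right h4 hK0'
  have h4 : (M : ℝ) * D + n * K ≤ r := by
    have h5 : (n : ℝ) * K ≤ n * (2 * T * D + 1) :=
      mul_le_mul_of_nonneg_left hKbd (Nat.cast_nonneg _)
    have h6 : ((M : ℝ) * D + n * K) * (1 + ε) ≤ r * (1 + ε) := by
      have h7 : (n : ℝ) * K * (1 + ε) ≤ n * (2 * T * D + 1) * 2 :=
        mul_le_mul h5 (by linarith) (by positivity) (by positivity)
      have h8 : (D : ℝ) * (1 + ε) ≤ D * 2 := mul_le_mul_of_nonneg_left (by linarith) hD0.le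
      nlinarith
    exact le_of_mul_le_mul_right h6 (by positivity)
  have h5 : M * D + n * K ≤ r := by exact_mod_cast h4
  have h6 : (n - 1) * K ≤ n * K := Nat.mul_le_mul_right _ (Nat.sub_le _ _)
  omega

/-- **Typical ranks of large symmetric formats.** -/
theorem typical_sym_region {n : ℕ} (hn : 3 ≤ n) (T δ : ℝ) (hδ : 0 < δ) : ∃ C : ℕ, ∀ m r : ℕ,
    C ≤ r → 1 ≤ r ∧ r ≤ m → ∀ x : ℝ, x = ((m : ℝ) / r) ^ n → x ≤ T →
      (∀ k t s : ℕ, 1 ≤ k → s = k ^ n + n * t → ⌈(m : ℚ) / (k : ℚ)⌉₊ * (s - t) ≤ r * s →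
        (s : ℝ) - 1 + δ ≤ x → {d : ℕ | IsTypicalRank (SymSubVar n m r) d} = {s}) ∧
      (min n 5 * r ≤ m →
        (∀ d, IsTypicalRank (SymSubVar n m r) d → ⌈x - δ⌉₊ ≤ d ∧ d ≤ ⌈x + δ⌉₊) ∧
        (⌈x - δ⌉₊ = ⌈x + δ⌉₊ → {d : ℕ | IsTypicalRank (SymSubVar n m r) d} = {⌈x⌉₊})) := by
  obtain ⟨C1, hC1⟩ := sym_box n hn T δ hδ
  obtain ⟨C2, hC2⟩ := typical_of_sym_span hn T δ hδ
  choose! C3 hC3 using fun (p : ℕ × ℕ) => fun hk : 1 ≤ p.1 =>
    typical_sym_large hn (k := p.1) p.2 (p.1 ^ n + n * p.2) hk rfl δ hδ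
  refine ⟨max (max C1 C2) ((Finset.range (⌈T⌉₊ + 2) ×ˢ Finset.range (⌈T⌉₊ + 2)).sup C3),
    fun m r hCr hr x hx hxT => ⟨fun k t s hk hs hspan hsx => ?_, fun hreg => ?_⟩⟩
  · have hr0 : (0 : ℝ) < r := by exact_mod_cast hr.1
    have hrn : (0 : ℝ) < (r : ℝ) ^ n := by positivity
    have hxr : x * (r : ℝ) ^ n = (m : ℝ) ^ n := by
      rw [hx, div_pow]
      exact div_mul_cancel₀ _ hrn.ne'
    have hsT : s ≤ ⌈T⌉₊ + 1 := by
      have h1 : (s : ℝ) ≤ (⌈T⌉₊ : ℝ) + 1 := by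
        have := Nat.le_ceil T
        linarith
      exact_mod_cast h1
    have hks : k ≤ s := by
      have h1 : k ≤ k ^ n := Nat.le_self_pow (by omega) k
      omega
    have hts : t ≤ s := by
      have h1 : t ≤ n * t := Nat.le_mul_of_pos_left _ (by omega)
      omega
    have hC : C3 (k, t) ≤ r := by
      refine le_trans ?_ ((le_max_right _ _).trans hCr)
      exact Finset.le_sup (f := C3) (Finset.mem_product.2
        ⟨Finset.mem_range.2 (by omega), Finset.mem_range.2 (by omega)⟩)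
    subst hs
    refine hC3 (k, t) hk m r hC hr hspan ?_
    rw [← hxr]
    exact mul_le_mul_of_nonneg_right hsx hrn.le
  · have hC1r : C1 ≤ r := (le_max_left _ _).trans ((le_max_left _ _).trans hCr)
    have hC2r : C2 ≤ r := (le_max_right _ _).trans ((le_max_left _ _).trans hCr)
    exact hC2 m r hC2r hr x hx hxT (hC1 m r hC1r hr hreg x hx hxT)

theorem sym_span_ray {n K D s m r : ℕ} (hK : 1 ≤ K) (hD : D ≤ K)
    (hS : SpansT (fun _ : Fin n => K) (fun _ => D) s) (hr : 1 ≤ r ∧ r ≤ m)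
    (hlt : D * m < K * r) :
    ∃ N₀ : ℕ, ∀ N, N₀ ≤ N → ∃ A : Fin s → Gr (N * m) (N * r),
      ⨆ j, symK n (N * m) (N * r) (A j) = ⊤ := by
  refine ⟨K * D + n * K * K, fun N hN => ?_⟩
  set M : ℕ := (N * m + K - 1) / K with hM
  have hmM : N * m ≤ M * K := by
    have h1 := Nat.div_add_mod' (N * m + K - 1) K
    have h2 := Nat.mod_lt (N * m + K - 1) hK
    rw [← hM] at h1
    omega
  have hMK : M * K ≤ N * m + K := by
    have h1 : M * K ≤ N * m + K - 1 := Nat.div_mul_le_self _ _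
    omega
  have hnM : n ≤ M := by
    by_contra hcon
    push Not at hcon
    have h1 : N * m < n * K := lt_of_le_of_lt hmM (Nat.mul_lt_mul_of_pos_right hcon hK)
    have h2 : N ≤ N * m := Nat.le_mul_of_pos_right _ (by omega)
    have h3 : n * K ≤ n * K * K := Nat.le_mul_of_pos_right _ hK
    omega
  refine sym_of_spans hK hD hS hnM hmM ?_ (Nat.mul_le_mul_left _ hr.2)
  have h1 : (M * D + n * K) * K ≤ (N * r) * K := by
    calc (M * D + n * K) * K = (M * K) * D + n * K * K := by ring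
      _ ≤ (N * m + K) * D + n * K * K := Nat.add_le_add_right (Nat.mul_le_mul_right _ hMK) _
      _ = N * (D * m) + (K * D + n * K * K) := by ring
      _ ≤ N * (D * m) + N := Nat.add_le_add_left hN _
      _ = N * (D * m + 1) := by ring
      _ ≤ N * (K * r) := Nat.mul_le_mul_left _ hlt
      _ = _ := by ring
  have h2 : M * D + n * K ≤ N * r := Nat.le_of_mul_le_mul_right h1 hK
  have h3 : (n - 1) * K ≤ n * K := Nat.mul_le_mul_right _ (Nat.sub_le _ _)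
  omega

/-- Large multiples: the explicit families. -/
theorem sym_rays_design {n m r : ℕ} (hn : 3 ≤ n) (hr : 1 ≤ r ∧ r ≤ m) {x : ℝ}
    (hx : x = ((m : ℝ) / r) ^ n) {k t : ℕ} (hk : 1 ≤ k) (hs : ⌈x⌉₊ = k ^ n + n * t)
    (hspan : ⌈(m : ℚ) / (k : ℚ)⌉₊ * (⌈x⌉₊ - t) ≤ r * ⌈x⌉₊) :
    ∃ N₀ : ℕ, ∀ N, N₀ ≤ N →
      {d : ℕ | IsTypicalRank (SymSubVar n (N * m) (N * r)) d} = {⌈x⌉₊} := by
  have hr0 : (0 : ℝ) < r := by exact_mod_cast hr.1
  have hrn : (0 : ℝ) < (r : ℝ) ^ n := by positivity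
  have hxr : x * (r : ℝ) ^ n = (m : ℝ) ^ n := by
    rw [hx, div_pow]
    exact div_mul_cancel₀ _ hrn.ne'
  have hP1 : (1 : ℝ) ≤ (m : ℝ) / r := by
    rw [one_le_div hr0]
    exact_mod_cast hr.2
  have hx1 : (1 : ℝ) ≤ x := hx ▸ one_le_pow₀ hP1
  have hs0 : 0 < ⌈x⌉₊ := Nat.ceil_pos.2 (by linarith)
  have h1 : ((⌈x⌉₊ - 1 : ℕ) : ℝ) < x := by
    refine Nat.lt_ceil.1 ?_
    omega
  have h3 : ((⌈x⌉₊ - 1 : ℕ) : ℝ) = ⌈x⌉₊ - 1 := by
    rw [Nat.cast_sub hs0, Nat.cast_one]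
  rw [h3] at h1
  obtain ⟨r₀, h⟩ := typical_sym_large hn (k := k) t ⌈x⌉₊ hk hs (x - (⌈x⌉₊ - 1)) (by linarith)
  refine ⟨max r₀ 1, fun N hN => ?_⟩
  have hN1 : 1 ≤ N := (le_max_right _ _).trans hN
  refine h (N * m) (N * r) (((le_max_left _ _).trans hN).trans
    (Nat.le_mul_of_pos_right _ hr.1)) ⟨Nat.mul_pos hN1 hr.1, Nat.mul_le_mul_left _ hr.2⟩ ?_ ?_
  · have h4 : ⌈((N * m : ℕ) : ℚ) / (k : ℚ)⌉₊ ≤ N * ⌈(m : ℚ) / (k : ℚ)⌉₊ := by
      refine Nat.ceil_le.2 ?_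
      push_cast
      rw [mul_div_assoc]
      exact mul_le_mul_of_nonneg_left (Nat.le_ceil _) (Nat.cast_nonneg _)
    calc ⌈((N * m : ℕ) : ℚ) / (k : ℚ)⌉₊ * (⌈x⌉₊ - t) ≤
          (N * ⌈(m : ℚ) / (k : ℚ)⌉₊) * (⌈x⌉₊ - t) := Nat.mul_le_mul_right _ h4
      _ = N * (⌈(m : ℚ) / (k : ℚ)⌉₊ * (⌈x⌉₊ - t)) := by ring
      _ ≤ N * (r * ⌈x⌉₊) := Nat.mul_le_mul_left _ hspan
      _ = _ := by ring
  · have h4 : (⌈x⌉₊ : ℝ) - 1 + (x - (⌈x⌉₊ - 1)) = x := by ring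
    rw [h4]
    push_cast
    rw [mul_pow, mul_pow, ← hxr]
    exact le_of_eq (by ring)

/-- **Large multiples of one symmetric format.** -/
theorem typical_sym_rays {n m r : ℕ} (hn : 3 ≤ n) (hr : 1 ≤ r ∧ r ≤ m) {x : ℝ}
    (hx : x = ((m : ℝ) / r) ^ n)
    (hreg : min n 5 * r ≤ m ∨
      (∃ K D : ℕ, 1 ≤ D ∧ D ≤ K ∧ D * m < K * r ∧
        boxNumber (fun _ : Fin n => K) (fun _ => D) ≤ ⌈x⌉₊) ∨
      ∃ k t : ℕ, 1 ≤ k ∧ ⌈x⌉₊ = k ^ n + n * t ∧
        ⌈(m : ℚ) / (k : ℚ)⌉₊ * (⌈x⌉₊ - t) ≤ r * ⌈x⌉₊) :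
    ∃ N₀ : ℕ, ∀ N, N₀ ≤ N →
      {d : ℕ | IsTypicalRank (SymSubVar n (N * m) (N * r)) d} = {⌈x⌉₊} := by
  have hr0 : (0 : ℝ) < r := by exact_mod_cast hr.1
  have hxN : ∀ N : ℕ, 1 ≤ N → x = (((N * m : ℕ) : ℝ) / ((N * r : ℕ) : ℝ)) ^ n := by
    intro N hN
    have hN0 : (N : ℝ) ≠ 0 := by
      have : N ≠ 0 := by omega
      exact_mod_cast this
    rw [hx]
    push_cast
    rw [mul_div_mul_left _ _ hN0]
  by_cases hdvd : r ∣ m
  · obtain ⟨k, hk⟩ := hdvd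
    have hk1 : 1 ≤ k := by
      rcases Nat.eq_zero_or_pos k with h | h
      · rw [hk, h, mul_zero] at hr
        omega
      · exact h
    have hPk : (m : ℝ) / r = k := by
      rw [hk]
      push_cast
      exact mul_div_cancel_left₀ _ hr0.ne'
    have hxk : x = ((k ^ n : ℕ) : ℝ) := by rw [hx, hPk]; push_cast; rfl
    refine sym_rays_design hn hr hx (k := k) (t := 0) hk1 ?_ ?_
    · rw [hxk, Nat.ceil_natCast, mul_zero, add_zero]
    · have h1 : ⌈(m : ℚ) / (k : ℚ)⌉₊ = r := by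
        rw [ceil_nat hk1, hk]
        have h2 : r * k + k - 1 = (k - 1) + r * k := by omega
        rw [h2, Nat.add_mul_div_right _ _ hk1, Nat.div_eq_of_lt (by omega), zero_add]
      rw [h1, Nat.sub_zero]
  -- the quotient is not an integer
  have hP1 : (1 : ℝ) ≤ (m : ℝ) / r := by
    rw [one_le_div hr0]
    exact_mod_cast hr.2
  have hx1 : (1 : ℝ) ≤ x := hx ▸ one_le_pow₀ hP1
  have hrn : (0 : ℝ) < (r : ℝ) ^ n := by positivity
  have hxr : x * (r : ℝ) ^ n = (m : ℝ) ^ n := by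
    rw [hx, div_pow]
    exact div_mul_cancel₀ _ hrn.ne'
  set s := ⌈x⌉₊ with hs
  have hs0 : 0 < s := Nat.ceil_pos.2 (by linarith)
  have h1 : ((s - 1 : ℕ) : ℝ) < x := by
    refine Nat.lt_ceil.1 ?_
    omega
  have h2 : x < s := by
    refine lt_of_le_of_ne (Nat.le_ceil _) fun h3 => hdvd ?_
    have h4 : (m : ℝ) ^ n = (s : ℝ) * (r : ℝ) ^ n := by rw [← hxr, ← h3]
    have h5 : m ^ n = s * r ^ n := by exact_mod_cast h4
    exact (Nat.pow_dvd_pow_iff (by omega : n ≠ 0)).1 ⟨s, by rw [h5, mul_comm]⟩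
  have hlt : m ^ n < s * r ^ n := by
    have h3 : (m : ℝ) ^ n < (s : ℝ) * (r : ℝ) ^ n := by
      rw [← hxr]
      exact mul_lt_mul_of_pos_right h2 hrn
    exact_mod_cast h3
  have h3 : ((s - 1 : ℕ) : ℝ) = s - 1 := by
    rw [Nat.cast_sub hs0, Nat.cast_one]
  obtain ⟨δ, hδ, hδ1, hδ2⟩ : ∃ δ : ℝ, 0 < δ ∧ ((s - 1 : ℕ) : ℝ) < x - δ ∧ x + δ ≤ s := by
    refine ⟨min ((x - (s - 1 : ℕ)) / 2) (s - x), lt_min ?_ ?_, ?_, ?_⟩
    · linarith
    · linarith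
    · have := min_le_left ((x - ((s - 1 : ℕ) : ℝ)) / 2) ((s : ℝ) - x)
      linarith
    · have := min_le_right ((x - ((s - 1 : ℕ) : ℝ)) / 2) ((s : ℝ) - x)
      linarith
  have hc1 : ⌈x + δ⌉₊ = s :=
    le_antisymm (Nat.ceil_le.2 hδ2) (Nat.ceil_le_ceil (by linarith))
  have hc2 : ⌈x - δ⌉₊ = s := by
    have h7 : s ≤ ⌈x - δ⌉₊ := by
      have h8 : s - 1 < ⌈x - δ⌉₊ := Nat.lt_ceil.2 hδ1
      omega
    exact le_antisymm (Nat.ceil_le_ceil (by linarith)) h7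
  rcases hreg with h | ⟨K, D, hD1, hDK, hlt', hbox⟩ | ⟨k, t, hk, hkt, hspan⟩
  · obtain ⟨C, hC⟩ := typical_sym_region hn x δ hδ
    refine ⟨max C 1, fun N hN => ?_⟩
    have hN1 : 1 ≤ N := (le_max_right _ _).trans hN
    refine ((hC (N * m) (N * r) (((le_max_left _ _).trans hN).trans
      (Nat.le_mul_of_pos_right _ hr.1)) ⟨Nat.mul_pos hN1 hr.1, Nat.mul_le_mul_left _ hr.2⟩ x
      (hxN N hN1) le_rfl).2 ?_).2 (by rw [hc1, hc2])
    calc min n 5 * (N * r) = N * (min n 5 * r) := by ring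
      _ ≤ _ := Nat.mul_le_mul_left _ h
  · have hS : SpansT (fun _ : Fin n => K) (fun _ => D) s :=
      spansT_mono (fun _ => hDK) hbox (boxNumber_isLeast fun _ => ⟨hD1, hDK⟩).1
    obtain ⟨N₁, hN₁⟩ := sym_span_ray (hD1.trans hDK) hDK hS hr hlt'
    obtain ⟨C, hC⟩ := typical_of_sym_span hn x δ hδ
    refine ⟨max (max C N₁) 1, fun N hN => ?_⟩
    have hN1 : 1 ≤ N := (le_max_right _ _).trans hN
    have hNC : C ≤ N := (le_max_left _ _).trans ((le_max_left _ _).trans hN)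
    have hNN : N₁ ≤ N := (le_max_right _ _).trans ((le_max_left _ _).trans hN)
    refine (hC (N * m) (N * r) (hNC.trans (Nat.le_mul_of_pos_right _ hr.1))
      ⟨Nat.mul_pos hN1 hr.1, Nat.mul_le_mul_left _ hr.2⟩ x (hxN N hN1) le_rfl ?_).2
        (by rw [hc1, hc2])
    rw [hc1]
    exact hN₁ N hNN
  · exact sym_rays_design hn hr hx hk hkt hspan

/-- **Bounds for all symmetric formats.** -/
theorem typical_sym_bounds {n m r : ℕ} (hn : 1 ≤ n) (hr : 1 ≤ r ∧ r ≤ m) {s : ℕ}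
    (hs : (∃ k t : ℕ, 1 ≤ k ∧ s = k ^ n + n * t ∧ ⌈(m : ℚ) / (k : ℚ)⌉₊ * (s - t) ≤ r * s) ∨
      ∃ K L M : ℕ, 1 ≤ L ∧ L ≤ K ∧ n ≤ M ∧ m ≤ M * K ∧ M * L + (n - 1) * K ≤ r ∧
        s = boxNumber (fun _ : Fin n => K) (fun _ => L)) :
    (∀ d, IsTypicalRank (SymSubVar n m r) d → d ≤ s) ∧
    ((s - 1) * ((r + n - 1).choose n + r * (m - r)) < (m + n - 1).choose n →
      {d : ℕ | IsTypicalRank (SymSubVar n m r) d} = {s}) := by
  rcases hs with ⟨k, t, hk, hs, h⟩ | ⟨K, L, M, hL, hLK, hM, hm, hr', rfl⟩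
  · exact typical_sym_all hn hr hk hs h
  · have hspan := sym_of_spans (hL.trans hLK) hLK
      (boxNumber_isLeast fun _ : Fin n => ⟨hL, hLK⟩).1 hM hm hr' hr.2
    have h1 : 1 ≤ boxNumber (fun _ : Fin n => K) (fun _ : Fin n => L) := by
      have h2 := spansT_bound (boxNumber_isLeast fun _ : Fin n => ⟨hL, hLK⟩).1
      rcases Nat.eq_zero_or_pos (boxNumber (fun _ : Fin n => K) (fun _ : Fin n => L)) with h3 | h3
      · rw [h3, zero_mul] at h2
        have h4 : 0 < ∏ _i : Fin n, K := Finset.prod_pos fun _ _ => by omega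
        omega
      · exact h3
    exact ⟨fun d hd => typical_sym_le hr hspan hd, fun hlt => typical_sym_eq hr h1 hspan hlt⟩

end Pool.Agent.SubTwo
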