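import Pool.Agent.SubTwo.LDefs
import Pool.Agent.SubTwo.SymRays

/-!
# The theorems on large formats in short form
-/

open Module Set

namespace Pool.Agent.SubTwo

open Pool.Agent.SubTyp

theorem large_one (n : ℕ) (T δ : ℝ) (hδ : 0 < δ) : ∃ C : ℕ, ∀ m r : Fin n → ℕ,
    (∀ i, 1 ≤ r i ∧ r i ≤ m i ∧ C * (r i * (m i - r i)) ≤ ∏ j, r j) →
    ∀ x : ℝ, x = (∏ i, (m i : ℝ)) / (∏ i, (r i : ℝ)) → x ≤ T → InRegion m r C δ x →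
      Near (TypTen m r) x δ := by
  obtain ⟨C, hC⟩ := typical_region_all n T δ hδ
  exact ⟨C, fun m r hyp x hx hxT hreg => hC m r hyp x hx hxT hreg⟩

theorem large_two {n : ℕ} {m r : Fin n → ℕ} {x : ℝ} (hn : 3 ≤ n)
    (hr : ∀ i, 1 ≤ r i ∧ r i ≤ m i) (hx : x = (∏ i, (m i : ℝ)) / (∏ i, (r i : ℝ)))
    (hreg : InRegion m r 0 0 x) :
    ∃ K N₀ : ℕ, 1 ≤ K ∧ ∀ N, N₀ ≤ N → (¬ ∏ i, r i ∣ ∏ i, m i) ∨ K ∣ N →
      TypTen (fun i => N * m i) (fun i => N * r i) = {⌈x⌉₊} := by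
  refine typical_rays_min hn hr hx ?_
  rcases hreg with ⟨-, h⟩ | ⟨i₀, -, h1, h2⟩ | ⟨i₀, h, -, h1, h2⟩
  · exact Or.inl fun i => (h i).2
  · exact Or.inr (Or.inl ⟨i₀, h1, fun i hi => (h2 i hi).imp id fun h => h.2⟩)
  · refine Or.inr (Or.inr ⟨i₀, h, fun i hi => (h1 i hi).imp id fun h' => ?_, ?_⟩)
    · have h3 := h'.2
      have h4 : ((m i ^ 2 : ℕ) : ℝ) ≤ ((h i * r i * (m i - r i) : ℕ) : ℝ) := by
        push_cast [Nat.cast_sub (hr i).2]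
        linarith
      exact_mod_cast h4
    · rw [add_zero] at h2
      exact h2

theorem large_three {n : ℕ} (T δ : ℝ) (hn : 3 ≤ n) (hδ : 0 < δ) :
    ∃ C : ℕ, ∀ m r : ℕ, C ≤ r → 1 ≤ r ∧ r ≤ m →
      ∀ x : ℝ, x = ((m : ℝ) / r) ^ n → x ≤ T →
        (min n 5 * r ≤ m → Near (TypSym n m r) x δ) ∧
        ∀ k t s : ℕ, 1 ≤ k → s = k ^ n + n * t → ⌈(m : ℚ) / k⌉₊ * (s - t) ≤ r * s →
          (s : ℝ) - 1 + δ ≤ x → TypSym n m r = {s} := by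
  obtain ⟨C, hC⟩ := typical_sym_region hn T δ hδ
  exact ⟨C, fun m r hCr hr x hx hxT => ⟨(hC m r hCr hr x hx hxT).2, (hC m r hCr hr x hx hxT).1⟩⟩

theorem large_four {n m r : ℕ} (hn : 1 ≤ n) (hr : 1 ≤ r ∧ r ≤ m) :
    (∀ d ∈ TypSym n m r,
      (m + n - 1).choose n ≤ d * ((r + n - 1).choose n + r * (m - r))) ∧
    ∀ s : ℕ, ((∃ k t : ℕ, 1 ≤ k ∧ s = k ^ n + n * t ∧ ⌈(m : ℚ) / k⌉₊ * (s - t) ≤ r * s) ∨
      ∃ K L M : ℕ, 1 ≤ L ∧ L ≤ K ∧ n ≤ M ∧ m ≤ M * K ∧ M * L + (n - 1) * K ≤ r ∧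
        s = boxNumber (fun _ : Fin n => K) (fun _ => L)) →
      (∀ d ∈ TypSym n m r, d ≤ s) ∧
      ((s - 1) * ((r + n - 1).choose n + r * (m - r)) < (m + n - 1).choose n →
        TypSym n m r = {s}) :=
  ⟨fun _ hd => typical_sym_ge hr hd, fun _ hs => typical_sym_bounds hn hr hs⟩

end Pool.Agent.SubTwo
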