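import Pool.Agent.SubTwo.Defs
import Pool.Agent.SubTwo.KFull
import Pool.Agent.SubTwo.Class2

/-!
# Box numbers
-/

open Module Submodule Set

namespace Pool.Agent.SubTwo

open Pool.Agent.SubTyp

theorem boxNumber_isLeast {n : ℕ} {m r : Fin n → ℕ} (hr : ∀ i, 1 ≤ r i ∧ r i ≤ m i) :
    IsLeast {s | SpansT m r s} (boxNumber m r) := by
  classical
  have hne : {s : ℕ | SpansT m r s}.Nonempty := by
    let I := (i : Fin n) → Fin (m i)
    let e : Fin (Fintype.card I) ≃ I := (Fintype.equivFin I).symm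
    refine ⟨Fintype.card I, spansT_of_le' (fun i => (hr i).2)
      (fun j i => span ℝ {Pi.single (e j i) 1}) (fun j i => ?_) ?_⟩
    · refine (finrank_span_le_card _).trans ?_
      simpa using (hr i).1
    · rw [eq_top_iff]
      intro U _
      have h5 : U = ∑ t, U t • (Pi.single t 1 : Ten m) := by
        have := (Pi.basisFun ℝ I).sum_repr U
        simp only [Pi.basisFun_repr, Pi.basisFun_apply] at this
        exact this.symm
      rw [h5]
      refine Submodule.sum_mem _ fun t _ => Submodule.smul_mem _ _ ?_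
      refine Submodule.mem_iSup_of_mem (e.symm t) (subset_span
        ⟨fun i => (Pi.single (t i) 1 : Fin (m i) → ℝ), fun i => ?_, ?_⟩)
      · rw [Equiv.apply_symm_apply]
        exact mem_span_singleton_self _
      · funext t'
        unfold pureT
        by_cases h : t' = t
        · subst h
          rw [Pi.single_eq_same]
          have h1 : ∏ i, (Pi.single (t' i) 1 : Fin (m i) → ℝ) (t' i) = 1 :=
            Finset.prod_eq_one fun i _ => by rw [Pi.single_eq_same]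
          exact h1.symm
        · rw [Pi.single_eq_of_ne h]
          obtain ⟨i, hi⟩ := Function.ne_iff.1 h
          have h1 : ∏ i, (Pi.single (t i) 1 : Fin (m i) → ℝ) (t' i) = 0 :=
            Finset.prod_eq_zero (Finset.mem_univ i) (by rw [Pi.single_eq_of_ne hi])
          exact h1.symm
  exact ⟨Nat.sInf_mem hne, fun s hs => Nat.sInf_le hs⟩

/-- a number with the right thresholds -/
theorem ceil_div_le_iff {x y : ℕ} (hy : 0 < y) (s : ℕ) :
    ⌈(x : ℚ) / (y : ℚ)⌉₊ ≤ s ↔ x ≤ s * y := by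
  have h1 : (0 : ℚ) < (y : ℚ) := by exact_mod_cast hy
  rw [Nat.ceil_le, div_le_iff₀ h1]
  exact_mod_cast Iff.rfl

theorem typical_last {n : ℕ} {m r : Fin (n + 1) → ℕ} (hr : ∀ i, 1 ≤ r i ∧ r i ≤ m i)
    (hbig : ∏ i : Fin n, m i.castSucc ≤ m (Fin.last n)) :
    {d : ℕ | IsTypicalRank (SubVar m r) d} =
      {max (boxNumber (fun i : Fin n => m i.castSucc) (fun i => r i.castSucc))
        ⌈(∏ i : Fin n, (m i.castSucc : ℚ)) / (r (Fin.last n) : ℚ)⌉₊} := by
  have hr0 : 0 < r (Fin.last n) := (hr _).1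
  have hl := boxNumber_isLeast (m := ini m) (r := ini r) fun i => hr i.castSucc
  have e : (∏ i : Fin n, (m i.castSucc : ℚ)) = ((∏ i : Fin n, m i.castSucc : ℕ) : ℚ) := by
    push_cast
    rfl
  ext d
  rw [mem_ofPred_eq, mem_singleton_iff, e]
  refine typical_unb hr hbig ⟨⟨?_, ?_⟩, ?_⟩ d
  · exact spansT_mono (fun i => (hr i.castSucc).2) (le_max_left _ _) hl.1
  · exact (ceil_div_le_iff hr0 _).1 (le_max_right _ _)
  · rintro s ⟨h1, h2⟩
    exact max_le (hl.2 h1) ((ceil_div_le_iff hr0 _).2 h2)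

theorem typical_K {n : ℕ} {m r : Fin n → ℕ} (K : Finset (Fin n))
    (hr : ∀ i, 1 ≤ r i ∧ r i ≤ m i) (hK : ∀ i, i ∉ K → r i = m i)
    (hbig : ∏ i ∈ K, m i ≤ ∏ i ∈ Kᶜ, m i) :
    {d : ℕ | IsTypicalRank (SubVar m r) d} = {boxNumber m r} := by
  ext d
  rw [mem_ofPred_eq, mem_singleton_iff]
  exact typical_full K hr hK hbig (boxNumber_isLeast hr) d

theorem prod_cast {n : ℕ} (m : Fin n → ℕ) : (∏ i, (m i : ℚ)) = ((∏ i, m i : ℕ) : ℚ) := by
  push_cast
  rfl

theorem boxNumber_ge {n : ℕ} {m r : Fin n → ℕ} (hr : ∀ i, 1 ≤ r i ∧ r i ≤ m i) :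
    ⌈(∏ i, (m i : ℚ)) / ∏ i, (r i : ℚ)⌉₊ ≤ boxNumber m r := by
  rw [prod_cast, prod_cast, ceil_div_le_iff (Finset.prod_pos fun i _ => (hr i).1)]
  exact spansT_bound (boxNumber_isLeast hr).1

theorem boxNumber_div {n : ℕ} {m r : Fin n → ℕ} (hr : ∀ i, 1 ≤ r i ∧ r i ≤ m i) (i₀ : Fin n)
    (hdiv : ∀ i, i ≠ i₀ → r i ∣ m i) :
    boxNumber m r = ⌈(∏ i, (m i : ℚ)) / ∏ i, (r i : ℚ)⌉₊ := by
  refine le_antisymm ((boxNumber_isLeast hr).2 ?_) (boxNumber_ge hr)
  refine spans_div hr i₀ hdiv ?_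
  rw [prod_cast, prod_cast]
  exact (ceil_div_le_iff (Finset.prod_pos fun i _ => (hr i).1) _).1 le_rfl

section Two

variable {n : ℕ} {m r : Fin n → ℕ}

theorem boxNumber_two (hr : ∀ i, 1 ≤ r i ∧ r i ≤ m i) {i₁ i₂ : Fin n} (hne : i₁ ≠ i₂)
    (hfull : ∀ i, i ≠ i₁ → i ≠ i₂ → r i = m i) (s : ℕ) :
    boxNumber m r ≤ s ↔ Sp ℝ s (m i₁) (r i₁) (m i₂) (r i₂) := by
  have hl := boxNumber_isLeast hr
  constructor
  · intro h
    exact sp_mono_s (sp_of_spansT hr hne hl.1) h
  · intro h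
    exact hl.2 (spansT_of_sp hr hne hfull h)

theorem prod_two (hr : ∀ i, 1 ≤ r i ∧ r i ≤ m i) {i₁ i₂ : Fin n} (hne : i₁ ≠ i₂)
    (hfull : ∀ i, i ≠ i₁ → i ≠ i₂ → r i = m i) (s : ℕ) :
    ∏ i, m i ≤ s * ∏ i, r i ↔ m i₁ * m i₂ ≤ s * (r i₁ * r i₂) := by
  have h1 : ∀ f : Fin n → ℕ, ∏ i, f i =
      f i₁ * f i₂ * ∏ i ∈ (Finset.univ.erase i₁).erase i₂, f i := by
    intro f
    rw [mul_assoc, Finset.mul_prod_erase _ _ (Finset.mem_erase.2 ⟨hne.symm, Finset.mem_univ i₂⟩),
      Finset.mul_prod_erase _ _ (Finset.mem_univ i₁)]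
  have h2 : ∏ i ∈ (Finset.univ.erase i₁).erase i₂, r i =
      ∏ i ∈ (Finset.univ.erase i₁).erase i₂, m i := by
    refine Finset.prod_congr rfl fun i hi => ?_
    rw [Finset.mem_erase, Finset.mem_erase] at hi
    exact hfull i hi.2.1 hi.1
  have h3 : 0 < ∏ i ∈ (Finset.univ.erase i₁).erase i₂, m i :=
    Finset.prod_pos fun i _ => by have := hr i; omega
  rw [h1 m, h1 r, h2]
  constructor
  · intro h
    refine Nat.le_of_mul_le_mul_right (c := ∏ i ∈ (Finset.univ.erase i₁).erase i₂, m i) ?_ h3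
    calc _ ≤ _ := h
      _ = _ := by ring
  · intro h
    calc _ ≤ s * (r i₁ * r i₂) * ∏ i ∈ (Finset.univ.erase i₁).erase i₂, m i :=
          Nat.mul_le_mul_right _ h
      _ = _ := by ring

theorem boxNumber_main (hr : ∀ i, 1 ≤ r i ∧ r i ≤ m i) {i₁ i₂ : Fin n} (hne : i₁ ≠ i₂)
    (hfull : ∀ i, i ≠ i₁ → i ≠ i₂ → r i = m i)
    (h : r i₁ * r i₂ ≤ (m i₁ - r i₁) * (m i₂ - r i₂)) :
    boxNumber m r = ⌈(∏ i, (m i : ℚ)) / ∏ i, (r i : ℚ)⌉₊ := by
  have hpos : 0 < ∏ i, r i := Finset.prod_pos fun i _ => (hr i).1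
  refine le_antisymm ?_ (boxNumber_ge hr)
  rw [boxNumber_two hr hne hfull, prod_cast, prod_cast]
  have h1 := (prod_two hr hne hfull _).1 ((ceil_div_le_iff hpos _).1
    (le_refl ⌈((∏ i, m i : ℕ) : ℚ) / ((∏ i, r i : ℕ) : ℚ)⌉₊))
  obtain ⟨h11, h12⟩ := hr i₁
  obtain ⟨h21, h22⟩ := hr i₂
  refine sp_main (m i₁) (m i₂) h11 h21 le_rfl le_rfl (by exact_mod_cast h12)
    (by exact_mod_cast h22) (by exact_mod_cast h1) ?_
  rw [← Nat.cast_sub h12, ← Nat.cast_sub h22]
  exact_mod_cast h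

end Two

theorem corner_ok {s : ℕ} (hs : 4 ≤ s) (k : ℕ) :
    (1 ≤ corner s k ∧ corner s k < 2) ∧ Corner s (corner s k) (s / corner s k) := by
  have hs' : (4 : ℝ) ≤ s := by exact_mod_cast hs
  have key : ∀ k, ((1 ≤ corner s k ∧ corner s k < 2) ∧
      Corner s (corner s k) (s / corner s k)) →
      ((1 ≤ corner s (k + 2) ∧ corner s (k + 2) < 2) ∧
        Corner s (corner s (k + 2)) (s / corner s (k + 2))) := by
    rintro k ⟨⟨h1, h2⟩, h3⟩
    have e : corner s (k + 2) = 1 + 1 / (s - 1 - corner s k) := rfl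
    have h4 : 1 < (s : ℝ) - 1 - corner s k := by linarith
    have h5 : 0 < 1 / ((s : ℝ) - 1 - corner s k) := by positivity
    have h6 : 1 / ((s : ℝ) - 1 - corner s k) < 1 := by
      rw [div_lt_one (by linarith)]
      exact h4
    have h7 := Corner.step h3 (by linarith) (by
      rw [lt_div_iff₀ (by linarith)]
      linarith)
    have h8 := corner_mul (by omega) h7
    refine ⟨⟨by rw [e]; linarith, by rw [e]; linarith⟩, ?_⟩
    rw [e]
    have h9 : (s : ℝ) / (1 + 1 / (s - 1 - corner s k)) =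
        s - 1 - 1 / (s / corner s k - 1) := by
      rw [div_eq_iff (by linarith)]
      linarith
    rw [h9]
    exact h7
  have h0 : ((1 ≤ corner s 0 ∧ corner s 0 < 2) ∧ Corner s (corner s 0) (s / corner s 0)) := by
    have e : corner s 0 = 1 := rfl
    rw [e, div_one]
    exact ⟨⟨le_rfl, by norm_num⟩, Corner.one⟩
  have h1 : ((1 ≤ corner s 1 ∧ corner s 1 < 2) ∧ Corner s (corner s 1) (s / corner s 1)) := by
    have e : corner s 1 = s / (s - 1) := rfl
    have hp : 0 < (s : ℝ) - 1 := by linarith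
    have e2 : (s : ℝ) / (s / (s - 1)) = s - 1 := by
      field_simp
    rw [e, e2]
    refine ⟨⟨?_, ?_⟩, Corner.two⟩
    · rw [le_div_iff₀ hp]
      linarith
    · rw [div_lt_iff₀ hp]
      linarith
  have hall : ∀ k, ((1 ≤ corner s k ∧ corner s k < 2) ∧
      Corner s (corner s k) (s / corner s k)) ∧
      ((1 ≤ corner s (k + 1) ∧ corner s (k + 1) < 2) ∧
        Corner s (corner s (k + 1)) (s / corner s (k + 1))) := by
    intro k
    induction k with
    | zero => exact ⟨h0, h1⟩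
    | succ k ih => exact ⟨ih.2, key k ih.1⟩
  exact (hall k).1

theorem corner_three (k : ℕ) : corner 3 k = 0 ∨ corner 3 k = 1 ∨ corner 3 k = 3 / 2 ∨
    corner 3 k = 2 ∨ corner 3 k = 3 := by
  have hall : ∀ k, (corner 3 k = 0 ∨ corner 3 k = 1 ∨ corner 3 k = 3 / 2 ∨
      corner 3 k = 2 ∨ corner 3 k = 3) ∧ (corner 3 (k + 1) = 0 ∨ corner 3 (k + 1) = 1 ∨
      corner 3 (k + 1) = 3 / 2 ∨ corner 3 (k + 1) = 2 ∨ corner 3 (k + 1) = 3) := by
    intro k
    induction k with
    | zero =>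
      refine ⟨Or.inr (Or.inl rfl), Or.inr (Or.inr (Or.inl ?_))⟩
      have e : corner 3 1 = ((3 : ℕ) : ℝ) / ((3 : ℕ) - 1) := rfl
      rw [e]
      norm_num
    | succ k ih =>
      refine ⟨ih.2, ?_⟩
      have e : corner 3 (k + 1 + 1) = 1 + 1 / (((3 : ℕ) : ℝ) - 1 - corner 3 k) := rfl
      rw [e]
      rcases ih.1 with h | h | h | h | h
      · rw [h]
        right; right; left
        norm_num
      · rw [h]
        right; right; right; left
        norm_num
      · rw [h]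
        right; right; right; right
        norm_num
      · rw [h]
        right; left
        norm_num
      · rw [h]
        left
        norm_num
  exact (hall k).1

theorem corner_seq {s : ℕ} {x y : ℝ} (h : Corner s x y) : ∃ k, x = corner s k := by
  induction h with
  | one => exact ⟨0, rfl⟩
  | two => exact ⟨1, rfl⟩
  | @step x y _ _ _ ih =>
    obtain ⟨k, hk⟩ := ih
    exact ⟨k + 2, by rw [hk]; rfl⟩

/-- The exceptional range, for `P ≤ Q`. -/
theorem sp_exc {p a q b : ℕ} (ha : 1 ≤ a) (hap : a ≤ p) (hb : 1 ≤ b) (hbq : b ≤ q)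
    (hda : ¬ a ∣ p) (hdb : ¬ b ∣ q) (hlt : (p - a) * (q - b) < a * b)
    (hPQ : (p : ℝ) / a ≤ (q : ℝ) / b) {s : ℕ} (hs : s = ⌈(q : ℝ) / b⌉₊ + 1) :
    (∀ t, Sp ℝ t p a q b → s ≤ t) ∧ Sp ℝ (s + 1) p a q b ∧
    (Sp ℝ s p a q b ↔ ∃ x : ℝ, (p : ℝ) / a ≤ x ∧ x * ((q : ℝ) / b) ≤ s ∧
      (x ^ 2 + s ≤ s * x ∨ ∃ k, x = corner s k)) := by
  have ha' : (0 : ℝ) < a := by exact_mod_cast (by omega : 0 < a)
  have hb' : (0 : ℝ) < b := by exact_mod_cast (by omega : 0 < b)
  have hap1 : a < p := by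
    rcases hap.eq_or_lt with h | h
    · exact absurd (h ▸ dvd_rfl) hda
    · exact h
  have hbq1 : b < q := by
    rcases hbq.eq_or_lt with h | h
    · exact absurd (h ▸ dvd_rfl) hdb
    · exact h
  have hltR : ((p : ℝ) - a) * (q - b) < a * b := by
    rw [← Nat.cast_sub hap, ← Nat.cast_sub hbq]
    exact_mod_cast hlt
  set P : ℝ := (p : ℝ) / a with hP
  set Q : ℝ := (q : ℝ) / b with hQ
  have eP : (p : ℝ) = a * P := by rw [hP]; field_simp
  have eQ : (q : ℝ) = b * Q := by rw [hQ]; field_simp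
  have hP1 : 1 < P := by
    rw [hP, one_lt_div ha']
    exact_mod_cast hap1
  have hQ1 : 1 < Q := lt_of_lt_of_le hP1 hPQ
  have hexc : (P - 1) * (Q - 1) < 1 := by
    rw [eP, eQ] at hltR
    have h1 : (a * b : ℝ) * ((P - 1) * (Q - 1)) < (a * b) * 1 := by nlinarith
    exact lt_of_mul_lt_mul_left h1 (mul_pos ha' hb').le
  set N : ℕ := ⌈Q⌉₊ with hN
  have hQN : Q ≤ N := Nat.le_ceil Q
  have hN2 : 2 ≤ N := by
    have : 1 < N := by
      rw [hN, Nat.lt_ceil]
      exact_mod_cast hQ1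
    omega
  have hNQ : (N : ℝ) - 1 < Q := by
    have h1 : N - 1 < ⌈Q⌉₊ := by omega
    rw [Nat.lt_ceil, Nat.cast_sub (by omega), Nat.cast_one] at h1
    exact h1
  have hN2' : (2 : ℝ) ≤ N := by exact_mod_cast hN2
  have hP2 : P < 2 := by nlinarith
  refine ⟨?_, ?_, ?_, ?_⟩
  · intro t ht
    have h1 := sp_bound_pred ht hap1 (by omega)
    have h2 : Q ≤ ((t - 1 : ℕ) : ℝ) := by
      rw [hQ, div_le_iff₀ hb']
      exact_mod_cast h1
    have h3 : N ≤ t - 1 := by
      rw [hN, Nat.ceil_le]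
      exact h2
    omega
  · -- one more is enough
    refine sp_of_under ha hap hb hbq ?_
    have e1 : ((s + 1 : ℕ) : ℝ) = N + 2 := by
      rw [hs]
      push_cast
      ring
    by_cases hc : P ≤ (N + 2) / N
    · refine ⟨(N + 2) / N, N, hc, hQN, ?_, Or.inl ?_⟩
      · rw [e1]
        field_simp
      · rw [e1]
        have h1 : ((N : ℝ) + 2) / N ≤ 2 := by
          rw [div_le_iff₀ (by linarith)]
          linarith
        linarith
    · push Not at hc
      rw [div_lt_iff₀ (by linarith)] at hc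
      -- then `N = 3`
      have hN3 : N = 3 := by
        by_contra hne
        rcases (by omega : N = 2 ∨ 4 ≤ N) with h | h
        · rw [h] at hc
          push_cast at hc
          linarith
        · have h4 : (4 : ℝ) ≤ N := by exact_mod_cast h
          have h5 : 2 / (N : ℝ) < P - 1 := by
            rw [div_lt_iff₀ (by linarith)]
            linarith
          have h6 : 2 < (P - 1) * N := by linarith
          have h7 : (P - 1) * (N - 2) < (P - 1) * (Q - 1) :=
            mul_lt_mul_of_pos_left (by linarith) (by linarith)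
          nlinarith
      rw [hN3] at hc e1
      push_cast at hc e1
      refine ⟨2, 5 / 2, hP2.le, ?_, ?_, Or.inl ?_⟩
      · by_contra h
        push Not at h
        nlinarith
      · push_cast
        linarith
      · push_cast
        linarith
  · intro h
    obtain ⟨x, y, hx, hy, hxy, hc⟩ := under_of_sp_le ha hap hb hbq hPQ h
    have hx0 : 0 < x := by linarith
    refine ⟨x, hx, ?_, ?_⟩
    · rw [← hxy]
      exact mul_le_mul_of_nonneg_left hy hx0.le
    · rcases hc with hc | hc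
      · left
        have h1 := mul_le_mul_of_nonneg_right hc hx0.le
        nlinarith
      · exact Or.inr (corner_seq hc)
  · rintro ⟨x, hx, hxQ, hc⟩
    have hx0 : 0 < x := by linarith
    refine sp_of_under ha hap hb hbq ?_
    have hQx : Q ≤ s / x := by
      rw [le_div_iff₀ hx0]
      linarith
    have hmul : x * ((s : ℝ) / x) = s := by field_simp
    rcases hc with hc | ⟨k, hk⟩
    · refine ⟨x, s / x, hx, hQx, hmul, Or.inl ?_⟩
      have h1 : (s : ℝ) / x ≤ s - x := by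
        rw [div_le_iff₀ hx0]
        nlinarith
      linarith
    · rcases (by omega : s = 3 ∨ 4 ≤ s) with h3 | h4
      · -- `s = 3`
        have hQ2 : Q ≤ 2 := by
          have h1 : N = 2 := by omega
          rw [h1] at hQN
          exact_mod_cast hQN
        have key : P ≤ 3 / 2 := by
          rw [h3] at hk hxQ
          push_cast at hxQ
          rcases corner_three k with h | h | h | h | h
          · rw [hk, h] at hx
            linarith
          · rw [hk, h] at hx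
            linarith
          · rw [hk, h] at hx
            exact hx
          · rw [hk, h] at hxQ
            linarith
          · rw [hk, h] at hxQ
            linarith
        rw [h3]
        have e : (((3 : ℕ) : ℝ) / ((3 : ℕ) - 1)) = 3 / 2 := by norm_num
        refine ⟨((3 : ℕ) : ℝ) / ((3 : ℕ) - 1), (3 : ℕ) - 1, ?_, ?_, ?_, Or.inr Corner.two⟩
        · rw [e]
          exact key
        · push_cast
          linarith
        · norm_num
      · obtain ⟨-, hcor⟩ := corner_ok h4 k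
        rw [← hk] at hcor
        exact ⟨x, s / x, hx, hQx, hmul, Or.inr hcor⟩

section Two

variable {n : ℕ} {m r : Fin n → ℕ}

/-- The box number in the exceptional range. -/
theorem boxNumber_exc (hr : ∀ i, 1 ≤ r i ∧ r i ≤ m i) {i₁ i₂ : Fin n} (hne : i₁ ≠ i₂)
    (hfull : ∀ i, i ≠ i₁ → i ≠ i₂ → r i = m i) (hd1 : ¬ r i₁ ∣ m i₁) (hd2 : ¬ r i₂ ∣ m i₂)
    (hlt : (m i₁ - r i₁) * (m i₂ - r i₂) < r i₁ * r i₂) {P Q : ℝ}
    (hP : P = (m i₁ : ℝ) / r i₁) (hQ : Q = (m i₂ : ℝ) / r i₂) {s : ℕ}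
    (hs : s = ⌈max P Q⌉₊ + 1) :
    ((∃ x : ℝ, min P Q ≤ x ∧ x * max P Q ≤ s ∧ (x ^ 2 + s ≤ s * x ∨ ∃ k, x = corner s k)) →
      boxNumber m r = s) ∧
    (¬ (∃ x : ℝ, min P Q ≤ x ∧ x * max P Q ≤ s ∧ (x ^ 2 + s ≤ s * x ∨ ∃ k, x = corner s k)) →
      boxNumber m r = s + 1) := by
  obtain ⟨h11, h12⟩ := hr i₁
  obtain ⟨h21, h22⟩ := hr i₂
  have main : (∀ t, Sp ℝ t (m i₁) (r i₁) (m i₂) (r i₂) → s ≤ t) ∧
      Sp ℝ (s + 1) (m i₁) (r i₁) (m i₂) (r i₂) ∧
      (Sp ℝ s (m i₁) (r i₁) (m i₂) (r i₂) ↔ ∃ x : ℝ, min P Q ≤ x ∧ x * max P Q ≤ s ∧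
        (x ^ 2 + s ≤ s * x ∨ ∃ k, x = corner s k)) := by
    rcases le_total P Q with hPQ | hPQ
    · rw [max_eq_right hPQ] at hs ⊢
      rw [min_eq_left hPQ, hP, hQ]
      rw [hP, hQ] at hPQ
      rw [hQ] at hs
      exact sp_exc h11 h12 h21 h22 hd1 hd2 hlt hPQ hs
    · rw [max_eq_left hPQ] at hs ⊢
      rw [min_eq_right hPQ, hP, hQ]
      rw [hP, hQ] at hPQ
      rw [hP] at hs
      obtain ⟨g1, g2, g3⟩ := sp_exc h21 h22 h11 h12 hd2 hd1
        (by rw [mul_comm, mul_comm (r i₂)]; exact hlt) hPQ hs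
      exact ⟨fun t ht => g1 t (sp_swap ht), sp_swap g2,
        ⟨fun h => g3.1 (sp_swap h), fun h => sp_swap (g3.2 h)⟩⟩
  obtain ⟨g1, g2, g3⟩ := main
  have hge : s ≤ boxNumber m r := g1 _ ((boxNumber_two hr hne hfull _).1 le_rfl)
  constructor
  · intro h
    exact le_antisymm ((boxNumber_two hr hne hfull _).2 (g3.2 h)) hge
  · intro h
    have h1 : ¬ boxNumber m r ≤ s := fun h2 => h (g3.1 ((boxNumber_two hr hne hfull _).1 h2))
    have h2 : boxNumber m r ≤ s + 1 := (boxNumber_two hr hne hfull _).2 g2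
    omega

end Two

end Pool.Agent.SubTwo
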