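import Pool.Agent.SubTwo.Scale

/-!
# Perfect families of boxes

`Perf i₀ F I m r s`: for suitable scales `c` the format with the ratios `m i / r i`, `i ∈ I`, and with
the ratio `s * ∏ r / ∏ m` for the factor `i₀` is spanned by `s` boxes (without waste); the scale is
one for the factors outside `F` other than `i₀`.
-/

open Module Submodule Set

namespace Pool.Agent.SubTwo

open Pool.Agent.SubTyp

variable {n : ℕ} {m r c : Fin n → ℕ}

/-- dimensions of the spaces of a perfect format -/
def pm (i₀ : Fin n) (I : Finset (Fin n)) (m r c : Fin n → ℕ) (s : ℕ) : Fin n → ℕ := fun i =>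
  if i = i₀ then c i * (s * ∏ a ∈ I, r a) else if i ∈ I then c i * m i else 1

/-- dimensions of the subspaces of a perfect format -/
def pr (i₀ : Fin n) (I : Finset (Fin n)) (m r c : Fin n → ℕ) : Fin n → ℕ := fun i =>
  if i = i₀ then c i * ∏ a ∈ I, m a else if i ∈ I then c i * r i else 1

/-- perfect families -/
def Perf (i₀ : Fin n) (F I : Finset (Fin n)) (m r : Fin n → ℕ) (s : ℕ) : Prop :=
  i₀ ∉ I ∧ ∏ a ∈ I, m a ≤ s * ∏ a ∈ I, r a ∧ ∃ c : Fin n → ℕ, (∀ i, 1 ≤ c i) ∧
    (∀ i, i ∉ F → i ≠ i₀ → c i = 1) ∧ SpM (pm i₀ I m r c s) (pr i₀ I m r c) s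

theorem pm_zero (i₀ : Fin n) (I : Finset (Fin n)) (s : ℕ) :
    pm i₀ I m r c s i₀ = c i₀ * (s * ∏ a ∈ I, r a) := if_pos rfl

theorem pr_zero (i₀ : Fin n) (I : Finset (Fin n)) :
    pr i₀ I m r c i₀ = c i₀ * ∏ a ∈ I, m a := if_pos rfl

theorem pm_in {i₀ i : Fin n} {I : Finset (Fin n)} (h0 : i ≠ i₀) (h : i ∈ I) (s : ℕ) :
    pm i₀ I m r c s i = c i * m i := by
  unfold pm
  rw [if_neg h0, if_pos h]

theorem pr_in {i₀ i : Fin n} {I : Finset (Fin n)} (h0 : i ≠ i₀) (h : i ∈ I) :
    pr i₀ I m r c i = c i * r i := by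
  unfold pr
  rw [if_neg h0, if_pos h]

theorem pm_out {i₀ i : Fin n} {I : Finset (Fin n)} (h0 : i ≠ i₀) (h : i ∉ I) (s : ℕ) :
    pm i₀ I m r c s i = 1 := by
  unfold pm
  rw [if_neg h0, if_neg h]

theorem pr_out {i₀ i : Fin n} {I : Finset (Fin n)} (h0 : i ≠ i₀) (h : i ∉ I) :
    pr i₀ I m r c i = 1 := by
  unfold pr
  rw [if_neg h0, if_neg h]

theorem perf_mono_F {i₀ : Fin n} {F F' I : Finset (Fin n)} {s : ℕ} (h : Perf i₀ F I m r s)
    (hF : F ⊆ F') : Perf i₀ F' I m r s := by
  obtain ⟨h1, h2, c, h3, h4, h5⟩ := h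
  exact ⟨h1, h2, c, h3, fun i hi hi0 => h4 i (fun h => hi (hF h)) hi0, h5⟩

theorem perf_empty (i₀ : Fin n) (F : Finset (Fin n)) : Perf i₀ F ∅ m r 1 := by
  refine ⟨Finset.notMem_empty _, by simp, fun _ => 1, fun _ => le_rfl, fun _ _ _ => rfl, ?_⟩
  have h1 : ∀ i, pm i₀ ∅ m r (fun _ => 1) 1 i = 1 := by
    intro i
    by_cases h : i = i₀
    · subst h
      rw [pm_zero]
      simp
    · exact pm_out h (Finset.notMem_empty i) 1
  have h2 : ∀ i, pr i₀ ∅ m r (fun _ => 1) i = 1 := by
    intro i
    by_cases h : i = i₀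
    · subst h
      rw [pr_zero]
      simp
    · exact pr_out h (Finset.notMem_empty i)
  refine ⟨fun _ _ => ⊤, fun j i => ?_, fun φ hφ => ?_⟩
  · rw [finrank_top, finrank_pi, Fintype.card_fin, h1, h2]
  · refine MultilinearMap.ext fun v => ?_
    exact hφ ⟨0, one_pos⟩ v fun i => Submodule.mem_top

theorem perf_pos {i₀ : Fin n} {F I : Finset (Fin n)} {s : ℕ} (hr : ∀ i, 1 ≤ r i ∧ r i ≤ m i)
    (h : Perf i₀ F I m r s) : 1 ≤ s := by
  obtain ⟨-, h2, -⟩ := h
  rcases Nat.eq_zero_or_pos s with hs | hs
  · rw [hs, zero_mul] at h2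
    have : 0 < ∏ a ∈ I, m a := Finset.prod_pos fun a _ => by have := hr a; omega
    omega
  · exact hs

/-- More boxes. -/
theorem perf_more {i₀ : Fin n} {F I : Finset (Fin n)} {S s : ℕ}
    (hr : ∀ i, 1 ≤ r i ∧ r i ≤ m i) (h : Perf i₀ F I m r S) (hs : S ≤ s) :
    Perf i₀ F I m r s := by
  classical
  have hS := perf_pos hr h
  obtain ⟨h1, h2, c, h3, h4, h5⟩ := h
  refine ⟨h1, h2.trans (Nat.mul_le_mul_right _ hs), Function.update c i₀ (S * c i₀),
    fun i => ?_, fun i hi hi0 => ?_, ?_⟩
  · by_cases h : i = i₀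
    · subst h
      rw [Function.update_self]
      exact Nat.mul_pos hS (h3 i)
    · rw [Function.update_of_ne h]
      exact h3 i
  · rw [Function.update_of_ne hi0]
    exact h4 i hi hi0
  · refine spM_more (fun i => ?_) i₀ h5 hs (fun i hi => ?_) ?_ (fun i hi => ?_) ?_
    · by_cases hi : i = i₀
      · subst hi
        rw [pm_zero, pr_zero]
        exact Nat.mul_le_mul_left _ h2
      · by_cases hI : i ∈ I
        · rw [pm_in hi hI, pr_in hi hI]
          exact Nat.mul_le_mul_left _ (hr i).2
        · rw [pm_out hi hI, pr_out hi hI]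
    · by_cases hI : i ∈ I
      · rw [pm_in hi hI, pm_in hi hI, Function.update_of_ne hi]
      · rw [pm_out hi hI, pm_out hi hI]
    · rw [pm_zero, pm_zero, Function.update_self]
      exact le_of_eq (by ring)
    · by_cases hI : i ∈ I
      · rw [pr_in hi hI, pr_in hi hI, Function.update_of_ne hi]
      · rw [pr_out hi hI, pr_out hi hI]
    · rw [pr_zero, pr_zero, Function.update_self]
      exact le_of_eq (by ring)

/-- A further factor, with its own number `h`. -/
theorem perf_add {i₀ a : Fin n} {F I : Finset (Fin n)} {S h : ℕ}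
    (hr : ∀ i, 1 ≤ r i ∧ r i ≤ m i) (hP : Perf i₀ F I m r S) (ha : a ∉ I) (hne : a ≠ i₀)
    (hh : h * r a = m a ∨ m a ^ 2 ≤ h * r a * (m a - r a)) :
    Perf i₀ F (insert a I) m r (S * h) := by
  classical
  obtain ⟨h1, h2, c, h3, h4, h5⟩ := hP
  have hbase := sp_tight (hr a).1 (hr a).2 hh
  have hle := le_of_cond (hr a).1 (hr a).2 hh
  have hi₀ : i₀ ∉ insert a I := by
    rw [Finset.mem_insert]
    rintro (h | h)
    · exact hne h.symm
    · exact h1 h
  refine ⟨hi₀, ?_, Function.update c a 1, fun i => ?_, fun i hi hi0 => ?_, ?_⟩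
  · rw [Finset.prod_insert ha, Finset.prod_insert ha]
    calc m a * ∏ x ∈ I, m x ≤ (h * r a) * (S * ∏ x ∈ I, r x) := Nat.mul_le_mul hle h2
      _ = _ := by ring
  · by_cases h : i = a
    · subst h
      rw [Function.update_self]
    · rw [Function.update_of_ne h]
      exact h3 i
  · by_cases h : i = a
    · subst h
      rw [Function.update_self]
    · rw [Function.update_of_ne h]
      exact h4 i hi hi0
  · -- the factor `a` gets its dimension
    have h6 : SpM (fun i => if i = a then m a else pm i₀ I m r c S i)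
        (fun i => if i = a then m a else pr i₀ I m r c i) S := by
      refine spM_blow (fun i => if i = a then m a else 1) h5 (fun i => ?_) (fun i => ?_)
      · beta_reduce
        by_cases h : i = a
        · rw [if_pos h, if_pos h, h, pm_out hne ha, mul_one]
        · rw [if_neg h, if_neg h, one_mul]
      · beta_reduce
        by_cases h : i = a
        · rw [if_pos h, if_pos h, h, pr_out hne ha, mul_one]
        · rw [if_neg h, if_neg h, one_mul]
    refine spM_comp (h := h) (w := h * r a) (γ := m a) hne h6 ?_ ?_ ?_ ?_ ?_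
    · rw [if_pos rfl, pr_in hne (Finset.mem_insert_self a I), Function.update_self, one_mul]
      exact hbase
    · intro i hi
      beta_reduce
      by_cases h : i = a
      · rw [if_pos h, h, pm_in hne (Finset.mem_insert_self a I), Function.update_self, one_mul]
      · rw [if_neg h]
        by_cases hI : i ∈ I
        · rw [pm_in hi hI, pm_in hi (Finset.mem_insert_of_mem hI), Function.update_of_ne h]
        · have hI' : i ∉ insert a I := by
            rw [Finset.mem_insert]
            rintro (h' | h')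
            · exact h h'
            · exact hI h'
          rw [pm_out hi hI, pm_out hi hI']
    · beta_reduce
      rw [if_neg hne.symm, pm_zero, pm_zero, Function.update_of_ne hne.symm,
        Finset.prod_insert ha]
      exact le_of_eq (by ring)
    · intro i hi hia
      beta_reduce
      rw [if_neg hia]
      by_cases hI : i ∈ I
      · rw [pr_in hi hI, pr_in hi (Finset.mem_insert_of_mem hI), Function.update_of_ne hia]
      · have hI' : i ∉ insert a I := by
          rw [Finset.mem_insert]
          rintro (h' | h')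
          · exact hia h'
          · exact hI h'
        rw [pr_out hi hI, pr_out hi hI']
    · beta_reduce
      rw [if_neg hne.symm, pr_zero, pr_zero, Function.update_of_ne hne.symm,
        Finset.prod_insert ha]
      exact le_of_eq (by ring)

/-- The roles of the last factor and of a new factor are exchanged. -/
theorem perf_swap {i₀ a : Fin n} {F I : Finset (Fin n)} {S h s : ℕ}
    (hr : ∀ i, 1 ≤ r i ∧ r i ≤ m i) (hP : Perf a F I m r S) (hi₀ : i₀ ∉ I) (hne : i₀ ≠ a)
    (haF : a ∈ F) (hs : S * h ≤ s)
    (hV : ∏ x ∈ insert a I, m x ≤ s * ∏ x ∈ insert a I, r x)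
    (hU : (s * ∏ x ∈ insert a I, r x) ^ 2 ≤ h * (∏ x ∈ insert a I, m x) *
      (s * ∏ x ∈ insert a I, r x - ∏ x ∈ insert a I, m x)) :
    Perf i₀ F (insert a I) m r s := by
  classical
  have hS := perf_pos hr hP
  obtain ⟨ha, h2, c, h3, h4, h5⟩ := hP
  set U := s * ∏ x ∈ insert a I, r x with hUdef
  set V := ∏ x ∈ insert a I, m x with hVdef
  have hm0 : ∀ x, 0 < m x := fun x => by have := hr x; omega
  have hV0 : 1 ≤ V := Finset.prod_pos fun x _ => hm0 x
  have hU0 : 1 ≤ U := hV0.trans hV
  have hbase := sp_tight (h := h) (m := U) (r := V) hV0 hV (Or.inr hU)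
  have hle : U ≤ h * V := le_of_cond hV0 hV (Or.inr hU)
  have hh0 : 1 ≤ h := by
    rcases Nat.eq_zero_or_pos h with h' | h'
    · rw [h', zero_mul] at hle
      omega
    · exact h'
  have hs0 : 1 ≤ s := le_trans (Nat.mul_pos hS hh0) hs
  have hMI : 1 ≤ ∏ x ∈ I, m x := Finset.prod_pos fun x _ => hm0 x
  have hr0 : ∀ x, 0 < r x := fun x => (hr x).1
  have hRI : 1 ≤ ∏ x ∈ I, r x := Finset.prod_pos fun x _ => hr0 x
  have eU : U = s * (r a * ∏ x ∈ I, r x) := by
    rw [hUdef, Finset.prod_insert ha]
  have eV : V = m a * ∏ x ∈ I, m x := by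
    rw [hVdef, Finset.prod_insert ha]
  have hi₀' : i₀ ∉ insert a I := by
    rw [Finset.mem_insert]
    rintro (h | h)
    · exact hne h
    · exact hi₀ h
  have hain : a ∈ insert a I := Finset.mem_insert_self a I
  -- step 1: the factor `i₀` gets the dimension `U`
  have h6 : SpM (fun i => if i = i₀ then U else pm a I m r c S i)
      (fun i => if i = i₀ then U else pr a I m r c i) S := by
    refine spM_blow (fun i => if i = i₀ then U else 1) h5 (fun i => ?_) (fun i => ?_)
    · beta_reduce
      by_cases h : i = i₀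
      · rw [if_pos h, if_pos h, h, pm_out hne hi₀, mul_one]
      · rw [if_neg h, if_neg h, one_mul]
    · beta_reduce
      by_cases h : i = i₀
      · rw [if_pos h, if_pos h, h, pr_out hne hi₀, mul_one]
      · rw [if_neg h, if_neg h, one_mul]
  -- step 2: composition, with the factor `a` as the common factor
  have h7 : SpM (fun i => if i = a then (h * V) * (c a * (S * ∏ x ∈ I, r x)) else
        if i = i₀ then U else pm a I m r c S i)
      (fun i => if i = a then U * (c a * ∏ x ∈ I, m x) else
        if i = i₀ then V else pr a I m r c i) (S * h) := by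
    refine spM_comp (h := h) (w := h * V) (γ := U) hne h6 ?_ ?_ ?_ ?_ ?_
    · rw [if_pos rfl, if_neg hne, if_pos rfl]
      exact hbase
    · intro i hi
      beta_reduce
      rw [if_neg hi]
    · beta_reduce
      rw [if_pos rfl, if_neg hne.symm, pm_zero]
    · intro i hi hia
      beta_reduce
      rw [if_neg hi, if_neg hia, if_neg hia]
    · beta_reduce
      rw [if_pos rfl, if_neg hne.symm, pr_zero]
  -- step 3: more boxes
  refine ⟨hi₀', hV, fun i => if i = a then s * h * c a * S * ((∏ x ∈ I, r x) * ∏ x ∈ I, m x) else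
    if i = i₀ then 1 else c i, fun i => ?_, fun i hi hi0 => ?_, ?_⟩
  · beta_reduce
    by_cases h : i = a
    · rw [if_pos h]
      exact Nat.mul_pos (Nat.mul_pos (Nat.mul_pos (Nat.mul_pos hs0 hh0) (h3 a)) hS)
        (Nat.mul_pos hRI hMI)
    · rw [if_neg h]
      by_cases h' : i = i₀
      · rw [if_pos h']
      · rw [if_neg h']
        exact h3 i
  · beta_reduce
    have hia : i ≠ a := fun h => hi (h ▸ haF)
    rw [if_neg hia, if_neg hi0]
    exact h4 i hi hia
  · refine spM_more (fun i => ?_) a h7 hs (fun i hi => ?_) ?_ (fun i hi => ?_) ?_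
    · beta_reduce
      by_cases hia : i = a
      · rw [if_pos hia, if_pos hia]
        calc U * (c a * ∏ x ∈ I, m x) = c a * (U * ∏ x ∈ I, m x) := by ring
          _ ≤ c a * ((h * V) * (S * ∏ x ∈ I, r x)) :=
              Nat.mul_le_mul_left _ (Nat.mul_le_mul hle h2)
          _ = _ := by ring
      · rw [if_neg hia, if_neg hia]
        by_cases h' : i = i₀
        · rw [if_pos h', if_pos h']
          exact hV
        · rw [if_neg h', if_neg h']
          by_cases hI : i ∈ I
          · rw [pm_in hia hI, pr_in hia hI]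
            exact Nat.mul_le_mul_left _ (hr i).2
          · rw [pm_out hia hI, pr_out hia hI]
    · beta_reduce
      rw [if_neg hi]
      by_cases h' : i = i₀
      · rw [if_pos h', h', pm_zero]
        beta_reduce
        rw [if_neg hne, if_pos rfl, one_mul]
      · rw [if_neg h']
        by_cases hI : i ∈ I
        · rw [pm_in hi hI, pm_in h' (Finset.mem_insert_of_mem hI)]
          beta_reduce
          rw [if_neg hi, if_neg h']
        · have hI' : i ∉ insert a I := by
            rw [Finset.mem_insert]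
            rintro (h'' | h'')
            · exact hi h''
            · exact hI h''
          rw [pm_out hi hI, pm_out h' hI']
    · beta_reduce
      rw [if_pos rfl, pm_in hne.symm hain]
      beta_reduce
      rw [if_pos rfl, eV]
      exact le_of_eq (by ring)
    · beta_reduce
      rw [if_neg hi]
      by_cases h' : i = i₀
      · rw [if_pos h', h', pr_zero]
        beta_reduce
        rw [if_neg hne, if_pos rfl, one_mul]
      · rw [if_neg h']
        by_cases hI : i ∈ I
        · rw [pr_in hi hI, pr_in h' (Finset.mem_insert_of_mem hI)]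
          beta_reduce
          rw [if_neg hi, if_neg h']
        · have hI' : i ∉ insert a I := by
            rw [Finset.mem_insert]
            rintro (h'' | h'')
            · exact hi h''
            · exact hI h''
          rw [pr_out hi hI, pr_out h' hI']
    · beta_reduce
      rw [if_pos rfl, pr_in hne.symm hain]
      beta_reduce
      rw [if_pos rfl, eU]
      exact le_of_eq (by ring)

end Pool.Agent.SubTwo
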