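import Pool.Agent.SubTwo.Perf

/-!
# Perfect families: ratios at least five
-/

open Module Submodule Set

namespace Pool.Agent.SubTwo

open Pool.Agent.SubTyp

variable {n : ℕ} {m r : Fin n → ℕ}

/-- the constants of the induction -/
noncomputable def theta (k : ℕ) : ℝ := 3 / 2 - 5 / 4 * (1 / 5) ^ k

theorem theta_succ (k : ℕ) : theta (k + 1) = theta k + (1 / 5) ^ k := by
  unfold theta
  rw [pow_succ]
  ring

theorem theta_le (k : ℕ) : theta k ≤ 3 / 2 := by
  unfold theta
  have : (0 : ℝ) < (1 / 5) ^ k := by positivity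
  linarith

theorem theta_pos (k : ℕ) : 0 < theta k := by
  unfold theta
  have : ((1 : ℝ) / 5) ^ k ≤ 1 := pow_le_one₀ (by norm_num) (by norm_num)
  linarith

theorem theta_ge {k : ℕ} (hk : 1 ≤ k) : 145 / 100 ≤ theta (k + 1) := by
  unfold theta
  have : ((1 : ℝ) / 5) ^ (k + 1) ≤ (1 / 5) ^ 2 :=
    pow_le_pow_of_le_one (by norm_num) (by norm_num) (by omega)
  norm_num at this ⊢
  linarith

theorem pow_le_ratio {F : Finset (Fin n)} (hr : ∀ i, 1 ≤ r i ∧ r i ≤ m i)
    (hF : ∀ a ∈ F, 5 * r a ≤ m a) : (5 : ℝ) ^ F.card ≤ ∏ a ∈ F, ((m a : ℝ) / r a) := by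
  rw [← Finset.prod_const]
  refine Finset.prod_le_prod (fun _ _ => by norm_num) fun a ha => ?_
  have h1 : (0 : ℝ) < r a := by exact_mod_cast (hr a).1
  rw [le_div_iff₀ h1]
  exact_mod_cast hF a ha

/-- Ratios at least five. -/
theorem perf_five (hr : ∀ i, 1 ≤ r i ∧ r i ≤ m i) (F : Finset (Fin n)) :
    (∀ a ∈ F, 5 * r a ≤ m a) → ∀ i₀, i₀ ∉ F → ∀ s : ℕ, 1 ≤ s →
      theta F.card * ∏ a ∈ F, ((m a : ℝ) / r a) ≤ s → Perf i₀ F F m r s := by
  classical
  induction F using Finset.induction_on with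
  | empty =>
    intro _ i₀ _ s hs _
    exact perf_more hr (perf_empty i₀ ∅) hs
  | insert a F haF ih =>
    intro hF i₀ hi₀ s hs1 hs
    have hFa : 5 * r a ≤ m a := hF a (Finset.mem_insert_self a F)
    have hF' : ∀ b ∈ F, 5 * r b ≤ m b := fun b hb => hF b (Finset.mem_insert_of_mem hb)
    have hne : i₀ ≠ a := fun h => hi₀ (h ▸ Finset.mem_insert_self a F)
    have hi₀' : i₀ ∉ F := fun h => hi₀ (Finset.mem_insert_of_mem h)
    have hra : (0 : ℝ) < r a := by exact_mod_cast (hr a).1
    have hFa' : (5 : ℝ) * r a ≤ m a := by exact_mod_cast hFa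
    rw [Finset.card_insert_of_notMem haF, Finset.prod_insert haF] at hs
    rcases F.eq_empty_or_nonempty with rfl | hFne
    · -- the first factor
      rw [Finset.card_empty, Finset.prod_empty, mul_one] at hs
      have hθ : theta (0 + 1) = 5 / 4 := by
        unfold theta
        norm_num
      rw [hθ] at hs
      have h1 : (5 / 4 : ℝ) * m a ≤ s * r a := by
        have h2 : (5 / 4 : ℝ) * (m a / r a) * r a ≤ s * r a := mul_le_mul_of_nonneg_right hs hra.le
        have h3 : (5 / 4 : ℝ) * (m a / r a) * r a = 5 / 4 * m a := by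
          field_simp
        linarith
      have h4 : m a ^ 2 ≤ s * r a * (m a - r a) := by
        have h5 : ((m a ^ 2 : ℕ) : ℝ) ≤ ((s * r a * (m a - r a) : ℕ) : ℝ) := by
          push_cast [Nat.cast_sub (hr a).2]
          have h6 : (4 / 5 : ℝ) * m a ≤ m a - r a := by linarith
          have h7 : (0 : ℝ) ≤ m a := Nat.cast_nonneg _
          calc (m a : ℝ) ^ 2 = (5 / 4 * m a) * (4 / 5 * m a) := by ring
            _ ≤ (s * r a) * (m a - r a) :=
                mul_le_mul h1 h6 (by positivity) (by positivity)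
        exact_mod_cast h5
      have h8 := perf_add (i₀ := i₀) (a := a) (F := insert a ∅) (h := s) hr
        (perf_empty i₀ (insert a ∅)) (Finset.notMem_empty a) hne.symm (Or.inr h4)
      rw [one_mul] at h8
      exact h8
    · have hk : 1 ≤ F.card := hFne.card_pos
      set k := F.card with hkdef
      set Pi := ∏ b ∈ F, ((m b : ℝ) / r b) with hPi
      have hPi5 : (5 : ℝ) ^ k ≤ Pi := pow_le_ratio hr hF'
      have h5k : (5 : ℝ) ≤ 5 ^ k := by
        calc (5 : ℝ) = 5 ^ 1 := by norm_num
          _ ≤ 5 ^ k := pow_le_pow_right₀ (by norm_num) hk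
      have hPi0 : 0 < Pi := by linarith
      set P : ℝ := (m a : ℝ) / r a with hP
      have hP5 : 5 ≤ P := by
        rw [hP, le_div_iff₀ hra]
        exact hFa'
      have hθ0 := theta_pos k
      have hθ1 := theta_ge hk
      have hθ2 := theta_le (k + 1)
      set S := ⌈theta k * Pi⌉₊ with hS
      have hS0 : 1 ≤ S := Nat.one_le_ceil_iff.2 (by positivity)
      have hS1 : (S : ℝ) < theta k * Pi + 1 := Nat.ceil_lt_add_one (by positivity)
      have hSp : Perf a F F m r S := ih hF' a haF S hS0 (Nat.le_ceil _)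
      set s' := ⌈theta (k + 1) * (P * Pi)⌉₊ with hs'
      have hs'1 : theta (k + 1) * (P * Pi) ≤ s' := Nat.le_ceil _
      have hs'2 : (s' : ℝ) < theta (k + 1) * (P * Pi) + 1 :=
        Nat.ceil_lt_add_one (by positivity)
      have hs's : s' ≤ s := Nat.ceil_le.2 hs
      have h5S : S * 5 ≤ s' := by
        have h1 : ((S * 5 : ℕ) : ℝ) < s' := by
          push_cast
          have h2 : (1 : ℝ) ≤ (1 / 5) ^ k * Pi := by
            have h3 : ((1 : ℝ) / 5) ^ k * 5 ^ k = 1 := by
              rw [← mul_pow]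
              norm_num
            have h4 : (0 : ℝ) < (1 / 5) ^ k := by positivity
            nlinarith
          have h5 : theta (k + 1) * Pi = theta k * Pi + (1 / 5) ^ k * Pi := by
            rw [theta_succ]
            ring
          have h6 : 5 * (theta (k + 1) * Pi) ≤ theta (k + 1) * (P * Pi) := by
            have h7 : 0 ≤ theta (k + 1) * Pi := by positivity
            nlinarith
          linarith
        exact_mod_cast h1.le
      refine perf_more hr ?_ hs's
      have hSp' : Perf a (insert a F) F m r S := perf_mono_F hSp (Finset.subset_insert a F)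
      -- the two real numbers
      set U : ℕ := s' * ∏ x ∈ insert a F, r x with hU
      set V : ℕ := ∏ x ∈ insert a F, m x with hV
      have hR0 : (0 : ℝ) < ((∏ x ∈ insert a F, r x : ℕ) : ℝ) := by
        have : 0 < ∏ x ∈ insert a F, r x := Finset.prod_pos fun x _ => (hr x).1
        exact_mod_cast this
      have hVR : (V : ℝ) = P * Pi * ((∏ x ∈ insert a F, r x : ℕ) : ℝ) := by
        rw [hV, hP, hPi, ← Finset.prod_insert (f := fun b => (m b : ℝ) / r b) haF]
        push_cast
        rw [← Finset.prod_mul_distrib]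
        refine Finset.prod_congr rfl fun x _ => ?_
        have : (r x : ℝ) ≠ 0 := by
          have := (hr x).1
          positivity
        field_simp
      have hUR : (U : ℝ) = s' * ((∏ x ∈ insert a F, r x : ℕ) : ℝ) := by
        rw [hU]
        push_cast
        rfl
      have hPP : 25 ≤ P * Pi := by nlinarith
      have hu1 : 145 / 100 * (V : ℝ) ≤ U := by
        rw [hVR, hUR]
        have h1 : 145 / 100 * (P * Pi) ≤ s' := by nlinarith
        nlinarith
      have hu2 : (U : ℝ) ≤ 154 / 100 * V := by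
        rw [hVR, hUR]
        have h1 : (s' : ℝ) ≤ 154 / 100 * (P * Pi) := by nlinarith
        nlinarith
      have hV0 : (0 : ℝ) ≤ V := Nat.cast_nonneg _
      have hVU : V ≤ U := by
        have : (V : ℝ) ≤ U := by linarith
        exact_mod_cast this
      refine perf_swap (h := 5) hr hSp' hi₀' hne (Finset.mem_insert_self a F) h5S hVU ?_
      have h1 : ((U ^ 2 : ℕ) : ℝ) ≤ ((5 * V * (U - V) : ℕ) : ℝ) := by
        push_cast [Nat.cast_sub hVU]
        nlinarith [mul_nonneg (sub_nonneg.2 hu1) (sub_nonneg.2 hu2)]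
      exact_mod_cast h1

theorem perf_addmany {i₀ : Fin n} {F : Finset (Fin n)} {S : ℕ} {h : Fin n → ℕ}
    (hr : ∀ i, 1 ≤ r i ∧ r i ≤ m i) (hP : Perf i₀ F F m r S) (J : Finset (Fin n)) :
    Disjoint F J → i₀ ∉ J →
      (∀ a ∈ J, h a * r a = m a ∨ m a ^ 2 ≤ h a * r a * (m a - r a)) →
      Perf i₀ F (F ∪ J) m r (S * ∏ a ∈ J, h a) := by
  classical
  induction J using Finset.induction_on with
  | empty =>
    intro _ _ _
    rw [Finset.union_empty, Finset.prod_empty, mul_one]
    exact hP
  | insert a J haJ ih =>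
    intro hd hi₀ hcond
    have hd' : Disjoint F J := hd.mono_right (Finset.subset_insert a J)
    have haF : a ∉ F := fun h' => Finset.disjoint_left.1 hd h' (Finset.mem_insert_self a J)
    have h1 := ih hd' (fun h' => hi₀ (Finset.mem_insert_of_mem h'))
      fun b hb => hcond b (Finset.mem_insert_of_mem hb)
    have h2 := perf_add (a := a) (h := h a) hr h1 (by
      rw [Finset.mem_union]
      rintro (h' | h')
      · exact haF h'
      · exact haJ h') (fun h' => hi₀ (h' ▸ Finset.mem_insert_self a J))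
      (hcond a (Finset.mem_insert_self a J))
    rw [Finset.union_insert, Finset.prod_insert haJ]
    have e : S * (h a * ∏ x ∈ J, h x) = S * (∏ x ∈ J, h x) * h a := by ring
    rw [e]
    exact h2

/-- The general sufficient condition for a perfect family. -/
theorem perf_all {i₀ : Fin n} {F : Finset (Fin n)} {h : Fin n → ℕ} {s : ℕ}
    (hr : ∀ i, 1 ≤ r i ∧ r i ≤ m i) (hi₀ : i₀ ∉ F) (hF : ∀ a ∈ F, 5 * r a ≤ m a)
    (hcond : ∀ a, a ∉ F → a ≠ i₀ → h a * r a = m a ∨ m a ^ 2 ≤ h a * r a * (m a - r a))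
    (hs : (F = ∅ ∧ ∏ a ∈ Finset.univ.erase i₀ \ F, h a ≤ s) ∨
      3 / 2 * (∏ a ∈ F, ((m a : ℝ) / r a)) * ((∏ a ∈ Finset.univ.erase i₀ \ F, h a : ℕ) : ℝ) ≤
        s) : Perf i₀ F (Finset.univ.erase i₀) m r s := by
  classical
  have hsub : F ⊆ Finset.univ.erase i₀ := fun a ha =>
    Finset.mem_erase.2 ⟨fun h' => hi₀ (h' ▸ ha), Finset.mem_univ a⟩
  have hun : F ∪ (Finset.univ.erase i₀ \ F) = Finset.univ.erase i₀ :=
    Finset.union_sdiff_of_subset hsub
  have key : ∀ S : ℕ, Perf i₀ F F m r S →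
      Perf i₀ F (Finset.univ.erase i₀) m r (S * ∏ a ∈ Finset.univ.erase i₀ \ F, h a) := by
    intro S hS
    have h1 := perf_addmany (h := h) hr hS (Finset.univ.erase i₀ \ F) Finset.disjoint_sdiff
      (fun h' => Finset.notMem_erase i₀ _ (Finset.mem_sdiff.1 h').1) fun a ha =>
        hcond a (Finset.mem_sdiff.1 ha).2 (Finset.ne_of_mem_erase (Finset.mem_sdiff.1 ha).1)
    rw [hun] at h1
    exact h1
  rcases hs with ⟨hF0, hs⟩ | hs
  · subst hF0
    have h1 := key 1 (perf_empty i₀ ∅)
    rw [one_mul] at h1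
    exact perf_more hr h1 hs
  · set Pi := ∏ a ∈ F, ((m a : ℝ) / r a) with hPi
    have h5 : (5 : ℝ) ^ F.card ≤ Pi := pow_le_ratio hr hF
    have h50 : (0 : ℝ) < 5 ^ F.card := by positivity
    have hPi0 : 0 < Pi := by linarith
    have hθ := theta_pos F.card
    have hθ1 := theta_le (F.card + 1)
    set S := ⌈theta F.card * Pi⌉₊ with hS
    have hS0 : 1 ≤ S := Nat.one_le_ceil_iff.2 (by positivity)
    have hS1 : (S : ℝ) < theta F.card * Pi + 1 := Nat.ceil_lt_add_one (by positivity)
    have h2 : (1 : ℝ) ≤ (1 / 5) ^ F.card * Pi := by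
      have h3 : ((1 : ℝ) / 5) ^ F.card * 5 ^ F.card = 1 := by
        rw [← mul_pow]
        norm_num
      have h4 : (0 : ℝ) < (1 / 5) ^ F.card := by positivity
      nlinarith
    have hS2 : (S : ℝ) ≤ 3 / 2 * Pi := by
      rw [theta_succ] at hθ1
      nlinarith
    have h3 := key S (perf_five hr F hF i₀ hi₀ S hS0 (Nat.le_ceil _))
    refine perf_more hr h3 ?_
    have h4 : ((S * ∏ a ∈ Finset.univ.erase i₀ \ F, h a : ℕ) : ℝ) ≤ s := by
      rw [Nat.cast_mul]
      exact (mul_le_mul_of_nonneg_right hS2 (Nat.cast_nonneg _)).trans hs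
    exact_mod_cast h4

end Pool.Agent.SubTwo
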