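import Pool.Agent.SubTwo.Unif3

/-!
# Large multiples of one format
-/

open Module Submodule Set

namespace Pool.Agent.SubTwo

open Pool.Agent.SubTyp

variable {n : ℕ} {m r : Fin n → ℕ}

/-- Uniqueness for large multiples. -/
theorem typical_of_ray (hn : 3 ≤ n) (hr : ∀ i, 1 ≤ r i ∧ r i ≤ m i) {x : ℝ}
    (hx : x = (∏ i, (m i : ℝ)) / (∏ i, (r i : ℝ))) {N : ℕ}
    (hN : ⌈x⌉₊ * ∑ i, r i * (m i - r i) < N)
    (hspan : SpansT (fun i => N * m i) (fun i => N * r i) ⌈x⌉₊) :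
    {d : ℕ | IsTypicalRank (SubVar (fun i => N * m i) (fun i => N * r i)) d} = {⌈x⌉₊} := by
  classical
  have hN0 : 0 < N := by omega
  have hr' : ∀ i, 1 ≤ N * r i ∧ N * r i ≤ N * m i := fun i =>
    ⟨Nat.mul_pos hN0 (hr i).1, Nat.mul_le_mul_left _ (hr i).2⟩
  have hR0 : (0 : ℝ) < ∏ i, (r i : ℝ) := Finset.prod_pos fun i _ => by
    have := (hr i).1
    exact_mod_cast this
  have hM0 : (0 : ℝ) < ∏ i, (m i : ℝ) := Finset.prod_pos fun i _ => by
    have := (hr i).1.trans (hr i).2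
    exact_mod_cast this
  have hxR : x * ∏ i, (r i : ℝ) = ∏ i, (m i : ℝ) := by
    rw [hx]
    exact div_mul_cancel₀ _ hR0.ne'
  have hx0 : 0 < x := by
    rw [hx]
    exact div_pos hM0 hR0
  have eR : ((∏ i, r i : ℕ) : ℝ) = ∏ i, (r i : ℝ) := by
    push_cast
    rfl
  have eM : ((∏ i, m i : ℕ) : ℝ) = ∏ i, (m i : ℝ) := by
    push_cast
    rfl
  have ePm : ∏ i, N * m i = N ^ n * ∏ i, m i := by
    rw [Finset.prod_mul_distrib, Finset.prod_const, Finset.card_univ, Fintype.card_fin]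
  have ePr : ∏ i, N * r i = N ^ n * ∏ i, r i := by
    rw [Finset.prod_mul_distrib, Finset.prod_const, Finset.card_univ, Fintype.card_fin]
  have hNn : 0 < N ^ n := Nat.pow_pos hN0
  set s := ⌈x⌉₊ with hs
  have hs0 : 0 < s := Nat.ceil_pos.2 hx0
  have hB : boxNumber (fun i => N * m i) (fun i => N * r i) = s := by
    refine le_antisymm ((boxNumber_isLeast hr').2 hspan) ?_
    have h1 := spansT_bound (boxNumber_isLeast hr').1
    rw [ePm, ePr] at h1
    have h2 : ∏ i, m i ≤ boxNumber (fun i => N * m i) (fun i => N * r i) * ∏ i, r i := by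
      refine Nat.le_of_mul_le_mul_left (c := N ^ n) ?_ hNn
      calc _ ≤ _ := h1
        _ = _ := by ring
    have h3 : ((∏ i, m i : ℕ) : ℝ) ≤
        ((boxNumber (fun i => N * m i) (fun i => N * r i) * ∏ i, r i : ℕ) : ℝ) := by
      exact_mod_cast h2
    rw [Nat.cast_mul, eR, eM, ← hxR] at h3
    exact Nat.ceil_le.2 (le_of_mul_le_mul_right h3 hR0)
  -- the dimension count
  have hlt : (s - 1) * ∏ i, r i + 1 ≤ ∏ i, m i := by
    have h1 : ((s - 1 : ℕ) : ℝ) < x := by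
      refine Nat.lt_ceil.1 ?_
      omega
    have h2 : (((s - 1) * ∏ i, r i : ℕ) : ℝ) < ((∏ i, m i : ℕ) : ℝ) := by
      rw [Nat.cast_mul, eR, eM, ← hxR]
      exact mul_lt_mul_of_pos_right h1 hR0
    exact_mod_cast h2
  have hsum : ∑ i, N * r i * (N * m i - N * r i) = N ^ 2 * ∑ i, r i * (m i - r i) := by
    rw [Finset.mul_sum]
    refine Finset.sum_congr rfl fun i _ => ?_
    rw [← Nat.mul_sub]
    ring
  have hkey : (boxNumber (fun i => N * m i) (fun i => N * r i) - 1) *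
      (∏ i, N * r i + ∑ i, N * r i * (N * m i - N * r i)) < ∏ i, N * m i := by
    rw [hB, hsum, ePm, ePr]
    have h1 : N ^ 3 ≤ N ^ n := Nat.pow_le_pow_right hN0 hn
    have h2 : (s - 1) * (N ^ 2 * ∑ i, r i * (m i - r i)) < N ^ n := by
      calc (s - 1) * (N ^ 2 * ∑ i, r i * (m i - r i)) =
            N ^ 2 * ((s - 1) * ∑ i, r i * (m i - r i)) := by ring
        _ ≤ N ^ 2 * (s * ∑ i, r i * (m i - r i)) :=
            Nat.mul_le_mul_left _ (Nat.mul_le_mul_right _ (Nat.sub_le _ _))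
        _ < N ^ 2 * N := Nat.mul_lt_mul_of_pos_left hN (Nat.pow_pos hN0)
        _ = N ^ 3 := by ring
        _ ≤ N ^ n := h1
    calc (s - 1) * (N ^ n * ∏ i, r i + N ^ 2 * ∑ i, r i * (m i - r i)) =
          N ^ n * ((s - 1) * ∏ i, r i) + (s - 1) * (N ^ 2 * ∑ i, r i * (m i - r i)) := by ring
      _ < N ^ n * ((s - 1) * ∏ i, r i) + N ^ n := Nat.add_lt_add_left h2 _
      _ = N ^ n * ((s - 1) * ∏ i, r i + 1) := by ring
      _ ≤ _ := Nat.mul_le_mul_left _ hlt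
  rw [typical_dim hr' (fun i => ⟨le_rfl, (hr' i).2⟩) hkey, hB]

/-- Large multiples: the general product condition. -/
theorem ray_prod (hn : 3 ≤ n) (hr : ∀ i, 1 ≤ r i ∧ r i ≤ m i) {x : ℝ}
    (hx : x = (∏ i, (m i : ℝ)) / (∏ i, (r i : ℝ))) (i₀ : Fin n) (h : Fin n → ℕ)
    (hcond : ∀ a, a ≠ i₀ → h a * r a = m a ∨ m a ^ 2 ≤ h a * r a * (m a - r a))
    (hs : ∏ a ∈ Finset.univ.erase i₀, h a ≤ ⌈x⌉₊) :
    ∃ K N₀ : ℕ, 1 ≤ K ∧ ∀ N, N₀ ≤ N → (¬ ∏ i, r i ∣ ∏ i, m i) ∨ K ∣ N →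
      {d : ℕ | IsTypicalRank (SubVar (fun i => N * m i) (fun i => N * r i)) d} = {⌈x⌉₊} := by
  classical
  have hR0 : (0 : ℝ) < ∏ i, (r i : ℝ) := Finset.prod_pos fun i _ => by
    have := (hr i).1
    exact_mod_cast this
  have hxR : x * ∏ i, (r i : ℝ) = ∏ i, (m i : ℝ) := by
    rw [hx]
    exact div_mul_cancel₀ _ hR0.ne'
  have hM : ∏ i, m i ≤ ⌈x⌉₊ * ∏ i, r i := by
    have h1 : (∏ i, (m i : ℝ)) ≤ (⌈x⌉₊ : ℝ) * ∏ i, (r i : ℝ) := by
      rw [← hxR]
      exact mul_le_mul_of_nonneg_right (Nat.le_ceil _) hR0.le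
    exact_mod_cast h1
  refine ⟨∏ a ∈ Finset.univ.erase i₀, h a * m a,
    max (⌈x⌉₊ * ∑ i, r i * (m i - r i) + 1)
      (⌈x⌉₊ * ∏ a ∈ Finset.univ.erase i₀, h a * (m a * r a)), ?_, fun N hN hdiv => ?_⟩
  · have hpos : ∀ a ∈ Finset.univ.erase i₀, 0 < h a * m a := ?_
    · exact Finset.prod_pos hpos
    intro a ha
    have h2 := le_of_cond (hr a).1 (hr a).2 (hcond a (Finset.ne_of_mem_erase ha))
    have h3 := hr a
    rcases Nat.eq_zero_or_pos (h a) with h4 | h4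
    · rw [h4, zero_mul] at h2
      omega
    · exact Nat.mul_pos h4 (by omega)
  · have hN1 : ⌈x⌉₊ * ∑ i, r i * (m i - r i) < N :=
      lt_of_lt_of_le (Nat.lt_succ_self _) ((le_max_left _ _).trans hN)
    refine typical_of_ray hn hr hx hN1 (spansT_scaled i₀ hr hcond hs hM ?_)
    rcases hdiv with hdiv | hdiv
    · right
      have h1 : ∏ i, m i + 1 ≤ ⌈x⌉₊ * ∏ i, r i := by
        rcases Nat.lt_or_ge (∏ i, m i) (⌈x⌉₊ * ∏ i, r i) with h2 | h2
        · exact h2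
        · exact absurd ⟨⌈x⌉₊, by rw [mul_comm]; exact le_antisymm hM h2⟩ hdiv
      calc ⌈x⌉₊ * ∏ a ∈ Finset.univ.erase i₀, h a * (m a * r a) + N * ∏ i, m i ≤
            N + N * ∏ i, m i := Nat.add_le_add_right ((le_max_right _ _).trans hN) _
        _ = N * (∏ i, m i + 1) := by ring
        _ ≤ _ := Nat.mul_le_mul_left _ h1
    · exact Or.inl hdiv

/-- Large multiples: the region `5 r ≤ m` or `r ∣ m`. -/
theorem ray_region (hn : 3 ≤ n) (hr : ∀ i, 1 ≤ r i ∧ r i ≤ m i) {x : ℝ}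
    (hx : x = (∏ i, (m i : ℝ)) / (∏ i, (r i : ℝ))) (i₀ : Fin n) (h0 : 3 * r i₀ ≤ 2 * m i₀)
    (hreg : ∀ i, i ≠ i₀ → r i ∣ m i ∨ 5 * r i ≤ m i) :
    ∃ K N₀ : ℕ, 1 ≤ K ∧ ∀ N, N₀ ≤ N → (¬ ∏ i, r i ∣ ∏ i, m i) ∨ K ∣ N →
      {d : ℕ | IsTypicalRank (SubVar (fun i => N * m i) (fun i => N * r i)) d} = {⌈x⌉₊} := by
  classical
  have hr0 : ∀ i, (0 : ℝ) < r i := fun i => by exact_mod_cast (hr i).1
  have hR0 : (0 : ℝ) < ∏ i, (r i : ℝ) := Finset.prod_pos fun i _ => hr0 i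
  have hM0 : (0 : ℝ) < ∏ i, (m i : ℝ) := Finset.prod_pos fun i _ => by
    have := (hr i).1.trans (hr i).2
    exact_mod_cast this
  have hx0 : 0 < x := by
    rw [hx]
    exact div_pos hM0 hR0
  have hxR : x * ∏ i, (r i : ℝ) = ∏ i, (m i : ℝ) := by
    rw [hx]
    exact div_mul_cancel₀ _ hR0.ne'
  have eR : ((∏ i, r i : ℕ) : ℝ) = ∏ i, (r i : ℝ) := by
    push_cast
    rfl
  have eM : ((∏ i, m i : ℕ) : ℝ) = ∏ i, (m i : ℝ) := by
    push_cast
    rfl
  let F : Finset (Fin n) := Finset.univ.filter fun i => i ≠ i₀ ∧ ¬ r i ∣ m i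
  have hi₀F : i₀ ∉ F := fun h => (Finset.mem_filter.1 h).2.1 rfl
  have hdvd : ∀ i, i ∉ F → i ≠ i₀ → r i ∣ m i := by
    intro i hi hne
    by_contra hcon
    exact hi (Finset.mem_filter.2 ⟨Finset.mem_univ i, hne, hcon⟩)
  have hF5 : ∀ a ∈ F, 5 * r a ≤ m a := fun a ha => by
    have h1 := (Finset.mem_filter.1 ha).2
    exact (hreg a h1.1).resolve_left h1.2
  have hnum := region_num hr i₀ h0 F hi₀F hdvd
  rw [← hx] at hnum
  by_cases hint : ∏ i, r i ∣ ∏ i, m i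
  · -- integral quotient
    have hxs : x = (⌈x⌉₊ : ℝ) := by
      obtain ⟨q, hq⟩ := hint
      have h1 : x = (q : ℝ) := by
        have h2 : ((∏ i, m i : ℕ) : ℝ) = ((∏ i, r i : ℕ) : ℝ) * q := by
          rw [hq]
          push_cast
          rfl
        rw [eM, eR, ← hxR] at h2
        have h3 : x * ∏ i, (r i : ℝ) = q * ∏ i, (r i : ℝ) := by rw [h2]; ring
        exact mul_right_cancel₀ hR0.ne' h3
      rw [h1, Nat.ceil_natCast]
    set s := ⌈x⌉₊ with hs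
    have hMs : ∏ i, m i = s * ∏ i, r i := by
      have h1 : ((∏ i, m i : ℕ) : ℝ) = ((s * ∏ i, r i : ℕ) : ℝ) := by
        rw [Nat.cast_mul, eR, eM, ← hxR, hxs]
      exact_mod_cast h1
    have hperf : Perf i₀ F (Finset.univ.erase i₀) m r s :=
      perf_all (h := fun i => m i / r i) hr hi₀F hF5
        (fun a haF ha0 => Or.inl (Nat.div_mul_cancel (hdvd a haF ha0)))
        (Or.inr (hnum.trans hxs.le))
    obtain ⟨-, -, c, hc1, -, hspan⟩ := hperf
    set Mi := ∏ a ∈ Finset.univ.erase i₀, m a with hMi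
    set Ri := ∏ a ∈ Finset.univ.erase i₀, r a with hRi
    have eM' : ∏ i, m i = m i₀ * Mi := (Finset.mul_prod_erase _ _ (Finset.mem_univ i₀)).symm
    have eR' : ∏ i, r i = r i₀ * Ri := (Finset.mul_prod_erase _ _ (Finset.mem_univ i₀)).symm
    have hMi0 : 0 < Mi := Finset.prod_pos fun a _ => lt_of_lt_of_le (hr a).1 (hr a).2
    refine ⟨(∏ i, c i) * Mi, s * ∑ i, r i * (m i - r i) + 1,
      Nat.mul_pos (Finset.prod_pos fun i _ => hc1 i) hMi0, fun N hN hdiv => ?_⟩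
    rcases hdiv with hdiv | ⟨e, rfl⟩
    · exact absurd hint hdiv
    refine typical_of_ray hn hr hx (lt_of_lt_of_le (Nat.lt_succ_self _) hN) ?_
    refine spansT_of_spM (fun i => Nat.mul_le_mul_left _ (hr i).2)
      (spM_blow (fun i => if i = i₀ then (∏ j ∈ Finset.univ.erase i₀, c j) * r i₀ * e else
        (∏ j ∈ Finset.univ.erase i, c j) * Mi * e) hspan (fun i => ?_) (fun i => ?_))
    · beta_reduce
      by_cases hi : i = i₀
      · rw [if_pos hi, hi, pm_zero, ← Finset.mul_prod_erase Finset.univ c (Finset.mem_univ i₀)]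
        refine le_of_eq ?_
        have h1 : m i₀ * Mi = s * (r i₀ * Ri) := by rw [← eM', ← eR', hMs]
        calc c i₀ * (∏ x ∈ Finset.univ.erase i₀, c x) * Mi * e * m i₀ =
              c i₀ * (∏ x ∈ Finset.univ.erase i₀, c x) * e * (m i₀ * Mi) := by ring
          _ = c i₀ * (∏ x ∈ Finset.univ.erase i₀, c x) * e * (s * (r i₀ * Ri)) := by rw [h1]
          _ = _ := by ring
      · rw [if_neg hi, pm_in hi (Finset.mem_erase.2 ⟨hi, Finset.mem_univ i⟩),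
          ← Finset.mul_prod_erase Finset.univ c (Finset.mem_univ i)]
        exact le_of_eq (by ring)
    · beta_reduce
      by_cases hi : i = i₀
      · rw [if_pos hi, hi, pr_zero, ← Finset.mul_prod_erase Finset.univ c (Finset.mem_univ i₀)]
        exact le_of_eq (by ring)
      · rw [if_neg hi, pr_in hi (Finset.mem_erase.2 ⟨hi, Finset.mem_univ i⟩),
          ← Finset.mul_prod_erase Finset.univ c (Finset.mem_univ i)]
        exact le_of_eq (by ring)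
  · -- the uniform theorem
    set s := ⌈x⌉₊ with hs
    have hs0 : 0 < s := Nat.ceil_pos.2 hx0
    have h1 : ((s - 1 : ℕ) : ℝ) < x := by
      refine Nat.lt_ceil.1 ?_
      omega
    have h2 : x < s := by
      refine lt_of_le_of_ne (Nat.le_ceil _) fun h3 => hint ⟨s, ?_⟩
      have h4 : ((∏ i, m i : ℕ) : ℝ) = (((∏ i, r i) * s : ℕ) : ℝ) := by
        rw [Nat.cast_mul, eR, eM, ← hxR, h3]
        ring
      exact_mod_cast h4
    have h3 : ((s - 1 : ℕ) : ℝ) = s - 1 := by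
      rw [Nat.cast_sub hs0, Nat.cast_one]
    obtain ⟨δ, hδ, hδ1, hδ2⟩ : ∃ δ : ℝ, 0 < δ ∧ ((s - 1 : ℕ) : ℝ) < x - δ ∧ x + δ ≤ s := by
      refine ⟨min ((x - (s - 1 : ℕ)) / 2) (s - x), lt_min ?_ ?_, ?_, ?_⟩
      · linarith
      · linarith
      · have := min_le_left ((x - ((s - 1 : ℕ) : ℝ)) / 2) ((s : ℝ) - x)
        linarith
      · have := min_le_right ((x - ((s - 1 : ℕ) : ℝ)) / 2) ((s : ℝ) - x)
        linarith
    obtain ⟨C, hC⟩ := typical_region n x δ hδ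
    refine ⟨1, max C (∑ i, C * (r i * (m i - r i))) + 1, le_rfl, fun N hN _ => ?_⟩
    have hNC : C ≤ N := (le_max_left _ _).trans ((Nat.le_succ _).trans hN)
    have hNS : (∑ i, C * (r i * (m i - r i))) ≤ N :=
      (le_max_right _ _).trans ((Nat.le_succ _).trans hN)
    have hN0 : 0 < N := by omega
    have hCr : ∀ i, C ≤ N * r i := fun i => hNC.trans (Nat.le_mul_of_pos_right _ (hr i).1)
    have hxN : x = (∏ i, ((N * m i : ℕ) : ℝ)) / (∏ i, ((N * r i : ℕ) : ℝ)) := by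
      push_cast
      rw [Finset.prod_mul_distrib, Finset.prod_mul_distrib, hx]
      have h5 : (∏ _i : Fin n, (N : ℝ)) ≠ 0 := by
        rw [Finset.prod_const]
        positivity
      exact (mul_div_mul_left _ _ h5).symm
    have h6 := (hC (fun i => N * m i) (fun i => N * r i) (fun i => ⟨Nat.mul_pos hN0 (hr i).1,
      Nat.mul_le_mul_left _ (hr i).2, ?_⟩) (Or.inr ⟨i₀, hCr i₀, ?_, fun i hi => ?_⟩) x hxN
      le_rfl).2 ?_
    · exact h6
    · -- the sizes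
      rw [← Nat.mul_sub]
      have h7 : C * (r i * (m i - r i)) ≤ N :=
        (Finset.single_le_sum (f := fun i => C * (r i * (m i - r i))) (fun _ _ => Nat.zero_le _)
          (Finset.mem_univ i)).trans hNS
      have hrpos : ∀ j, 0 < r j := fun j => (hr j).1
      have h8 : 0 < ∏ j, r j := Finset.prod_pos fun j _ => hrpos j
      calc C * (N * r i * (N * (m i - r i))) = N ^ 2 * (C * (r i * (m i - r i))) := by ring
        _ ≤ N ^ 2 * N := Nat.mul_le_mul_left _ h7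
        _ = N ^ 3 := by ring
        _ ≤ N ^ n := Nat.pow_le_pow_right hN0 hn
        _ ≤ N ^ n * ∏ j, r j := Nat.le_mul_of_pos_right _ h8
        _ = ∏ j, N * r j := by
            rw [Finset.prod_mul_distrib, Finset.prod_const, Finset.card_univ, Fintype.card_fin]
    · have := Nat.mul_le_mul_left N h0
      calc 3 * (N * r i₀) = N * (3 * r i₀) := by ring
        _ ≤ N * (2 * m i₀) := this
        _ = _ := by ring
    · rcases hreg i hi with h7 | h7
      · exact Or.inl (Nat.mul_dvd_mul_left N h7)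
      · right
        refine ⟨hCr i, ?_⟩
        calc 5 * (N * r i) = N * (5 * r i) := by ring
          _ ≤ _ := Nat.mul_le_mul_left N h7
    · -- the two round-ups agree
      have h7 : s ≤ ⌈x - δ⌉₊ := by
        have h8 : s - 1 < ⌈x - δ⌉₊ := Nat.lt_ceil.2 hδ1
        omega
      have h8 : ⌈x + δ⌉₊ ≤ s := Nat.ceil_le.2 hδ2
      have h9 : ⌈x - δ⌉₊ ≤ ⌈x + δ⌉₊ := Nat.ceil_le_ceil (by linarith)
      omega

/-- **Large multiples of one format.** -/
theorem typical_rays (hn : 3 ≤ n) (hr : ∀ i, 1 ≤ r i ∧ r i ≤ m i) {x : ℝ}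
    (hx : x = (∏ i, (m i : ℝ)) / (∏ i, (r i : ℝ)))
    (hreg : (n = 3 ∧ ∀ i, 3 * r i ≤ m i) ∨
      (∃ i₀, 3 * r i₀ ≤ 2 * m i₀ ∧ ∀ i, i ≠ i₀ → r i ∣ m i ∨ 5 * r i ≤ m i) ∨
      ∃ (i₀ : Fin n) (h : Fin n → ℕ),
        (∀ i, i ≠ i₀ → h i * r i = m i ∨ m i ^ 2 ≤ h i * r i * (m i - r i)) ∧
        ∏ i ∈ Finset.univ.erase i₀, h i ≤ ⌈x⌉₊) :
    ∃ K N₀ : ℕ, 1 ≤ K ∧ ∀ N, N₀ ≤ N → (¬ ∏ i, r i ∣ ∏ i, m i) ∨ K ∣ N →
      {d : ℕ | IsTypicalRank (SubVar (fun i => N * m i) (fun i => N * r i)) d} = {⌈x⌉₊} := by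
  rcases hreg with ⟨h3, hreg⟩ | ⟨i₀, h0, hreg⟩ | ⟨i₀, h, hcond, hs⟩
  · subst h3
    obtain ⟨h, hh1, hh2⟩ := exists_h_three hr hreg
    refine ray_prod hn hr hx 0 h (fun a _ => Or.inr ?_) ?_
    · have h1 := hh1 a
      have h2 : ((m a ^ 2 : ℕ) : ℝ) ≤ ((h a * r a * (m a - r a) : ℕ) : ℝ) := by
        push_cast [Nat.cast_sub (hr a).2]
        have h3 : (0 : ℝ) ≤ (m a : ℝ) ^ 2 := sq_nonneg _
        linarith
      exact_mod_cast h2
    · rw [← hx] at hh2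
      exact_mod_cast hh2.trans (Nat.le_ceil x)
  · exact ray_region hn hr hx i₀ h0 hreg
  · exact ray_prod hn hr hx i₀ h hcond hs

end Pool.Agent.SubTwo
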