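import Pool.Agent.SubTwo.Comp
import Pool.Agent.SubTwo.Dim

/-!
# Large multiples of a format
-/

open Module Submodule Set

namespace Pool.Agent.SubTwo

open Pool.Agent.SubTyp

/-- The two-factor families without waste. -/
theorem sp_tight {h m r : ℕ} (hr : 1 ≤ r) (hrm : r ≤ m)
    (hh : h * r = m ∨ m ^ 2 ≤ h * r * (m - r)) : Sp ℝ h m r (h * r) m := by
  rcases hh with hh | hh
  · refine sp_of_spaces (F := ℝ) (U := Fin h → Fin r → ℝ) (V := Fin (h * r) → ℝ)
      (A := fun _ => Fin r → ℝ) (B := fun _ => Fin (h * r) → ℝ)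
      (fun j => LinearMap.single ℝ (fun _ => Fin r → ℝ) j) (fun _ => LinearMap.id)
      (fun φ hφ => LinearMap.pi_ext' fun j => ?_) ?_ ?_ ?_ ?_
    · rw [LinearMap.zero_comp]
      exact hφ j
    · rw [finrank_pi_fintype]
      simp only [finrank_fin_fun, Finset.sum_const, Finset.card_univ, Fintype.card_fin,
        smul_eq_mul]
      exact hh.ge
    · rw [finrank_fin_fun]
    · intro j
      rw [finrank_fin_fun]
    · intro j
      rw [finrank_fin_fun]
      exact hh.le
  · have h1 : (m : ℝ) ^ 2 ≤ h * r * (m - r) := by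
      have : ((m ^ 2 : ℕ) : ℝ) ≤ ((h * r * (m - r) : ℕ) : ℝ) := by exact_mod_cast hh
      push_cast [Nat.cast_sub hrm] at this
      exact this
    have hr' : (1 : ℝ) ≤ r := by exact_mod_cast hr
    have hrm' : (r : ℝ) ≤ m := by exact_mod_cast hrm
    have hh0 : (0 : ℝ) ≤ h := Nat.cast_nonneg _
    have hm : (0 : ℝ) < m := by linarith
    have h2 : (m : ℝ) ≤ h * r := by
      have h3 : (m : ℝ) * m ≤ (h * r) * m := by nlinarith [mul_nonneg hh0 (by linarith : (0 : ℝ) ≤ r)]
      exact le_of_mul_le_mul_right h3 hm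
    refine sp_main (m : ℝ) ((h : ℝ) * r) hr (hr.trans hrm) le_rfl (by push_cast; exact le_rfl)
      hrm' h2 ?_ ?_
    · exact le_of_eq (by ring)
    · nlinarith

variable {n : ℕ}

theorem le_of_cond {h m r : ℕ} (hr : 1 ≤ r) (hrm : r ≤ m)
    (hh : h * r = m ∨ m ^ 2 ≤ h * r * (m - r)) : m ≤ h * r := by
  rcases hh with hh | hh
  · exact hh.ge
  · have h1 : m * m ≤ (h * r) * m := by
      rw [← sq]
      exact hh.trans (Nat.mul_le_mul_left _ (Nat.sub_le _ _))
    exact Nat.le_of_mul_le_mul_right h1 (by omega)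

/-- The product family. -/
theorem spM_prod {m r h : Fin n → ℕ} (i₀ : Fin n) (hr : ∀ i, 1 ≤ r i ∧ r i ≤ m i)
    (I : Finset (Fin n)) :
    i₀ ∉ I → (∀ a ∈ I, h a * r a = m a ∨ m a ^ 2 ≤ h a * r a * (m a - r a)) →
    SpM (fun i => if i = i₀ then ∏ a ∈ I, (h a * r a) else m i)
      (fun i => if i = i₀ then ∏ a ∈ I, m a else if i ∈ I then r i else m i)
      (∏ a ∈ I, h a) := by
  classical
  induction I using Finset.induction_on with
  | empty =>
    intro _ _
    refine ⟨fun _ _ => ⊤, fun j i => ?_, fun φ hφ => ?_⟩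
    · rw [finrank_top, finrank_pi, Fintype.card_fin]
      beta_reduce
      by_cases hi : i = i₀
      · rw [if_pos hi, if_pos hi, Finset.prod_empty, Finset.prod_empty]
      · rw [if_neg hi, if_neg hi, if_neg (Finset.notMem_empty i)]
    · refine MultilinearMap.ext fun v => ?_
      have := hφ ⟨0, by rw [Finset.prod_empty]; exact one_pos⟩ v fun i => Submodule.mem_top
      exact this
  | insert a I haI ih =>
    intro hi₀ hcond
    have hne : a ≠ i₀ := fun h => hi₀ (h ▸ Finset.mem_insert_self a I)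
    have hi₀' : i₀ ∉ I := fun h => hi₀ (Finset.mem_insert_of_mem h)
    have ih' := ih hi₀' fun b hb => hcond b (Finset.mem_insert_of_mem hb)
    have hb := sp_tight (hr a).1 (hr a).2 (hcond a (Finset.mem_insert_self a I))
    have e0 : ∏ b ∈ insert a I, h b = (∏ b ∈ I, h b) * h a := by
      rw [Finset.prod_insert haI, mul_comm]
    rw [e0]
    refine spM_comp (h := h a) (w := h a * r a) (γ := m a) hne ih' ?_ ?_ ?_ ?_ ?_
    · rw [if_neg hne, if_neg hne, if_pos (Finset.mem_insert_self a I)]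
      exact hb
    · intro i hi
      beta_reduce
      rw [if_neg hi, if_neg hi]
    · beta_reduce
      rw [if_pos rfl, if_pos rfl, Finset.prod_insert haI]
    · intro i hi hia
      beta_reduce
      rw [if_neg hi, if_neg hi]
      by_cases h3 : i ∈ I
      · rw [if_pos h3, if_pos (Finset.mem_insert_of_mem h3)]
      · rw [if_neg h3, if_neg]
        intro h4
        rcases Finset.mem_insert.1 h4 with h5 | h5
        · exact hia h5
        · exact h3 h5
    · beta_reduce
      rw [if_pos rfl, if_pos rfl, Finset.prod_insert haI]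

/-- Families without waste for every number of boxes from a certain number on. -/
theorem spM_exact {m r h : Fin n → ℕ} (i₀ : Fin n) (hr : ∀ i, 1 ≤ r i ∧ r i ≤ m i)
    (hcond : ∀ a, a ≠ i₀ → h a * r a = m a ∨ m a ^ 2 ≤ h a * r a * (m a - r a)) {s : ℕ}
    (hs : ∏ a ∈ Finset.univ.erase i₀, h a ≤ s) :
    SpM (fun i => if i = i₀ then s * ∏ a ∈ Finset.univ.erase i₀, (h a * r a) else m i)
      (fun i => if i = i₀ then (∏ a ∈ Finset.univ.erase i₀, h a) *
        ∏ a ∈ Finset.univ.erase i₀, m a else r i) s := by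
  classical
  have h1 := spM_prod i₀ hr (Finset.univ.erase i₀) (Finset.notMem_erase i₀ _)
    fun a ha => hcond a (Finset.ne_of_mem_erase ha)
  refine spM_more (fun i => ?_) i₀ h1 hs (fun i hi => ?_) ?_ (fun i hi => ?_) ?_ <;> beta_reduce
  · by_cases hi : i = i₀
    · rw [if_pos hi, if_pos hi]
      exact Finset.prod_le_prod' fun a ha =>
        le_of_cond (hr a).1 (hr a).2 (hcond a (Finset.ne_of_mem_erase ha))
    · rw [if_neg hi, if_neg hi, if_pos (Finset.mem_erase.2 ⟨hi, Finset.mem_univ i⟩)]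
      exact (hr i).2
  · rw [if_neg hi, if_neg hi]
  · rw [if_pos rfl, if_pos rfl]
  · rw [if_neg hi, if_neg hi, if_pos (Finset.mem_erase.2 ⟨hi, Finset.mem_univ i⟩)]
  · rw [if_pos rfl, if_pos rfl]

/-- Large multiples of a format. -/
theorem spansT_scaled {m r h : Fin n → ℕ} (i₀ : Fin n) (hr : ∀ i, 1 ≤ r i ∧ r i ≤ m i)
    (hcond : ∀ a, a ≠ i₀ → h a * r a = m a ∨ m a ^ 2 ≤ h a * r a * (m a - r a)) {s : ℕ}
    (hs : ∏ a ∈ Finset.univ.erase i₀, h a ≤ s) (hM : ∏ i, m i ≤ s * ∏ i, r i) {N : ℕ}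
    (hN : (∏ a ∈ Finset.univ.erase i₀, h a * m a) ∣ N ∨
      s * ∏ a ∈ Finset.univ.erase i₀, h a * (m a * r a) + N * ∏ i, m i ≤
        N * (s * ∏ i, r i)) :
    SpansT (fun i => N * m i) (fun i => N * r i) s := by
  classical
  have h0 := spM_exact i₀ hr hcond hs
  set H := ∏ a ∈ Finset.univ.erase i₀, h a with hH
  set Mi := ∏ a ∈ Finset.univ.erase i₀, m a with hMi
  set Ri := ∏ a ∈ Finset.univ.erase i₀, r a with hRi
  have eM : ∏ i, m i = m i₀ * Mi := (Finset.mul_prod_erase _ _ (Finset.mem_univ i₀)).symm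
  have eR : ∏ i, r i = r i₀ * Ri := (Finset.mul_prod_erase _ _ (Finset.mem_univ i₀)).symm
  have e1 : ∏ a ∈ Finset.univ.erase i₀, h a * m a = H * Mi := Finset.prod_mul_distrib
  have e2 : ∏ a ∈ Finset.univ.erase i₀, h a * (m a * r a) = H * (Mi * Ri) := by
    rw [Finset.prod_mul_distrib, Finset.prod_mul_distrib]
  have e3 : ∏ a ∈ Finset.univ.erase i₀, h a * r a = H * Ri := Finset.prod_mul_distrib
  rw [eM, eR] at hM hN
  rw [e1, e2] at hN
  rw [e3] at h0
  have hMi0 : 0 < Mi := Finset.prod_pos fun i _ => by have := hr i; omega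
  have hH0 : 0 < H := Finset.prod_pos fun a ha => by
    have h2 := le_of_cond (hr a).1 (hr a).2 (hcond a (Finset.ne_of_mem_erase ha))
    have h3 := hr a
    rcases Nat.eq_zero_or_pos (h a) with h4 | h4
    · rw [h4, zero_mul] at h2
      omega
    · exact h4
  have hK0 : 0 < H * Mi := Nat.mul_pos hH0 hMi0
  -- the multiplier of the factor `i₀`
  obtain ⟨t, ht1, ht2⟩ : ∃ t, t * (H * Mi) ≤ N * r i₀ ∧ N * m i₀ ≤ t * (s * (H * Ri)) := by
    rcases hN with ⟨e, rfl⟩ | hN
    · refine ⟨e * r i₀, le_of_eq (by ring), ?_⟩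
      calc H * Mi * e * m i₀ = H * e * (m i₀ * Mi) := by ring
        _ ≤ H * e * (s * (r i₀ * Ri)) := Nat.mul_le_mul_left _ hM
        _ = _ := by ring
    · refine ⟨N * r i₀ / (H * Mi), Nat.div_mul_le_self _ _, ?_⟩
      set t := N * r i₀ / (H * Mi) with htdef
      have h2 : N * r i₀ < (t + 1) * (H * Mi) := by
        rw [mul_comm (t + 1)]
        exact Nat.lt_mul_div_succ _ hK0
      refine Nat.le_of_mul_le_mul_right (c := H * Mi) ?_ hK0
      have h3 : H * (s * (H * (Mi * Ri)) + N * (m i₀ * Mi)) ≤ H * (N * (s * (r i₀ * Ri))) :=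
        Nat.mul_le_mul_left _ hN
      have h4 : H * (s * Ri) * (N * r i₀) ≤ H * (s * Ri) * ((t + 1) * (H * Mi)) :=
        Nat.mul_le_mul_left _ h2.le
      have h5 : H * (s * (H * (Mi * Ri)) + N * (m i₀ * Mi)) =
          H * (s * Ri) * (H * Mi) + N * m i₀ * (H * Mi) := by ring
      have h6 : H * (N * (s * (r i₀ * Ri))) = H * (s * Ri) * (N * r i₀) := by ring
      have h7 : H * (s * Ri) * ((t + 1) * (H * Mi)) =
          H * (s * Ri) * (H * Mi) + t * (s * (H * Ri)) * (H * Mi) := by ring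
      omega
  refine spansT_of_spM (fun i => Nat.mul_le_mul_left _ (hr i).2) ?_
  refine spM_blow (fun i => if i = i₀ then t else N) h0 (fun i => ?_) (fun i => ?_) <;>
    beta_reduce
  · by_cases hi : i = i₀
    · rw [if_pos hi, if_pos hi, hi]
      exact ht2
    · rw [if_neg hi, if_neg hi]
  · by_cases hi : i = i₀
    · rw [if_pos hi, if_pos hi, hi]
      exact ht1
    · rw [if_neg hi, if_neg hi]

end Pool.Agent.SubTwo
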