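import Pool.Agent.SubTyp.Codim1
import Pool.Agent.SubTwo.Flat

/-!
# Symmetric box numbers: an upper bound

If `k ^ n + n t ≤ s` and `⌈m / k⌉ (s - t) ≤ r s` then `Sⁿ ℝ^m` is the sum of `s` subspaces `SⁿA`,
`dim A = r`.
-/

open Module

namespace Pool.Agent.SubTwo

open Pool.Agent.SubTyp

section Vander

open Polynomial

theorem signVariations_lt_card (P : ℝ[X]) (hP : P ≠ 0) : P.signVariations < P.support.card := by
  induction h : P.support.card using Nat.strong_induction_on generalizing P with
  | _ N ih =>
    subst h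
    by_cases h0 : P.eraseLead = 0
    · have h1 : P.signVariations ≤ P.eraseLead.signVariations + 1 :=
        signVariations_le_eraseLead_succ P
      have h2 : 0 < P.support.card := by
        rw [Nat.pos_iff_ne_zero, Ne, card_support_eq_zero]
        exact hP
      have h3 : P = monomial P.natDegree P.leadingCoeff := by
        have := eraseLead_add_monomial_natDegree_leadingCoeff P
        rw [h0, zero_add] at this
        exact this.symm
      rw [h3, signVariations_monomial, ← h3]
      exact h2
    · have h1 : P.eraseLead.support.card < P.support.card := eraseLead_support_card_lt hP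
      have h2 := ih _ h1 P.eraseLead h0 rfl
      have h3 := signVariations_le_eraseLead_succ P
      omega

theorem gen_vander {J : Finset ℕ} {X : Finset ℝ} (hX : ∀ x ∈ X, 0 < x) (hJX : J.card ≤ X.card)
    {c : ℕ → ℝ} (h : ∀ x ∈ X, ∑ j ∈ J, c j * x ^ j = 0) : ∀ j ∈ J, c j = 0 := by
  classical
  let P : ℝ[X] := ∑ j ∈ J, monomial j (c j)
  have hcoef : ∀ j ∈ J, P.coeff j = c j := by
    intro j hj
    have h1 : P.coeff j = ∑ i ∈ J, (monomial i (c i)).coeff j := by
      rw [finsetSum_coeff]
    rw [h1]
    simp only [coeff_monomial]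
    rw [Finset.sum_ite_eq']
    rw [if_pos hj]
  by_cases hP : P = 0
  · intro j hj
    rw [← hcoef j hj, hP, coeff_zero]
  · exfalso
    have hsupp : P.support ⊆ J := by
      intro j hj
      by_contra hj'
      rw [Polynomial.mem_support_iff] at hj
      apply hj
      have h1 : P.coeff j = ∑ i ∈ J, (monomial i (c i)).coeff j := by
        rw [finsetSum_coeff]
      rw [h1]
      refine Finset.sum_eq_zero fun i hi => ?_
      rw [coeff_monomial, if_neg]
      rintro rfl
      exact hj' hi
    have heval : ∀ x ∈ X, P.IsRoot x := by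
      intro x hx
      have h1 : P.eval x = ∑ j ∈ J, c j * x ^ j := by
        rw [eval_finsetSum]
        simp only [eval_monomial]
      rw [IsRoot, h1]
      exact h x hx
    have h1 : X.val ≤ P.roots.filter (0 < ·) := by
      rw [Multiset.le_iff_subset X.nodup]
      intro x hx
      rw [Multiset.mem_filter, mem_roots hP]
      exact ⟨heval x hx, hX x hx⟩
    have h2 := Multiset.card_le_card h1
    rw [← Multiset.countP_eq_card_filter] at h2
    have h3 := roots_countP_pos_le_signVariations P
    have h4 := signVariations_lt_card P hP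
    have h5 := Finset.card_le_card hsupp
    have h6 : Multiset.card X.val = X.card := rfl
    omega

/-- interpolation by polynomials with prescribed exponents -/
theorem exists_interp {J : Finset ℕ} {X : Finset ℝ} (hX : ∀ x ∈ X, 0 < x) (hJX : X.card ≤ J.card)
    (g : ℝ → ℝ) : ∃ c : ℕ → ℝ, ∀ x ∈ X, ∑ j ∈ J, c j * x ^ j = g x := by
  classical
  obtain ⟨J', hJ', hcard⟩ := Finset.exists_subset_card_eq hJX
  let L : (J' → ℝ) →ₗ[ℝ] (X → ℝ) :=
    { toFun := fun c x => ∑ j, c j * (x : ℝ) ^ (j : ℕ)
      map_add' := fun a b => by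
        funext x
        simp only [Pi.add_apply, add_mul, Finset.sum_add_distrib]
      map_smul' := fun a b => by
        funext x
        simp only [Pi.smul_apply, smul_eq_mul, RingHom.id_apply, Finset.mul_sum, mul_assoc] }
  have hinj : Function.Injective L := by
    rw [← LinearMap.ker_eq_bot, LinearMap.ker_eq_bot']
    intro c hc
    let c' : ℕ → ℝ := fun j => if h : j ∈ J' then c ⟨j, h⟩ else 0
    have h1 : ∀ x ∈ X, ∑ j ∈ J', c' j * x ^ j = 0 := by
      intro x hx
      have h2 : ∑ j, c j * x ^ (j : ℕ) = 0 := congrFun hc ⟨x, hx⟩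
      rw [← Finset.sum_coe_sort]
      rw [← h2]
      refine Finset.sum_congr rfl fun j _ => ?_
      have : c' j = c j := dif_pos j.2
      rw [this]
    have h2 := gen_vander hX (by omega) h1
    funext j
    have h3 := h2 j j.2
    have : c' j = c j := dif_pos j.2
    rw [← this, h3]
    rfl
  have hsurj : Function.Surjective L := by
    refine (LinearMap.injective_iff_surjective_of_finrank_eq_finrank ?_).1 hinj
    rw [finrank_pi, finrank_pi, Fintype.card_coe, Fintype.card_coe, hcard]
  obtain ⟨c, hc⟩ := hsurj fun x => g x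
  refine ⟨fun j => if h : j ∈ J' then c ⟨j, h⟩ else 0, fun x hx => ?_⟩
  have h1 : ∑ j, c j * x ^ (j : ℕ) = g x := congrFun hc ⟨x, hx⟩
  rw [← h1, ← Finset.sum_subset hJ' fun j _ hj => ?_]
  · rw [← Finset.sum_coe_sort]
    refine Finset.sum_congr rfl fun j _ => ?_
    beta_reduce
    rw [dif_pos j.2]
  · beta_reduce
    rw [dif_neg hj, zero_mul]

end Vander

section Up

variable {n m : ℕ}

/-- distinct primes -/
noncomputable def zp (u : ℕ) : ℕ := Nat.nth Nat.Prime u

theorem zp_prime (u : ℕ) : (zp u).Prime := Nat.prime_nth_prime u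

theorem zp_inj : Function.Injective zp := Nat.nth_injective Nat.infinite_setOfPred_prime

/-- the nodes -/
noncomputable def node (t : Fin n → Fin m) : ℕ := ∏ i, zp (t i)

theorem node_pos (t : Fin n → Fin m) : 0 < node t := Finset.prod_pos fun i _ => (zp_prime _).pos

theorem node_comp (t : Fin n → Fin m) (σ : Equiv.Perm (Fin n)) : node (t ∘ σ) = node t :=
  Equiv.prod_comp σ fun i => zp (t i)

theorem node_inj {t t' : Fin n → Fin m} (h : node t = node t') : expo t = expo t' := by
  classical
  have key : ∀ t : Fin n → Fin m, ∀ u : Fin m, (node t).factorization (zp u) = expo t u := by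
    intro t u
    rw [node, Nat.factorization_prod fun i _ => (zp_prime _).ne_zero, Finsupp.finsetSum_apply,
      expo_apply, Fintype.card_subtype, Finset.card_filter]
    refine Finset.sum_congr rfl fun i _ => ?_
    rw [(zp_prime _).factorization, Finsupp.single_apply]
    by_cases h1 : t i = u
    · rw [if_pos h1, h1, if_pos rfl]
    · rw [if_neg h1, if_neg]
      intro h2
      exact h1 (Fin.ext (zp_inj h2))
  ext u
  rw [← key, ← key, h]

theorem apply_eq_of_node {T : Ten (fun _ : Fin n => m)} (hT : T ∈ SymT n m) {t t' : Fin n → Fin m}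
    (h : node t = node t') : T t = T t' := by
  obtain ⟨σ, hσ⟩ := exists_perm_of_expo_eq (node_inj h)
  rw [← hσ]
  exact hT σ t'

theorem sym_span {k M s r : ℕ} (block : Fin m → Fin M)
    (hfib : ∀ b, (Finset.univ.filter fun t => block t = b).card ≤ k)
    (act : Fin s → Fin M → Prop) [∀ j b, Decidable (act j b)]
    (hact : ∀ j, (Finset.univ.filter fun b => act j b).card ≤ r) (hr : r ≤ m)
    (hJ : ∀ b : Fin n → Fin M, k ^ n ≤ (Finset.univ.filter fun j => ∀ i, act j (b i)).card) :
    ∃ A : Fin s → Gr m r, ⨆ j, symK n m r (A j) = ⊤ := by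
  classical
  -- the subspaces
  let w : Fin s → Fin M → Fin m → ℝ := fun j b t => if block t = b then (zp t : ℝ) ^ (j : ℕ) else 0
  have hA : ∀ j, ∃ A : Gr m r, ∀ b, act j b → w j b ∈ A.1 := by
    intro j
    obtain ⟨B, h2, h3⟩ := enlarge (a := r) (V := Fin m → ℝ)
      (by rw [finrank_pi, Fintype.card_fin]; exact hr)
      (Submodule.span ℝ ((w j) '' {b | act j b}))
      (by
        have h1 : ((w j) '' {b | act j b}) =
            (((Finset.univ.filter fun b => act j b).image (w j) : Finset _) : Set _) := by
          rw [Finset.coe_image, Finset.coe_filter]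
          simp
        rw [h1]
        exact (finrank_span_finset_le_card _).trans (Finset.card_image_le.trans (hact j)))
    exact ⟨⟨B, h3⟩, fun b hb => h2 (Submodule.subset_span ⟨b, hb, rfl⟩)⟩
  choose A hA using hA
  refine ⟨A, eq_top_iff.2 fun T _ => ?_⟩
  obtain ⟨T, hT⟩ := T
  -- the sets of exponents and nodes
  let J : (Fin M →₀ ℕ) → Finset ℕ := fun β =>
    Finset.image (Fin.val : Fin s → ℕ)
      (Finset.univ.filter fun j : Fin s => ∀ b, β b ≠ 0 → act j b)
  let X : (Fin M →₀ ℕ) → Finset ℝ := fun β =>
    (Finset.univ.filter fun t : Fin n → Fin m => expo (block ∘ t) = β).image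
      fun t => (node t : ℝ)
  have hXpos : ∀ β, ∀ x ∈ X β, 0 < x := by
    intro β x hx
    obtain ⟨t, -, rfl⟩ := Finset.mem_image.1 hx
    exact_mod_cast node_pos t
  have hcard : ∀ β, (X β).card ≤ (J β).card := by
    intro β
    by_cases hβ : ∃ t₀ : Fin n → Fin m, expo (block ∘ t₀) = β
    · obtain ⟨t₀, rfl⟩ := hβ
      have h1 : X (expo (block ∘ t₀)) ⊆
          (Fintype.piFinset fun i => Finset.univ.filter fun u => block u = block (t₀ i)).image
            fun t => (node t : ℝ) := by
        intro x hx
        obtain ⟨t, ht, rfl⟩ := Finset.mem_image.1 hx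
        have h2 := (Finset.mem_filter.1 ht).2
        obtain ⟨σ, hσ⟩ := exists_perm_of_expo_eq h2.symm
        refine Finset.mem_image.2 ⟨t ∘ σ, ?_, by rw [node_comp]⟩
        rw [Fintype.mem_piFinset]
        intro i
        rw [Finset.mem_filter]
        exact ⟨Finset.mem_univ _, congrFun hσ i⟩
      have h2 : (X (expo (block ∘ t₀))).card ≤ k ^ n := by
        refine (Finset.card_le_card h1).trans (Finset.card_image_le.trans ?_)
        rw [Fintype.card_piFinset]
        calc _ ≤ ∏ _i : Fin n, k := Finset.prod_le_prod' fun i _ => hfib _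
          _ = k ^ n := by rw [Finset.prod_const, Finset.card_univ, Fintype.card_fin]
      refine h2.trans ((hJ (block ∘ t₀)).trans ?_)
      rw [Finset.card_image_of_injective _ Fin.val_injective]
      refine Finset.card_le_card fun j hj => ?_
      rw [Finset.mem_filter] at hj ⊢
      refine ⟨Finset.mem_univ _, fun b hb => ?_⟩
      rw [expo_apply] at hb
      obtain ⟨⟨i, hi⟩⟩ := Fintype.card_pos_iff.1 (Nat.pos_of_ne_zero hb)
      rw [← hi]
      exact hj.2 i
    · have h1 : X β = ∅ := by
        refine Finset.image_eq_empty.2 (Finset.filter_eq_empty_iff.2 fun t _ h2 => ?_)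
        exact hβ ⟨t, h2⟩
      rw [h1, Finset.card_empty]
      exact Nat.zero_le _
  let g : ℝ → ℝ := fun x => if h : ∃ t : Fin n → Fin m, (node t : ℝ) = x then T h.choose else 0
  have hg : ∀ t : Fin n → Fin m, g (node t) = T t := by
    intro t
    have h : ∃ t' : Fin n → Fin m, (node t' : ℝ) = node t := ⟨t, rfl⟩
    have h1 : g (node t) = T h.choose := dif_pos h
    rw [h1]
    refine apply_eq_of_node hT ?_
    exact_mod_cast h.choose_spec
  choose c hc using fun β => exists_interp (hXpos β) (hcard β) g
  let C : Fin s → (Fin M →₀ ℕ) → ℝ := fun j β => if (j : ℕ) ∈ J β then c β j else 0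
  let U : Fin s → Ten (fun _ : Fin n => m) := fun j t =>
    C j (expo (block ∘ t)) * (node t : ℝ) ^ (j : ℕ)
  have hUsym : ∀ j, U j ∈ SymT n m := by
    intro j σ t
    change C j (expo (block ∘ (t ∘ σ))) * (node (t ∘ σ) : ℝ) ^ (j : ℕ) = _
    rw [node_comp, ← Function.comp_assoc, expo_comp]
  have hUbox : ∀ j, U j ∈ boxT fun _ : Fin n => (A j).1 := by
    intro j
    have h1 : U j = ∑ b : Fin n → Fin M, C j (expo b) • pureT (m := fun _ : Fin n => m)
        fun i => w j (b i) := by
      funext t
      rw [Finset.sum_apply, Finset.sum_eq_single (block ∘ t)]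
      · change C j (expo (block ∘ t)) * (node t : ℝ) ^ (j : ℕ) =
          C j (expo (block ∘ t)) * ∏ i, (if block (t i) = block (t i) then
            (zp (t i) : ℝ) ^ (j : ℕ) else 0)
        congr 1
        rw [node, Nat.cast_prod, ← Finset.prod_pow]
        refine Finset.prod_congr rfl fun i _ => ?_
        rw [if_pos rfl]
      · intro b _ hb
        have h2 : ∃ i, block (t i) ≠ b i := by
          by_contra hcon
          push Not at hcon
          exact hb (funext fun i => (hcon i).symm)
        obtain ⟨i, hi⟩ := h2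
        change C j (expo b) * ∏ i, (if block (t i) = b i then
            (zp (t i) : ℝ) ^ (j : ℕ) else 0) = 0
        rw [Finset.prod_eq_zero (Finset.mem_univ i) (if_neg hi), mul_zero]
      · intro h2
        exact absurd (Finset.mem_univ _) h2
    rw [h1]
    refine Submodule.sum_mem _ fun b _ => ?_
    by_cases h2 : (j : ℕ) ∈ J (expo b)
    · refine Submodule.smul_mem _ _ (Submodule.subset_span ⟨_, fun i => hA j (b i) ?_, rfl⟩)
      obtain ⟨j', hj', hjj⟩ := Finset.mem_image.1 h2
      obtain rfl : j' = j := Fin.ext hjj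
      refine (Finset.mem_filter.1 hj').2 (b i) ?_
      rw [expo_apply]
      exact (Fintype.card_pos_iff.2 ⟨⟨i, rfl⟩⟩).ne'
    · have h3 : C j (expo b) = 0 := if_neg h2
      rw [h3, zero_smul]
      exact Submodule.zero_mem _
  have hsum : (⟨T, hT⟩ : SymT n m) = ∑ j, (⟨U j, hUsym j⟩ : SymT n m) := by
    refine Subtype.ext ?_
    rw [AddSubmonoidClass.coe_finsetSum]
    funext t
    rw [Finset.sum_apply]
    change T t = ∑ j, C j (expo (block ∘ t)) * (node t : ℝ) ^ (j : ℕ)
    rw [← hg t, ← hc (expo (block ∘ t)) (node t) (Finset.mem_image.2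
      ⟨t, Finset.mem_filter.2 ⟨Finset.mem_univ _, rfl⟩, rfl⟩),
      Finset.sum_image fun _ _ _ _ h => Fin.ext h, Finset.sum_filter]
    refine Finset.sum_congr rfl fun j _ => ?_
    by_cases h1 : (j : ℕ) ∈ J (expo (block ∘ t))
    · have h2 : C j (expo (block ∘ t)) = c (expo (block ∘ t)) j := if_pos h1
      obtain ⟨j', hj', hjj⟩ := Finset.mem_image.1 h1
      obtain rfl : j' = j := Fin.ext hjj
      rw [h2, if_pos (Finset.mem_filter.1 hj').2]
    · have h2 : C j (expo (block ∘ t)) = 0 := if_neg h1
      rw [h2, zero_mul, if_neg]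
      intro h3
      exact h1 (Finset.mem_image.2 ⟨j, Finset.mem_filter.2 ⟨Finset.mem_univ _, h3⟩, rfl⟩)
  rw [hsum]
  exact Submodule.sum_mem _ fun j _ => Submodule.mem_iSup_of_mem j (hUbox j)

/-- the cyclic design -/
theorem sym_span_design {k s t r : ℕ} (hk : 1 ≤ k) (hr : r ≤ m) (hs : k ^ n + n * t ≤ s)
    (hts : t ≤ s) (h : (m + k - 1) / k * (s - t) ≤ r * s) :
    ∃ A : Fin s → Gr m r, ⨆ j, symK n m r (A j) = ⊤ := by
  classical
  have hs0 : 0 < s := lt_of_lt_of_le (Nat.pow_pos hk) (le_trans (Nat.le_add_right _ _) hs)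
  set M := (m + k - 1) / k with hM
  have hmM : m ≤ k * M := by
    have h1 := Nat.div_add_mod (m + k - 1) k
    have h2 := Nat.mod_lt (m + k - 1) hk
    rw [← hM] at h1
    omega
  have hblock : ∀ u : Fin m, (u : ℕ) / k < M := by
    intro u
    rw [Nat.div_lt_iff_lt_mul hk, mul_comm]
    exact lt_of_lt_of_le u.2 hmM
  refine sym_span (k := k) (M := M) (fun u => ⟨(u : ℕ) / k, hblock u⟩) (fun b => ?_)
    (fun j b => ¬ ∃ i, i < t ∧ ((b : ℕ) * t + i) % s = j) (fun j => ?_) hr (fun b => ?_)
  · -- the fibres
    have h1 : ((Finset.univ.filter fun u : Fin m => (⟨(u : ℕ) / k, hblock u⟩ : Fin M) = b).image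
        fun u : Fin m => (u : ℕ)) ⊆ Finset.Ico ((b : ℕ) * k) ((b : ℕ) * k + k) := by
      intro x hx
      obtain ⟨u, hu, rfl⟩ := Finset.mem_image.1 hx
      have h2 : (u : ℕ) / k = b := congrArg Fin.val (Finset.mem_filter.1 hu).2
      rw [Finset.mem_Ico, ← h2]
      have h3 := Nat.div_add_mod' (u : ℕ) k
      have h4 := Nat.mod_lt (u : ℕ) hk
      omega
    have h2 := Finset.card_le_card h1
    rw [Finset.card_image_of_injective _ Fin.val_injective, Nat.card_Ico] at h2
    omega
  · -- the number of active blocks
    set q := M * t / s with hq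
    have hcard : q ≤ (Finset.univ.filter fun b : Fin M =>
        ∃ i, i < t ∧ ((b : ℕ) * t + i) % s = j).card := by
      rcases Nat.eq_zero_or_pos t with ht | ht
      · rw [hq, ht, mul_zero, Nat.zero_div]
        exact Nat.zero_le _
      have hlt : ∀ e : Fin q, ((j : ℕ) + s * e) / t < M := by
        intro e
        rw [Nat.div_lt_iff_lt_mul ht]
        have h1 : s * q ≤ M * t := Nat.mul_div_le _ _
        have h2 : s * (e : ℕ) + s ≤ s * q := by
          rw [← Nat.mul_succ]
          exact Nat.mul_le_mul_left _ e.2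
        have h3 := j.2
        omega
      have hmono : ∀ e e' : ℕ, e < e' → ((j : ℕ) + s * e) / t < ((j : ℕ) + s * e') / t := by
        intro e e' he
        have h1 : s * e + s ≤ s * e' := by
          rw [← Nat.mul_succ]
          exact Nat.mul_le_mul_left _ he
        have h2 : ((j : ℕ) + s * e + t) / t ≤ ((j : ℕ) + s * e') / t :=
          Nat.div_le_div_right (by omega)
        rw [Nat.add_div_right _ ht] at h2
        exact h2
      have hinj : Function.Injective fun e : Fin q => (⟨((j : ℕ) + s * e) / t, hlt e⟩ : Fin M) := by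
        intro e e' h1
        have h2 : ((j : ℕ) + s * e) / t = ((j : ℕ) + s * e') / t := congrArg Fin.val h1
        refine Fin.ext ?_
        rcases Nat.lt_trichotomy (e : ℕ) (e' : ℕ) with h3 | h3 | h3
        · exact absurd h2 (hmono _ _ h3).ne
        · exact h3
        · exact absurd h2.symm (hmono _ _ h3).ne
      calc q = (Finset.univ : Finset (Fin q)).card := by rw [Finset.card_univ, Fintype.card_fin]
        _ = (Finset.univ.image fun e : Fin q =>
              (⟨((j : ℕ) + s * e) / t, hlt e⟩ : Fin M)).card :=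
            (Finset.card_image_of_injective _ hinj).symm
        _ ≤ _ := by
            refine Finset.card_le_card fun b hb => ?_
            obtain ⟨e, -, rfl⟩ := Finset.mem_image.1 hb
            refine Finset.mem_filter.2 ⟨Finset.mem_univ _, ((j : ℕ) + s * e) % t,
              Nat.mod_lt _ ht, ?_⟩
            change (((j : ℕ) + s * e) / t * t + ((j : ℕ) + s * e) % t) % s = j
            rw [Nat.div_add_mod', Nat.add_mul_mod_self_left]
            exact Nat.mod_eq_of_lt j.2
    have h1 := Finset.card_filter_add_card_filter_not (s := (Finset.univ : Finset (Fin M)))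
      (fun b : Fin M => ∃ i, i < t ∧ ((b : ℕ) * t + i) % s = j)
    rw [Finset.card_univ, Fintype.card_fin] at h1
    have h2 : M ≤ r + q := by
      by_contra hcon
      push Not at hcon
      have h3 : M - r ≤ q := by
        rw [hq, Nat.le_div_iff_mul_le hs0]
        have h4 : M * s ≤ r * s + M * t := by
          have h5 : M * s = M * (s - t) + M * t := by
            rw [← Nat.mul_add, Nat.sub_add_cancel hts]
          omega
        rw [Nat.sub_mul]
        omega
      omega
    omega
  · -- the intersections
    have h1 := Finset.card_filter_add_card_filter_not (s := (Finset.univ : Finset (Fin s)))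
      (fun j : Fin s => ∀ i, ¬ ∃ i', i' < t ∧ ((b i : ℕ) * t + i') % s = j)
    rw [Finset.card_univ, Fintype.card_fin] at h1
    have h2 : (Finset.univ.filter fun j : Fin s =>
        ¬ ∀ i, ¬ ∃ i', i' < t ∧ ((b i : ℕ) * t + i') % s = j).card ≤ n * t := by
      calc _ ≤ ((Finset.univ : Finset (Fin n × Fin t)).image fun p =>
            (⟨((b p.1 : ℕ) * t + p.2) % s, Nat.mod_lt _ hs0⟩ : Fin s)).card := by
            refine Finset.card_le_card fun j hj => ?_
            have h3 := (Finset.mem_filter.1 hj).2
            push Not at h3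
            obtain ⟨i, i', hi', h4⟩ := h3
            exact Finset.mem_image.2 ⟨(i, ⟨i', hi'⟩), Finset.mem_univ _, Fin.ext h4⟩
        _ ≤ _ := Finset.card_image_le
        _ = n * t := by
            rw [Finset.card_univ, Fintype.card_prod, Fintype.card_fin, Fintype.card_fin]
    omega

end Up

end Pool.Agent.SubTwo
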