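import Pool.Agent.SubTwo.Ext
import Pool.Agent.SubTwo.Form
import Pool.Agent.SubTwo.SymUp

/-!
# Spanning by boxes `A ⊗ ⋯ ⊗ A`

If `s` boxes of format `(D, …, D)` span `ℝ^K ⊗ ⋯ ⊗ ℝ^K` (`n` factors) then for all `M ≥ n` and
`m ≤ M K`, `M D + (n - 1) K ≤ r ≤ m` there are `s` subspaces `A` of `ℝ^m` of dimension `r` such that
the `A ⊗ ⋯ ⊗ A` span `ℝ^m ⊗ ⋯ ⊗ ℝ^m`, hence the `Sⁿ A` span `Sⁿ ℝ^m`.
-/

open Module Submodule Set

namespace Pool.Agent.SubTwo

open Pool.Agent.SubTyp

section Patterns

variable {n K D s : ℕ}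

theorem exists_patterns_aux (hD : D ≤ K) (hS : SpansT (fun _ : Fin n => K) (fun _ => D) s) (M : ℕ)
    (F : Finset (Fin n → Fin M)) (hF : ∀ a ∈ F, Function.Injective a) :
    ∃ W : Fin s → Fin M → Submodule ℝ (Fin K → ℝ), (∀ j a, finrank ℝ (W j a) = D) ∧
      ∀ a ∈ F, ⨆ j, boxT (m := fun _ : Fin n => K) (fun i => W j (a i)) = ⊤ := by
  classical
  obtain ⟨A0⟩ := exists_gr hD
  induction F using Finset.induction_on with
  | empty => exact ⟨fun _ _ => A0.1, fun _ _ => A0.2, fun a ha => absurd ha (Finset.notMem_empty a)⟩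
  | insert a₀ F _ ih =>
    obtain ⟨A₁, h₁, hF₁⟩ := ih fun a ha => hF a (Finset.mem_insert_of_mem ha)
    have hinj := hF a₀ (Finset.mem_insert_self _ _)
    obtain ⟨A₂, h₂, hJ₂⟩ : ∃ W : Fin s → Fin M → Submodule ℝ (Fin K → ℝ),
        (∀ j a, finrank ℝ (W j a) = D) ∧
          ⨆ j, boxT (m := fun _ : Fin n => K) (fun i => W j (a₀ i)) = ⊤ := by
      obtain ⟨B, hB, hBtop⟩ := hS
      refine ⟨fun j c => if h : ∃ i, a₀ i = c then B j h.choose else A0.1, fun j c => ?_, ?_⟩
      · beta_reduce
        by_cases h : ∃ i, a₀ i = c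
        · rw [dif_pos h]
          exact hB j _
        · rw [dif_neg h]
          exact A0.2
      · rw [← hBtop]
        refine iSup_congr fun j => ?_
        congr 1
        funext i
        have h : ∃ i', a₀ i' = a₀ i := ⟨i, rfl⟩
        beta_reduce
        rw [dif_pos h]
        exact congrArg (B j) (hinj h.choose_spec)
    have e1 : ∀ j c, ∃ b : Fin D → Fin K → ℝ, LinearIndependent ℝ b ∧
        span ℝ (Set.range b) = A₁ j c := fun j c => exists_span_eq (h₁ j c)
    have e2 : ∀ j c, ∃ b : Fin D → Fin K → ℝ, LinearIndependent ℝ b ∧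
        span ℝ (Set.range b) = A₂ j c := fun j c => exists_span_eq (h₂ j c)
    choose b₁ hb₁ hs₁ using e1
    choose b₂ hb₂ hs₂ using e2
    let L : Fin s → ℝ → Fin M → Submodule ℝ (Fin K → ℝ) := fun j t c =>
      span ℝ (Set.range fun k => fun x => (1 - t) * b₁ j c k x + t * b₂ j c k x)
    have l0 : ∀ j c, L j 0 c = A₁ j c := by
      intro j c
      rw [← hs₁ j c]
      change span ℝ (Set.range fun k => fun x => (1 - 0) * b₁ j c k x + 0 * b₂ j c k x) = _
      congr 1
      congr 1
      funext k x
      ring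
    have l1 : ∀ j c, L j 1 c = A₂ j c := by
      intro j c
      rw [← hs₂ j c]
      change span ℝ (Set.range fun k => fun x => (1 - 1) * b₁ j c k x + 1 * b₂ j c k x) = _
      congr 1
      congr 1
      funext k x
      ring
    have hbad : ∀ (a : Fin n → Fin M) (t₀ : ℝ), {t : ℝ | ¬ finrank ℝ
        (⨆ j : (Finset.univ : Finset (Fin s)), boxT (m := fun _ : Fin n => K)
          (fun i => L j t₀ (a i)) : Submodule ℝ (Ten fun _ : Fin n => K)) ≤
        finrank ℝ (⨆ j : (Finset.univ : Finset (Fin s)), boxT (m := fun _ : Fin n => K)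
          (fun i => L j t (a i)) : Submodule ℝ (Ten fun _ : Fin n => K))}.Finite := by
      intro a t₀
      exact finite_bad_many (n := n) (m := fun _ => K) (r := fun _ => D)
        (fun j i => b₁ j (a i)) (fun j i => b₂ j (a i)) Finset.univ t₀
    have huniv : ∀ (a : Fin n → Fin M) (t : ℝ),
        (⨆ j : (Finset.univ : Finset (Fin s)), boxT (m := fun _ : Fin n => K)
          (fun i => L j t (a i)) : Submodule ℝ (Ten fun _ : Fin n => K)) =
        ⨆ j, boxT (m := fun _ : Fin n => K) (fun i => L j t (a i)) := by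
      intro a t
      exact le_antisymm (iSup_le fun j => le_iSup (fun j => boxT (m := fun _ : Fin n => K)
        (fun i => L j t (a i))) (j : Fin s)) (iSup_le fun j =>
          le_iSup (fun j : (Finset.univ : Finset (Fin s)) => boxT (m := fun _ : Fin n => K)
            (fun i => L j t (a i))) ⟨j, Finset.mem_univ j⟩)
    have hfin : ((⋃ j, ⋃ c, {t : ℝ | ¬ finrank ℝ (L j t c) = D}) ∪
        ((⋃ a ∈ F, {t : ℝ | ¬ finrank ℝ
        (⨆ j : (Finset.univ : Finset (Fin s)), boxT (m := fun _ : Fin n => K)
          (fun i => L j 0 (a i)) : Submodule ℝ (Ten fun _ : Fin n => K)) ≤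
        finrank ℝ (⨆ j : (Finset.univ : Finset (Fin s)), boxT (m := fun _ : Fin n => K)
          (fun i => L j t (a i)) : Submodule ℝ (Ten fun _ : Fin n => K))}) ∪
        {t : ℝ | ¬ finrank ℝ
        (⨆ j : (Finset.univ : Finset (Fin s)), boxT (m := fun _ : Fin n => K)
          (fun i => L j 1 (a₀ i)) : Submodule ℝ (Ten fun _ : Fin n => K)) ≤
        finrank ℝ (⨆ j : (Finset.univ : Finset (Fin s)), boxT (m := fun _ : Fin n => K)
          (fun i => L j t (a₀ i)) : Submodule ℝ (Ten fun _ : Fin n => K))})).Finite := by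
      refine (Set.finite_iUnion fun j => Set.finite_iUnion fun c =>
        finite_bad_dim (n := M) (m := fun _ => K) (r := fun _ => D) (b₁ j) (b₂ j) (hb₁ j) c).union
          (Set.Finite.union ?_ ?_)
      · exact Set.Finite.biUnion F.finite_toSet fun a _ => hbad a 0
      · exact hbad a₀ 1
    obtain ⟨t, ht⟩ := hfin.infinite_compl.nonempty
    rw [Set.mem_compl_iff, Set.mem_union, Set.mem_union] at ht
    obtain ⟨ht1, ht23⟩ := not_or.1 ht
    obtain ⟨ht2, ht3⟩ := not_or.1 ht23
    refine ⟨fun j => L j t, fun j c => ?_, fun a ha => ?_⟩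
    · by_contra h
      exact ht1 (Set.mem_iUnion.2 ⟨j, Set.mem_iUnion.2 ⟨c, h⟩⟩)
    · refine Submodule.eq_top_of_finrank_eq (le_antisymm (Submodule.finrank_le _) ?_)
      rcases Finset.mem_insert.1 ha with rfl | ha
      · by_contra h
        have h7 : (⨆ j, boxT (m := fun _ : Fin n => K) (fun i => L j 1 (a i)) :
            Submodule ℝ (Ten fun _ : Fin n => K)) = ⊤ := by
          rw [← hJ₂]
          exact iSup_congr fun j => congrArg boxT (funext fun i => l1 j (a i))
        refine ht3 fun h4 => h ?_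
        rw [huniv, huniv, h7, finrank_top] at h4
        exact h4
      · by_contra h
        have h7 : (⨆ j, boxT (m := fun _ : Fin n => K) (fun i => L j 0 (a i)) :
            Submodule ℝ (Ten fun _ : Fin n => K)) = ⊤ := by
          rw [← hF₁ a ha]
          exact iSup_congr fun j => congrArg boxT (funext fun i => l0 j (a i))
        refine ht2 (Set.mem_iUnion₂.2 ⟨a, ha, fun h4 => h ?_⟩)
        rw [huniv, huniv, h7, finrank_top] at h4
        exact h4

/-- Generic patterns: all tuples of distinct blocks are spanned. -/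
theorem exists_patterns (hD : D ≤ K) (hS : SpansT (fun _ : Fin n => K) (fun _ => D) s) (M : ℕ) :
    ∃ W : Fin s → Fin M → Submodule ℝ (Fin K → ℝ), (∀ j a, finrank ℝ (W j a) = D) ∧
      ∀ a : Fin n → Fin M, Function.Injective a →
        ⨆ j, boxT (m := fun _ : Fin n => K) (fun i => W j (a i)) = ⊤ := by
  classical
  obtain ⟨W, h1, h2⟩ := exists_patterns_aux hD hS M
    (Finset.univ.filter fun a : Fin n → Fin M => Function.Injective a)
    (fun a ha => (Finset.mem_filter.1 ha).2)
  exact ⟨W, h1, fun a ha => h2 a (Finset.mem_filter.2 ⟨Finset.mem_univ _, ha⟩)⟩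

end Patterns

section Diag

variable {n m K M : ℕ}

/-- the inclusion of the block `a` -/
def blk (block : Fin m → Fin M) (pos : Fin m → Fin K) (a : Fin M) :
    (Fin K → ℝ) →ₗ[ℝ] (Fin m → ℝ) where
  toFun y := fun t => if block t = a then y (pos t) else 0
  map_add' x y := by
    funext t
    simp only [Pi.add_apply]
    split_ifs
    · rfl
    · rw [add_zero]
  map_smul' c x := by
    funext t
    simp only [Pi.smul_apply, RingHom.id_apply, smul_eq_mul]
    split_ifs
    · rfl
    · rw [mul_zero]

theorem blk_apply (block : Fin m → Fin M) (pos : Fin m → Fin K) (a : Fin M) (y : Fin K → ℝ)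
    (t : Fin m) : blk block pos a y t = if block t = a then y (pos t) else 0 := rfl

open Classical in
/-- the coordinates of the block `a` -/
noncomputable def crd (block : Fin m → Fin M) (pos : Fin m → Fin K) (a : Fin M) (u : Fin m → ℝ) :
    Fin K → ℝ := fun c => if h : ∃ t, block t = a ∧ pos t = c then u h.choose else 0

theorem crd_apply {block : Fin m → Fin M} {pos : Fin m → Fin K}
    (hbp : ∀ t t', block t = block t' → pos t = pos t' → t = t') (u : Fin m → ℝ) (t : Fin m) :
    crd block pos (block t) u (pos t) = u t := by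
  have h : ∃ t', block t' = block t ∧ pos t' = pos t := ⟨t, rfl, rfl⟩
  have h1 : crd block pos (block t) u (pos t) = u h.choose := dif_pos h
  rw [h1, hbp _ _ h.choose_spec.1 h.choose_spec.2]

theorem sum_blk {block : Fin m → Fin M} {pos : Fin m → Fin K}
    (hbp : ∀ t t', block t = block t' → pos t = pos t' → t = t') (u : Fin m → ℝ) :
    ∑ b, blk block pos b (crd block pos b u) = u := by
  classical
  funext t
  rw [Finset.sum_apply, Finset.sum_eq_single (block t)]
  · rw [blk_apply, if_pos rfl, crd_apply hbp]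
  · intro b _ hb
    rw [blk_apply, if_neg (Ne.symm hb)]
  · intro h
    exact absurd (Finset.mem_univ _) h

/-- the diagonal copies -/
noncomputable def dgl (N : ℕ) (block : Fin m → Fin M) (pos : Fin m → Fin K) :
    (Fin N → Fin K → ℝ) →ₗ[ℝ] (Fin m → ℝ) where
  toFun v := fun t => ∑ l, v l (pos t) * ((block t : ℕ) + 1 : ℝ) ^ (l : ℕ)
  map_add' x y := by
    funext t
    simp only [Pi.add_apply, add_mul, Finset.sum_add_distrib]
  map_smul' c x := by
    funext t
    simp only [Pi.smul_apply, RingHom.id_apply, smul_eq_mul, Finset.mul_sum, mul_assoc]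

theorem dgl_apply (N : ℕ) (block : Fin m → Fin M) (pos : Fin m → Fin K) (v : Fin N → Fin K → ℝ)
    (t : Fin m) : dgl N block pos v t = ∑ l, v l (pos t) * ((block t : ℕ) + 1 : ℝ) ^ (l : ℕ) := rfl

theorem exists_dgl {N : ℕ} {block : Fin m → Fin M} {pos : Fin m → Fin K}
    (hbp : ∀ t t', block t = block t' → pos t = pos t' → t = t') (u : Fin m → ℝ)
    (B : Finset (Fin M)) (hB : B.card ≤ N) :
    ∃ v : Fin N → Fin K → ℝ, ∀ t, block t ∈ B → dgl N block pos v t = u t := by
  classical
  let x : Fin M → ℝ := fun a => ((a : ℕ) + 1 : ℝ)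
  have hx : Function.Injective x := by
    intro a a' h
    have h1 : ((a : ℕ) : ℝ) = ((a' : ℕ) : ℝ) := by
      have : ((a : ℕ) + 1 : ℝ) = ((a' : ℕ) + 1 : ℝ) := h
      linarith
    exact Fin.ext (Nat.cast_injective h1)
  let g : Fin K → ℝ → ℝ := fun c z => if h : ∃ a, x a = z then crd block pos h.choose u c else 0
  have hg : ∀ c a, g c (x a) = crd block pos a u c := by
    intro c a
    have h : ∃ a', x a' = x a := ⟨a, rfl⟩
    have h1 : g c (x a) = crd block pos h.choose u c := dif_pos h
    rw [h1, hx h.choose_spec]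
  choose cf hcf using fun c => exists_interp (J := Finset.range N) (X := B.image x)
    (fun z hz => by
      obtain ⟨a, -, rfl⟩ := Finset.mem_image.1 hz
      change (0 : ℝ) < ((a : ℕ) : ℝ) + 1
      positivity)
    (by
      rw [Finset.card_range]
      exact Finset.card_image_le.trans hB) (g c)
  refine ⟨fun l c => cf c l, fun t ht => ?_⟩
  rw [dgl_apply]
  have h1 := hcf (pos t) (x (block t)) (Finset.mem_image.2 ⟨_, ht, rfl⟩)
  rw [hg, crd_apply hbp, Finset.sum_range] at h1
  exact h1

/-- A form vanishing on the `(⊕ W_{ja} + Δ)^n` is zero. -/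
theorem diag_zero {s : ℕ} (hK : 1 ≤ K) {W : Fin s → Fin M → Submodule ℝ (Fin K → ℝ)}
    (hW : ∀ a : Fin n → Fin M, Function.Injective a →
      ⨆ j, boxT (m := fun _ : Fin n => K) (fun i => W j (a i)) = ⊤) (hM : n ≤ M)
    {block : Fin m → Fin M} {pos : Fin m → Fin K}
    (hbp : ∀ t t', block t = block t' → pos t = pos t' → t = t')
    (Φ : MultilinearMap ℝ (Vs fun _ : Fin n => m) ℝ)
    (hΦ : ∀ j, VanOn (fun _ : Fin n => (⨆ a, (W j a).map (blk block pos a)) ⊔
      LinearMap.range (dgl (n - 1) block pos)) Φ) : Φ = 0 := by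
  classical
  -- distinct blocks
  have key0 : ∀ (a : Fin n → Fin M), Function.Injective a → ∀ u : Fin n → Fin m → ℝ,
      (∀ i, u i ∈ LinearMap.range (dgl (n - 1) block pos) ∨
        ∃ y, u i = blk block pos (a i) y) → Φ u = 0 := by
    intro a ha u hu
    let lam : (Fin K → ℝ) →ₗ[ℝ] ℝ := LinearMap.proj ⟨0, hK⟩
    let f : Fin n → (Fin K → ℝ) →ₗ[ℝ] (Fin m → ℝ) := fun i =>
      if u i ∈ LinearMap.range (dgl (n - 1) block pos) then lam.smulRight (u i) else
        blk block pos (a i)
    have hf : ∀ i, ∃ y, f i y = u i := by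
      intro i
      by_cases h : u i ∈ LinearMap.range (dgl (n - 1) block pos)
      · refine ⟨fun _ => 1, ?_⟩
        have h1 : f i = lam.smulRight (u i) := if_pos h
        rw [h1, LinearMap.smulRight_apply]
        change (1 : ℝ) • u i = u i
        rw [one_smul]
      · obtain ⟨y, hy⟩ := (hu i).resolve_left h
        have h1 : f i = blk block pos (a i) := if_neg h
        exact ⟨y, by rw [h1, hy]⟩
    choose y hy using hf
    have h0 : Φ.compLinearMap f = 0 := by
      refine (top_iff (m := fun _ : Fin n => K) fun j i => W j (a i)).1 (hW a ha) _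
        fun j v hv => ?_
      rw [MultilinearMap.compLinearMap_apply]
      refine hΦ j _ fun i => ?_
      by_cases h : u i ∈ LinearMap.range (dgl (n - 1) block pos)
      · have h1 : f i = lam.smulRight (u i) := if_pos h
        rw [h1, LinearMap.smulRight_apply]
        exact Submodule.mem_sup_right (Submodule.smul_mem _ _ h)
      · have h1 : f i = blk block pos (a i) := if_neg h
        rw [h1]
        exact Submodule.mem_sup_left (Submodule.mem_iSup_of_mem (a i)
          (Submodule.mem_map_of_mem (hv i)))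
    have h1 := congrArg (fun φ => φ y) h0
    rw [MultilinearMap.compLinearMap_apply] at h1
    have h2 : (fun i => f i (y i)) = u := funext hy
    rw [h2] at h1
    exact h1
  -- free the factors one by one
  have key : ∀ k : ℕ, k ≤ n → ∀ a : Fin n → Fin M,
      (∀ i i' : Fin n, k ≤ (i : ℕ) → k ≤ (i' : ℕ) → a i = a i' → i = i') →
      ∀ u : Fin n → Fin m → ℝ, (∀ i : Fin n, k ≤ (i : ℕ) →
        u i ∈ LinearMap.range (dgl (n - 1) block pos) ∨ ∃ y, u i = blk block pos (a i) y) →
      Φ u = 0 := by
    intro k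
    induction k with
    | zero =>
      intro _ a ha u hu
      exact key0 a (fun i i' h => ha i i' (Nat.zero_le _) (Nat.zero_le _) h) u
        fun i => hu i (Nat.zero_le _)
    | succ k ih =>
      intro hk a ha u hu
      let i₀ : Fin n := ⟨k, hk⟩
      let B : Finset (Fin M) := (Finset.univ.filter fun i : Fin n => k + 1 ≤ (i : ℕ)).image a
      have hB : B.card ≤ n - 1 := by
        refine Finset.card_image_le.trans ?_
        have h1 : (Finset.univ.filter fun i : Fin n => k + 1 ≤ (i : ℕ)) ⊆
            Finset.univ.erase i₀ := by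
          intro i hi
          have h2 := (Finset.mem_filter.1 hi).2
          refine Finset.mem_erase.2 ⟨fun h => ?_, Finset.mem_univ _⟩
          have h3 : (i : ℕ) = k := congrArg Fin.val h
          omega
        refine (Finset.card_le_card h1).trans ?_
        rw [Finset.card_erase_of_mem (Finset.mem_univ _), Finset.card_univ, Fintype.card_fin]
      obtain ⟨v, hv⟩ := exists_dgl hbp (u i₀) B hB
      set δ := dgl (n - 1) block pos v with hδ
      set e := u i₀ - δ with he
      have hu0 : u i₀ = δ + ∑ b, blk block pos b (crd block pos b e) := by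
        rw [sum_blk hbp, he]
        abel
      have hzero : ∀ b ∈ B, blk block pos b (crd block pos b e) = 0 := by
        intro b hb
        funext t
        rw [blk_apply]
        by_cases h : block t = b
        · rw [if_pos h, ← h, crd_apply hbp, he, Pi.sub_apply, hv t (h ▸ hb), sub_self]
          rfl
        · rw [if_neg h]
          rfl
      -- new injective assignments
      have hnew : ∀ b, b ∉ B → ∀ i i' : Fin n, k ≤ (i : ℕ) → k ≤ (i' : ℕ) →
          Function.update a i₀ b i = Function.update a i₀ b i' → i = i' := by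
        intro b hb i i' hi hi' h
        have hmem : ∀ i : Fin n, k ≤ (i : ℕ) → i ≠ i₀ → k + 1 ≤ (i : ℕ) := by
          intro i hi hne
          rcases Nat.eq_or_lt_of_le hi with h1 | h1
          · exact absurd (Fin.ext h1.symm) hne
          · exact h1
        by_cases h1 : i = i₀
        · by_cases h2 : i' = i₀
          · rw [h1, h2]
          · exfalso
            rw [h1, Function.update_self, Function.update_of_ne h2] at h
            exact hb (h ▸ Finset.mem_image.2 ⟨i', Finset.mem_filter.2 ⟨Finset.mem_univ _,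
              hmem i' hi' h2⟩, rfl⟩)
        · by_cases h2 : i' = i₀
          · exfalso
            rw [h2, Function.update_self, Function.update_of_ne h1] at h
            exact hb (h ▸ Finset.mem_image.2 ⟨i, Finset.mem_filter.2 ⟨Finset.mem_univ _,
              hmem i hi h1⟩, rfl⟩)
          · rw [Function.update_of_ne h1, Function.update_of_ne h2] at h
            exact ha i i' (hmem i hi h1) (hmem i' hi' h2) h
      have hstep : ∀ b, b ∉ B → ∀ z : Fin m → ℝ,
          (z ∈ LinearMap.range (dgl (n - 1) block pos) ∨ ∃ y, z = blk block pos b y) →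
          Φ (Function.update u i₀ z) = 0 := by
        intro b hb z hz
        refine ih (by omega) (Function.update a i₀ b) (hnew b hb) _ fun i hi => ?_
        by_cases h1 : i = i₀
        · subst h1
          rw [Function.update_self, Function.update_self]
          exact hz
        · rw [Function.update_of_ne h1, Function.update_of_ne h1]
          refine hu i ?_
          rcases Nat.eq_or_lt_of_le hi with h2 | h2
          · exact absurd (Fin.ext h2.symm) h1
          · exact h2
      obtain ⟨b₀, hb₀⟩ : ∃ b₀, b₀ ∉ B := by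
        by_contra hcon
        push Not at hcon
        have h1 : (Finset.univ : Finset (Fin M)).card ≤ B.card :=
          Finset.card_le_card fun b _ => hcon b
        rw [Finset.card_univ, Fintype.card_fin] at h1
        have := i₀.2
        omega
      have h1 : u = Function.update u i₀ (δ + ∑ b, blk block pos b (crd block pos b e)) := by
        rw [← hu0, Function.update_eq_self]
      rw [h1, MultilinearMap.map_update_add, MultilinearMap.map_update_sum]
      rw [hstep b₀ hb₀ δ (Or.inl ⟨v, rfl⟩), zero_add]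
      refine Finset.sum_eq_zero fun b _ => ?_
      by_cases hb : b ∈ B
      · rw [hzero b hb]
        exact MultilinearMap.map_update_zero _ _ _
      · exact hstep b hb _ (Or.inr ⟨_, rfl⟩)
  refine MultilinearMap.ext fun u => ?_
  rcases Nat.eq_zero_or_pos M with hM0 | hM0
  · -- no blocks
    have hn : n = 0 := by omega
    subst hn
    exact key0 (fun i => i.elim0) (fun i => i.elim0) u fun i => i.elim0
  · exact key n le_rfl (fun _ => ⟨0, hM0⟩) (fun i _ h => absurd i.2 (by omega)) u
      fun i h => absurd i.2 (by omega)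

/-- **Spanning by boxes `A ⊗ ⋯ ⊗ A`.** -/
theorem diag_spans {s D r : ℕ} (hK : 1 ≤ K) (hD : D ≤ K)
    (hS : SpansT (fun _ : Fin n => K) (fun _ => D) s) (hM : n ≤ M) (hm : m ≤ M * K)
    (hr : M * D + (n - 1) * K ≤ r) (hrm : r ≤ m) :
    ∃ A : Fin s → Gr m r, ⨆ j, boxT (m := fun _ : Fin n => m) (fun _ => (A j).1) = ⊤ := by
  classical
  obtain ⟨W, hW1, hW2⟩ := exists_patterns hD hS M
  have hblock : ∀ t : Fin m, (t : ℕ) / K < M := fun t => by
    rw [Nat.div_lt_iff_lt_mul hK]
    exact lt_of_lt_of_le t.2 hm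
  let block : Fin m → Fin M := fun t => ⟨(t : ℕ) / K, hblock t⟩
  let pos : Fin m → Fin K := fun t => ⟨(t : ℕ) % K, Nat.mod_lt _ hK⟩
  have hbp : ∀ t t', block t = block t' → pos t = pos t' → t = t' := by
    intro t t' h1 h2
    have h3 : (t : ℕ) / K = (t' : ℕ) / K := congrArg Fin.val h1
    have h4 : (t : ℕ) % K = (t' : ℕ) % K := congrArg Fin.val h2
    refine Fin.ext ?_
    rw [← Nat.div_add_mod (t : ℕ) K, ← Nat.div_add_mod (t' : ℕ) K, h3, h4]
  have hdim : ∀ j, finrank ℝ (((⨆ a, (W j a).map (blk block pos a)) ⊔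
      LinearMap.range (dgl (n - 1) block pos) : Submodule ℝ (Fin m → ℝ))) ≤ r := by
    intro j
    have h1 : finrank ℝ (⨆ a, (W j a).map (blk block pos a) : Submodule ℝ (Fin m → ℝ)) ≤
        M * D := by
      have h2 := finrank_finsetSup_le (fun a => (W j a).map (blk block pos a)) Finset.univ
      rw [Finset.sup_univ_eq_iSup] at h2
      refine h2.trans ?_
      calc _ ≤ ∑ _a : Fin M, D := Finset.sum_le_sum fun a _ => by
            rw [← hW1 j a]
            exact Submodule.finrank_map_le _ _
        _ = M * D := by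
            rw [Finset.sum_const, Finset.card_univ, Fintype.card_fin, smul_eq_mul]
    have h2 : finrank ℝ (LinearMap.range (dgl (n - 1) block pos)) ≤ (n - 1) * K := by
      refine (LinearMap.finrank_range_le _).trans ?_
      rw [Module.finrank_pi_fintype]
      simp
    exact (Submodule.finrank_add_le_finrank_add_finrank _ _).trans
      ((add_le_add h1 h2).trans hr)
  have hA : ∀ j, ∃ A : Gr m r, ((⨆ a, (W j a).map (blk block pos a)) ⊔
      LinearMap.range (dgl (n - 1) block pos) : Submodule ℝ (Fin m → ℝ)) ≤ A.1 := by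
    intro j
    obtain ⟨B, h2, h3⟩ := enlarge (a := r) (V := Fin m → ℝ)
      (by rw [finrank_pi, Fintype.card_fin]; exact hrm) _ (hdim j)
    exact ⟨⟨B, h3⟩, h2⟩
  choose A hA using hA
  refine ⟨A, (top_iff (m := fun _ : Fin n => m) fun j _ => (A j).1).2 fun Φ hΦ => ?_⟩
  exact diag_zero hK hW2 hM hbp Φ fun j v hv => hΦ j v fun i => hA j (hv i)

end Diag

section Smz

variable {n m : ℕ}

/-- the symmetrization -/
noncomputable def smz (T : Ten (fun _ : Fin n => m)) : Ten (fun _ : Fin n => m) :=
  ((n.factorial : ℝ))⁻¹ • ∑ σ : Equiv.Perm (Fin n), fun t => T (t ∘ σ)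

theorem smz_mem (T : Ten (fun _ : Fin n => m)) : smz T ∈ SymT n m := by
  intro τ t
  unfold smz
  rw [Pi.smul_apply, Pi.smul_apply, Finset.sum_apply, Finset.sum_apply]
  congr 1
  exact Fintype.sum_equiv (Equiv.mulLeft τ) _ _ fun σ => rfl

theorem smz_eq {T : Ten (fun _ : Fin n => m)} (hT : T ∈ SymT n m) : smz T = T := by
  have h1 : (∑ σ : Equiv.Perm (Fin n), fun t => T (t ∘ σ)) =
      (n.factorial : ℝ) • T := by
    have h2 : ∀ σ : Equiv.Perm (Fin n), (fun t => T (t ∘ σ)) = T := fun σ => funext fun t => hT σ t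
    rw [Finset.sum_congr rfl fun σ _ => h2 σ, Finset.sum_const, Finset.card_univ,
      Fintype.card_perm, Fintype.card_fin]
    exact (Nat.cast_smul_eq_nsmul ℝ _ _).symm
  unfold smz
  rw [h1, smul_smul, inv_mul_cancel₀ (by exact_mod_cast Nat.factorial_ne_zero n), one_smul]

theorem smz_box {A : Submodule ℝ (Fin m → ℝ)} {T : Ten (fun _ : Fin n => m)}
    (hT : T ∈ boxT (m := fun _ : Fin n => m) fun _ => A) :
    smz T ∈ boxT (m := fun _ : Fin n => m) fun _ => A := by
  unfold smz
  refine Submodule.smul_mem _ _ (Submodule.sum_mem _ fun σ _ => ?_)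
  let L : Ten (fun _ : Fin n => m) →ₗ[ℝ] Ten (fun _ : Fin n => m) :=
    { toFun := fun T t => T (t ∘ σ)
      map_add' := fun _ _ => rfl
      map_smul' := fun _ _ => rfl }
  have h1 : boxT (m := fun _ : Fin n => m) (fun _ => A) ≤
      (boxT (m := fun _ : Fin n => m) fun _ => A).comap L := by
    unfold boxT
    rw [span_le]
    rintro _ ⟨v, hv, rfl⟩
    refine subset_span ⟨fun i => v (σ.symm i), fun i => hv _, ?_⟩
    funext t
    change ∏ i, v i (t (σ i)) = ∏ i, v (σ.symm i) (t i)
    refine Fintype.prod_equiv σ _ _ fun i => ?_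
    rw [Equiv.symm_apply_apply]
  exact h1 hT

theorem symK_top {s r : ℕ} {A : Fin s → Gr m r}
    (hA : ⨆ j, boxT (m := fun _ : Fin n => m) (fun _ => (A j).1) = ⊤) :
    ⨆ j, symK n m r (A j) = ⊤ := by
  refine eq_top_iff.2 fun T _ => ?_
  obtain ⟨T, hT⟩ := T
  have h1 : T ∈ ⨆ j, boxT (m := fun _ : Fin n => m) (fun _ => (A j).1) := by
    rw [hA]
    exact Submodule.mem_top
  rw [Submodule.mem_iSup_iff_exists_finsupp] at h1
  obtain ⟨f, hf, hsum⟩ := h1
  rw [Finsupp.sum_fintype _ _ fun _ => rfl] at hsum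
  have h2 : (⟨T, hT⟩ : SymT n m) = ∑ j, (⟨smz (f j), smz_mem _⟩ : SymT n m) := by
    refine Subtype.ext ?_
    rw [AddSubmonoidClass.coe_finsetSum]
    change T = ∑ j, smz (f j)
    conv_lhs => rw [← smz_eq hT, ← hsum]
    unfold smz
    rw [← Finset.smul_sum]
    congr 1
    rw [Finset.sum_comm]
    refine Finset.sum_congr rfl fun σ _ => ?_
    funext t
    rw [Finset.sum_apply, Finset.sum_apply]
  rw [h2]
  exact Submodule.sum_mem _ fun j _ => Submodule.mem_iSup_of_mem j (smz_box (hf j))

/-- Symmetric spanning from spanning by boxes of a small format. -/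
theorem sym_of_spans {K M s D r : ℕ} (hK : 1 ≤ K) (hD : D ≤ K)
    (hS : SpansT (fun _ : Fin n => K) (fun _ => D) s) (hM : n ≤ M) (hm : m ≤ M * K)
    (hr : M * D + (n - 1) * K ≤ r) (hrm : r ≤ m) :
    ∃ A : Fin s → Gr m r, ⨆ j, symK n m r (A j) = ⊤ := by
  obtain ⟨A, hA⟩ := diag_spans hK hD hS hM hm hr hrm
  exact ⟨A, symK_top hA⟩

end Smz

end Pool.Agent.SubTwo
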