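import Pool.Agent.SubTwo.Dim
import Pool.Agent.SubTyp.Codim1

/-!
# Symmetric subspace varieties: the dimension count
-/

open Module Submodule Set

namespace Pool.Agent.SubTwo

open Pool.Agent.SubTyp

section SymOf

variable {n m : ℕ}

/-- the multiset of a multi-index -/
def symOf (t : Fin n → Fin m) : Sym (Fin m) n := ⟨Finset.univ.val.map t, by simp⟩

theorem symOf_comp (t : Fin n → Fin m) (σ : Equiv.Perm (Fin n)) : symOf (t ∘ σ) = symOf t := by
  refine Subtype.ext ?_
  change Finset.univ.val.map (t ∘ σ) = Finset.univ.val.map t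
  rw [← Multiset.map_map, Multiset.map_univ_val_equiv]

theorem exists_symOf (ν : Sym (Fin m) n) : ∃ t : Fin n → Fin m, symOf t = ν := by
  obtain ⟨v, hv⟩ := ν
  induction v using Quotient.inductionOn with
  | _ l =>
    have hl : l.length = n := hv
    subst hl
    refine ⟨l.get, Subtype.ext ?_⟩
    change Finset.univ.val.map l.get = (l : Multiset (Fin m))
    rw [Fin.univ_val_map, List.ofFn_get]

theorem expo_of_symOf {t t' : Fin n → Fin m} (h : symOf t = symOf t') : expo t = expo t' := by
  classical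
  have key : ∀ t : Fin n → Fin m, ∀ u : Fin m,
      expo t u = Multiset.count u (symOf t : Multiset (Fin m)) := by
    intro t u
    rw [expo_apply, Fintype.card_subtype]
    change _ = Multiset.count u (Finset.univ.val.map t)
    rw [Multiset.count_map, Finset.card_def, Finset.filter_val]
    congr 1
    refine Multiset.filter_congr fun x _ => ?_
    exact eq_comm
  ext u
  rw [key, key, h]

theorem apply_eq_of_symOf {T : Ten (fun _ : Fin n => m)} (hT : T ∈ SymT n m)
    {t t' : Fin n → Fin m} (h : symOf t = symOf t') : T t = T t' := by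
  obtain ⟨σ, hσ⟩ := exists_perm_of_expo_eq (expo_of_symOf h)
  rw [← hσ]
  exact hT σ t'

/-- a multi-index with given multiset -/
noncomputable def rep' (ν : Sym (Fin m) n) : Fin n → Fin m := (exists_symOf ν).choose

theorem symOf_rep (ν : Sym (Fin m) n) : symOf (rep' ν) = ν := (exists_symOf ν).choose_spec

/-- the coordinates on the symmetric tensors -/
noncomputable def coS (n m : ℕ) : SymT n m ≃ₗ[ℝ] (Sym (Fin m) n → ℝ) where
  toFun T := fun ν => (T : Ten fun _ : Fin n => m) (rep' ν)
  map_add' _ _ := rfl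
  map_smul' _ _ := rfl
  invFun x := ⟨fun t => x (symOf t), fun σ t => congrArg x (symOf_comp t σ)⟩
  left_inv T := by
    refine Subtype.ext (funext fun t => ?_)
    exact apply_eq_of_symOf T.2 (symOf_rep _)
  right_inv x := by
    funext ν
    exact congrArg x (symOf_rep ν)

theorem coS_apply (T : SymT n m) (ν : Sym (Fin m) n) :
    coS n m T ν = (T : Ten fun _ : Fin n => m) (rep' ν) := rfl

theorem dense_coS {F : MvPolynomial (Sym (Fin m) n) ℝ} (hF : F ≠ 0) :
    Dense {T : SymT n m | MvPolynomial.eval (coS n m T) F ≠ 0} :=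
  (dense_ne_zero hF).preimage (coS n m).toContinuousLinearEquiv.toHomeomorph.isOpenMap

theorem isOpen_coS (F : MvPolynomial (Sym (Fin m) n) ℝ) :
    IsOpen {T : SymT n m | MvPolynomial.eval (coS n m T) F ≠ 0} :=
  (isOpen_ne_zero F).preimage (coS n m).toContinuousLinearEquiv.continuous

end SymOf

section Count

variable {n m r : ℕ}

/-- the variables: coefficients and free entries of the bases -/
abbrev ParS (n m r : ℕ) (I : Fin r → Fin m) : Type :=
  Sym (Fin r) n ⊕ (Fin r × {x : Fin m // x ∉ Set.range I})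

open Classical in
theorem card_parS (I : Fin r → Fin m) (hI : Function.Injective I) :
    Fintype.card (ParS n m r I) = (r + n - 1).choose n + r * (m - r) := by
  have h1 : Fintype.card {x : Fin m // x ∉ Set.range I} = m - r := by
    rw [Fintype.card_subtype_compl, Fintype.card_fin]
    congr 1
    exact (Fintype.card_congr (Equiv.ofInjective _ hI)).symm.trans (Fintype.card_fin r)
  rw [Fintype.card_sum, Fintype.card_prod, h1, Fintype.card_fin, Sym.card_sym_eq_choose,
    Fintype.card_fin]

/-- The dimension count. -/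
theorem exists_vanishing_sym (s : ℕ)
    (h : s * ((r + n - 1).choose n + r * (m - r)) < (m + n - 1).choose n) :
    ∃ F : MvPolynomial (Sym (Fin m) n) ℝ, F ≠ 0 ∧
      ∀ T ∈ RankLE (symK n m r) s, MvPolynomial.eval (coS n m T) F = 0 := by
  classical
  -- the polynomial for a choice of coordinates
  have key : ∀ I : Fin s → Fin r → Fin m,
      ∃ F : MvPolynomial (Sym (Fin m) n) ℝ, F ≠ 0 ∧
        ((∀ j, Function.Injective (I j)) → ∀ x : (Σ j : Fin s, ParS n m r (I j)) → ℝ,
          MvPolynomial.eval (fun ν => ∑ j, ∑ κ : Fin n → Fin r,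
            x ⟨j, Sum.inl (symOf κ)⟩ * ∏ i, (if h : rep' ν i ∉ Set.range (I j) then
              x ⟨j, Sum.inr ⟨κ i, rep' ν i, h⟩⟩ else if rep' ν i = I j (κ i) then 1 else 0))
              F = 0) := by
    intro I
    by_cases hI : ∀ j, Function.Injective (I j)
    · have hcard : Fintype.card (Σ j : Fin s, ParS n m r (I j)) <
          Fintype.card (Sym (Fin m) n) := by
        rw [Fintype.card_sigma, Sym.card_sym_eq_choose, Fintype.card_fin]
        have : ∑ j : Fin s, Fintype.card (ParS n m r (I j)) =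
            s * ((r + n - 1).choose n + r * (m - r)) := by
          rw [Finset.sum_congr rfl fun j _ => card_parS (I j) (hI j), Finset.sum_const,
            Finset.card_univ, Fintype.card_fin, smul_eq_mul]
        rw [this]
        exact h
      obtain ⟨F, hF, hF0⟩ := exists_relation hcard (fun ν => ∑ j,
        ∑ κ : Fin n → Fin r, MvPolynomial.X ⟨j, Sum.inl (symOf κ)⟩ *
          ∏ i, (if h : rep' ν i ∉ Set.range (I j) then
            MvPolynomial.X ⟨j, Sum.inr ⟨κ i, rep' ν i, h⟩⟩ else
              if rep' ν i = I j (κ i) then 1 else 0))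
      refine ⟨F, hF, fun _ x => ?_⟩
      refine Eq.trans (congrArg (fun w => MvPolynomial.eval w F) (funext fun ν => ?_)) (hF0 x)
      rw [map_sum]
      refine Finset.sum_congr rfl fun j _ => ?_
      rw [map_sum]
      refine Finset.sum_congr rfl fun κ _ => ?_
      rw [map_mul, MvPolynomial.eval_X, map_prod]
      congr 1
      refine Finset.prod_congr rfl fun i _ => ?_
      by_cases h1 : rep' ν i ∉ Set.range (I j)
      · rw [dif_pos h1, dif_pos h1, MvPolynomial.eval_X]
      · rw [dif_neg h1, dif_neg h1]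
        by_cases h2 : rep' ν i = I j (κ i)
        · rw [if_pos h2, if_pos h2, map_one]
        · rw [if_neg h2, if_neg h2, map_zero]
    · exact ⟨1, one_ne_zero, fun h1 => absurd h1 hI⟩
  choose F hF hF0 using key
  refine ⟨∏ I, F I, Finset.prod_ne_zero_iff.2 fun I _ => hF I, fun T hT => ?_⟩
  obtain ⟨A, hA⟩ := hT
  -- the parts
  rw [Submodule.mem_iSup_iff_exists_finsupp] at hA
  obtain ⟨f, hf, hsum⟩ := hA
  rw [Finsupp.sum_fintype _ _ fun _ => rfl] at hsum
  have h1 : ∀ j, ∃ (I : Fin r → Fin m) (G : Fin r → Fin m → ℝ),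
      Function.Injective I ∧ (∀ k l, G k (I l) = if l = k then 1 else 0) ∧
        span ℝ (Set.range G) = (A j).1 := fun j => exists_echelon _ (A j).2
  choose I G hI hG hspan using h1
  have h2 : ∀ j, (f j : Ten fun _ : Fin n => m) = ∑ κ : Fin n → Fin r,
      (f j : Ten fun _ : Fin n => m) (I j ∘ rep' (symOf κ)) •
        pureT (m := fun _ : Fin n => m) (fun i => G j (κ i)) := by
    intro j
    have h3 : (f j : Ten fun _ : Fin n => m) ∈ boxT fun _ : Fin n => (A j).1 := hf j
    have h4 : (fun _ : Fin n => (A j).1) =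
        fun _ : Fin n => span ℝ (Set.range (G j)) := funext fun i => (hspan j).symm
    rw [h4, boxT_span] at h3
    obtain ⟨c, hc⟩ := (Submodule.mem_span_range_iff_exists_fun ℝ).1 h3
    have h5 : ∀ κ : Fin n → Fin r, (f j : Ten fun _ : Fin n => m) (I j ∘ κ) = c κ := by
      intro κ
      rw [← hc, Finset.sum_apply, Finset.sum_eq_single κ]
      · change c κ * ∏ i, G j (κ i) (I j (κ i)) = c κ
        rw [Finset.prod_eq_one fun i _ => by rw [hG, if_pos rfl], mul_one]
      · intro κ' _ hκ
        obtain ⟨i, hi⟩ := Function.ne_iff.1 hκ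
        change c κ' * ∏ i, G j (κ' i) (I j (κ i)) = 0
        rw [Finset.prod_eq_zero (Finset.mem_univ i) (by rw [hG, if_neg (Ne.symm hi)]), mul_zero]
      · intro h6
        exact absurd (Finset.mem_univ _) h6
    rw [← hc]
    refine Finset.sum_congr rfl fun κ _ => ?_
    have h6 : (f j : Ten fun _ : Fin n => m) (I j ∘ rep' (symOf κ)) =
        (f j : Ten fun _ : Fin n => m) (I j ∘ κ) := by
      obtain ⟨σ, hσ⟩ := exists_perm_of_expo_eq (expo_of_symOf (symOf_rep (symOf κ)))
      rw [← hσ, ← Function.comp_assoc]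
      exact (f j).2 σ (I j ∘ κ)
    rw [hc, h6, h5 κ]
  rw [map_prod]
  refine Finset.prod_eq_zero (Finset.mem_univ I) ?_
  have h5 := hF0 I hI (fun y => Sum.casesOn y.2
    (fun ν => (f y.1 : Ten fun _ : Fin n => m) (I y.1 ∘ rep' ν))
    (fun z => G y.1 z.1 z.2.1))
  refine Eq.trans (congrArg (fun w => MvPolynomial.eval w (F I)) (funext fun ν => ?_)) h5
  rw [coS_apply, ← hsum, AddSubmonoidClass.coe_finsetSum, Finset.sum_apply]
  refine Finset.sum_congr rfl fun j _ => ?_
  conv_lhs => rw [h2 j]
  rw [Finset.sum_apply]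
  refine Finset.sum_congr rfl fun κ _ => ?_
  rw [Pi.smul_apply, smul_eq_mul]
  refine congrArg (fun w => (f j : Ten fun _ : Fin n => m) (I j ∘ rep' (symOf κ)) * w) ?_
  unfold pureT
  refine Finset.prod_congr rfl fun i _ => ?_
  by_cases h6 : rep' ν i ∉ Set.range (I j)
  · rw [dif_pos h6]
  · rw [dif_neg h6]
    push Not at h6
    obtain ⟨l, hl⟩ := h6
    rw [← hl]
    refine (hG j (κ i) l).trans ?_
    by_cases h7 : l = κ i
    · rw [if_pos h7, h7, if_pos rfl]
    · rw [if_neg h7, if_neg]
      intro h8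
      exact h7 (hI j h8)

/-- Lower bound for all typical ranks. -/
theorem typical_sym_ge (hr : 1 ≤ r ∧ r ≤ m) {d : ℕ} (hd : IsTypicalRank (SymSubVar n m r) d) :
    (m + n - 1).choose n ≤ d * ((r + n - 1).choose n + r * (m - r)) := by
  have : Nonempty (Gr m r) := exists_gr hr.2
  have hK := exists_symK_ne_bot (n := n) hr.2 hr.1
  rw [symSubVar_eq] at hd
  by_contra hcon
  push Not at hcon
  obtain ⟨F, hF, hF0⟩ := exists_vanishing_sym d hcon
  have h1 : Dense (RankLE (symK n m r) d)ᶜ := by
    refine (dense_coS hF).mono ?_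
    intro T hT hT'
    exact hT (hF0 T hT')
  exact lt_irrefl _ (lt_typical _ hK h1 hd)

theorem typical_sym_le (hr : 1 ≤ r ∧ r ≤ m) {s d : ℕ}
    (hs : ∃ A : Fin s → Gr m r, ⨆ j, symK n m r (A j) = ⊤)
    (hd : IsTypicalRank (SymSubVar n m r) d) : d ≤ s := by
  have : Nonempty (Gr m r) := exists_gr hr.2
  have hK := exists_symK_ne_bot (n := n) hr.2 hr.1
  rw [symSubVar_eq] at hd
  obtain ⟨A, hA⟩ := hs
  refine typical_le _ hK ?_ hd
  have h1 : RankLE (symK n m r) s = Set.univ := Set.eq_univ_of_forall fun T => ⟨A, by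
    rw [hA]
    exact Submodule.mem_top⟩
  rw [h1]
  exact dense_univ

theorem typical_sym_eq (hr : 1 ≤ r ∧ r ≤ m) {s : ℕ} (hs0 : 1 ≤ s)
    (hs : ∃ A : Fin s → Gr m r, ⨆ j, symK n m r (A j) = ⊤)
    (h : (s - 1) * ((r + n - 1).choose n + r * (m - r)) < (m + n - 1).choose n) :
    {d : ℕ | IsTypicalRank (SymSubVar n m r) d} = {s} := by
  have : Nonempty (Gr m r) := exists_gr hr.2
  have hK := exists_symK_ne_bot (n := n) hr.2 hr.1
  obtain ⟨σ, rfl⟩ : ∃ σ, s = σ + 1 := ⟨s - 1, by omega⟩
  rw [Nat.add_sub_cancel] at h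
  obtain ⟨F, hF, hF0⟩ := exists_vanishing_sym σ h
  ext d
  rw [mem_ofPred_eq, mem_singleton_iff]
  constructor
  · intro hd
    refine le_antisymm (typical_sym_le hr hs hd) ?_
    rw [symSubVar_eq] at hd
    have h1 : Dense (RankLE (symK n m r) σ)ᶜ := by
      refine (dense_coS hF).mono ?_
      intro T hT hT'
      exact hT (hF0 T hT')
    exact lt_typical _ hK h1 hd
  · rintro rfl
    obtain ⟨A, hA⟩ := hs
    rw [symSubVar_eq]
    refine typical_of_open _ hK (isOpen_coS F) (dense_coS hF).nonempty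
      (fun T _ => ⟨A, by
        rw [hA]
        exact Submodule.mem_top⟩) (fun T hT hT' => hT (hF0 T hT'))

end Count

end Pool.Agent.SubTwo
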