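import Pool.Agent.SubTwo.Perf2

/-!
# Large formats: approximation by bounded formats
-/

open Module Submodule Set

namespace Pool.Agent.SubTwo

open Pool.Agent.SubTyp

theorem one_add_pow_le (n : ℕ) {ε : ℝ} (h0 : 0 ≤ ε) (h1 : ε ≤ 1) :
    (1 + ε) ^ n ≤ 1 + (2 ^ n - 1) * ε := by
  induction n with
  | zero => simp
  | succ n ih =>
    have h2 : (1 : ℝ) ≤ 2 ^ n := one_le_pow₀ (by norm_num)
    calc (1 + ε) ^ (n + 1) = (1 + ε) ^ n * (1 + ε) := pow_succ _ _
      _ ≤ (1 + (2 ^ n - 1) * ε) * (1 + ε) := mul_le_mul_of_nonneg_right ih (by linarith)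
      _ ≤ _ := by
        have h3 : (2 ^ n - 1) * ε * ε ≤ (2 ^ n - 1) * ε := by
          have : 0 ≤ (2 ^ n - 1) * ε := mul_nonneg (by linarith) h0
          nlinarith
        rw [pow_succ]
        nlinarith

/-- One proper factor: a bounded format with slightly larger ratio. -/
theorem exists_approx (T ε : ℝ) (hT : 1 ≤ T) (hε : 0 < ε) :
    ∃ L D K : ℕ, 1 ≤ L ∧ L ≤ K ∧ T ≤ K ∧ ∀ m r : ℕ, 1 ≤ r → r ≤ m → (m : ℝ) ≤ T * r →
      ∃ m' : ℕ, L ≤ m' ∧ m' ≤ K ∧ (m : ℝ) * L ≤ m' * r ∧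
        (m' : ℝ) * r ≤ (1 + ε) * (m * L) ∧
        ∀ c, 1 ≤ c → c * D ≤ r → ∃ w, m ≤ w * (c * m') ∧ w * (c * L) ≤ r := by
  obtain ⟨L, hL⟩ := exists_nat_gt (max (2 / ε) 1)
  have hL1 : 2 / ε < L := (le_max_left _ _).trans_lt hL
  have hL2 : (1 : ℝ) < L := (le_max_right _ _).trans_lt hL
  have hL0 : (0 : ℝ) < L := by linarith
  have hε' : 2 / (L : ℝ) ≤ ε := by
    rw [div_lt_iff₀ hε] at hL1
    rw [div_le_iff₀ hL0]
    linarith
  have hL0' : 0 < L := by exact_mod_cast hL0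
  obtain ⟨K, hK⟩ := exists_nat_gt (T * L + 2)
  have hTL : T ≤ T * L := by nlinarith
  have hLT : (L : ℝ) ≤ T * L := by nlinarith
  refine ⟨L, L * K, K, hL0', ?_, by linarith, fun m r hr hrm hmT => ?_⟩
  · have : (L : ℝ) ≤ K := by linarith
    exact_mod_cast this
  have hr0 : (0 : ℝ) < r := by exact_mod_cast hr
  have hrm' : (r : ℝ) ≤ m := by exact_mod_cast hrm
  have hm0 : (0 : ℝ) < m := by linarith
  -- the ratio
  set P : ℝ := (m : ℝ) / r with hP
  have hPr : P * r = m := by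
    rw [hP]
    field_simp
  have hP1 : 1 ≤ P := by
    rw [hP, le_div_iff₀ hr0]
    linarith
  have hPT : P ≤ T := by
    rw [hP, div_le_iff₀ hr0]
    exact hmT
  -- the new size
  have q1 : (P * L - 1 : ℝ) < ((m * L / r : ℕ) : ℝ) := by
    have h1 : m * L < r * (m * L / r + 1) := Nat.lt_mul_div_succ _ (by omega)
    have h2 : (m : ℝ) * L < r * (((m * L / r : ℕ) : ℝ) + 1) := by exact_mod_cast h1
    have h3 : P * L * r < (((m * L / r : ℕ) : ℝ) + 1) * r := by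
      calc P * L * r = (P * r) * L := by ring
        _ = m * L := by rw [hPr]
        _ < _ := by linarith
    have h4 := lt_of_mul_lt_mul_right h3 hr0.le
    linarith
  have q2 : ((m * L / r : ℕ) : ℝ) ≤ P * L := by
    have h1 : (m * L / r) * r ≤ m * L := Nat.div_mul_le_self _ _
    have h2 : ((m * L / r : ℕ) : ℝ) * r ≤ m * L := by exact_mod_cast h1
    have h3 : ((m * L / r : ℕ) : ℝ) * r ≤ P * L * r := by
      calc _ ≤ (m : ℝ) * L := h2
        _ = (P * r) * L := by rw [hPr]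
        _ = _ := by ring
    exact le_of_mul_le_mul_right h3 hr0
  set m' := m * L / r + 2 with hm'
  have p1 : P * L + 1 < (m' : ℝ) := by
    rw [hm']
    push_cast
    linarith
  have p2 : (m' : ℝ) ≤ P * L + 2 := by
    rw [hm']
    push_cast
    linarith
  have hLm' : (L : ℝ) ≤ m' := by nlinarith
  have hm'K : (m' : ℝ) ≤ K := by nlinarith
  have hPL : (m' : ℝ) ≤ P * L * (1 + 2 / L) := by
    have : P * L * (1 + 2 / L) = P * L + 2 * P := by
      field_simp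
    rw [this]
    linarith
  refine ⟨m', by exact_mod_cast hLm', by exact_mod_cast hm'K, ?_, ?_, fun c hc hcr => ?_⟩
  · calc (m : ℝ) * L = P * L * r := by rw [← hPr]; ring
      _ ≤ m' * r := mul_le_mul_of_nonneg_right (by linarith) hr0.le
  · calc (m' : ℝ) * r ≤ (P * L * (1 + 2 / L)) * r := mul_le_mul_of_nonneg_right hPL hr0.le
      _ = (1 + 2 / L) * ((P * r) * L) := by ring
      _ = (1 + 2 / L) * (m * L) := by rw [hPr]
      _ ≤ (1 + ε) * (m * L) := by
          refine mul_le_mul_of_nonneg_right (by linarith) ?_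
          positivity
  · -- enough room
    have hcL : 0 < c * L := Nat.mul_pos hc hL0'
    refine ⟨r / (c * L), ?_, Nat.div_mul_le_self _ _⟩
    set w := r / (c * L) with hw
    have h1 : (r : ℝ) - c * L < (w : ℝ) * (c * L) := by
      have h2 : r < (c * L) * (w + 1) := Nat.lt_mul_div_succ _ hcL
      have h3 : (r : ℝ) < (c * L) * ((w : ℝ) + 1) := by exact_mod_cast h2
      linarith
    have h4 : (c : ℝ) * (L * K) ≤ r := by exact_mod_cast hcr
    have hc0 : (0 : ℝ) < c := by exact_mod_cast hc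
    -- multiply by `L`
    have h5 : (m : ℝ) * L ≤ (w : ℝ) * (c * m') * L := by
      have h6 : (r - c * L) * (m' : ℝ) ≤ (w : ℝ) * (c * L) * m' :=
        mul_le_mul_of_nonneg_right h1.le (by linarith)
      have h7 : (c : ℝ) * L * m' ≤ r := by
        calc (c : ℝ) * L * m' ≤ c * L * K :=
              mul_le_mul_of_nonneg_left hm'K (by positivity)
          _ = c * (L * K) := by ring
          _ ≤ r := h4
      have h8 : (m : ℝ) * L + r ≤ r * m' := by
        calc (m : ℝ) * L + r = r * (P * L + 1) := by rw [← hPr]; ring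
          _ ≤ r * m' := mul_le_mul_of_nonneg_left p1.le hr0.le
      calc (m : ℝ) * L ≤ r * m' - c * L * m' := by linarith
        _ = (r - c * L) * (m' : ℝ) := by ring
        _ ≤ _ := h6
        _ = _ := by ring
    have h9 := le_of_mul_le_mul_right h5 hL0
    exact_mod_cast h9

/-- The scales of the perfect families of bounded formats are bounded. -/
theorem perf_bdd (n K : ℕ) : ∃ B : ℕ, ∀ (i₀ : Fin n) (F : Finset (Fin n)) (m r : Fin n → ℕ)
    (s : ℕ), (∀ i, m i ≤ K) → (∀ i, r i ≤ K) → s ≤ K →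
    Perf i₀ F (Finset.univ.erase i₀) m r s → ∃ c : Fin n → ℕ, (∀ i, 1 ≤ c i) ∧
      (∀ i, i ∉ F → i ≠ i₀ → c i = 1) ∧ (∀ i, c i ≤ B) ∧
      SpM (pm i₀ (Finset.univ.erase i₀) m r c s) (pr i₀ (Finset.univ.erase i₀) m r c) s := by
  classical
  let X : Type := Fin n × Finset (Fin n) × (Fin n → Fin (K + 1)) × (Fin n → Fin (K + 1)) ×
    Fin (K + 1)
  have h1 : ∀ x : X, ∃ B : ℕ, Perf x.1 x.2.1 (Finset.univ.erase x.1) (fun i => (x.2.2.1 i : ℕ))
      (fun i => (x.2.2.2.1 i : ℕ)) (x.2.2.2.2 : ℕ) → ∃ c : Fin n → ℕ, (∀ i, 1 ≤ c i) ∧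
      (∀ i, i ∉ x.2.1 → i ≠ x.1 → c i = 1) ∧ (∀ i, c i ≤ B) ∧
      SpM (pm x.1 (Finset.univ.erase x.1) (fun i => (x.2.2.1 i : ℕ))
        (fun i => (x.2.2.2.1 i : ℕ)) c (x.2.2.2.2 : ℕ))
        (pr x.1 (Finset.univ.erase x.1) (fun i => (x.2.2.1 i : ℕ))
        (fun i => (x.2.2.2.1 i : ℕ)) c) (x.2.2.2.2 : ℕ) := by
    intro x
    by_cases hx : Perf x.1 x.2.1 (Finset.univ.erase x.1) (fun i => (x.2.2.1 i : ℕ))
      (fun i => (x.2.2.2.1 i : ℕ)) (x.2.2.2.2 : ℕ)
    · obtain ⟨-, -, c, h3, h4, h5⟩ := hx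
      exact ⟨Finset.univ.sup c, fun _ => ⟨c, h3, h4,
        fun i => Finset.le_sup (Finset.mem_univ i), h5⟩⟩
    · exact ⟨0, fun h => absurd h hx⟩
  choose B hB using h1
  refine ⟨Finset.univ.sup B, fun i₀ F m r s hm hr hs hP => ?_⟩
  obtain ⟨c, h3, h4, h5, h6⟩ := hB (i₀, F, fun i => ⟨m i, Nat.lt_succ_of_le (hm i)⟩,
    fun i => ⟨r i, Nat.lt_succ_of_le (hr i)⟩, ⟨s, Nat.lt_succ_of_le hs⟩) hP
  exact ⟨c, h3, h4, fun i => (h5 i).trans (Finset.le_sup (f := B) (Finset.mem_univ _)), h6⟩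

end Pool.Agent.SubTwo
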