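import Pool.Agent.SubTwo.SymUp
import Pool.Agent.SubTwo.SymLow
import Pool.Agent.SubTwo.Unif1

/-!
# Symmetric subspace varieties: large formats
-/

open Module Set

namespace Pool.Agent.SubTwo

open Pool.Agent.SubTyp

/-- The dimension count for large formats. -/
theorem sym_asymp {n : ℕ} (hn : 3 ≤ n) (k t : ℕ) (hk : 1 ≤ k) (ε : ℝ) (hε : 0 < ε) :
    ∃ r₀ : ℕ, ∀ r m : ℕ, r₀ ≤ r → r ≤ m →
      (m + k - 1) / k * (k ^ n + n * t - t) ≤ r * (k ^ n + n * t) →
      (((k ^ n + n * t : ℕ) : ℝ) - 1 + ε) * (r : ℝ) ^ n ≤ (m : ℝ) ^ n →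
      (k ^ n + n * t - 1) * ((r + n - 1).choose n + r * (m - r)) < (m + n - 1).choose n := by
  set s := k ^ n + n * t with hs
  have hkn : 0 < k ^ n := Nat.pow_pos hk
  have hs0 : 0 < s := by omega
  have hst : 1 ≤ s - t := by
    have : t ≤ n * t := Nat.le_mul_of_pos_left _ (by omega)
    omega
  obtain ⟨η, hη0, hη1, hη2⟩ : ∃ η : ℝ, 0 < η ∧ η ≤ 1 ∧ (s : ℝ) * (2 * η) < ε := by
    have h1 : (0 : ℝ) < 2 * s + 1 := by positivity
    refine ⟨min 1 (ε / (2 * s + 1)), lt_min one_pos (by positivity), min_le_left _ _, ?_⟩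
    have h2 : min 1 (ε / (2 * (s : ℝ) + 1)) ≤ ε / (2 * s + 1) := min_le_right _ _
    have h3 : min 1 (ε / (2 * (s : ℝ) + 1)) * (2 * s + 1) ≤ ε := by
      rw [← le_div_iff₀ h1]
      exact h2
    have h4 : 0 < min 1 (ε / (2 * (s : ℝ) + 1)) := lt_min one_pos (by positivity)
    nlinarith
  obtain ⟨a, ha⟩ := exists_nat_gt (n * 2 ^ n / η)
  obtain ⟨b, hb⟩ := exists_nat_gt ((n.factorial * (k * s) : ℕ) / η)
  refine ⟨max (max a b) 1, fun r m hr hrm hm hmr => ?_⟩
  have hra : a ≤ r := (le_max_left _ _).trans ((le_max_left _ _).trans hr)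
  have hrb : b ≤ r := (le_max_right _ _).trans ((le_max_left _ _).trans hr)
  have hr1 : 1 ≤ r := (le_max_right _ _).trans hr
  have hr0 : (0 : ℝ) < r := by exact_mod_cast hr1
  -- the bound for `m`
  have hmc : m ≤ k * s * r := by
    have h1 : m ≤ k * ((m + k - 1) / k) := by
      have h2 := Nat.div_add_mod (m + k - 1) k
      have h3 := Nat.mod_lt (m + k - 1) hk
      omega
    calc m ≤ k * ((m + k - 1) / k) := h1
      _ ≤ k * ((m + k - 1) / k * (s - t)) :=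
          Nat.mul_le_mul_left _ (Nat.le_mul_of_pos_right _ hst)
      _ ≤ k * (r * s) := Nat.mul_le_mul_left _ hm
      _ = k * s * r := by ring
  -- the rising factorials
  have e1 : n.factorial * (r + n - 1).choose n = r.ascFactorial n :=
    (Nat.ascFactorial_eq_factorial_mul_choose' r n).symm
  have e2 : n.factorial * (m + n - 1).choose n = m.ascFactorial n :=
    (Nat.ascFactorial_eq_factorial_mul_choose' m n).symm
  have h1 : ((r.ascFactorial n : ℕ) : ℝ) ≤ (1 + η) * (r : ℝ) ^ n := by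
    have h2 : r.ascFactorial n ≤ (r + n) ^ n := by
      obtain ⟨r', rfl⟩ : ∃ r', r = r' + 1 := ⟨r - 1, by omega⟩
      exact (Nat.ascFactorial_le_pow_add r' n).trans (Nat.pow_le_pow_left (by omega) n)
    have h3 : ((r.ascFactorial n : ℕ) : ℝ) ≤ ((r : ℝ) + n) ^ n := by exact_mod_cast h2
    have h4 : (n : ℝ) * 2 ^ n ≤ η * r := by
      rw [div_lt_iff₀ hη0] at ha
      have h5 : (a : ℝ) ≤ r := by exact_mod_cast hra
      nlinarith
    have h5 : (1 : ℝ) ≤ 2 ^ n := one_le_pow₀ (by norm_num)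
    have h6 : (n : ℝ) / r ≤ η / 2 ^ n := by
      rw [div_le_div_iff₀ hr0 (by positivity)]
      exact h4
    have h7 : (n : ℝ) / r ≤ 1 := by
      refine h6.trans ?_
      rw [div_le_one (by positivity)]
      linarith
    have h8 := one_add_pow_le n (ε := (n : ℝ) / r) (by positivity) h7
    have h9 : (2 ^ n - 1) * ((n : ℝ) / r) ≤ η := by
      calc (2 ^ n - 1) * ((n : ℝ) / r) ≤ 2 ^ n * (η / 2 ^ n) := by
            refine mul_le_mul (by linarith) h6 (by positivity) (by positivity)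
        _ = η := by field_simp
    calc ((r.ascFactorial n : ℕ) : ℝ) ≤ ((r : ℝ) + n) ^ n := h3
      _ = (1 + (n : ℝ) / r) ^ n * (r : ℝ) ^ n := by
          rw [← mul_pow]
          congr 1
          field_simp
      _ ≤ (1 + η) * (r : ℝ) ^ n :=
          mul_le_mul_of_nonneg_right (by linarith) (by positivity)
  have h2 : ((n.factorial * (r * (m - r)) : ℕ) : ℝ) ≤ η * (r : ℝ) ^ n := by
    have h3 : n.factorial * (r * (m - r)) ≤ n.factorial * (k * s) * (r * r) := by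
      calc n.factorial * (r * (m - r)) ≤ n.factorial * (r * (k * s * r)) :=
            Nat.mul_le_mul_left _ (Nat.mul_le_mul_left _ ((Nat.sub_le _ _).trans hmc))
        _ = _ := by ring
    have h4 : ((n.factorial * (r * (m - r)) : ℕ) : ℝ) ≤
        ((n.factorial * (k * s) : ℕ) : ℝ) * ((r : ℝ) * r) := by exact_mod_cast h3
    have h5 : ((n.factorial * (k * s) : ℕ) : ℝ) ≤ η * r := by
      rw [div_lt_iff₀ hη0] at hb
      have h6 : (b : ℝ) ≤ r := by exact_mod_cast hrb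
      nlinarith
    have h6 : (r : ℝ) ^ 3 ≤ (r : ℝ) ^ n := pow_le_pow_right₀ (by exact_mod_cast hr1) hn
    calc ((n.factorial * (r * (m - r)) : ℕ) : ℝ) ≤
          ((n.factorial * (k * s) : ℕ) : ℝ) * ((r : ℝ) * r) := h4
      _ ≤ (η * r) * ((r : ℝ) * r) := mul_le_mul_of_nonneg_right h5 (by positivity)
      _ = η * (r : ℝ) ^ 3 := by ring
      _ ≤ η * (r : ℝ) ^ n := mul_le_mul_of_nonneg_left h6 hη0.le
  have h3 : ((m : ℝ)) ^ n ≤ ((m.ascFactorial n : ℕ) : ℝ) := by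
    exact_mod_cast Nat.pow_succ_le_ascFactorial m n
  have hrn : (0 : ℝ) < (r : ℝ) ^ n := by positivity
  have hs1 : ((s - 1 : ℕ) : ℝ) = (s : ℝ) - 1 := by
    rw [Nat.cast_sub hs0, Nat.cast_one]
  have hs2 : (0 : ℝ) ≤ (s : ℝ) - 1 := by
    rw [← hs1]
    positivity
  have key : (((s - 1) * (r.ascFactorial n + n.factorial * (r * (m - r))) : ℕ) : ℝ) <
      ((m.ascFactorial n : ℕ) : ℝ) := by
    rw [Nat.cast_mul, Nat.cast_add, hs1]
    calc ((s : ℝ) - 1) * (((r.ascFactorial n : ℕ) : ℝ) + ((n.factorial * (r * (m - r)) : ℕ) : ℝ))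
          ≤ ((s : ℝ) - 1) * ((1 + η) * (r : ℝ) ^ n + η * (r : ℝ) ^ n) :=
          mul_le_mul_of_nonneg_left (add_le_add h1 h2) hs2
      _ = ((s : ℝ) - 1 + ((s : ℝ) - 1) * (2 * η)) * (r : ℝ) ^ n := by ring
      _ < ((s : ℝ) - 1 + ε) * (r : ℝ) ^ n := by
          refine mul_lt_mul_of_pos_right ?_ hrn
          nlinarith
      _ ≤ (m : ℝ) ^ n := hmr
      _ ≤ _ := h3
  have key' : (s - 1) * (r.ascFactorial n + n.factorial * (r * (m - r))) < m.ascFactorial n := by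
    exact_mod_cast key
  have hf : 0 < n.factorial := Nat.factorial_pos n
  refine Nat.lt_of_mul_lt_mul_left (a := n.factorial) ?_
  calc n.factorial * ((s - 1) * ((r + n - 1).choose n + r * (m - r))) =
        (s - 1) * (n.factorial * (r + n - 1).choose n + n.factorial * (r * (m - r))) := by ring
    _ = (s - 1) * (r.ascFactorial n + n.factorial * (r * (m - r))) := by rw [e1]
    _ < m.ascFactorial n := key'
    _ = _ := e2.symm

theorem ceil_nat {m k : ℕ} (hk : 1 ≤ k) : ⌈(m : ℚ) / (k : ℚ)⌉₊ = (m + k - 1) / k := by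
  refine eq_of_forall_ge_iff fun t => ?_
  have h1 : (0 : ℚ) < (k : ℚ) := by exact_mod_cast hk
  rw [Nat.ceil_le, div_le_iff₀ h1, ← Nat.cast_mul, Nat.cast_le,
    Nat.div_le_iff_le_mul_add_pred hk, Nat.mul_comm t]
  omega

/-- Bounds for all symmetric formats, and uniqueness if they agree. -/
theorem typical_sym_all {n m r : ℕ} (hn : 1 ≤ n) (hr : 1 ≤ r ∧ r ≤ m) {k t s : ℕ} (hk : 1 ≤ k)
    (hs : s = k ^ n + n * t) (h : ⌈(m : ℚ) / (k : ℚ)⌉₊ * (s - t) ≤ r * s) :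
    (∀ d, IsTypicalRank (SymSubVar n m r) d → d ≤ s) ∧
    ((s - 1) * ((r + n - 1).choose n + r * (m - r)) < (m + n - 1).choose n →
      {d : ℕ | IsTypicalRank (SymSubVar n m r) d} = {s}) := by
  rw [ceil_nat hk] at h
  have hts : t ≤ s := by
    have : t ≤ n * t := Nat.le_mul_of_pos_left _ hn
    omega
  have hs1 : 1 ≤ s := by
    have : 0 < k ^ n := Nat.pow_pos hk
    omega
  have hspan := sym_span_design (n := n) hk hr.2 hs.ge hts h
  exact ⟨fun d hd => typical_sym_le hr hspan hd, fun hlt => typical_sym_eq hr hs1 hspan hlt⟩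

/-- Uniqueness for large symmetric formats. -/
theorem typical_sym_large {n : ℕ} (hn : 3 ≤ n) {k : ℕ} (t s : ℕ) (hk : 1 ≤ k)
    (hs : s = k ^ n + n * t) (ε : ℝ) (hε : 0 < ε) :
    ∃ r₀ : ℕ, ∀ m r : ℕ, r₀ ≤ r → 1 ≤ r ∧ r ≤ m → ⌈(m : ℚ) / (k : ℚ)⌉₊ * (s - t) ≤ r * s →
      ((s : ℝ) - 1 + ε) * (r : ℝ) ^ n ≤ (m : ℝ) ^ n →
      {d : ℕ | IsTypicalRank (SymSubVar n m r) d} = {s} := by
  subst hs
  obtain ⟨r₀, h⟩ := sym_asymp hn k t hk ε hε
  refine ⟨r₀, fun m r hr hrm h1 h2 => (typical_sym_all (by omega) hrm hk rfl h1).2 ?_⟩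
  rw [ceil_nat hk] at h1
  exact h r m hr hrm.2 h1 h2

end Pool.Agent.SubTwo
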