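import Pool.Agent.SubTwo.SymDiag
import Pool.Agent.SubTwo.SymLarge
import Pool.Agent.SubTwo.Four

/-!
# Symmetric subspace varieties: typical ranks of large formats
-/

open Module Set

namespace Pool.Agent.SubTwo

open Pool.Agent.SubTyp

/-- The dimension of the family, for large `r`. -/
theorem count_le {n : ℕ} (hn : 3 ≤ n) (c : ℝ) (hc : 0 ≤ c) (η : ℝ) (hη : 0 < η) :
    ∃ r₀ : ℕ, ∀ r m : ℕ, r₀ ≤ r → (m : ℝ) ≤ c * r →
      ((n.factorial * ((r + n - 1).choose n + r * (m - r)) : ℕ) : ℝ) ≤ (1 + η) * (r : ℝ) ^ n := by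
  obtain ⟨η', hη0, hη1, hη2⟩ : ∃ η' : ℝ, 0 < η' ∧ η' ≤ 1 ∧ 2 * η' ≤ η :=
    ⟨min 1 (η / 2), lt_min one_pos (by positivity), min_le_left _ _, by
      have := min_le_right 1 (η / 2)
      linarith⟩
  obtain ⟨a, ha⟩ := exists_nat_gt (n * 2 ^ n / η')
  obtain ⟨b, hb⟩ := exists_nat_gt ((n.factorial : ℝ) * c / η')
  refine ⟨max (max a b) 1, fun r m hr hmc => ?_⟩
  have hra : a ≤ r := (le_max_left _ _).trans ((le_max_left _ _).trans hr)
  have hrb : b ≤ r := (le_max_right _ _).trans ((le_max_left _ _).trans hr)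
  have hr1 : 1 ≤ r := (le_max_right _ _).trans hr
  have hr0 : (0 : ℝ) < r := by exact_mod_cast hr1
  have e1 : n.factorial * (r + n - 1).choose n = r.ascFactorial n :=
    (Nat.ascFactorial_eq_factorial_mul_choose' r n).symm
  have h1 : ((r.ascFactorial n : ℕ) : ℝ) ≤ (1 + η') * (r : ℝ) ^ n := by
    have h2 : r.ascFactorial n ≤ (r + n) ^ n := by
      obtain ⟨r', rfl⟩ : ∃ r', r = r' + 1 := ⟨r - 1, by omega⟩
      exact (Nat.ascFactorial_le_pow_add r' n).trans (Nat.pow_le_pow_left (by omega) n)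
    have h3 : ((r.ascFactorial n : ℕ) : ℝ) ≤ ((r : ℝ) + n) ^ n := by exact_mod_cast h2
    have h4 : (n : ℝ) * 2 ^ n ≤ η' * r := by
      rw [div_lt_iff₀ hη0] at ha
      have h5 : (a : ℝ) ≤ r := by exact_mod_cast hra
      nlinarith
    have h5 : (1 : ℝ) ≤ 2 ^ n := one_le_pow₀ (by norm_num)
    have h6 : (n : ℝ) / r ≤ η' / 2 ^ n := by
      rw [div_le_div_iff₀ hr0 (by positivity)]
      exact h4
    have h7 : (n : ℝ) / r ≤ 1 := by
      refine h6.trans ?_
      rw [div_le_one (by positivity)]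
      linarith
    have h8 := one_add_pow_le n (ε := (n : ℝ) / r) (by positivity) h7
    have h9 : (2 ^ n - 1) * ((n : ℝ) / r) ≤ η' := by
      calc (2 ^ n - 1) * ((n : ℝ) / r) ≤ 2 ^ n * (η' / 2 ^ n) := by
            refine mul_le_mul (by linarith) h6 (by positivity) (by positivity)
        _ = η' := by field_simp
    calc ((r.ascFactorial n : ℕ) : ℝ) ≤ ((r : ℝ) + n) ^ n := h3
      _ = (1 + (n : ℝ) / r) ^ n * (r : ℝ) ^ n := by
          rw [← mul_pow]
          congr 1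
          field_simp
      _ ≤ (1 + η') * (r : ℝ) ^ n :=
          mul_le_mul_of_nonneg_right (by linarith) (by positivity)
  have h2 : ((n.factorial * (r * (m - r)) : ℕ) : ℝ) ≤ η' * (r : ℝ) ^ n := by
    have h4 : ((n.factorial * (r * (m - r)) : ℕ) : ℝ) ≤
        ((n.factorial : ℝ) * c) * ((r : ℝ) * r) := by
      have h5 : ((m - r : ℕ) : ℝ) ≤ c * r := by
        refine le_trans ?_ hmc
        exact_mod_cast Nat.sub_le _ _
      push_cast
      calc (n.factorial : ℝ) * (r * ((m - r : ℕ) : ℝ)) ≤ n.factorial * (r * (c * r)) := by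
            refine mul_le_mul_of_nonneg_left (mul_le_mul_of_nonneg_left h5 hr0.le) (by positivity)
        _ = _ := by ring
    have h5 : (n.factorial : ℝ) * c ≤ η' * r := by
      rw [div_lt_iff₀ hη0] at hb
      have h6 : (b : ℝ) ≤ r := by exact_mod_cast hrb
      nlinarith
    have h6 : (r : ℝ) ^ 3 ≤ (r : ℝ) ^ n := pow_le_pow_right₀ (by exact_mod_cast hr1) hn
    calc ((n.factorial * (r * (m - r)) : ℕ) : ℝ) ≤
          ((n.factorial : ℝ) * c) * ((r : ℝ) * r) := h4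
      _ ≤ (η' * r) * ((r : ℝ) * r) := mul_le_mul_of_nonneg_right h5 (by positivity)
      _ = η' * (r : ℝ) ^ 3 := by ring
      _ ≤ η' * (r : ℝ) ^ n := mul_le_mul_of_nonneg_left h6 hη0.le
  have hrn : (0 : ℝ) < (r : ℝ) ^ n := by positivity
  calc ((n.factorial * ((r + n - 1).choose n + r * (m - r)) : ℕ) : ℝ) =
        ((r.ascFactorial n : ℕ) : ℝ) + ((n.factorial * (r * (m - r)) : ℕ) : ℝ) := by
        rw [← Nat.cast_add, ← e1, ← Nat.mul_add]
    _ ≤ (1 + η') * (r : ℝ) ^ n + η' * (r : ℝ) ^ n := add_le_add h1 h2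
    _ = (1 + 2 * η') * (r : ℝ) ^ n := by ring
    _ ≤ _ := mul_le_mul_of_nonneg_right (by linarith) hrn.le

/-- Typical ranks from a bound for the symmetric box number. -/
theorem typical_of_sym_span {n : ℕ} (hn : 3 ≤ n) (T δ : ℝ) (hδ : 0 < δ) :
    ∃ C : ℕ, ∀ m r : ℕ, C ≤ r → 1 ≤ r ∧ r ≤ m → ∀ x : ℝ, x = ((m : ℝ) / r) ^ n → x ≤ T →
    (∃ A : Fin ⌈x + δ⌉₊ → Gr m r, ⨆ j, symK n m r (A j) = ⊤) →
      (∀ d, IsTypicalRank (SymSubVar n m r) d → ⌈x - δ⌉₊ ≤ d ∧ d ≤ ⌈x + δ⌉₊) ∧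
      (⌈x - δ⌉₊ = ⌈x + δ⌉₊ → {d : ℕ | IsTypicalRank (SymSubVar n m r) d} = {⌈x⌉₊}) := by
  by_cases hT : 1 ≤ T
  swap
  · refine ⟨0, fun m r _ hr x hx hxT _ => ?_⟩
    exfalso
    have hr0 : (0 : ℝ) < r := by exact_mod_cast hr.1
    have h1 : (1 : ℝ) ≤ (m : ℝ) / r := by
      rw [one_le_div hr0]
      exact_mod_cast hr.2
    have h2 : (1 : ℝ) ≤ x := hx ▸ one_le_pow₀ h1
    linarith
  have hS0 : 0 < T + δ + 1 := by linarith
  obtain ⟨C, hC⟩ := count_le hn T (by linarith) (δ / (T + δ + 1)) (by positivity)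
  refine ⟨C, fun m r hCr hr x hx hxT hspan => ?_⟩
  have hr0 : (0 : ℝ) < r := by exact_mod_cast hr.1
  have hP1 : (1 : ℝ) ≤ (m : ℝ) / r := by
    rw [one_le_div hr0]
    exact_mod_cast hr.2
  have hx1 : (1 : ℝ) ≤ x := hx ▸ one_le_pow₀ hP1
  have hPT : (m : ℝ) ≤ T * r := by
    rw [← div_le_iff₀ hr0]
    refine le_trans ?_ hxT
    rw [hx]
    exact le_self_pow₀ hP1 (by omega)
  have hcount := hC r m hCr hPT
  have hrn : (0 : ℝ) < (r : ℝ) ^ n := by positivity
  have hxr : x * (r : ℝ) ^ n = (m : ℝ) ^ n := by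
    rw [hx, div_pow]
    exact div_mul_cancel₀ _ hrn.ne'
  have h3 : ((m : ℝ)) ^ n ≤ ((n.factorial * (m + n - 1).choose n : ℕ) : ℝ) := by
    rw [← Nat.ascFactorial_eq_factorial_mul_choose' m n]
    exact_mod_cast Nat.pow_succ_le_ascFactorial m n
  set s := ⌈x + δ⌉₊ with hs
  have hs2 : (s : ℝ) < x + δ + 1 := Nat.ceil_lt_add_one (by positivity)
  have hs1 : 0 < s := Nat.ceil_pos.2 (by positivity)
  -- the count for `d ≤ s`
  have hd : ∀ d : ℕ, d ≤ s →
      ((d * (n.factorial * ((r + n - 1).choose n + r * (m - r))) : ℕ) : ℝ) ≤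
        (d + δ) * (r : ℝ) ^ n := by
    intro d hds
    have h4 : (d : ℝ) ≤ T + δ + 1 := by
      have : (d : ℝ) ≤ s := by exact_mod_cast hds
      linarith
    rw [Nat.cast_mul]
    calc (d : ℝ) * ((n.factorial * ((r + n - 1).choose n + r * (m - r)) : ℕ) : ℝ) ≤
          d * ((1 + δ / (T + δ + 1)) * (r : ℝ) ^ n) :=
          mul_le_mul_of_nonneg_left hcount (Nat.cast_nonneg _)
      _ = (d + d * (δ / (T + δ + 1))) * (r : ℝ) ^ n := by ring
      _ ≤ (d + δ) * (r : ℝ) ^ n := by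
          refine mul_le_mul_of_nonneg_right ?_ hrn.le
          have h5 : (d : ℝ) * (δ / (T + δ + 1)) ≤ (T + δ + 1) * (δ / (T + δ + 1)) :=
            mul_le_mul_of_nonneg_right h4 (by positivity)
          rw [mul_div_cancel₀ _ hS0.ne'] at h5
          linarith
  constructor
  · intro d hdt
    have hds : d ≤ s := typical_sym_le hr hspan hdt
    refine ⟨?_, hds⟩
    have h4 := typical_sym_ge hr hdt
    have h5 : ((n.factorial * (m + n - 1).choose n : ℕ) : ℝ) ≤
        ((d * (n.factorial * ((r + n - 1).choose n + r * (m - r))) : ℕ) : ℝ) := by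
      have : n.factorial * (m + n - 1).choose n ≤
          d * (n.factorial * ((r + n - 1).choose n + r * (m - r))) := by
        calc _ ≤ n.factorial * (d * ((r + n - 1).choose n + r * (m - r))) :=
              Nat.mul_le_mul_left _ h4
          _ = _ := by ring
      exact_mod_cast this
    have h6 : x * (r : ℝ) ^ n ≤ (d + δ) * (r : ℝ) ^ n := by
      rw [hxr]
      exact h3.trans (h5.trans (hd d hds))
    have h7 : x ≤ d + δ := le_of_mul_le_mul_right h6 hrn
    exact Nat.ceil_le.2 (by linarith)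
  · intro heq
    have hle1 : ⌈x - δ⌉₊ ≤ ⌈x⌉₊ := Nat.ceil_le_ceil (by linarith)
    have hle2 : ⌈x⌉₊ ≤ s := Nat.ceil_le_ceil (by linarith)
    have hxs : ⌈x⌉₊ = s := le_antisymm hle2 (heq ▸ hle1)
    rw [hxs]
    refine typical_sym_eq hr hs1 hspan ?_
    have hlt : ((s - 1 : ℕ) : ℝ) < x - δ := by
      refine Nat.lt_ceil.1 ?_
      rw [heq]
      omega
    have h4 : (((s - 1) * (n.factorial * ((r + n - 1).choose n + r * (m - r))) : ℕ) : ℝ) <
        ((n.factorial * (m + n - 1).choose n : ℕ) : ℝ) := by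
      calc _ ≤ (((s - 1 : ℕ) : ℝ) + δ) * (r : ℝ) ^ n := hd (s - 1) (Nat.sub_le _ _)
        _ < x * (r : ℝ) ^ n := mul_lt_mul_of_pos_right (by linarith) hrn
        _ = (m : ℝ) ^ n := hxr
        _ ≤ _ := h3
    have h5 : (s - 1) * (n.factorial * ((r + n - 1).choose n + r * (m - r))) <
        n.factorial * (m + n - 1).choose n := by exact_mod_cast h4
    refine Nat.lt_of_mul_lt_mul_left (a := n.factorial) ?_
    calc n.factorial * ((s - 1) * ((r + n - 1).choose n + r * (m - r))) =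
          (s - 1) * (n.factorial * ((r + n - 1).choose n + r * (m - r))) := by ring
      _ < _ := h5

/-- Spanning for a small format of the same ratios. -/
theorem span_const (n : ℕ) (hn : 3 ≤ n) (T δ : ℝ) (hδ : 0 < δ) : ∃ C : ℕ, ∀ K D : ℕ,
    C ≤ D → 1 ≤ D ∧ D ≤ K → min n 5 * D ≤ K →
    ∀ x : ℝ, x = ((K : ℝ) / D) ^ n → x ≤ T →
      SpansT (fun _ : Fin n => K) (fun _ => D) ⌈x + δ⌉₊ := by
  classical
  have hmin0 : (0 : ℝ) < min δ (1 / 100) := lt_min hδ (by norm_num)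
  have hmin1 : min δ (1 / 100) ≤ δ := min_le_left _ _
  have hmin2 : min δ (1 / 100) ≤ (1 / 100 : ℝ) := min_le_right _ _
  obtain ⟨C0, hC0⟩ := box_general n T (min δ (1 / 100)) hmin0
  refine ⟨C0, fun K D hCD hD hreg x hx hxT => ?_⟩
  have hD0 : (0 : ℝ) < D := by exact_mod_cast hD.1
  have hx' : x = (∏ _i : Fin n, (K : ℝ)) / (∏ _i : Fin n, (D : ℝ)) := by
    rw [hx, Finset.prod_const, Finset.prod_const, Finset.card_univ, Fintype.card_fin, div_pow]
  have hmT : (∏ _i : Fin n, (K : ℝ)) ≤ T * ∏ _i : Fin n, (D : ℝ) := by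
    rw [hx', div_le_iff₀ (Finset.prod_pos fun _ _ => hD0)] at hxT
    exact hxT
  have h2 : x ≤ (⌈x + min δ (1 / 100)⌉₊ : ℝ) := by
    have := Nat.le_ceil (x + min δ (1 / 100))
    linarith
  have hspan : SpansT (fun _ : Fin n => K) (fun _ => D) ⌈x + min δ (1 / 100)⌉₊ := by
    by_cases h3 : n = 3
    · subst h3
      obtain ⟨h, hh1, hh2⟩ := exists_h_three (m := fun _ => K) (r := fun _ => D) (fun _ => hD)
        fun _ => hreg
      refine hC0 (fun _ => K) (fun _ => D) h 0 ∅ (fun _ => hD) hmT hCD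
        (Finset.notMem_empty _) (fun i hi => absurd hi (Finset.notMem_empty i))
        (fun i _ _ => Or.inr ⟨hCD, ?_⟩) x hx' (Or.inl ⟨rfl, ?_⟩)
      · refine le_trans ?_ (hh1 i)
        exact mul_le_mul_of_nonneg_right (by linarith) (sq_nonneg _)
      · rw [Finset.sdiff_empty]
        rw [← hx'] at hh2
        exact_mod_cast hh2.trans h2
    by_cases h4 : n = 4
    · subst h4
      obtain ⟨h, hh1, hh2⟩ := exists_h_four (m := fun _ => K) (r := fun _ => D) (fun _ => hD)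
        fun _ => hreg
      refine hC0 (fun _ => K) (fun _ => D) h 0 ∅ (fun _ => hD) hmT hCD
        (Finset.notMem_empty _) (fun i hi => absurd hi (Finset.notMem_empty i))
        (fun i _ _ => Or.inr ⟨hCD, ?_⟩) x hx' (Or.inl ⟨rfl, ?_⟩)
      · refine le_trans ?_ (hh1 i)
        exact mul_le_mul_of_nonneg_right (by linarith) (sq_nonneg _)
      · rw [Finset.sdiff_empty]
        rw [← hx'] at hh2
        exact_mod_cast hh2.trans h2
    · have h5 : min n 5 = 5 := min_eq_right (by omega)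
      rw [h5] at hreg
      let i₀ : Fin n := ⟨0, by omega⟩
      refine hC0 (fun _ => K) (fun _ => D) (fun _ => 1) i₀ (Finset.univ.erase i₀) (fun _ => hD) hmT
        hCD (Finset.notMem_erase _ _) (fun i _ => ⟨hCD, hreg⟩)
        (fun i hi hne => absurd (Finset.mem_erase.2 ⟨hne, Finset.mem_univ _⟩) hi) x hx'
        (Or.inr ?_)
      rw [Finset.sdiff_self, Finset.prod_empty, Nat.cast_one, mul_one, Finset.prod_const,
        Finset.card_erase_of_mem (Finset.mem_univ _), Finset.card_univ, Fintype.card_fin, hx]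
      have h1 : (3 / 2 : ℝ) ≤ (K : ℝ) / D := by
        rw [le_div_iff₀ hD0]
        have : (5 : ℝ) * D ≤ K := by exact_mod_cast hreg
        linarith
      obtain ⟨n', rfl⟩ : ∃ n', n = n' + 1 := ⟨n - 1, by omega⟩
      rw [Nat.add_sub_cancel, pow_succ, mul_comm]
      exact mul_le_mul_of_nonneg_left h1 (by positivity)
  exact spansT_mono (fun _ => hD.2) (Nat.ceil_le_ceil (by linarith)) hspan

end Pool.Agent.SubTwo
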