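import Pool.Agent.SubTwo.Gen

/-!
# The typical rank when the last factor is large
-/

open Module Submodule Set
open scoped LinearAlgebra.Projectivization Topology

namespace Pool.Agent.SubTwo

open Pool.Agent.SubTyp

theorem small_spans {n : ℕ} {m r : Fin n → ℕ} {s c : ℕ} (h : SpansT m r s)
    (hc : ∏ i, m i ≤ s * c) :
    ∃ (A : Fin s → (i : Fin n) → Submodule ℝ (Fin (m i) → ℝ)) (E : Fin s → Submodule ℝ (Ten m)),
      (∀ j i, finrank ℝ (A j i) = r i) ∧ (∀ j, E j ≤ boxT (A j)) ∧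
      (∀ j, finrank ℝ (E j) ≤ c) ∧ ⨆ j, E j = ⊤ := by
  obtain ⟨A, hA, htop⟩ := h
  have hdim : finrank ℝ (Ten m) = ∏ i, m i := by
    rw [finrank_pi, Fintype.card_pi]
    simp only [Fintype.card_fin]
  obtain ⟨B, E, h1, h2, h3, h4⟩ := exists_small
    {B : Submodule ℝ (Ten m) | ∃ A : (i : Fin n) → Submodule ℝ (Fin (m i) → ℝ),
      (∀ i, finrank ℝ (A i) = r i) ∧ B = boxT A} (by
      rintro _ ⟨A₁, h₁, rfl⟩ _ ⟨A₂, h₂, rfl⟩ X Y
      obtain ⟨A, hA1, hA2, hA3⟩ := box_conn A₁ A₂ h₁ h₂ X Y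
      exact ⟨_, ⟨A, hA1, rfl⟩, hA2, hA3⟩) (s := s) (c := c) (by rw [hdim]; exact hc)
    (fun j => boxT (A j)) (fun j => ⟨A j, hA j, rfl⟩) htop
  choose A' hA' hB using h1
  exact ⟨A', E, hA', fun j => by rw [← hB j]; exact h2 j, h3, h4⟩

variable {n : ℕ} {m : Fin (n + 1) → ℕ}

/-- a square part of the flattening -/
def sqM (ι : ((i : Fin n) → Fin (ini m i)) ↪ Fin (m (Fin.last n))) (T : Ten m) :
    Matrix ((i : Fin n) → Fin (ini m i)) ((i : Fin n) → Fin (ini m i)) ℝ :=
  Matrix.of fun t t' => slice (ι t') T t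

theorem full_of_det (ι : ((i : Fin n) → Fin (ini m i)) ↪ Fin (m (Fin.last n))) (T : Ten m)
    (h : (sqM ι T).det ≠ 0) : span ℝ (Set.range fun x => slice x T) = ⊤ := by
  classical
  rw [eq_top_iff]
  intro u _
  have h1 : (sqM ι T).mulVec ((sqM ι T)⁻¹.mulVec u) = u := by
    rw [Matrix.mulVec_mulVec, Matrix.mul_nonsing_inv _ (isUnit_iff_ne_zero.2 h),
      Matrix.one_mulVec]
  have h2 : u = ∑ t', ((sqM ι T)⁻¹.mulVec u) t' • slice (ι t') T := by
    funext t
    rw [Finset.sum_apply]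
    conv_lhs => rw [← h1]
    rw [Matrix.mulVec_eq_sum]
    rw [Finset.sum_apply]
    refine Finset.sum_congr rfl fun t' _ => ?_
    simp [sqM, mul_comm]
  rw [h2]
  exact Submodule.sum_mem _ fun t' _ => Submodule.smul_mem _ _ (subset_span ⟨ι t', rfl⟩)

theorem open_det (ι : ((i : Fin n) → Fin (ini m i)) ↪ Fin (m (Fin.last n))) :
    IsOpen {T : Ten m | (sqM ι T).det ≠ 0} := by
  have h1 : Continuous fun T : Ten m => (sqM ι T).det := by
    refine Continuous.matrix_det ?_
    refine continuous_matrix fun t t' => ?_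
    exact continuous_apply _
  exact isOpen_ne_fun h1 continuous_const

theorem dense_det (ι : ((i : Fin n) → Fin (ini m i)) ↪ Fin (m (Fin.last n))) :
    Dense {T : Ten m | (sqM ι T).det ≠ 0} := by
  classical
  intro T₀
  let T₁ : Ten m := unslice fun x => fun t => if ι t = x then 1 else 0
  have hT₁ : sqM ι T₁ = 1 := by
    ext t t'
    have : sqM ι T₁ t t' = slice (ι t') T₁ t := rfl
    rw [this, slice_unslice, Matrix.one_apply]
    simp only [ι.injective.eq_iff]
  have hlin : ∀ a : ℝ, sqM ι (T₀ + a • T₁) = a • 1 + sqM ι T₀ := by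
    intro a
    rw [← hT₁, add_comm]
    rfl
  have hfin : {a : ℝ | (sqM ι (T₀ + a • T₁)).det = 0}.Finite := by
    refine ((-(sqM ι T₀)).charpoly.rootSet_finite ℝ).subset fun a ha => ?_
    rw [mem_ofPred_eq, hlin] at ha
    rw [Polynomial.mem_rootSet]
    refine ⟨(Matrix.charpoly_monic _).ne_zero, ?_⟩
    rw [Polynomial.aeval_def, Algebra.algebraMap_self, Polynomial.eval₂_id,
      Matrix.eval_charpoly, sub_neg_eq_add]
    rw [← ha]
    congr 2
    rw [Matrix.scalar_apply, ← Matrix.smul_one_eq_diagonal]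
  have hd : Dense {a : ℝ | (sqM ι (T₀ + a • T₁)).det = 0}ᶜ := hfin.countable.dense_compl ℝ
  have hc : Continuous fun a : ℝ => T₀ + a • T₁ :=
    continuous_const.add (continuous_id.smul continuous_const)
  have h0 : (0 : ℝ) ∈ closure {a : ℝ | (sqM ι (T₀ + a • T₁)).det = 0}ᶜ := hd 0
  have h1 := image_closure_subset_closure_image hc ⟨0, h0, rfl⟩
  simp only [zero_smul, add_zero] at h1
  refine closure_mono ?_ h1
  rintro _ ⟨a, ha, rfl⟩
  exact ha

theorem boxT_ne_bot {n : ℕ} {m r : Fin n → ℕ} (hr : ∀ i, 1 ≤ r i) (A : FamT m r) :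
    famK m r A ≠ ⊥ := by
  have h1 : ∀ i, ∃ v ∈ A.1 i, v ≠ 0 := by
    intro i
    refine Submodule.exists_mem_ne_zero_of_ne_bot fun h => ?_
    have h2 := A.2 i
    rw [h, finrank_bot] at h2
    have := hr i
    omega
  choose v hv hv0 using h1
  intro h
  have h2 : pureT v ∈ famK m r A := subset_span ⟨v, hv, rfl⟩
  rw [h, Submodule.mem_bot] at h2
  have h3 : ∀ i, ∃ x, v i x ≠ 0 := fun i => Function.ne_iff.1 (hv0 i)
  choose x hx using h3
  have h4 := congrFun h2 x
  exact (Finset.prod_ne_zero_iff.2 fun i _ => hx i) h4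

/-- **The typical rank when the last factor is large.** -/
theorem typical_unb {r : Fin (n + 1) → ℕ} (hr : ∀ i, 1 ≤ r i ∧ r i ≤ m i)
    (hbig : ∏ i : Fin n, m i.castSucc ≤ m (Fin.last n)) {R : ℕ}
    (hR : IsLeast {s | SpansT (ini m) (ini r) s ∧
      ∏ i : Fin n, m i.castSucc ≤ s * r (Fin.last n)} R) (d : ℕ) :
    IsTypicalRank (SubVar m r) d ↔ d = R := by
  classical
  rw [subVar_eq]
  obtain ⟨A0⟩ := nonempty_fam (m := m) (r := r) fun i => (hr i).2
  have hK : ∃ A, famK m r A ≠ ⊥ := ⟨A0, boxT_ne_bot (fun i => (hr i).1) A0⟩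
  have hne : Nonempty (FamT m r) := ⟨A0⟩
  obtain ⟨ι⟩ : Nonempty (((i : Fin n) → Fin (ini m i)) ↪ Fin (m (Fin.last n))) := by
    rw [Function.Embedding.nonempty_iff_card_le, Fintype.card_pi]
    simp only [Fintype.card_fin]
    exact hbig
  obtain ⟨⟨hR1, hR2⟩, hR3⟩ := hR
  have hup : ∀ T : Ten m, T ∈ RankLE (famK m r) R := by
    obtain ⟨A, E, h1, h2, h3, h4⟩ := small_spans hR1 (c := r (Fin.last n)) hR2
    exact fun T => all_rankLE (fun i => (hr i).2) A h1 E h2 h3 h4 T
  have hlow : ∀ s, s < R → ∀ T : Ten m, (sqM ι T).det ≠ 0 → T ∉ RankLE (famK m r) s := by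
    intro s hs T hT hcon
    have h1 := full_of_det ι T hT
    have := hR3 ⟨spans_of_rankLE hcon h1, le_of_rankLE hcon h1⟩
    omega
  have hR0 : R ≠ 0 := by
    rintro rfl
    obtain ⟨A, -, htop⟩ := hR1
    rw [iSup_of_empty] at htop
    have h1 : Nonempty ((i : Fin n) → Fin (ini m i)) := by
      refine ⟨fun i => ⟨0, ?_⟩⟩
      have := hr i.castSucc
      change 0 < m i.castSucc
      omega
    have h2 : Nontrivial (Ten (ini m)) := by
      obtain ⟨x⟩ := h1
      exact ⟨0, Pi.single x 1, fun h => by simpa using congrFun h x⟩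
    exact bot_ne_top htop
  obtain ⟨s, rfl⟩ : ∃ s, R = s + 1 := ⟨R - 1, by omega⟩
  constructor
  · intro hd
    have h1 : d ≤ s + 1 := typical_le _ hK (by
      have : RankLE (famK m r) (s + 1) = Set.univ := Set.eq_univ_of_forall hup
      rw [this]
      exact dense_univ) hd
    have h2 : s < d := lt_typical _ hK ((dense_det ι).mono fun T hT =>
      hlow s (by omega) T hT) hd
    omega
  · rintro rfl
    refine typical_of_open _ hK (open_det ι) ?_ (fun T _ => hup T) fun T hT =>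
      hlow s (by omega) T hT
    exact (dense_det ι).nonempty

end Pool.Agent.SubTwo
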