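import Pool.Agent.SubTwo.Unif1

/-!
# Large formats: the bound for the box number
-/

open Module Submodule Set

namespace Pool.Agent.SubTwo

open Pool.Agent.SubTyp

/-- The data of one factor of the small format. -/
theorem exists_factor (T δ ε : ℝ) (hT : 1 ≤ T) (hε : 0 < ε) (hεδ : (1 + ε) ^ 2 ≤ 1 + δ) :
    ∃ D K : ℕ, 1 ≤ K ∧ ∀ m r h : ℕ, ∀ f : Prop, 1 ≤ r → r ≤ m → (m : ℝ) ≤ T * r →
      (f → 5 * r ≤ m) → (¬ f → h * r = m ∨ (1 + δ) * (m : ℝ) ^ 2 ≤ h * r * (m - r)) →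
      ∃ m' r' : ℕ, (1 ≤ r' ∧ r' ≤ m') ∧ m' ≤ K ∧ r' ≤ K ∧
        (m' : ℝ) * r ≤ (1 + ε) * (m * r') ∧ (f → 5 * r' ≤ m') ∧
        (¬ f → h * r' = m' ∨ m' ^ 2 ≤ h * r' * (m' - r')) ∧
        ∀ c, 1 ≤ c → (¬ f → c = 1) → ((¬ f → ¬ h * r = m) → c * D ≤ r) →
          ∃ w, m ≤ w * (c * m') ∧ w * (c * r') ≤ r := by
  classical
  obtain ⟨L, D, K, hL1, hLK, hTK, happ⟩ := exists_approx T ε hT hε
  refine ⟨D, K, hL1.trans hLK, fun m r h f hr hrm hmT hf hnf => ?_⟩
  have hr0 : (0 : ℝ) < r := by exact_mod_cast hr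
  have hrm' : (r : ℝ) ≤ m := by exact_mod_cast hrm
  have hm0 : (0 : ℝ) < m := by linarith
  by_cases hdiv : ¬ f ∧ h * r = m
  · obtain ⟨hf', hh⟩ := hdiv
    have hh0 : 1 ≤ h := by
      rcases Nat.eq_zero_or_pos h with h0 | h0
      · rw [h0, zero_mul] at hh
        omega
      · exact h0
    have h1 : (h : ℝ) * r = m := by exact_mod_cast hh
    refine ⟨h, 1, ⟨le_rfl, hh0⟩, ?_, hL1.trans hLK, ?_, fun hf'' => absurd hf'' hf',
      fun _ => Or.inl (mul_one h), fun c _ hc1 _ => ⟨r, ?_, ?_⟩⟩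
    · have h2 : (h : ℝ) ≤ T := by
        have : (h : ℝ) * r ≤ T * r := by rw [h1]; exact hmT
        exact le_of_mul_le_mul_right this hr0
      exact_mod_cast h2.trans hTK
    · rw [h1, Nat.cast_one, mul_one]
      nlinarith
    · rw [hc1 hf', one_mul, mul_comm]
      exact hh.ge
    · rw [hc1 hf', one_mul, mul_one]
  · obtain ⟨m', hLm, hmK, hge, hle, hroom⟩ := happ m r hr hrm hmT
    have hL0 : (0 : ℝ) < L := by exact_mod_cast hL1
    have hndiv : ¬ f → ¬ h * r = m := fun h1 h2 => hdiv ⟨h1, h2⟩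
    refine ⟨m', L, ⟨hL1, hLm⟩, hmK, hLK, hle, fun hf' => ?_, fun hf' => Or.inr ?_,
      fun c hc _ hcD => hroom c hc (hcD hndiv)⟩
    · have h1 : (5 : ℝ) * r ≤ m := by exact_mod_cast hf hf'
      have h2 : (5 * L : ℝ) * r ≤ m' * r := by
        calc (5 * L : ℝ) * r = (5 * r) * L := by ring
          _ ≤ m * L := mul_le_mul_of_nonneg_right h1 hL0.le
          _ ≤ _ := hge
      have h3 := le_of_mul_le_mul_right h2 hr0
      exact_mod_cast h3
    · have hcase := (hnf hf').resolve_left (hndiv hf')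
      have hh0 : (0 : ℝ) ≤ h := Nat.cast_nonneg _
      have h3 : (m' : ℝ) ^ 2 ≤ h * L * (m' - L) := by
        have h4 : (m' : ℝ) ^ 2 * r ^ 2 ≤ h * L * (m' - L) * r ^ 2 := by
          calc (m' : ℝ) ^ 2 * r ^ 2 = (m' * r) ^ 2 := by ring
            _ ≤ ((1 + ε) * (m * L)) ^ 2 := pow_le_pow_left₀ (by positivity) hle 2
            _ = (1 + ε) ^ 2 * ((m : ℝ) ^ 2 * L ^ 2) := by ring
            _ ≤ (1 + δ) * ((m : ℝ) ^ 2 * L ^ 2) :=
                mul_le_mul_of_nonneg_right hεδ (by positivity)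
            _ = ((1 + δ) * (m : ℝ) ^ 2) * L ^ 2 := by ring
            _ ≤ (h * r * (m - r)) * L ^ 2 := mul_le_mul_of_nonneg_right hcase (by positivity)
            _ = (h * r * L) * (m * L - L * r) := by ring
            _ ≤ (h * r * L) * (m' * r - L * r) :=
                mul_le_mul_of_nonneg_left (by linarith) (by positivity)
            _ = _ := by ring
        exact le_of_mul_le_mul_right h4 (by positivity)
      have h4 : ((m' ^ 2 : ℕ) : ℝ) ≤ ((h * L * (m' - L) : ℕ) : ℝ) := by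
        push_cast [Nat.cast_sub hLm]
        exact h3
      exact_mod_cast h4

/-- **The bound for the box number of large formats.** -/
theorem box_general (n : ℕ) (T δ : ℝ) (hδ : 0 < δ) : ∃ C : ℕ, ∀ (m r h : Fin n → ℕ)
    (i₀ : Fin n) (F : Finset (Fin n)), (∀ i, 1 ≤ r i ∧ r i ≤ m i) →
    (∏ i, (m i : ℝ)) ≤ T * ∏ i, (r i : ℝ) → C ≤ r i₀ → i₀ ∉ F →
    (∀ i ∈ F, C ≤ r i ∧ 5 * r i ≤ m i) → (∀ i, i ∉ F → i ≠ i₀ → h i * r i = m i ∨
      C ≤ r i ∧ (1 + δ) * (m i : ℝ) ^ 2 ≤ h i * r i * (m i - r i)) →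
    ∀ x : ℝ, x = (∏ i, (m i : ℝ)) / (∏ i, (r i : ℝ)) →
    ((F = ∅ ∧ ∏ i ∈ Finset.univ.erase i₀ \ F, h i ≤ ⌈x + δ⌉₊) ∨
      3 / 2 * (∏ i ∈ F, ((m i : ℝ) / r i)) *
        ((∏ i ∈ Finset.univ.erase i₀ \ F, h i : ℕ) : ℝ) ≤ x) →
    SpansT m r ⌈x + δ⌉₊ := by
  classical
  by_cases hT : 1 ≤ T
  swap
  · refine ⟨0, fun m r h i₀ F hr hmT _ _ _ _ _ _ _ => ?_⟩
    exfalso
    have h1 : (0 : ℝ) < ∏ i, (r i : ℝ) := Finset.prod_pos fun i _ => by
      have := (hr i).1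
      exact_mod_cast this
    have h2 : ∏ i, (r i : ℝ) ≤ ∏ i, (m i : ℝ) :=
      Finset.prod_le_prod (fun i _ => Nat.cast_nonneg _) fun i _ => by
        exact_mod_cast (hr i).2
    push Not at hT
    nlinarith
  -- constants
  have hT0 : (0 : ℝ) < T := by linarith
  set ε : ℝ := min 1 (min (δ / (2 * T * 2 ^ n)) (δ / 3)) with hεdef
  have hε0 : 0 < ε := lt_min one_pos (lt_min (by positivity) (by positivity))
  have hε1 : ε ≤ 1 := min_le_left _ _
  have hε2 : ε ≤ δ / (2 * T * 2 ^ n) := (min_le_right _ _).trans (min_le_left _ _)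
  have hε3 : ε ≤ δ / 3 := (min_le_right _ _).trans (min_le_right _ _)
  have hεδ : (1 + ε) ^ 2 ≤ 1 + δ := by nlinarith
  have hpow : (1 + ε) ^ n ≤ 1 + δ / (2 * T) := by
    refine (one_add_pow_le n hε0.le hε1).trans ?_
    have h1 : (2 ^ n - 1) * ε ≤ 2 ^ n * (δ / (2 * T * 2 ^ n)) := by
      have h2 : (0 : ℝ) < 2 ^ n := by positivity
      have h3 : (2 ^ n - 1) * ε ≤ 2 ^ n * ε := by nlinarith
      exact h3.trans (mul_le_mul_of_nonneg_left hε2 h2.le)
    have h2 : (2 : ℝ) ^ n * (δ / (2 * T * 2 ^ n)) = δ / (2 * T) := by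
      field_simp
    linarith
  obtain ⟨D, K1, hK1, hfac⟩ := exists_factor T δ ε hT hε0 hεδ
  set η : ℝ := δ / (2 * (T + δ)) with hη
  have hη0 : 0 < η := by positivity
  have hηδ : (1 - η) * (1 + δ / T) = 1 + δ / (2 * T) := by
    rw [hη]
    field_simp
    ring
  have hη1 : 0 ≤ 1 - η := by
    rw [hη, sub_nonneg, div_le_one (by positivity)]
    linarith
  obtain ⟨S1, hS1⟩ := exists_nat_gt (T + δ + 1)
  obtain ⟨B, hB⟩ := perf_bdd n (max K1 S1)
  obtain ⟨C2, hC2⟩ := exists_nat_gt ((B : ℝ) * (K1 : ℝ) ^ n / η)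
  refine ⟨max ((B + 1) * D) C2, fun m r h i₀ F hr hmT hC0 hi₀F hF hcase x hx hnum => ?_⟩
  have hr0 : ∀ i, (0 : ℝ) < r i := fun i => by
    have := (hr i).1
    exact_mod_cast this
  have hm0 : ∀ i, (0 : ℝ) < m i := fun i => by
    have := (hr i).1.trans (hr i).2
    exact_mod_cast this
  have hR0 : (0 : ℝ) < ∏ i, (r i : ℝ) := Finset.prod_pos fun i _ => hr0 i
  have hM0 : (0 : ℝ) < ∏ i, (m i : ℝ) := Finset.prod_pos fun i _ => hm0 i
  have hx0 : 0 < x := by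
    rw [hx]
    exact div_pos hM0 hR0
  have hxT : x ≤ T := by
    rw [hx, div_le_iff₀ hR0]
    exact hmT
  have hxR : x * ∏ i, (r i : ℝ) = ∏ i, (m i : ℝ) := by
    rw [hx]
    exact div_mul_cancel₀ _ hR0.ne'
  set s := ⌈x + δ⌉₊ with hs
  have hs1 : x + δ ≤ s := Nat.le_ceil _
  have hs2 : (s : ℝ) < x + δ + 1 := Nat.ceil_lt_add_one (by positivity)
  have hsS : s ≤ max K1 S1 := by
    have h1 : (s : ℝ) ≤ S1 := by linarith
    exact le_max_of_le_right (by exact_mod_cast h1)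
  -- each ratio is at most `T`
  have hmi : ∀ i, (m i : ℝ) ≤ T * r i := by
    intro i
    have h1 : (∏ j ∈ Finset.univ.erase i, (r j : ℝ)) ≤ ∏ j ∈ Finset.univ.erase i, (m j : ℝ) :=
      Finset.prod_le_prod (fun j _ => Nat.cast_nonneg _) fun j _ => by
        exact_mod_cast (hr j).2
    have h2 : (0 : ℝ) < ∏ j ∈ Finset.univ.erase i, (r j : ℝ) :=
      Finset.prod_pos fun j _ => hr0 j
    rw [← Finset.mul_prod_erase _ _ (Finset.mem_univ i),
      ← Finset.mul_prod_erase _ (fun j => (r j : ℝ)) (Finset.mem_univ i)] at hmT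
    have h3 : (m i : ℝ) * ∏ j ∈ Finset.univ.erase i, (r j : ℝ) ≤
        T * r i * ∏ j ∈ Finset.univ.erase i, (r j : ℝ) := by
      calc _ ≤ (m i : ℝ) * ∏ j ∈ Finset.univ.erase i, (m j : ℝ) :=
            mul_le_mul_of_nonneg_left h1 (hm0 i).le
        _ ≤ _ := by linarith
    exact le_of_mul_le_mul_right h3 h2
  -- the small format
  have hdata : ∀ i, ∃ m' r' : ℕ, (1 ≤ r' ∧ r' ≤ m') ∧ m' ≤ K1 ∧ r' ≤ K1 ∧ (i ≠ i₀ →
      ((m' : ℝ) * r i ≤ (1 + ε) * (m i * r') ∧ (i ∈ F → 5 * r' ≤ m') ∧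
      (i ∉ F → h i * r' = m' ∨ m' ^ 2 ≤ h i * r' * (m' - r')) ∧
      ∀ c, 1 ≤ c → (i ∉ F → c = 1) → c ≤ B + 1 →
        ∃ w, m i ≤ w * (c * m') ∧ w * (c * r') ≤ r i)) := by
    intro i
    by_cases hi : i = i₀
    · exact ⟨1, 1, ⟨le_rfl, le_rfl⟩, hK1, hK1, fun h' => absurd hi h'⟩
    · obtain ⟨m', r', h1, h2, h3, h4, h5, h6, h7⟩ := hfac (m i) (r i) (h i) (i ∈ F) (hr i).1
        (hr i).2 (hmi i) (fun hiF => (hF i hiF).2)
        (fun hiF => (hcase i hiF hi).imp_right fun h' => h'.2)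
      refine ⟨m', r', h1, h2, h3, fun _ => ⟨h4, h5, h6, fun c hc hc1 hcB => h7 c hc hc1 ?_⟩⟩
      intro hnd
      have hDr : (B + 1) * D ≤ r i := by
        by_cases hiF : i ∈ F
        · exact (le_max_left _ _).trans (hF i hiF).1
        · exact (le_max_left _ _).trans ((hcase i hiF hi).resolve_left (hnd hiF)).1
      exact (Nat.mul_le_mul_right _ hcB).trans hDr
  choose m' r' hr' hm'K hr'K hd using hdata
  set Mp := ∏ a ∈ Finset.univ.erase i₀, m' a with hMp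
  set Rp := ∏ a ∈ Finset.univ.erase i₀, r' a with hRp
  set Mi : ℝ := ∏ a ∈ Finset.univ.erase i₀, (m a : ℝ) with hMi
  set Ri : ℝ := ∏ a ∈ Finset.univ.erase i₀, (r a : ℝ) with hRi
  have hRi0 : 0 < Ri := Finset.prod_pos fun a _ => hr0 a
  have eM : ∏ i, (m i : ℝ) = m i₀ * Mi := (Finset.mul_prod_erase _ _ (Finset.mem_univ i₀)).symm
  have eR : ∏ i, (r i : ℝ) = r i₀ * Ri := (Finset.mul_prod_erase _ _ (Finset.mem_univ i₀)).symm
  have hMp0 : 0 < Mp := Finset.prod_pos fun a _ => lt_of_lt_of_le (hr' a).1 (hr' a).2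
  have hcardn : ∀ G : Finset (Fin n), G.card ≤ n := fun G => by
    refine (Finset.card_le_univ _).trans ?_
    rw [Fintype.card_fin]
  have hr'0 : ∀ i, (0 : ℝ) < r' i := fun i => by exact_mod_cast (hr' i).1
  -- the perfect family
  have hperf : Perf i₀ F (Finset.univ.erase i₀) m' r' s := by
    refine perf_all (h := h) hr' hi₀F (fun a ha => ?_) (fun a haF ha0 => ?_) ?_
    · exact (hd a fun h' => hi₀F (h' ▸ ha)).2.1 ha
    · exact (hd a ha0).2.2.1 haF
    · rcases hnum with hnum | hnum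
      · exact Or.inl hnum
      · right
        have h1 : ∏ a ∈ F, ((m' a : ℝ) / r' a) ≤
            (1 + δ / (2 * T)) * ∏ a ∈ F, ((m a : ℝ) / r a) := by
          calc ∏ a ∈ F, ((m' a : ℝ) / r' a) ≤ ∏ a ∈ F, ((1 + ε) * ((m a : ℝ) / r a)) := by
                refine Finset.prod_le_prod (fun a _ => by positivity) fun a ha => ?_
                have h2 := (hd a fun h' => hi₀F (h' ▸ ha)).1
                rw [div_le_iff₀ (hr'0 a), mul_assoc, div_mul_eq_mul_div, mul_div_assoc',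
                  le_div_iff₀ (hr0 a)]
                exact h2
            _ = (1 + ε) ^ F.card * ∏ a ∈ F, ((m a : ℝ) / r a) := by
                rw [Finset.prod_mul_distrib, Finset.prod_const]
            _ ≤ _ := by
                refine mul_le_mul_of_nonneg_right ?_ (Finset.prod_nonneg fun a _ => by positivity)
                exact (pow_le_pow_right₀ (by linarith) (hcardn F)).trans hpow
        have h2 : (0 : ℝ) ≤ ((∏ i ∈ Finset.univ.erase i₀ \ F, h i : ℕ) : ℝ) :=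
          Nat.cast_nonneg _
        calc 3 / 2 * (∏ a ∈ F, ((m' a : ℝ) / r' a)) *
              ((∏ i ∈ Finset.univ.erase i₀ \ F, h i : ℕ) : ℝ) ≤
              3 / 2 * ((1 + δ / (2 * T)) * ∏ a ∈ F, ((m a : ℝ) / r a)) *
              ((∏ i ∈ Finset.univ.erase i₀ \ F, h i : ℕ) : ℝ) :=
              mul_le_mul_of_nonneg_right (mul_le_mul_of_nonneg_left h1 (by norm_num)) h2
          _ = (1 + δ / (2 * T)) * (3 / 2 * (∏ a ∈ F, ((m a : ℝ) / r a)) *
              ((∏ i ∈ Finset.univ.erase i₀ \ F, h i : ℕ) : ℝ)) := by ring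
          _ ≤ (1 + δ / (2 * T)) * x := mul_le_mul_of_nonneg_left hnum (by positivity)
          _ ≤ x + δ := by
              have h3 : δ / (2 * T) * x ≤ δ := by
                rw [div_mul_eq_mul_div, div_le_iff₀ (by positivity)]
                nlinarith
              linarith
          _ ≤ s := hs1
  obtain ⟨c, hc1, hcF, hcB, hspan⟩ := hB i₀ F m' r' s
    (fun i => (hm'K i).trans (le_max_left _ _)) (fun i => (hr'K i).trans (le_max_left _ _))
    hsS hperf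
  have hw : ∀ i, ∃ w, i ≠ i₀ → m i ≤ w * (c i * m' i) ∧ w * (c i * r' i) ≤ r i := by
    intro i
    by_cases hi : i = i₀
    · exact ⟨0, fun h' => absurd hi h'⟩
    · obtain ⟨w, hw⟩ := (hd i hi).2.2.2 (c i) (hc1 i) (fun hiF => hcF i hiF hi)
        ((hcB i).trans (Nat.le_succ B))
      exact ⟨w, fun _ => hw⟩
  choose w hw using hw
  -- the bound for the last factor
  have hMpK : (Mp : ℝ) ≤ (K1 : ℝ) ^ n := by
    have h1 : (Mp : ℝ) = ∏ a ∈ Finset.univ.erase i₀, (m' a : ℝ) := by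
      rw [hMp]
      push_cast
      rfl
    rw [h1]
    calc ∏ a ∈ Finset.univ.erase i₀, (m' a : ℝ) ≤
          ∏ _a ∈ Finset.univ.erase i₀, (K1 : ℝ) :=
          Finset.prod_le_prod (fun a _ => Nat.cast_nonneg _) fun a ha => by
            exact_mod_cast hm'K a
      _ = (K1 : ℝ) ^ (Finset.univ.erase i₀).card := by rw [Finset.prod_const]
      _ ≤ _ := pow_le_pow_right₀ (by exact_mod_cast hK1) (hcardn _)
  have hKη : ((c i₀ * Mp : ℕ) : ℝ) ≤ η * r i₀ := by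
    have h1 : ((c i₀ * Mp : ℕ) : ℝ) ≤ (B : ℝ) * (K1 : ℝ) ^ n := by
      push_cast
      exact mul_le_mul (by exact_mod_cast hcB i₀) hMpK (Nat.cast_nonneg _) (Nat.cast_nonneg _)
    have h2 : (C2 : ℝ) ≤ r i₀ := by exact_mod_cast (le_max_right _ _).trans hC0
    rw [div_lt_iff₀ hη0] at hC2
    nlinarith
  have hratio : (Mp : ℝ) * Ri ≤ (1 + δ / (2 * T)) * (Mi * Rp) := by
    have h1 : (Mp : ℝ) * Ri = ∏ a ∈ Finset.univ.erase i₀, ((m' a : ℝ) * r a) := by
      rw [Finset.prod_mul_distrib, hMp]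
      push_cast
      rfl
    have h2 : Mi * (Rp : ℝ) = ∏ a ∈ Finset.univ.erase i₀, ((m a : ℝ) * r' a) := by
      rw [Finset.prod_mul_distrib, hRp]
      push_cast
      rfl
    rw [h1, h2]
    calc ∏ a ∈ Finset.univ.erase i₀, ((m' a : ℝ) * r a) ≤
          ∏ a ∈ Finset.univ.erase i₀, ((1 + ε) * ((m a : ℝ) * r' a)) :=
          Finset.prod_le_prod (fun a _ => by positivity) fun a ha =>
            (hd a (Finset.ne_of_mem_erase ha)).1
      _ = (1 + ε) ^ (Finset.univ.erase i₀).card *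
          ∏ a ∈ Finset.univ.erase i₀, ((m a : ℝ) * r' a) := by
          rw [Finset.prod_mul_distrib, Finset.prod_const]
      _ ≤ _ := by
          refine mul_le_mul_of_nonneg_right ?_ (Finset.prod_nonneg fun a _ => by positivity)
          exact (pow_le_pow_right₀ (by linarith) (hcardn _)).trans hpow
  set t := r i₀ / (c i₀ * Mp) with ht
  have hK0 : 0 < c i₀ * Mp := Nat.mul_pos (hc1 i₀) hMp0
  have hKt : (r i₀ : ℝ) - ((c i₀ * Mp : ℕ) : ℝ) ≤ (t : ℝ) * ((c i₀ * Mp : ℕ) : ℝ) := by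
    have h1 : r i₀ < (c i₀ * Mp) * (t + 1) := Nat.lt_mul_div_succ _ hK0
    have h2 : (r i₀ : ℝ) < ((c i₀ * Mp : ℕ) : ℝ) * ((t : ℝ) + 1) := by exact_mod_cast h1
    linarith
  have hfin : (m i₀ : ℝ) * (Mp * Ri) ≤ (t : ℝ) * (c i₀ * (s * Rp)) * (Mp * Ri) := by
    have h1 : (1 + δ / T) * (m i₀ * Mi) ≤ (s : ℝ) * (r i₀ * Ri) := by
      have h2 : x * (r i₀ * Ri) = m i₀ * Mi := by
        rw [← eM, ← eR]
        exact hxR
      have h3 : x * (δ / T) ≤ δ := by
        rw [mul_div_assoc', div_le_iff₀ hT0]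
        nlinarith
      have h4 : (1 + δ / T) * x ≤ s := by nlinarith
      calc (1 + δ / T) * (m i₀ * Mi) = (1 + δ / T) * x * (r i₀ * Ri) := by rw [← h2]; ring
        _ ≤ _ := mul_le_mul_of_nonneg_right h4 (by have := hr0 i₀; positivity)
    have h5 : (1 - η) * r i₀ ≤ (t : ℝ) * ((c i₀ * Mp : ℕ) : ℝ) := by linarith
    calc (m i₀ : ℝ) * (Mp * Ri) ≤ m i₀ * ((1 + δ / (2 * T)) * (Mi * Rp)) :=
          mul_le_mul_of_nonneg_left hratio (hm0 i₀).le
      _ = (1 - η) * ((1 + δ / T) * (m i₀ * Mi)) * Rp := by rw [← hηδ]; ring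
      _ ≤ (1 - η) * ((s : ℝ) * (r i₀ * Ri)) * Rp :=
          mul_le_mul_of_nonneg_right (mul_le_mul_of_nonneg_left h1 hη1) (Nat.cast_nonneg _)
      _ = ((1 - η) * r i₀) * ((s : ℝ) * Ri * Rp) := by ring
      _ ≤ ((t : ℝ) * ((c i₀ * Mp : ℕ) : ℝ)) * ((s : ℝ) * Ri * Rp) :=
          mul_le_mul_of_nonneg_right h5 (by positivity)
      _ = _ := by
          push_cast
          ring
  have hpos : (0 : ℝ) < Mp * Ri := by
    have : (0 : ℝ) < Mp := by exact_mod_cast hMp0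
    positivity
  have hlast : m i₀ ≤ t * (c i₀ * (s * Rp)) := by
    have := le_of_mul_le_mul_right hfin hpos
    exact_mod_cast this
  refine spansT_of_spM (fun i => (hr i).2) (spM_blow (fun i => if i = i₀ then t else w i) hspan
    (fun i => ?_) (fun i => ?_))
  · beta_reduce
    by_cases hi : i = i₀
    · rw [if_pos hi, hi, pm_zero]
      exact hlast
    · rw [if_neg hi, pm_in hi (Finset.mem_erase.2 ⟨hi, Finset.mem_univ i⟩)]
      exact (hw i hi).1
  · beta_reduce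
    by_cases hi : i = i₀
    · rw [if_pos hi, hi, pr_zero]
      exact Nat.div_mul_le_self _ _
    · rw [if_neg hi, pr_in hi (Finset.mem_erase.2 ⟨hi, Finset.mem_univ i⟩)]
      exact (hw i hi).2

end Pool.Agent.SubTwo
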