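import Pool.Agent.SubTwo.Unif2

/-!
# Typical ranks of large formats
-/

open Module Submodule Set

namespace Pool.Agent.SubTwo

open Pool.Agent.SubTyp

/-- Typical ranks from a bound for the box number. -/
theorem typical_of_span (n : ℕ) (T δ : ℝ) (hδ : 0 < δ) : ∃ C : ℕ, ∀ m r : Fin n → ℕ,
    (∀ i, 1 ≤ r i ∧ r i ≤ m i) → ∀ x : ℝ, x = (∏ i, (m i : ℝ)) / (∏ i, (r i : ℝ)) → x ≤ T →
    SpansT m r ⌈x + δ⌉₊ → (∀ i, C * (r i * (m i - r i)) ≤ ∏ i, r i) →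
      (∀ d, IsTypicalRank (SubVar m r) d → ⌈x - δ⌉₊ ≤ d ∧ d ≤ ⌈x + δ⌉₊) ∧
      (⌈x - δ⌉₊ = ⌈x + δ⌉₊ → {d : ℕ | IsTypicalRank (SubVar m r) d} = {⌈x⌉₊}) := by
  classical
  obtain ⟨C3, hC3⟩ := exists_nat_gt ((T + δ + 1) * n / δ)
  refine ⟨C3, fun m r hr x hx hxT hspan hCs => ?_⟩
  have hB : boxNumber m r ≤ ⌈x + δ⌉₊ := (boxNumber_isLeast hr).2 hspan
  have hR0 : (0 : ℝ) < ∏ i, (r i : ℝ) := Finset.prod_pos fun i _ => by
    have := (hr i).1
    exact_mod_cast this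
  have hM0 : (0 : ℝ) < ∏ i, (m i : ℝ) := Finset.prod_pos fun i _ => by
    have := (hr i).1.trans (hr i).2
    exact_mod_cast this
  have hxR : x * ∏ i, (r i : ℝ) = ∏ i, (m i : ℝ) := by
    rw [hx]
    exact div_mul_cancel₀ _ hR0.ne'
  have hx0 : 0 < x := by
    rw [hx]
    exact div_pos hM0 hR0
  set s := ⌈x + δ⌉₊ with hs
  have hs1 : x + δ ≤ s := Nat.le_ceil _
  have hs2 : (s : ℝ) < x + δ + 1 := Nat.ceil_lt_add_one (by positivity)
  have eR : ((∏ i, r i : ℕ) : ℝ) = ∏ i, (r i : ℝ) := by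
    push_cast
    rfl
  have eM : ((∏ i, m i : ℕ) : ℝ) = ∏ i, (m i : ℝ) := by
    push_cast
    rfl
  -- the sum is small
  set S := ∑ i, r i * (m i - r i) with hS
  have hSR : (s : ℝ) * S ≤ δ * ∏ i, (r i : ℝ) := by
    have h1 : C3 * S ≤ n * ∏ i, r i := by
      rw [hS, Finset.mul_sum]
      calc ∑ i, C3 * (r i * (m i - r i)) ≤ ∑ _i : Fin n, ∏ i, r i :=
            Finset.sum_le_sum fun i _ => hCs i
        _ = _ := by rw [Finset.sum_const, Finset.card_univ, Fintype.card_fin, smul_eq_mul]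
    have h2 : (C3 : ℝ) * S ≤ n * ∏ i, (r i : ℝ) := by
      have : ((C3 * S : ℕ) : ℝ) ≤ ((n * ∏ i, r i : ℕ) : ℝ) := by exact_mod_cast h1
      push_cast at this
      exact this
    have h3 : (T + δ + 1) * n < C3 * δ := by
      rw [div_lt_iff₀ hδ] at hC3
      exact hC3
    have hS0 : (0 : ℝ) ≤ S := Nat.cast_nonneg _
    rcases Nat.eq_zero_or_pos n with hn | hn
    · subst hn
      have : S = 0 := by
        rw [hS]
        exact Finset.sum_of_isEmpty _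
      rw [this, Nat.cast_zero, mul_zero]
      positivity
    have hn0 : (0 : ℝ) < n := by exact_mod_cast hn
    -- multiply by `n`
    have h4 : (n : ℝ) * (s * S) ≤ n * (δ * ∏ i, (r i : ℝ)) := by
      calc (n : ℝ) * (s * S) ≤ n * ((T + δ + 1) * S) := by
            refine mul_le_mul_of_nonneg_left (mul_le_mul_of_nonneg_right ?_ hS0) hn0.le
            linarith
        _ = ((T + δ + 1) * n) * S := by ring
        _ ≤ (C3 * δ) * S := mul_le_mul_of_nonneg_right h3.le hS0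
        _ = δ * (C3 * S) := by ring
        _ ≤ δ * (n * ∏ i, (r i : ℝ)) := mul_le_mul_of_nonneg_left h2 hδ.le
        _ = _ := by ring
    exact le_of_mul_le_mul_left h4 hn0
  constructor
  · intro d hd
    obtain ⟨h1, h2⟩ := typical_bounds hr hd
    have hds : d ≤ s := h1.trans hB
    refine ⟨?_, hds⟩
    have h3 := h2 r fun i => ⟨le_rfl, (hr i).2⟩
    have h4 : ((∏ i, m i : ℕ) : ℝ) ≤ ((d * (∏ i, r i + S) : ℕ) : ℝ) := by exact_mod_cast h3
    rw [Nat.cast_mul, Nat.cast_add, eR, eM, ← hxR] at h4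
    have hds' : (d : ℝ) ≤ s := by exact_mod_cast hds
    have hS0 : (0 : ℝ) ≤ S := Nat.cast_nonneg _
    have h5 : (x - δ) * ∏ i, (r i : ℝ) ≤ d * ∏ i, (r i : ℝ) := by
      have h6 : (d : ℝ) * S ≤ s * S := mul_le_mul_of_nonneg_right hds' hS0
      nlinarith
    exact Nat.ceil_le.2 (le_of_mul_le_mul_right h5 hR0)
  · intro heq
    have hle1 : ⌈x - δ⌉₊ ≤ ⌈x⌉₊ := Nat.ceil_le_ceil (by linarith)
    have hle2 : ⌈x⌉₊ ≤ s := Nat.ceil_le_ceil (by linarith)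
    have hxs : ⌈x⌉₊ = s := le_antisymm hle2 (heq ▸ hle1)
    have hBx : ⌈x⌉₊ ≤ boxNumber m r := by
      have h1 := spansT_bound (boxNumber_isLeast hr).1
      have h2 : ((∏ i, m i : ℕ) : ℝ) ≤ ((boxNumber m r * ∏ i, r i : ℕ) : ℝ) := by
        exact_mod_cast h1
      rw [Nat.cast_mul, eR, eM, ← hxR] at h2
      exact Nat.ceil_le.2 (le_of_mul_le_mul_right h2 hR0)
    have hBs : boxNumber m r = s := le_antisymm hB (hxs ▸ hBx)
    have hs0 : 0 < s := Nat.ceil_pos.2 (by positivity)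
    have hlt : ((s - 1 : ℕ) : ℝ) < x - δ := by
      refine Nat.lt_ceil.1 ?_
      rw [heq]
      omega
    have hkey : (boxNumber m r - 1) * (∏ i, r i + ∑ i, r i * (m i - r i)) < ∏ i, m i := by
      rw [hBs, ← hS]
      have h1 : (((s - 1) * (∏ i, r i + S) : ℕ) : ℝ) < ((∏ i, m i : ℕ) : ℝ) := by
        rw [Nat.cast_mul, Nat.cast_add, eR, eM, ← hxR]
        have hS0 : (0 : ℝ) ≤ S := Nat.cast_nonneg _
        have h2 : ((s - 1 : ℕ) : ℝ) ≤ s := by exact_mod_cast Nat.sub_le _ _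
        have h3 : ((s - 1 : ℕ) : ℝ) * S ≤ s * S := mul_le_mul_of_nonneg_right h2 hS0
        have h4 : ((s - 1 : ℕ) : ℝ) * ∏ i, (r i : ℝ) < (x - δ) * ∏ i, (r i : ℝ) :=
          mul_lt_mul_of_pos_right hlt hR0
        nlinarith
      exact_mod_cast h1
    rw [typical_dim hr (fun i => ⟨le_rfl, (hr i).2⟩) hkey, hBs, hxs]


/-- The product of the numbers `h` for `n = 3`. -/
theorem exists_h_three {m r : Fin 3 → ℕ} (hr : ∀ i, 1 ≤ r i ∧ r i ≤ m i)
    (hm : ∀ i, 3 * r i ≤ m i) : ∃ h : Fin 3 → ℕ,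
      (∀ i, (1 + 1 / 100) * (m i : ℝ) ^ 2 ≤ h i * r i * (m i - r i)) ∧
      ((∏ i ∈ Finset.univ.erase (0 : Fin 3), h i : ℕ) : ℝ) ≤
        (∏ i, (m i : ℝ)) / (∏ i, (r i : ℝ)) := by
  classical
  have hr0 : ∀ i, (0 : ℝ) < r i := fun i => by exact_mod_cast (hr i).1
  have key : ∀ P : ℝ, 3 ≤ P → ∃ h : ℕ, (1 + 1 / 100) * P ^ 2 ≤ h * (P - 1) ∧
      (h : ℝ) ≤ 173 / 100 * P := by
    intro P hP
    by_cases hP1 : P ≤ 355 / 100
    · refine ⟨5, ?_, ?_⟩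
      · push_cast
        nlinarith [mul_nonneg (sub_nonneg.2 hP) (sub_nonneg.2 hP1)]
      · push_cast
        linarith
    · push Not at hP1
      have hP2 : 0 < P - 1 := by linarith
      refine ⟨⌈(1 + 1 / 100) * P ^ 2 / (P - 1)⌉₊, ?_, ?_⟩
      · rw [← div_le_iff₀ hP2]
        exact Nat.le_ceil _
      · refine (Nat.ceil_lt_add_one (by positivity)).le.trans ?_
        rw [← le_sub_iff_add_le, div_le_iff₀ hP2]
        nlinarith
  have hP : ∀ i, (3 : ℝ) ≤ (m i : ℝ) / r i := by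
    intro i
    rw [le_div_iff₀ (hr0 i)]
    exact_mod_cast hm i
  choose h hh1 hh2 using fun i => key _ (hP i)
  refine ⟨h, fun i => ?_, ?_⟩
  · have h1 := hh1 i
    set P : ℝ := (m i : ℝ) / r i with hPdef
    have hPr : P * r i = m i := by
      rw [hPdef]
      exact div_mul_cancel₀ _ (hr0 i).ne'
    calc (1 + 1 / 100) * (m i : ℝ) ^ 2 = ((1 + 1 / 100) * P ^ 2) * (r i : ℝ) ^ 2 := by
          rw [← hPr]
          ring
      _ ≤ (h i * (P - 1)) * (r i : ℝ) ^ 2 := mul_le_mul_of_nonneg_right h1 (sq_nonneg _)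
      _ = h i * r i * (P * r i - r i) := by ring
      _ = _ := by rw [hPr]
  · push_cast
    calc ∏ i ∈ Finset.univ.erase (0 : Fin 3), (h i : ℝ) ≤
          ∏ i ∈ Finset.univ.erase (0 : Fin 3), (173 / 100 * ((m i : ℝ) / r i)) :=
          Finset.prod_le_prod (fun i _ => Nat.cast_nonneg _) fun i _ => hh2 i
      _ = (173 / 100) ^ 2 *
          ∏ i ∈ Finset.univ.erase (0 : Fin 3), ((m i : ℝ) / r i) := by
          rw [Finset.prod_mul_distrib, Finset.prod_const,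
            Finset.card_erase_of_mem (Finset.mem_univ _), Finset.card_univ, Fintype.card_fin]
      _ ≤ ((m 0 : ℝ) / r 0) *
          ∏ i ∈ Finset.univ.erase (0 : Fin 3), ((m i : ℝ) / r i) := by
          refine mul_le_mul_of_nonneg_right ?_ (Finset.prod_nonneg fun i _ => by positivity)
          have := hP 0
          norm_num
          linarith
      _ = ∏ i, ((m i : ℝ) / r i) :=
          Finset.mul_prod_erase Finset.univ (fun i => (m i : ℝ) / r i) (Finset.mem_univ _)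
      _ = _ := by rw [Finset.prod_div_distrib]

/-- The number condition in the region `5 r ≤ m` or `r ∣ m`. -/
theorem region_num {n : ℕ} {m r : Fin n → ℕ} (hr : ∀ i, 1 ≤ r i ∧ r i ≤ m i) (i₀ : Fin n)
    (h0 : 3 * r i₀ ≤ 2 * m i₀) (F : Finset (Fin n)) (hi₀ : i₀ ∉ F)
    (hF : ∀ i, i ∉ F → i ≠ i₀ → r i ∣ m i) :
    3 / 2 * (∏ i ∈ F, ((m i : ℝ) / r i)) *
        ((∏ i ∈ Finset.univ.erase i₀ \ F, m i / r i : ℕ) : ℝ) ≤
      (∏ i, (m i : ℝ)) / (∏ i, (r i : ℝ)) := by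
  classical
  have hr0 : ∀ i, (0 : ℝ) < r i := fun i => by exact_mod_cast (hr i).1
  have hsub : F ⊆ Finset.univ.erase i₀ := fun a ha =>
    Finset.mem_erase.2 ⟨fun h' => hi₀ (h' ▸ ha), Finset.mem_univ a⟩
  have h1 : ((∏ i ∈ Finset.univ.erase i₀ \ F, m i / r i : ℕ) : ℝ) =
      ∏ i ∈ Finset.univ.erase i₀ \ F, ((m i : ℝ) / r i) := by
    push_cast
    refine Finset.prod_congr rfl fun i hi => ?_
    have hi' := Finset.mem_sdiff.1 hi
    exact Nat.cast_div (hF i hi'.2 (Finset.ne_of_mem_erase hi'.1)) (hr0 i).ne'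
  have h2 : (3 / 2 : ℝ) ≤ (m i₀ : ℝ) / r i₀ := by
    rw [le_div_iff₀ (hr0 i₀)]
    have : (3 : ℝ) * r i₀ ≤ 2 * m i₀ := by exact_mod_cast h0
    linarith
  rw [h1, mul_assoc, mul_comm (∏ i ∈ F, ((m i : ℝ) / r i)), Finset.prod_sdiff hsub,
    ← Finset.prod_div_distrib,
    ← Finset.mul_prod_erase Finset.univ (fun i => (m i : ℝ) / r i) (Finset.mem_univ i₀)]
  exact mul_le_mul_of_nonneg_right h2 (Finset.prod_nonneg fun i _ => by positivity)

/-- **Typical ranks of large formats.** -/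
theorem typical_region (n : ℕ) (T δ : ℝ) (hδ : 0 < δ) : ∃ C : ℕ, ∀ m r : Fin n → ℕ,
    (∀ i, 1 ≤ r i ∧ r i ≤ m i ∧ C * (r i * (m i - r i)) ≤ ∏ j, r j) →
    ((n = 3 ∧ ∀ i, C ≤ r i ∧ 3 * r i ≤ m i) ∨ ∃ i₀, C ≤ r i₀ ∧ 3 * r i₀ ≤ 2 * m i₀ ∧
      ∀ i, i ≠ i₀ → r i ∣ m i ∨ C ≤ r i ∧ 5 * r i ≤ m i) →
    ∀ x : ℝ, x = (∏ i, (m i : ℝ)) / (∏ i, (r i : ℝ)) → x ≤ T →
      (∀ d, IsTypicalRank (SubVar m r) d → ⌈x - δ⌉₊ ≤ d ∧ d ≤ ⌈x + δ⌉₊) ∧
      (⌈x - δ⌉₊ = ⌈x + δ⌉₊ → {d : ℕ | IsTypicalRank (SubVar m r) d} = {⌈x⌉₊}) := by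
  classical
  have hmin0 : (0 : ℝ) < min δ (1 / 100) := lt_min hδ (by norm_num)
  have hmin1 : min δ (1 / 100) ≤ δ := min_le_left _ _
  have hmin2 : min δ (1 / 100) ≤ (1 / 100 : ℝ) := min_le_right _ _
  obtain ⟨C0, hC0⟩ := box_general n T (min δ (1 / 100)) hmin0
  obtain ⟨C1, hC1⟩ := typical_of_span n T (min δ (1 / 100)) hmin0
  refine ⟨max C0 C1, fun m r hyp hreg x hx hxT => ?_⟩
  have hr : ∀ i, 1 ≤ r i ∧ r i ≤ m i := fun i => ⟨(hyp i).1, (hyp i).2.1⟩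
  have hr0 : ∀ i, (0 : ℝ) < r i := fun i => by exact_mod_cast (hr i).1
  have hR0 : (0 : ℝ) < ∏ i, (r i : ℝ) := Finset.prod_pos fun i _ => hr0 i
  have hmT : (∏ i, (m i : ℝ)) ≤ T * ∏ i, (r i : ℝ) := by
    rw [hx, div_le_iff₀ hR0] at hxT
    exact hxT
  have hspan : SpansT m r ⌈x + min δ (1 / 100)⌉₊ := by
    rcases hreg with ⟨h3, hreg⟩ | ⟨i₀, hCi₀, h0, hreg⟩
    · subst h3
      obtain ⟨h, hh1, hh2⟩ := exists_h_three hr fun i => (hreg i).2
      refine hC0 m r h 0 ∅ hr hmT ((le_max_left _ _).trans (hreg 0).1)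
        (Finset.notMem_empty _) (fun i hi => absurd hi (Finset.notMem_empty i))
        (fun i _ _ => Or.inr ⟨(le_max_left _ _).trans (hreg i).1, ?_⟩) x hx (Or.inl ⟨rfl, ?_⟩)
      · refine le_trans ?_ (hh1 i)
        exact mul_le_mul_of_nonneg_right (by linarith) (sq_nonneg _)
      · rw [Finset.sdiff_empty]
        rw [← hx] at hh2
        have h2 : x ≤ (⌈x + min δ (1 / 100)⌉₊ : ℝ) := by
          have := Nat.le_ceil (x + min δ (1 / 100))
          linarith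
        exact_mod_cast hh2.trans h2
    · let F : Finset (Fin n) := Finset.univ.filter fun i => i ≠ i₀ ∧ ¬ r i ∣ m i
      have hi₀F : i₀ ∉ F := fun h => (Finset.mem_filter.1 h).2.1 rfl
      have hdvd : ∀ i, i ∉ F → i ≠ i₀ → r i ∣ m i := by
        intro i hi hne
        by_contra hcon
        exact hi (Finset.mem_filter.2 ⟨Finset.mem_univ i, hne, hcon⟩)
      refine hC0 m r (fun i => m i / r i) i₀ F hr hmT ((le_max_left _ _).trans hCi₀) hi₀F
        (fun i hi => ?_) (fun i hi hne => Or.inl (Nat.div_mul_cancel (hdvd i hi hne))) x hx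
        (Or.inr ?_)
      · have h1 := (Finset.mem_filter.1 hi).2
        have h2 := (hreg i h1.1).resolve_left h1.2
        exact ⟨(le_max_left _ _).trans h2.1, h2.2⟩
      · rw [hx]
        exact region_num hr i₀ h0 F hi₀F hdvd
  obtain ⟨hm1, hm2⟩ := hC1 m r hr x hx hxT hspan fun i =>
    (Nat.mul_le_mul_right _ (le_max_right C0 C1)).trans (hyp i).2.2
  have c1 : ⌈x - δ⌉₊ ≤ ⌈x - min δ (1 / 100)⌉₊ := Nat.ceil_le_ceil (by linarith)
  have c2 : ⌈x + min δ (1 / 100)⌉₊ ≤ ⌈x + δ⌉₊ := Nat.ceil_le_ceil (by linarith)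
  have c3 : ⌈x - min δ (1 / 100)⌉₊ ≤ ⌈x + min δ (1 / 100)⌉₊ := Nat.ceil_le_ceil (by linarith)
  exact ⟨fun d hd => ⟨c1.trans (hm1 d hd).1, (hm1 d hd).2.trans c2⟩,
    fun heq => hm2 (by omega)⟩

end Pool.Agent.SubTwo
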